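import Pool.Agent.Lib.MP_8cb858_nt.PF.RF.Defs

/-!
# Specs for: reciprocity for ternary forms over number fields (block REC_F)

Every Spec is a closed proposition; its doc string contains a complete proof.
Overview. `F` a number field, `n = [F : ℚ]`, `A` a symmetric 3 x 3 matrix over `F`, `GT A` the
matrix of the quadratic form `Tr_{F/ℚ}(x^T A x)`, `hT K A` its Hasse invariant over `K = ℚ_p, ℝ`.
(1) The product formula for Hilbert symbols over `ℚ` gives `∏_p hT ℚ_p A * hT ℝ A = 1`.
(2) `hT K A` only depends on `A` over the completions `F_w`, `w | p` (weak approximation and local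
constancy of the Hasse invariant).
(3) So after scaling `A` to determinant `-(square)` it is the same as for the split form `J3` at
every `p` below which `A` is isotropic everywhere; and at `p = ℓ` with exactly one anisotropic
place `v | ℓ` it is the one of `D3 a ℓ`, `a` near a nonresidue `u` at `v` and near `1` at the other
`w | ℓ`; the projection formula gives `hT ℚ_ℓ (D3 a ℓ) = hT ℚ_ℓ J3 * (ℓ, N a)_ℓ = - hT ℚ_ℓ J3`.
-/

namespace Pool.Agent.Lib.MP_8cb858_nt.PF.RF

open Matrix NumberField IsDedekindDomain Topology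

universe u

/-! ## Part 1. Hilbert symbols over the completions of the rationals -/

/-- **HBP.** The Hilbert symbol over `ℚ_p`, `p` odd, is bimultiplicative.
Proof. Use `PR/RecLoc.lean` (`IsoD`, `RecM.isoD_good`, `RecM.isoD_bad`, `RecM.sq_of_mod`) and
`PR/REC.lean` (`RecM.iso_sq`, `RecM.iso_mul`, `RecM.iso_red`): `Con K a b ↔ IsoD K a b (-1)`.
(a) Every `x ≠ 0` in `ℚ_p` is `x = p^i m s^2` with `i = 0` or `1`, `m` an integer not divisible by
`p`, `s ≠ 0`: `x = p^k w`, `w` a unit of `ℤ_p`; let `m` be an integer with `w = m mod p`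
(`PadicInt.zmodRepr` or `appr`); `w m' = 1 mod p` for an inverse `m'` of `m` mod `p`... in short
`w/m` has residue 1, so it is a square by Hensel; split off the even part of `p^k`.
(b) Let `c` be the Legendre symbol mod `p`. For `m, n` integers prime to `p`:
`hs(m, n) = 1` (isoD_good); `hs(p m, n) = c(n)` (isoD_bad with `a = pm, b = n, c = -1`);
`hs(m, p n) = c(m)`; `hs(p m, p n) = c(-m n)` (`IsoD (pm) (pn) (-1) ↔ IsoD m n (-p)`, iso_red, then
rotate and isoD_bad).
(c) Write `a = p^i m s^2`, `a' = p^j n t^2`, `b = p^k r q^2`; squares do not matter (hs_mul_sq), and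
`p^(i+j) m n` is `m n` times a square if `i = j = 1`. In all 8 cases the claim is the
multiplicativity of `c` (`c = 1` or `-1` on integers prime to `p`). -/
def SpecHBP : Prop := ∀ (p : ℕ) [Fact p.Prime], p ≠ 2 → Bi ℚ_[p]

/-- **HB2.** The Hilbert symbol over `ℚ_2` is bimultiplicative.
Proof. (a) Every `x ≠ 0` in `ℚ_2` is `x = 2^i m s^2`, `i = 0` or `1`, `m` an odd integer, `s ≠ 0`:
`x = 2^k w`, `w` a unit, `m` an integer with `w = m mod 8`, `w/m = 1 mod 8` is a square
(Hensel; or `RecM.hensel_sq`, `RecM.sq_of_mod8`).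
(b) By `RecM.isoD_two_odd`, `RecM.isoD_two_even` (and iso_red: `IsoD (2m) (2n) (-1) ↔
IsoD m n (-2)`), `hs(2^i m, 2^j n)` is `1` or `-1` according to a decidable table in `i, j` and the
residues of `m, n` mod 8: `(0,0)`: `odd8 m n (-1)`; `(1,0)`: `even8 (2m) n (-1)`; `(0,1)`:
`even8 (2n) m (-1)`; `(1,1)`: `even8 (-2) m n` (all orders are allowed, `IsoD` is symmetric).
(c) `a = 2^i m s^2`, `a' = 2^j n t^2`, `b = 2^k r q^2`: in all 8 cases of `i, j, k` (and
`2^2` is a square) the claim is an identity between tables of odd residues mod 8: `decide`. -/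
def SpecHB2 : Prop := Bi ℚ_[2]

/-- **HBR.** The Hilbert symbol over `ℝ` is bimultiplicative.
Proof. For `a, b ≠ 0`: `hs ℝ a b = -1` iff `a < 0` and `b < 0`. Check signs. -/
def SpecHBR : Prop := Bi ℝ

/-- **HSP.** The product formula over `ℚ`.
Proof. `Con K a b` iff the ternary form `diag(a, b, -1)` is isotropic. Apply `RecM.ternary` in
`PR/REC.lean` to the rational matrix `G = diag(a, b, -1)`: the set `S` of the primes `p` with
`hs ℚ_p a b = -1` is finite, and `#S + (0 if hs ℝ a b = 1 else 1)` is even. The finite product over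
the primes is `(-1)^#S`. -/
def SpecHSP : Prop :=
  ∀ a b : ℚ, a ≠ 0 → b ≠ 0 →
    (Function.mulSupport fun p : Nat.Primes => hs ℚ_[(p : ℕ)] (a : ℚ_[(p : ℕ)]) b).Finite ∧
    (∏ᶠ p : Nat.Primes, hs ℚ_[(p : ℕ)] (a : ℚ_[(p : ℕ)]) b) * hs ℝ (a : ℝ) b = 1

/-! ## Part 2. The Hasse invariant -/

/-- **DIA.** Diagonalization. Proof. Gram-Schmidt in characteristic not 2, for instance
`LinearMap.BilinForm.exists_orthogonal_basis` for the form `x, y ↦ x ⬝ᵥ G.mulVec y`; the `d i` are
not zero because `det(P^T G P) = det(P)^2 det(G)`. Or copy `RecM.exists_diag` in `PR/REC.lean`. -/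
def SpecDIA : Prop :=
  ∀ (K : Type) [Field K] [CharZero K] (ι : Type) [Fintype ι] [DecidableEq ι] (G : Matrix ι ι K),
    G.IsSymm → G.det ≠ 0 → ∃ d : ι → K, Diag G d

/-- **HLP.** Permutations, squares, concatenation.
Proof. (1) Induction on the permutation; for a transposition at the front the claim is
`hs a (b P) * hs b P = hs b (a P) * hs a P`, `P` the product of the rest: both sides are
`hs a b * hs a P * hs b P` (Bi, symmetry). (2) Induction on the list, Bi.
(3) Induction; the products differ by a nonzero square (hs_mul_sq, hs_mul_sq_right). -/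
def SpecHLP : Prop :=
  ∀ (K : Type) [Field K], Bi K →
    (∀ l m : List K, (∀ x ∈ l, x ≠ 0) → l.Perm m → hl K l = hl K m) ∧
    (∀ l m : List K, (∀ x ∈ l, x ≠ 0) → (∀ x ∈ m, x ≠ 0) →
      hl K (l ++ m) = hl K l * hl K m * hs K l.prod m.prod) ∧
    (∀ (ι : Type) [Fintype ι] (d s : ι → K), (∀ i, d i ≠ 0) → (∀ i, s i ≠ 0) →
      hf K (fun i => d i * s i ^ 2) = hf K d)

/-- **HAS.** Invariance of the Hasse invariant.
Proof. Work in `V = ι → K` with the symmetric bilinear form `B x y = x ⬝ᵥ G.mulVec y`,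
`q x = B x x`. A good list is a list `l` of vectors of `V`, pairwise `B`-orthogonal, with `q x ≠ 0`
for `x ∈ l`. Put `H l = hl K (l.map q)`, `D l = (l.map q).prod ≠ 0`. A good list is linearly
independent. Say `l ~ m` if both are good, `span l = span m`, `H l = H m` and `D l = D m * s^2`,
`s ≠ 0`. This is an equivalence relation; `l ~ m` if `l` is a permutation of `m` (HLP) and
`l ~ m` implies `l ++ k ~ m ++ k` if `l ++ k` is good (concatenation formula;
the elements of `k` are orthogonal to `span l = span m`).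
(a) `x :: l ~ (c x) :: l` for `c ≠ 0` (`q (c x) = c^2 q x`).
(b) Binary move: `x :: y :: l ~ (x + y) :: (q y x - q x y) :: l` if `q(x+y) = q x + q y ≠ 0`:
orthogonal: `B (x+y) (q y x - q x y) = q y q x - q x q y = 0`; `q (q y x - q x y) =
q x q y (q x + q y)`; the span is the same (determinant `-(q x + q y)` of the change of basis).
With `a = q x, b = q y, c = a + b`: `D`: `c * (a b c) = a b c^2`. `H`: it is enough that
`hs a b = hs c (a b c)`: `hs c (abc) = hs c (ab) hs c c = hs c (-ab)` (`hs c c = hs c (-1)` by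
`hs c (-c) = 1`), and `hs (a+b) (-ab) = hs a b`: `1 = hs (a/c) (b/c)` (as `a/c + b/c = 1`)
`= hs (ac) (bc) = hs a b * hs a c * hs c b * hs c c = hs a b * hs c (ab) * hs c (-1)`.
(c) REP. If `l` is good, `v ∈ span l`, `q v ≠ 0`, then `l ~ v :: l'` for some `l'`. Write `v` as a
linear combination of `l`; by (a) and permutation `l ~ A ++ R` where `v` is the sum of the list `A`,
`A ≠ []`. Induction on the length of `A`. Length 1: done. Otherwise after a permutation of `A` the
first two elements `x, y` satisfy `q x + q y ≠ 0`: if `q x + q y = 0` then `A` has a third element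
`z` (else `q v = 0`), and if `q x + q z = 0` also, then `q y = q z`, `q y + q z = 2 q y ≠ 0`. By (b)
`A ++ R ~ (x + y) :: A' ++ ((q y x - q x y) :: R)`, with `A = x :: y :: A'`.
(d) If `l, m` are good with `span l = span m` then `l ~ m`: induction on the length of `m`.
`m = []`: `span l = 0`, so `l = []` (elements of a good list are nonzero). `m = v :: m'`: by (c)
`l ~ v :: l'`; `span l' = {x ∈ span m : B v x = 0} = span m'` (for `x = c v + y`,
`B v x = c q v`), so `l' ~ m'` by induction and `v :: l' ~ v :: m'`.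
(e) If `Diag G d` with `P`: the columns of `P` (in the order of `Finset.univ.toList`) are a good
list with span `⊤` and `q (column i) = d i`. So `hf K d = hf K d'`, and `hM K G = hf K d`
(`Exists.choose_spec`). -/
def SpecHAS : Prop :=
  ∀ (K : Type) [Field K] [CharZero K], Bi K → ∀ (ι : Type) [Fintype ι] [DecidableEq ι]
    (G : Matrix ι ι K) (d : ι → K), Diag G d → hM K G = hf K d

/-- **PER.** The Hasse invariant is locally constant.
Proof. First for `ι = Fin n` and `G1 = diagonal d`, by induction on `n`: for `G` symmetric near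
`diagonal d` there is `d'` with `Diag G d'` and `d' i = d i * (s i)^2`, `s i ≠ 0`. `n = 0`: clear.
`n + 1`: `g = G 0 0` is near `d 0`, so `g ≠ 0` and `g / d 0` is near `1`, a nonzero square. The
Schur complement `G' i j = G i.succ j.succ - G i.succ 0 * G 0 j.succ / g` is symmetric and depends
continuously on `G`, with value `diagonal (d ∘ succ)` at `diagonal d`. Let `P'` diagonalize `G'`
with result `d''`. Then the matrix `P` with columns `e_0` and, for `j`, the column
`(- ∑_k G 0 k.succ * P' k j / g, P' . j)` satisfies `P^T G P = diag(g, d'')`, `det P = det P'`.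
General `ι`: reindex by `Fintype.equivFin`. General `G1` with `P1^T G1 P1 = diagonal d`: the map
`G ↦ P1^T G P1` is continuous and `Diag (P1^T G P1) d'` implies `Diag G d'`.
Finally `hM K G = hf K d' = hf K d = hM K G1` (HAS, HLP (3)). -/
def SpecPER : Prop :=
  ∀ (K : Type) [Field K] [CharZero K] [TopologicalSpace K] [IsTopologicalDivisionRing K]
    [T2Space K], Bi K → (∀ᶠ x in 𝓝 (1 : K), IsSquare x) →
    ∀ (ι : Type) [Fintype ι] [DecidableEq ι] (G1 : Matrix ι ι K), G1.IsSymm → G1.det ≠ 0 →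
    ∀ᶠ G in 𝓝 G1, G.IsSymm → G.det ≠ 0 ∧ hM K G = hM K G1

/-- **SQN.** Squares near 1. Proof. `ℝ`: positive numbers are squares. `ℚ_p`: if
`|x - 1| < |4| = |2|^2` then `x` is a square by Hensel (`hensels_lemma` for `X^2 - x` at `1`;
compare `RecM.hensel_sq`). -/
def SpecSQN : Prop :=
  (∀ (p : ℕ) [Fact p.Prime], ∀ᶠ x in 𝓝 (1 : ℚ_[p]), IsSquare x) ∧ ∀ᶠ x in 𝓝 (1 : ℝ), IsSquare x

/-! ## Part 3. The trace form -/

/-- **TRC.** Algebra of the trace form.
Proof. Let `β = Module.finBasis ℚ F`, `T s t = Tr(β s β t)` (`det T ≠ 0`, nondegeneracy of the trace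
form: `Algebra.traceForm`, `det_traceMatrix_ne_zero`), `L = Algebra.leftMulMatrix β : F → Mat_n(ℚ)`
(a ring homomorphism, `c β t = ∑_s (L c) s t β s`). For `M` over `F` let `R M` be the rational
matrix `R M (i,s) (j,t) = L (M i j) s t`; `R` is multiplicative and `R 1 = 1`, so `R M` is
invertible if `M` is. Let `S (i,s) (j,t) = if i = j then T s t else 0`, `det S = (det T)^3 ≠ 0`
(or: `S` is invertible with inverse built from `T⁻¹`). Then
`GT A = S * R A` (`Tr(β s (A i j β t)) = ∑_r T s r L(A i j) r t`) and `(R M)^T S = S R(M^T)`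
(both have the entry `Tr(M j i β s β t)` at `(i,s),(j,t)`). So
`GT (P^T A P) = S R(P^T) R(A) R(P) = R(P)^T GT A R(P)` and `det (GT A) ≠ 0`. Symmetry is clear. -/
def SpecTRC : Prop :=
  ∀ (F : Type u) [Field F] [NumberField F] (A : Matrix (Fin 3) (Fin 3) F),
    (A.IsSymm → (GT A).IsSymm) ∧ (A.det ≠ 0 → (GT A).det ≠ 0) ∧
    ∀ P : Matrix (Fin 3) (Fin 3) F,
      ∃ R : Matrix (Fin 3 × Fin (Module.finrank ℚ F)) (Fin 3 × Fin (Module.finrank ℚ F)) ℚ,
        (P.det ≠ 0 → R.det ≠ 0) ∧ GT (Pᵀ * A * P) = Rᵀ * GT A * R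

/-- **GLP.** The product formula for the trace form, and invariance under `F`-congruence.
Proof. (1) By TRC and DIA (`K = ℚ`) `Diag (GT A) d` over `ℚ`, so (map `P` and `d`)
`Diag ((GT A).map cast) (cast d)` over every `K` of characteristic 0 and `hT K A =
hl K (l.map cast)` with `l = univ.toList.map d` by HAS, for `K = ℚ_p` and `K = ℝ` (HBP, HB2, HBR).
By induction on the list `l` of nonzero rationals: the function `p ↦ hl ℚ_p (l.map cast)` has finite
support and `(∏ᶠ p, hl ℚ_p (l.map cast)) * hl ℝ (l.map cast) = 1` (HSP and `finprod_mul_distrib`).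
(2) If `R^T G R = G'` with `det R ≠ 0` then `Diag G' d` iff `Diag G d` (replace `P` by `R P`,
`R⁻¹ P`), so `hM K G' = hM K G` (the conditions `Diag G` and `Diag G'` are the same function of
`d`). Apply it to the matrix `R` of TRC mapped to `K`. -/
def SpecGLP : Prop :=
  ∀ (F : Type u) [Field F] [NumberField F] (A : Matrix (Fin 3) (Fin 3) F),
    (A.IsSymm → A.det ≠ 0 →
      (Function.mulSupport fun p : Nat.Primes => hT ℚ_[(p : ℕ)] A).Finite ∧
      (∏ᶠ p : Nat.Primes, hT ℚ_[(p : ℕ)] A) * hT ℝ A = 1 ∧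
      ∀ (K : Type) [Field K] [CharZero K], Bi K → hT K A = 1 ∨ hT K A = -1) ∧
    ∀ (K : Type) [Field K] [CharZero K] (B : Matrix (Fin 3) (Fin 3) F), Cg A B → hT K A = hT K B

/-- **PRJ.** The projection formula.
Proof. Notation of TRC; for `x` in `F` let `T x s t = Tr(β s (x β t))`, symmetric, `T x = T * L x`,
`det (T x) = N(x) det T ≠ 0`, `T (c x) = c (T x)` for `c` in `ℚ`. `GT (diagonal ![x, y, z])` is block
diagonal with the blocks `T x, T y, T z`. Let `P'^T (T x) P' = diagonal d'`,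
`P^T (T 1) P = diagonal d` over `ℚ` (DIA, `K = ℚ`). So `GT (D3 x b)` is congruent over `ℚ` to
`diagonal e`, `e (0, s) = d' s`, `e (1, s) = b d s`, `e (2, s) = -(b d' s)` (block diagonal matrix
with the blocks `P', P, P'`). Up to order this is the list `X' ++ Y` with `X'` = the concatenation
of the pairs `d' s, -(b d' s)` and `Y = (b d s)_s`. By HAS and HLP over `K`
`hT K (D3 x b) = hl X' * hl Y * hs (prod X') (prod Y)`, and
`hl X' = hs (∏ d' s) b * κ` with `κ = κ(n, b)` not depending on `d'`: induction; for one more pair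
`hl (d :: -(b d) :: X') = hs d (-(bd)) * hs (d * -(bd)) (prod X') * hl X'`, `hs d (-(bd)) = hs d b`
(`hs d (-d) = 1`), `d * -(bd) = -b * d^2`, `prod X' = (-b)^m * square`, so the factor
`hs (-b) ((-b)^m)` does not depend on `d`. Also `hs (prod X') (prod Y) = hs ((-b)^n) (prod Y)`.
The same for `x = 1` (with `d` instead of `d'`): so
`hT K (D3 x b) = hT K (D3 1 b) * hs (∏ d') b * hs (∏ d) b`. `∏ d' = det(P')^2 N(x) det T`,
`∏ d = det(P)^2 det T`: the last two factors give `hs (N x) b`. Finally `D3 1 b` is congruent over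
`F` to `J3` (columns `e_1`, `e_0 + (b/2) e_2`, `e_0 - (b/2) e_2`), GLP (2). -/
def SpecPRJ : Prop :=
  ∀ (F : Type u) [Field F] [NumberField F] (K : Type) [Field K] [CharZero K], Bi K →
    ∀ (x : F) (b : ℚ), x ≠ 0 → b ≠ 0 →
    hT K (D3 x (b : F)) = hT K (J3 F) * hs K (b : K) ((Algebra.norm ℚ x : ℚ) : K)

/-! ## Part 4. Dependence on the completions -/

/-- **LOG.** The general approximation argument.
Proof. Let `G1 = (GT A1).map cast`, symmetric of nonzero determinant (TRC). By PER (and HAS) there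
is a neighbourhood of `G1` on which symmetric matrices have the same `hM`. The entries of
`GT (A1 + E) - GT A1` are `Tr(β s E i j β t) = Tr(c * E i j)` with `c = β s β t`: by the hypothesis
on the trace there are neighbourhoods `V w` of `0` such that `hM K ((GT (A1 + E)).map cast) =
hM K G1` for all symmetric `E` with `φ_w (E i j) ∈ V w` for all `w, i, j`. Let `P_w^T A P_w = A1`
over `L w`. The map `X ↦ X^T A X - A1` on `Mat_3(L w)` is continuous and vanishes at `P_w`. By
density (applied to the `9` entries: the map `x ↦ (φ_w x)_w` has dense range in `∏ L w`, choose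
every entry of `X` near `(P_w i j)_w`) there is `X` in `Mat_3(F)` with
`φ_w((X^T A X - A1) i j) ∈ V w`. Put `E = X^T A X - A1`. By TRC `GT (X^T A X) = R^T GT A R`;
its determinant is not `0` by PER, so `det R ≠ 0` and `hM` of it is `hM` of `GT A` (as in
GLP (2)). -/
def SpecLOG : Prop :=
  ∀ (F : Type u) [Field F] [NumberField F] (K : Type) [Field K] [CharZero K] [TopologicalSpace K]
    [IsTopologicalDivisionRing K] [T2Space K], Bi K → (∀ᶠ x in 𝓝 (1 : K), IsSquare x) →
    ∀ (W : Type u) [Finite W] (L : W → Type u) [∀ w, Field (L w)] [∀ w, TopologicalSpace (L w)]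
      [∀ w, IsTopologicalRing (L w)] (φ : ∀ w, F →+* L w),
    DenseRange (fun (x : F) (w : W) => φ w x) →
    (∀ c : F, ∀ U ∈ 𝓝 (0 : K), ∃ V : ∀ w, Set (L w), (∀ w, V w ∈ 𝓝 (0 : L w)) ∧
      ∀ x : F, (∀ w, φ w x ∈ V w) → ((Algebra.trace ℚ F (c * x) : ℚ) : K) ∈ U) →
    ∀ A A1 : Matrix (Fin 3) (Fin 3) F, A.IsSymm → A1.IsSymm → A.det ≠ 0 → A1.det ≠ 0 →
    (∀ w, Cg (A.map (φ w)) (A1.map (φ w))) → hT K A = hT K A1

/-- **DNF.** Weak approximation for finitely many finite places.
Proof. `AbsoluteValue.denseRange_algebraMap_pi` for the `NumberField.HeightOneSpectrum.adicAbv`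
(nontrivial; inequivalent for `w ≠ w'`: an integer `x` in `w`, not in `w'` has
`adicAbv w x < 1 = adicAbv w' x`), and `F` (with the topology of `w`) is dense in
`w.adicCompletion F` (`HeightOneSpectrum.denseRange_algebraMap`, the norm is
`NumberField.FinitePlace.norm_embedding`): given `z_w` in the completions and `ε`, choose `y_w` in
`F` with `‖z_w - y_w‖ < ε/2` and `x` in `F` with `adicAbv w (x - y_w) < ε/2` for all `w`. Or by the
Chinese remainder theorem. -/
def SpecDNF : Prop :=
  ∀ (F : Type u) [Field F] [NumberField F] (W : Set (HeightOneSpectrum (𝓞 F))), W.Finite →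
    DenseRange (fun (x : F) (w : W) => algebraMap F (w.1.adicCompletion F) x)

/-- **TRF.** The trace is continuous at a prime.
Proof. (a) If `x` in `F` satisfies `w(x) ≤ w(p^m)` (multiplicative valuations) for all `w` over `p`
then `|Tr x|_p ≤ p^(-m)`: let `d ≠ 0` be an integer with `d x` integral
(`exists_integral_multiple` or `IsIntegral.exists_multiple_integral_of_isLocalization`),
`d = p^e d'` with `p ∤ d'`. `z = d x` is integral and `z/p^(m+e) = d' x/p^m` is integral at all `w`
over `p` and at all other `w` (`p` is a unit there), so in `O_F`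
(`HeightOneSpectrum.mem_integers_of_valuation_le_one`). Hence `d' x = p^m z'`, `z'` in `O_F`,
`Tr x = p^m Tr(z')/d'` and `Tr z'` is an integer (`Algebra.isIntegral_trace`), `|d'|_p = 1`.
(b) Given `c`, let `d ≠ 0` be an integer with `d c` integral, `d = p^e d'`: `w(c) ≤ w(p^(-e))` for
`w` over `p`. So `m = N + e` works. -/
def SpecTRF : Prop :=
  ∀ (F : Type u) [Field F] [NumberField F] (p : ℕ) [Fact p.Prime] (c : F) (N : ℕ),
    ∃ m : ℕ, ∀ x : F,
      (∀ w : HeightOneSpectrum (𝓞 F), (p : 𝓞 F) ∈ w.asIdeal →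
        w.valuation F x ≤ w.valuation F ((p : F) ^ m)) →
      ‖((Algebra.trace ℚ F (c * x) : ℚ) : ℚ_[p])‖ ≤ (p : ℝ) ^ (-(N : ℤ))

/-- **TRI.** The trace is continuous at infinity.
Proof. `Tr x = ∑ over the embeddings σ : F → ℂ of σ x` (`Algebra.trace_eq_sum_embeddings`) and
`|σ x| = w x` for the infinite place `w` of `σ`. So `|Tr (c x)| ≤ n * max_w (w c) * max_w (w x)`. -/
def SpecTRI : Prop :=
  ∀ (F : Type u) [Field F] [NumberField F] (c : F) (ε : ℝ), 0 < ε →
    ∃ δ : ℝ, 0 < δ ∧ ∀ x : F, (∀ w : InfinitePlace F, w x < δ) →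
      |((Algebra.trace ℚ F (c * x) : ℚ) : ℝ)| < ε

/-- **LOC.** The Hasse invariant of the trace form only depends on the completions.
Proof. LOG. Finite `p`: `K = ℚ_p` (HBP, HB2, SQN), `W` = the set of the finite places over `p`
(finite), `L w = w.adicCompletion F`, DNF, and TRF: given `U`, choose `N` with
`{y : ‖y‖ ≤ p^(-N)} ⊆ U`, then `m`, and `V w = {y : Valued.v y ≤ w(p^m)}`, a neighbourhood of
`0`; `Valued.v (algebraMap x) = w.valuation F x`. Infinite: `K = ℝ` (HBR, SQN), `W` = the infinite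
places, `L w = w.Completion`, density: `NumberField.InfiniteAdeleRing.denseRange_algebraMap`,
TRI, `V w` = the ball of radius `δ`, norm of the image of `x` is `w x`. -/
def SpecLOC : Prop :=
  ∀ (F : Type u) [Field F] [NumberField F] (A A1 : Matrix (Fin 3) (Fin 3) F),
    A.IsSymm → A1.IsSymm → A.det ≠ 0 → A1.det ≠ 0 →
    (∀ (p : ℕ) [Fact p.Prime],
      (∀ w : HeightOneSpectrum (𝓞 F), (p : 𝓞 F) ∈ w.asIdeal →
        Cg (A.map (algebraMap F (w.adicCompletion F)))
          (A1.map (algebraMap F (w.adicCompletion F)))) →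
      hT ℚ_[p] A = hT ℚ_[p] A1) ∧
    ((∀ w : InfinitePlace F, Cg (A.map (algebraMap F w.Completion))
        (A1.map (algebraMap F w.Completion))) → hT ℝ A = hT ℝ A1)

/-! ## Part 5. Ternary forms of determinant minus a square -/

/-- **ISO.** An isotropic ternary form of determinant `-s^2` is congruent to `J3`.
Proof. `B` the bilinear form, `q x = B x x`. Let `q x = 0`, `x ≠ 0`; there is `y` with `B x y = 1`
(nondegenerate); replace `y` by `y - (q y/2) x`: `q y = 0`. Choose `z ≠ 0` orthogonal to `x`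
and `y` (two linear equations in `K^3`); `x, z, y` are linearly independent (if
`a x + b y + c z = 0`, pairing with `y`, `x` gives `a = b = 0`), so with `P` the matrix with columns
`x, z, y`: `P^T A P = [[0,0,1],[0,t,0],[1,0,0]]`, `t = q z`, determinant `- t = - s^2 det(P)^2`. So
`t = r^2`, `r = s det P ≠ 0`; replace `z` by `z/r`.
The last claims: `D3 a b` has determinant `-(ab)^2`; if `a = r^2` then `(r, 0, 1)`... in fact
`x = (0, r, 1)` satisfies `b r^2 - a b = 0`. -/
def SpecISO : Prop :=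
  ∀ (K : Type u) [Field K] [CharZero K],
    (∀ (A : Matrix (Fin 3) (Fin 3) K) (s : K), A.IsSymm → s ≠ 0 → A.det = -s ^ 2 → IsoM A →
      Cg A (J3 K)) ∧
    (∀ a b : K, (D3 a b).IsSymm ∧ (D3 a b).det = -(a * b) ^ 2 ∧ (IsSquare a → IsoM (D3 a b))) ∧
    (J3 K).IsSymm ∧ (J3 K).det = -1 ^ 2 ∧ IsoM (J3 K) ∧
    (∀ (A : Matrix (Fin 3) (Fin 3) K) (c : K), c ≠ 0 → (IsoM (c • A) ↔ IsoM A))

/-- **SQV.** Square classes of the completion at an odd place of degree one.
Proof. `K = F_v`, `val = Valued.v`. By `SEL.BIGM.sq_of_near` (in `SEL/BIG.lean`): if `val 4 = 1` and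
`val (x - 1) < 1` then `x` is a square. (1) `2` is not in `v` (otherwise `ℓ - 1`... : `ℓ` is odd and
in `v`, so `1` would be in `v`), so `val 4 = 1`; `a - 1 ∈ v` gives `val (a - 1) < 1`. This works for
every `w` not dividing 2. (2) `ℓ` is in `v` and not in `v^2`: `val ℓ = exp(-1)`; so for `x ≠ 0` there
is an integer `k` with `val (ℓ^k x) = 1`. Let `y` be a unit (`val y = 1`). The residue field
`O_F/v` has `ℓ` elements, so there is an integer `m` with `val (y - m) < 1`, `ℓ ∤ m` (approximate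
`y` by an element of `F`, integral at `v`, or use density of `O_F`, then `O_F/v = ℤ/ℓ` because
`absNorm v = ℓ`). If `m` is a square mod `ℓ`, `m = r^2`, then `y/r^2` is near `1`, a square. If not,
`m u` is a square mod `ℓ`, so `m = u r^2 mod ℓ` and `y/(u r^2)` is near 1, a square.
(3) `-1` is a square mod `ℓ` (`ℓ = 1 mod 4`), (2)'s argument. -/
def SpecSQV : Prop :=
  ∀ (F : Type u) [Field F] [NumberField F] (v : HeightOneSpectrum (𝓞 F)) (ℓ : ℕ) (u : ℤ),
    ℓ.Prime → ℓ % 4 = 1 → Ideal.absNorm v.asIdeal = ℓ → (ℓ : 𝓞 F) ∉ v.asIdeal ^ 2 →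
    (∀ m : ℤ, ¬ (ℓ : ℤ) ∣ m ^ 2 - u) →
    (∀ w : HeightOneSpectrum (𝓞 F), (ℓ : 𝓞 F) ∈ w.asIdeal → ∀ a b : 𝓞 F, a - b ∈ w.asIdeal →
      b ∉ w.asIdeal → ∃ r : w.adicCompletion F, r ≠ 0 ∧
        algebraMap F (w.adicCompletion F) (a : F) =
          algebraMap F (w.adicCompletion F) (b : F) * r ^ 2) ∧
    (∀ x : v.adicCompletion F, x ≠ 0 → ∃ r : v.adicCompletion F, r ≠ 0 ∧
      (x = r ^ 2 ∨ x = (u : v.adicCompletion F) * r ^ 2 ∨ x = (ℓ : v.adicCompletion F) * r ^ 2 ∨
        x = (u * ℓ : v.adicCompletion F) * r ^ 2)) ∧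
    IsSquare (-1 : v.adicCompletion F)

/-- **ANI.** The anisotropic form. `K` is any field of characteristic 0 with the square classes
`1, u, ℓ, uℓ` in which `-1` is a square.
Proof. Diagonalize (`RecM.exists_diag` is over `ℚ`; use the same proof or
`LinearMap.BilinForm.exists_orthogonal_basis`): `A` is congruent to `diag(d_0,d_1,d_2)`, and after
scaling the basis vectors every `d_i` is in `{1, u, l, ul}`. `-1 = i^2`. If `d_i = d_j` for
`i ≠ j` then `e_i + i e_j` is isotropic; so the `d_i` are distinct. `d_0d_1d_2 = det A det(P)^2 = -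
(s det P)^2` is a square. If `1` is among the `d_i` then the product of the two others is a square,
and they are `a ≠ b` in `{u, l, ul}`; then `e_a + r e_b` is isotropic for a suitable `r`
(`a + r^2 b = 0` iff `-a/b = -(ab)/b^2` is `r^2`, and `-ab` is a square). So
`{d_i} = {u, l, ul}` in some order; permute; and `ul = -(ul)(i)^2`... replace the third vector by
`i` times it: `diag(u, l, -ul)`. Finally if `a = u r^2`, `r ≠ 0`: scaling the first
vector by `r` and the third by `r`: `diag(a, l, - a l)`. -/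
def SpecANI : Prop :=
  ∀ (K : Type u) [Field K] [CharZero K] (u l a r s : K), u ≠ 0 → l ≠ 0 → r ≠ 0 → s ≠ 0 →
    (∀ x : K, x ≠ 0 → ∃ r : K, r ≠ 0 ∧
      (x = r ^ 2 ∨ x = u * r ^ 2 ∨ x = l * r ^ 2 ∨ x = (u * l) * r ^ 2)) →
    IsSquare (-1 : K) → a = u * r ^ 2 →
    ∀ A : Matrix (Fin 3) (Fin 3) K, A.IsSymm → A.det = -s ^ 2 → ¬ IsoM A → Cg A (D3 a l)

/-- **NRM.** An integer with prescribed residues and norm.
Proof. Write `(ℓ) = v J` (`ℓ ∈ v`, as `absNorm v ∈ v`), `J` not contained in `v` (otherwise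
`ℓ ∈ v^2`), so `v + J = 1`: there is `e ∈ J` with `e - 1 ∈ v`. Put `a = 1 + (u - 1) e`. Then
`a - u = (u - 1)(e - 1)` is in `v`; for `w` over `ℓ`, `w ≠ v`: `w ⊇ (ℓ) = v J` so `w ⊇ J`
(`w` prime, does not contain `v`), `a - 1 ∈ J ⊆ w`. Norm: `O_F/v` has `ℓ` elements, hence
every `x` in `O_F` has an integer `k(x)` with `x - k(x) ∈ v`, and `e x - k(x) e = e (x - k(x))` is
in `J v = (ℓ)`. For a basis `b_j` of `O_F` over `ℤ` and `e = ∑ c_i b_i`, the matrix `E` of the
multiplication by `e` satisfies `E i j = c_i k(b_j) mod ℓ`. So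
`N(a) = det(1 + (u-1) E) = 1 + (u-1) ∑ c_j k(b_j) mod ℓ`
(`Matrix.det_one_add_replicateCol_mul_replicateRow` over `ZMod ℓ`), and `∑ c_j k(b_j) = k(e) = 1`
mod `ℓ` (it is the class of `∑ c_j b_j = e` in `O_F/v`; an integer in `v` is divisible by `ℓ`).
Second claim: for `N` with `N = u mod ℓ`, `u` a nonresidue: the conic `ℓ x^2 + N y^2 = z^2`
has no point over `ℚ_ℓ` by `RecM.isoD_bad` (`a = ℓ, b = N, c = -1`). -/
def SpecNRM : Prop :=
  (∀ (F : Type u) [Field F] [NumberField F] (v : HeightOneSpectrum (𝓞 F)) (ℓ : ℕ) (u : ℤ),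
    ℓ.Prime → Ideal.absNorm v.asIdeal = ℓ → (ℓ : 𝓞 F) ∉ v.asIdeal ^ 2 →
    ∃ a : 𝓞 F, a - (u : 𝓞 F) ∈ v.asIdeal ∧
      (∀ w : HeightOneSpectrum (𝓞 F), (ℓ : 𝓞 F) ∈ w.asIdeal → w ≠ v → a - 1 ∈ w.asIdeal) ∧
      ∃ N : ℤ, Algebra.norm ℚ (a : F) = N ∧ (ℓ : ℤ) ∣ N - u) ∧
  (∀ (ℓ : ℕ) [Fact ℓ.Prime] (u N : ℤ), ℓ ≠ 2 → (∀ m : ℤ, ¬ (ℓ : ℤ) ∣ m ^ 2 - u) →
    (ℓ : ℤ) ∣ N - u → hs ℚ_[ℓ] (((ℓ : ℚ) : ℚ_[ℓ])) (((N : ℚ) : ℚ_[ℓ])) = -1)

/-! ## Part 6. The theorem -/

/-- **RECF.** Reciprocity: if `A` is isotropic at all places outside `Q`, and `Q` consists of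
places `v` of degree one, unramified, over different primes `ℓ_v = 1 mod 4`, then `A` is anisotropic
at an even number of places.
Proof. Replace `A` by `c A`, `c = - det A` (IsoM does not change, ISO):
`det (cA) = c^3 det A = -(c^2)^2`. So `A` is symmetric, `det A = - s^2`, `s ≠ 0`. Compare
`hT K A` and `hT K (J3 F)`. `K = ℝ`: equal by LOC and ISO. `K = ℚ_p`: if `A` is isotropic at all
`w` over `p`: equal by LOC and ISO. Otherwise there is `v ∈ Q` over `p` with `A` anisotropic at
`v`, `p = ℓ_v` (`ℓ_v` and `p` in `v`), and all `w` over `p`, `w ≠ v`, are not in `Q`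
(`w ∈ Q` gives `ℓ_w = p = ℓ_v`, `w = v`), so `A` is isotropic at these. Let `u` be an integer which
is not a square mod `p`, `a` from NRM, `A1 = D3 a p` (`a ≠ 0`: `u` is not in `v`, since `p ∤ u`:
`m = 0`). At `v`: `Cg A A1` by SQV and ANI. At `w ≠ v` over `p`: `a` is a square in
`F_w` by SQV (`b = 1`), so `A1` is isotropic with determinant `-(ap)^2`, so `Cg A1 J3`,
`Cg A J3` (ISO). By LOC, PRJ and NRM
`hT ℚ_p A = hT ℚ_p A1 = hT ℚ_p J3 * hs (p) (N a) = - hT ℚ_p J3`. (Bi: HBP, HB2, HBR.)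
So with `S` the finite set of the primes `ℓ_v`, `v ∈ Q` anisotropic, GLP for `A` and `J3 F` gives
`1 = ∏ᶠ_p (hT ℚ_p A * hT ℚ_p J3) * (hT ℝ A * hT ℝ J3) = (-1)^#S`. -/
def SpecRECF : Prop :=
  ∀ (F : Type u) [Field F] [NumberField F] (A : Matrix (Fin 3) (Fin 3) F)
    (Q : Set (HeightOneSpectrum (𝓞 F))) (ℓ : HeightOneSpectrum (𝓞 F) → ℕ),
    A.IsSymm → A.det ≠ 0 → Q.Finite →
    (∀ v ∈ Q, (ℓ v).Prime ∧ ℓ v % 4 = 1 ∧ Ideal.absNorm v.asIdeal = ℓ v ∧
      ((ℓ v : ℕ) : 𝓞 F) ∉ v.asIdeal ^ 2) →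
    (∀ v ∈ Q, ∀ w ∈ Q, ℓ v = ℓ w → v = w) →
    (∀ v ∉ Q, IsoM (A.map (algebraMap F (v.adicCompletion F)))) →
    (∀ v : InfinitePlace F, IsoM (A.map (algebraMap F v.Completion))) →
    Even {v : HeightOneSpectrum (𝓞 F) |
      ¬ IsoM (A.map (algebraMap F (v.adicCompletion F)))}.ncard

end Pool.Agent.Lib.MP_8cb858_nt.PF.RF
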