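import Pool.Agent.Lib.MP_8cb858_nt.SEL.Spec
import Pool.Agent.Lib.MP_8cb858_nt.PF.SpecD
import Pool.Agent.Lib.MP_8cb858_nt.PF.SpecA
import Pool.Agent.Lib.MP_8cb858_nt.PF.RF.Spec

section
/-!
# BIG: a local point which is not killed by 4

The point is chosen near the origin: if `val x` is large, then doubling does not make it smaller.
-/
namespace Pool.Agent.Lib.MP_8cb858_nt.SEL.BIGM

open NumberField IsDedekindDomain Filter
open scoped Classical Topology

universe u

section conv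

variable {K : Type u} {G : Type} [Field K] [LinearOrderedCommGroupWithZero G] [MulArchimedean G]
  [Valued K G]

theorem tendsto_of_le_pow {d : ℕ → K} {g : G} (hg : g < 1)
    (h : ∀ n, (Valued.v (d n) : G) ≤ g ^ n) : Tendsto d atTop (𝓝 0) := by
  simp only [(Valued.hasBasis_nhds_zero _ _).tendsto_right_iff, Set.mem_ofPred_eq,
    eventually_atTop, forall_const]
  intro y
  let v : Valuation K G := Valued.v
  obtain ⟨n, hn⟩ := exists_pow_lt₀ hg
    (Units.map (MonoidWithZeroHom.ValueGroup₀.embedding (f := (.ofClass v))) y)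
  refine ⟨n, fun m hm ↦ ?_⟩
  rw [Valuation.restrict_lt_iff_lt_embedding]
  refine lt_of_le_of_lt (h m) (hn.trans_le' ?_)
  exact pow_le_pow_right_of_le_one' hg.le hm

/-- the iteration solving `z ^ 2 + z = w` -/
def it (w : K) : ℕ → K
  | 0 => 0
  | n + 1 => w - it w n ^ 2

omit [MulArchimedean G] in
theorem it_le {w : K} (hw : (Valued.v w : G) < 1) (n : ℕ) : (Valued.v (it w n) : G) ≤ Valued.v w := by
  induction n with
  | zero =>
    show (Valued.v (0 : K) : G) ≤ _
    rw [map_zero]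
    exact zero_le
  | succ n ih =>
    show (Valued.v (w - it w n ^ 2) : G) ≤ _
    refine (Valuation.map_sub _ _ _).trans (max_le le_rfl ?_)
    rw [map_pow, pow_two]
    calc (Valued.v (it w n) : G) * Valued.v (it w n) ≤ Valued.v w * 1 :=
          mul_le_mul' ih (ih.trans hw.le)
      _ = Valued.v w := mul_one _

omit [MulArchimedean G] in
theorem it_sub {w : K} (hw : (Valued.v w : G) < 1) (n : ℕ) :
    (Valued.v (it w (n + 1) - it w n) : G) ≤ Valued.v w ^ n := by
  induction n with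
  | zero =>
    rw [pow_zero]
    refine (Valuation.map_sub _ _ _).trans (max_le ?_ ?_)
    · exact (it_le hw 1).trans hw.le
    · exact (it_le hw 0).trans hw.le
  | succ n ih =>
    have h1 : it w (n + 1 + 1) - it w (n + 1) =
        - ((it w (n + 1) - it w n) * (it w (n + 1) + it w n)) := by
      show (w - it w (n + 1) ^ 2) - (w - it w n ^ 2) = _
      ring
    rw [h1, Valuation.map_neg, map_mul, pow_succ]
    refine mul_le_mul' ih ?_
    exact (Valuation.map_add _ _ _).trans (max_le (it_le hw _) (it_le hw _))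

omit [MulArchimedean G] in
theorem nonarch : NonarchimedeanAddGroup K where
  is_nonarchimedean := by
    intro U hU
    obtain ⟨γ, hγ⟩ := (Valued.mem_nhds_zero (R := K) (Γ₀ := G)).1 hU
    refine ⟨⟨(Valued.v (R := K) (Γ₀ := G)).restrict.ltAddSubgroup γ, ?_⟩, ?_⟩
    · exact Valued.isOpen_ball K γ.1
    · exact hγ

theorem solve [CompleteSpace K] [T2Space K] {w : K} (hw : (Valued.v w : G) < 1) :
    ∃ z : K, z ^ 2 + z = w := by
  have : NonarchimedeanAddGroup K := nonarch (G := G)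
  have h1 : Tendsto (fun n => it w (n + 1) - it w n) atTop (𝓝 0) :=
    tendsto_of_le_pow hw (it_sub hw)
  have h2 : CauchySeq (it w) := NonarchimedeanAddGroup.cauchySeq_of_tendsto_sub_nhds_zero h1
  obtain ⟨z, hz⟩ := cauchySeq_tendsto_of_complete h2
  refine ⟨z, ?_⟩
  have h3 : Tendsto (fun n => it w (n + 1)) atTop (𝓝 z) := hz.comp (tendsto_add_atTop_nat 1)
  have h4 : Tendsto (fun n => w - it w n ^ 2) atTop (𝓝 (w - z ^ 2)) :=
    tendsto_const_nhds.sub (hz.pow 2)
  have h5 : z = w - z ^ 2 := tendsto_nhds_unique h3 h4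
  linear_combination h5

/-- elements near one are squares -/
theorem sq_of_near [CompleteSpace K] [T2Space K] {u : K} (h4 : (4 : K) ≠ 0)
    (hu : (Valued.v (u - 1) : G) < Valued.v (4 : K)) : ∃ r : K, r ^ 2 = u := by
  have h40 : (Valued.v (4 : K) : G) ≠ 0 := (Valuation.ne_zero_iff _).2 h4
  obtain ⟨z, hz⟩ := solve (G := G) (w := (u - 1) / 4) (by
    rw [map_div₀]
    exact (div_lt_one₀ (zero_lt_iff.2 h40)).2 hu)
  refine ⟨1 + 2 * z, ?_⟩
  have h1 : (1 + 2 * z) ^ 2 = 1 + 4 * (z ^ 2 + z) := by ring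
  rw [h1, hz, mul_div_cancel₀ _ h4]
  ring

end conv

section curve

variable {K : Type u} {G : Type} [Field K] [LinearOrderedCommGroupWithZero G]

/-- the size of the cubic far out -/
theorem v_cubic (v : Valuation K G) {a b x : K} (h1 : 1 < v x) (ha : v a < v x) (hb : v b < v x) :
    v (x ^ 3 + a * x + b) = v x ^ 3 := by
  have h0 : 0 < v x := lt_trans zero_lt_one h1
  have e1 : v x < v x ^ 3 := by
    have := pow_lt_pow_right₀ h1 (show 1 < 3 by norm_num)
    rwa [pow_one] at this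
  have e2 : v x ^ 2 < v x ^ 3 := pow_lt_pow_right₀ h1 (by norm_num)
  have e3 : v (a * x + b) < v (x ^ 3) := by
    rw [map_pow]
    apply Valuation.map_add_lt
    · rw [map_mul]
      calc v a * v x < v x * v x := mul_lt_mul_of_pos_right ha h0
        _ = v x ^ 2 := (pow_two _).symm
        _ < v x ^ 3 := e2
    · exact lt_trans hb e1
  rw [add_assoc, Valuation.map_add_eq_of_lt_left _ e3, map_pow]

/-- the size of the numerator of the duplication formula -/
theorem v_dup (v : Valuation K G) {a b x : K} (h2 : v 2 ≤ 1) (h1 : 1 < v x) (ha : v a < v x)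
    (hb : v b < v x) : v (x ^ 4 + (-(2 * a * x ^ 2) + (-(8 * b * x) + a ^ 2))) = v x ^ 4 := by
  have h0 : 0 < v x := lt_trans zero_lt_one h1
  have h8 : v (8 : K) ≤ 1 := by
    have : (8 : K) = 2 ^ 3 := by norm_num
    rw [this, map_pow]
    exact pow_le_one₀ zero_le h2
  have e2 : v x ^ 2 < v x ^ 4 := pow_lt_pow_right₀ h1 (by norm_num)
  have e3 : v x ^ 3 < v x ^ 4 := pow_lt_pow_right₀ h1 (by norm_num)
  have ha2 : v a * v x < v x ^ 2 := by
    rw [pow_two]
    exact mul_lt_mul_of_pos_right ha h0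
  have t1 : v (-(2 * a * x ^ 2)) < v x ^ 4 := by
    rw [Valuation.map_neg, map_mul, map_mul, map_pow]
    calc v 2 * v a * v x ^ 2 ≤ 1 * v a * v x ^ 2 := by gcongr
      _ = v a * v x ^ 2 := by rw [one_mul]
      _ < v x * v x ^ 2 := mul_lt_mul_of_pos_right ha (pow_pos h0 2)
      _ = v x ^ 3 := (pow_succ' (v x) 2).symm
      _ < v x ^ 4 := e3
  have t2 : v (-(8 * b * x)) < v x ^ 4 := by
    rw [Valuation.map_neg, map_mul, map_mul]
    calc v 8 * v b * v x ≤ 1 * v b * v x := by gcongr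
      _ = v b * v x := by rw [one_mul]
      _ < v x * v x := mul_lt_mul_of_pos_right hb h0
      _ = v x ^ 2 := (pow_two _).symm
      _ < v x ^ 4 := e2
  have t3 : v (a ^ 2) < v x ^ 4 := by
    rw [map_pow]
    calc v a ^ 2 ≤ v x ^ 2 := by gcongr
      _ < v x ^ 4 := e2
  have t4 : v (-(2 * a * x ^ 2) + (-(8 * b * x) + a ^ 2)) < v (x ^ 4) := by
    rw [map_pow]
    exact Valuation.map_add_lt _ t1 (Valuation.map_add_lt _ t2 t3)
  rw [Valuation.map_add_eq_of_lt_left _ t4, map_pow]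

theorem v_double (v : Valuation K G) {a b x y x' : K} (h2 : v 2 ≤ 1)
    (h1 : 1 < v x) (ha : v a < v x) (hb : v b < v x) (hy : y ^ 2 = x ^ 3 + a * x + b)
    (hx' : 4 * y ^ 2 * x' = (3 * x ^ 2 + a) ^ 2 - 8 * x * y ^ 2) : v x ≤ v x' := by
  have h0 : 0 < v x := lt_trans zero_lt_one h1
  have e1 : 4 * y ^ 2 * x' = x ^ 4 + (-(2 * a * x ^ 2) + (-(8 * b * x) + a ^ 2)) := by
    rw [hx', hy]
    ring
  have e2 := congrArg v e1
  rw [v_dup v h2 h1 ha hb, map_mul, map_mul, hy, v_cubic v h1 ha hb] at e2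
  have h4 : v (4 : K) ≤ 1 := by
    have : (4 : K) = 2 ^ 2 := by norm_num
    rw [this, map_pow]
    exact pow_le_one₀ zero_le h2
  have e3 : v x ^ 3 * v x ≤ v x ^ 3 * v x' := by
    calc v x ^ 3 * v x = v x ^ 4 := (pow_succ (v x) 3).symm
      _ = v 4 * v x ^ 3 * v x' := e2.symm
      _ ≤ 1 * v x ^ 3 * v x' := by gcongr
      _ = v x ^ 3 * v x' := by rw [one_mul]
  exact le_of_mul_le_mul_left e3 (pow_pos h0 3)

end curve

section points

variable {F K : Type u} [Field F] [Field K] [CharZero K] [Algebra F K]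

omit [CharZero K] in
theorem eqn (a b : F) {x y : K} : ((curve a b).baseChange K).toAffine.Equation x y ↔
    y ^ 2 = x ^ 3 + algebraMap F K a * x + algebraMap F K b := by
  rw [WeierstrassCurve.Affine.equation_iff]
  simp [curve, WeierstrassCurve.baseChange, WeierstrassCurve.map]

theorem nonsing (a b : F) {x y : K} (hy : y ≠ 0)
    (h : y ^ 2 = x ^ 3 + algebraMap F K a * x + algebraMap F K b) :
    ((curve a b).baseChange K).toAffine.Nonsingular x y := by
  rw [WeierstrassCurve.Affine.nonsingular_iff']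
  refine ⟨(eqn a b).2 h, Or.inr ?_⟩
  simp [curve, WeierstrassCurve.baseChange, WeierstrassCurve.map, hy]

theorem negY_ne (a b : F) {x y : K} (hy : y ≠ 0) :
    y ≠ ((curve a b).baseChange K).toAffine.negY x y := by
  have : ((curve a b).baseChange K).toAffine.negY x y = -y := by
    simp [WeierstrassCurve.Affine.negY, curve, WeierstrassCurve.baseChange, WeierstrassCurve.map]
  rw [this]
  exact (neg_ne_self.2 hy).symm

theorem dbl (a b : F) {x y : K} (h : ((curve a b).baseChange K).toAffine.Nonsingular x y)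
    (hy : y ≠ 0) : ∃ (x' y' : K) (h' : ((curve a b).baseChange K).toAffine.Nonsingular x' y'),
      (2 : ℕ) • (WeierstrassCurve.Affine.Point.some x y h : Pt (curve a b) K) =
        WeierstrassCurve.Affine.Point.some x' y' h' ∧
      4 * y ^ 2 * x' = (3 * x ^ 2 + algebraMap F K a) ^ 2 - 8 * x * y ^ 2 := by
  have hn := negY_ne a b (x := x) hy
  rw [two_nsmul, WeierstrassCurve.Affine.Point.add_self_of_Y_ne hn]
  refine ⟨_, _, _, rfl, ?_⟩
  have h2 : (2 : K) ≠ 0 := two_ne_zero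
  have hs : ((curve a b).baseChange K).toAffine.slope x x y y =
      (3 * x ^ 2 + algebraMap F K a) / (2 * y) := by
    rw [WeierstrassCurve.Affine.slope_of_Y_ne rfl hn]
    have e1 : y - ((curve a b).baseChange K).toAffine.negY x y = 2 * y := by
      simp only [WeierstrassCurve.Affine.negY, curve, WeierstrassCurve.baseChange,
        WeierstrassCurve.map, map_zero]
      ring
    rw [e1]
    congr 1
    simp only [curve, WeierstrassCurve.baseChange, WeierstrassCurve.map, map_zero]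
    ring
  rw [hs]
  simp only [WeierstrassCurve.Affine.addX, curve, WeierstrassCurve.baseChange,
    WeierstrassCurve.map, map_zero]
  field_simp
  ring

end points

/-- a number `q` which is large -/
theorem exists_q {K : Type u} [Field K] (v : Valuation K (WithZero (Multiplicative ℤ)))
    (hs : Function.Surjective v) (g : WithZero (Multiplicative ℤ)) (hg : 1 ≤ g) :
    ∃ q : K, g < v q := by
  obtain ⟨q, hq⟩ := hs (g * WithZero.exp 1)
  refine ⟨q, ?_⟩
  rw [hq]
  have h0 : 0 < g := lt_of_lt_of_le zero_lt_one hg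
  have h1 : (1 : WithZero (Multiplicative ℤ)) < WithZero.exp 1 := by
    rw [← WithZero.exp_zero, WithZero.exp_lt_exp]
    norm_num
  calc g = g * 1 := (mul_one g).symm
    _ < g * WithZero.exp 1 := mul_lt_mul_of_pos_left h1 h0

theorem exists_point {F K : Type u} [Field F] [Field K] [CharZero K] [Algebra F K]
    [Valued K (WithZero (Multiplicative ℤ))] [CompleteSpace K] [T2Space K]
    (hs : Function.Surjective (Valued.v : Valuation K (WithZero (Multiplicative ℤ)))) (a b : F)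
    (h2 : Valued.v (2 : K) ≤ 1) : ∃ R : Pt (curve a b) K, (4 : ℕ) • R ≠ 0 := by
  set v : Valuation K (WithZero (Multiplicative ℤ)) := Valued.v with hv
  set al := algebraMap F K a with hal
  set be := algebraMap F K b with hbe
  have h4 : v (4 : K) ≤ 1 := by
    have : (4 : K) = 2 ^ 2 := by norm_num
    rw [this, map_pow]
    exact pow_le_one₀ zero_le h2
  have h40 : (4 : K) ≠ 0 := by norm_num
  have hv4 : 0 < v (4 : K) := zero_lt_iff.2 ((Valuation.ne_zero_iff _).2 h40)
  obtain ⟨q, hq⟩ := exists_q v hs (max 1 (max (v al / v 4) (v be / v 4))) (le_max_left _ _)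
  have q1 : 1 < v q := lt_of_le_of_lt (le_max_left _ _) hq
  have q0 : 0 < v q := lt_trans zero_lt_one q1
  have qa : v al / v 4 < v q :=
    lt_of_le_of_lt ((le_max_left _ _).trans (le_max_right _ _)) hq
  have qb : v be / v 4 < v q :=
    lt_of_le_of_lt ((le_max_right _ _).trans (le_max_right _ _)) hq
  have hq0 : q ≠ 0 := (Valuation.ne_zero_iff v).1 q0.ne'
  have qa' : v al < v q * v 4 := (div_lt_iff₀ hv4).1 qa
  have qb' : v be < v q * v 4 := (div_lt_iff₀ hv4).1 qb
  have pw : ∀ n : ℕ, 0 < n → v q ≤ v q ^ n := fun n hn => by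
    have := pow_le_pow_right₀ q1.le (show 1 ≤ n from hn)
    rwa [pow_one] at this
  obtain ⟨r, hr⟩ := sq_of_near (G := WithZero (Multiplicative ℤ))
    (u := 1 + (al * (q⁻¹) ^ 4 + be * (q⁻¹) ^ 6)) h40 (by
    rw [add_sub_cancel_left]
    apply Valuation.map_add_lt
    · rw [map_mul, map_pow, map_inv₀, inv_pow, ← div_eq_mul_inv]
      rw [div_lt_iff₀ (pow_pos q0 4), mul_comm]
      exact lt_of_lt_of_le qa' (mul_le_mul' (pw 4 (by norm_num)) le_rfl)
    · rw [map_mul, map_pow, map_inv₀, inv_pow, ← div_eq_mul_inv]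
      rw [div_lt_iff₀ (pow_pos q0 6), mul_comm]
      exact lt_of_lt_of_le qb' (mul_le_mul' (pw 6 (by norm_num)) le_rfl))
  have hx1 : 1 < v (q ^ 2) := by
    rw [map_pow]
    exact lt_of_lt_of_le q1 (pw 2 (by norm_num))
  have hle : v q * v 4 ≤ v (q ^ 2) := by
    rw [map_pow]
    calc v q * v 4 ≤ v q * 1 := mul_le_mul' le_rfl h4
      _ = v q := mul_one _
      _ ≤ v q ^ 2 := pw 2 (by norm_num)
  have hxa : v al < v (q ^ 2) := lt_of_lt_of_le qa' hle
  have hxb : v be < v (q ^ 2) := lt_of_lt_of_le qb' hle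
  have hy2 : (q ^ 3 * r) ^ 2 = (q ^ 2) ^ 3 + al * q ^ 2 + be := by
    rw [mul_pow, hr]
    field_simp
    ring
  have nz : ∀ {x y : K}, 1 < v x → v al < v x → v be < v x → y ^ 2 = x ^ 3 + al * x + be →
      y ≠ 0 := by
    rintro x y g1 g2 g3 g4 rfl
    have g5 := v_cubic v g1 g2 g3
    rw [← g4] at g5
    rw [zero_pow two_ne_zero, map_zero] at g5
    exact (pow_pos (lt_trans zero_lt_one g1) 3).ne g5
  have hy0 := nz hx1 hxa hxb hy2
  have hns := nonsing a b hy0 hy2
  obtain ⟨x', y', h', e1, e2⟩ := dbl a b hns hy0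
  have hd := v_double v h2 hx1 hxa hxb hy2 e2
  have hy' : y' ^ 2 = x' ^ 3 + al * x' + be := (eqn a b).1 h'.1
  have hy'0 := nz (lt_of_lt_of_le hx1 hd) (lt_of_lt_of_le hxa hd) (lt_of_lt_of_le hxb hd) hy'
  obtain ⟨x'', y'', h'', e3, _⟩ := dbl a b h' hy'0
  refine ⟨WeierstrassCurve.Affine.Point.some _ _ hns, ?_⟩
  have : (4 : ℕ) = 2 * 2 := by norm_num
  rw [this, mul_nsmul, e1, e3]
  exact WeierstrassCurve.Affine.Point.some_ne_zero _

end Pool.Agent.Lib.MP_8cb858_nt.SEL.BIGM

namespace Pool.Agent.Lib.MP_8cb858_nt.SEL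

open NumberField IsDedekindDomain
open scoped Classical

universe u

/-- BIG -/
theorem specBIG : SpecBIG.{u} := by
  intro F _ _ v a b _
  have : CharZero (v.adicCompletion F) :=
    charZero_of_injective_algebraMap (algebraMap F (v.adicCompletion F)).injective
  apply BIGM.exists_point (v.valuedAdicCompletion_surjective F) a b
  have h1 : (2 : v.adicCompletion F) = 1 + 1 := by norm_num
  rw [h1]
  exact (Valuation.map_add _ _ _).trans (by simp)

end Pool.Agent.Lib.MP_8cb858_nt.SEL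
end

section
/-!
# DLA: local triviality of the cocycle implies the Kummer condition for `α`
-/
namespace Pool.Agent.Lib.MP_8cb858_nt.PF

open Polynomial NumberField IsDedekindDomain Pool.Agent.Lib.MP_8cb858_nt.SEL
open scoped Classical

namespace DLAM

/-- maps and values -/
theorem map_ev {R S T : Type} [CommRing R] [CommRing S] [CommRing T] {a b : R} (φ : R →+* S)
    (i : S →+* T) (x : S) (α : Lk a b) : i (ev φ x α) = ev (i.comp φ) (i x) α := by
  simp [ev]

/-- the element `D (x - θ)` -/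
theorem lin_eq {K : Type} [Field K] {a b : K} (d x : K) :
    AdjoinRoot.of (fpol a b) d * (AdjoinRoot.of _ x - th a b) = el a b (d * x) (-d) 0 := by
  simp only [el, map_mul, map_neg, map_zero]
  ring

theorem ev_lin (hEVA : SpecEVA) {K M : Type} [Field K] [Field M] {a b : K} (φ : K →+* M)
    (d x : K) (t : M) :
    ev φ t (AdjoinRoot.of (fpol a b) d * (AdjoinRoot.of _ x - th a b)) =
      φ d * (φ x - t) := by
  rw [lin_eq, hEVA.elv, map_mul, map_neg, map_zero]
  ring

/-- the values of `up α` at the images of the roots -/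
theorem ev_up (hDIT : SpecDIT) {F K M : Type} [Field F] [Field K] [Field M] [Algebra F K]
    {a b : F} (ψ : K →+* M) (i : AlgebraicClosure F →+* M)
    (h : ψ.comp (algebraMap F K) = i.comp (algebraMap F (AlgebraicClosure F)))
    (x : AlgebraicClosure F) (α : Lk a b) :
    ev ψ (i x) (up K α) = i (ev (algebraMap F (AlgebraicClosure F)) x α) := by
  rw [map_ev, hDIT.up, h]

theorem comp_eq {F K : Type} [Field F] [Field K] [Algebra F K]
    (i : AlgebraicClosure F →ₐ[F] AlgebraicClosure K) :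
    (algebraMap K (AlgebraicClosure K)).comp (algebraMap F K) =
      (i : AlgebraicClosure F →+* AlgebraicClosure K).comp
        (algebraMap F (AlgebraicClosure F)) := by
  rw [← IsScalarTower.algebraMap_eq F K (AlgebraicClosure K)]
  exact i.comp_algebraMap.symm

theorem mapR (hDRT : SpecDRT) {F M : Type} [Field F] [Field M] [Algebra F M] {a b : F}
    (i : AlgebraicClosure F →ₐ[F] M) {t : Fin 3 → AlgebraicClosure F}
    (ht : IsRoots (algebraMap F (AlgebraicClosure F) a) (algebraMap F (AlgebraicClosure F) b) t) :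
    IsRoots (algebraMap F M a) (algebraMap F M b) (fun j => i (t j)) := by
  have h := hDRT.map (i : AlgebraicClosure F →+* M) ht
  have h1 : ∀ x : F, (i : AlgebraicClosure F →+* M) (algebraMap F (AlgebraicClosure F) x) =
    algebraMap F M x := fun x => i.commutes x
  rw [h1, h1] at h
  exact h

theorem sign_sq {M : Type} [Field M] {e : ℤ} (he : e = 1 ∨ e = -1) : (e : M) * (e : M) = 1 := by
  rcases he with rfl | rfl <;> simp

/-- The half point and the square root of `α` have the same signs. -/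
theorem core (hDRT : SpecDRT) (hDSG : SpecDSG) {F : Type} [Field F] [CharZero F] {a b D : F}
    (hD : D ≠ 0) {M : Type} [Field M]
    [CharZero M] [Algebra F M] (i : AlgebraicClosure F →ₐ[F] M) (σ : M →ₐ[F] M) (τ : Gal F)
    (hτ : ∀ x, i (τ x) = σ (i x)) {α : Lk a b}
    {c : Gal F → Pt (cur a b D) (AlgebraicClosure F)} (h2 : ∀ σ, (2 : ℕ) • c σ = 0)
    {t s : Fin 3 → AlgebraicClosure F}
    (ht : IsRoots (algebraMap F (AlgebraicClosure F) a) (algebraMap F (AlgebraicClosure F) b) t)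
    (hs : RelT D α c t s)
    (P : Pt (cur a b D) M) (hP : push (cur a b D) i (c τ) = push (cur a b D) σ P - P)
    (hP2 : (2 : ℕ) • P ≠ 0) (j k : Fin 3) (hjk : σ (i (t j)) = i (t k)) :
    σ (i (s j) * hlf (fun j => algebraMap F M D * i (t j)) P j) =
      i (s k) * hlf (fun j => algebraMap F M D * i (t j)) P k := by
  have ht' := mapR hDRT i ht
  have hjk' : τ (t j) = t k := by
    apply i.toRingHom.injective
    change i (τ (t j)) = i (t k)
    rw [hτ, hjk]
  have h2S : (2 : ℕ) • push (cur a b D) i (c τ) = 0 := by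
    rw [← map_nsmul, h2, map_zero]
  have e1 : σ (i (s j)) = (sD t (c τ) k : M) * i (s k) := by
    rw [← hτ, hs.2 τ j k hjk', map_mul, map_intCast]
  have e2 := (hDSG.push σ hD ht' ht' j k hjk P).2
  have e3 : push (cur a b D) σ P = P + push (cur a b D) i (c τ) := by
    rw [hP]
    abel
  have e4 := hDSG.hlf hD ht' P _ h2S hP2 k
  have e5 := (hDSG.push i hD ht ht' k k rfl (c τ)).1
  have e6 := (hDSG.pm hD ht (c τ) (h2 τ)).1 k
  rw [map_mul, e1]
  change _ * σ (hlf (fun j => algebraMap F M D * (fun j => i (t j)) j) P j) = _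
  rw [e2, e3, e4, e5]
  have e7 := sign_sq (M := M) e6
  linear_combination (i (s k) * hlf (fun j => algebraMap F M D * i (t j)) P k) * e7

end DLAM

open DLAM in
theorem specDLA (hDRT : SpecDRT) (hDIT : SpecDIT) (hDSG : SpecDSG) (hEVA : SpecEVA)
    (hHAL : SpecHAL.{0}) (hEMB : SpecEMB.{0, 0}) (hLO1 : SpecLO1.{0}) : SpecDLA := by
  intro F K _ _ _ _ _ a b D α c hdsc hD h2 hrel hR hloc
  obtain ⟨t, s, ht, hs1, hs2⟩ := hrel
  have hs : RelT D α c t s := ⟨hs1, hs2⟩
  have hDK : algebraMap F K D ≠ 0 := (_root_.map_ne_zero _).2 hD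
  have hab : 4 * (a * D ^ 2) ^ 3 + 27 * (b * D ^ 3) ^ 2 ≠ 0 := by
    have h1 : 4 * (a * D ^ 2) ^ 3 + 27 * (b * D ^ 3) ^ 2 = D ^ 6 * dsc a b := by
      unfold dsc
      ring
    rw [h1]
    exact mul_ne_zero (pow_ne_zero _ hD) hdsc
  obtain ⟨i⟩ : Nonempty (AlgebraicClosure F →ₐ[F] AlgebraicClosure K) := ⟨IsAlgClosed.lift⟩
  obtain ⟨P, hP, hP4, x', y', hn, h2P⟩ := hLO1 F K _ _ c hab h2 hloc hR i
  have ht' := mapR hDRT i ht
  have hth := hDRT.scl hD ht'
  have hP2 : (2 : ℕ) • P ≠ 0 := by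
    rw [h2P]
    exact WeierstrassCurve.Affine.Point.some_ne_zero _
  obtain ⟨x'', y'', hn', h2P', hy'', hsq, -, -⟩ := (hHAL F (AlgebraicClosure K) _ _ _ hth).2 P hP4
  have hxy := h2P.symm.trans h2P'
  rw [WeierstrassCurve.Affine.Point.some.injEq] at hxy
  obtain ⟨rfl, rfl⟩ := hxy
  have htw : ∀ x : F, algebraMap F (AlgebraicClosure K) x =
      algebraMap K (AlgebraicClosure K) (algebraMap F K x) :=
    fun x => IsScalarTower.algebraMap_apply F K (AlgebraicClosure K) x
  -- the element `g`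
  have ht'' : IsRoots (algebraMap K (AlgebraicClosure K) (algebraMap F K a))
      (algebraMap K (AlgebraicClosure K) (algebraMap F K b)) (fun j => i (t j)) := by
    rw [← htw, ← htw]
    exact ht'
  obtain ⟨g, hg⟩ := hDIT.ex ht''
    (fun j => i (s j) * hlf (fun j => algebraMap F (AlgebraicClosure K) D * i (t j)) P j) (by
      intro σ j k hjk
      obtain ⟨τ, hτ⟩ := hEMB F (AlgebraicClosure K) i
        (((σ : AlgebraicClosure K →ₐ[K] AlgebraicClosure K).restrictScalars F).comp i)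
      exact core hDRT hDSG hD i
        ((σ : AlgebraicClosure K →ₐ[K] AlgebraicClosure K).restrictScalars F) τ hτ h2 ht hs P
        (hP σ τ hτ) hP2 j k hjk)
  refine ⟨x' / algebraMap F K D, y' / algebraMap F K D, ?_, ?_, g, ?_⟩
  · intro h0
    apply hy''
    rw [div_eq_zero_iff] at h0
    rcases h0 with h0 | h0
    · rw [h0, map_zero]
    · exact absurd h0 hDK
  · have h3 := (BIGM.eqn _ _).1 hn.1
    have h4 : y' ^ 2 = x' ^ 3 + algebraMap F K a * algebraMap F K D ^ 2 * x' +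
        algebraMap F K b * algebraMap F K D ^ 3 := by
      apply (algebraMap K (AlgebraicClosure K)).injective
      simp only [map_add, map_mul, map_pow, ← htw]
      simp only [map_mul, map_pow] at h3
      exact h3
    field_simp
    linear_combination h4
  · refine hDIT.uq (algebraMap K (AlgebraicClosure K)) ht'' _ _ fun j => ?_
    have hr := hDRT.rt ht'' j
    have hup : ev (algebraMap K (AlgebraicClosure K)) (i (t j)) (up K α) = i (s j ^ 2) := by
      rw [(hs1 j).2]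
      exact ev_up hDIT (algebraMap K (AlgebraicClosure K))
        (i : AlgebraicClosure F →+* AlgebraicClosure K) (comp_eq i) (t j) α
    rw [hEVA.mul _ _ (up K α) _ hr, hEVA.mul _ _ g g hr, hg, ev_lin hEVA, hup]
    have h5 := hsq j
    have h6 : algebraMap K (AlgebraicClosure K) (algebraMap F K D) ≠ 0 := (_root_.map_ne_zero _).2 hDK
    rw [map_div₀, map_pow, mul_sub, mul_div_cancel₀ _ h6, ← htw, ← h5]
    ring

end Pool.Agent.Lib.MP_8cb858_nt.PF
end

section
/-!
# DAL: the Kummer condition for `α` implies local triviality of the cocycle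
-/
namespace Pool.Agent.Lib.MP_8cb858_nt.PF

open Polynomial NumberField IsDedekindDomain Pool.Agent.Lib.MP_8cb858_nt.SEL
open scoped Classical

namespace DALM

theorem push_fix {F : Type} [Field F] {E : WeierstrassCurve F} {M : Type} [Field M] [Algebra F M]
    (σ : M →ₐ[F] M)
    {x y : M} (h : (E.baseChange M).toAffine.Nonsingular x y) (hx : σ x = x) (hy : σ y = y) :
    push E σ (WeierstrassCurve.Affine.Point.some x y h) =
      WeierstrassCurve.Affine.Point.some x y h := by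
  have h1 : push E σ (WeierstrassCurve.Affine.Point.some x y h) =
    WeierstrassCurve.Affine.Point.some (σ x) (σ y) (by rw [hx, hy]; exact h) := rfl
  rw [h1, WeierstrassCurve.Affine.Point.some.injEq]
  exact ⟨hx, hy⟩

/-- The last step: `σ P - P` has the signs of `c τ`. -/
theorem core (hDRT : SpecDRT) (hDSG : SpecDSG) {F : Type} [Field F] [CharZero F] {a b D : F}
    (hD : D ≠ 0) {M : Type} [Field M]
    [CharZero M] [Algebra F M] (i : AlgebraicClosure F →ₐ[F] M) (σ : M →ₐ[F] M) (τ : Gal F)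
    (hτ : ∀ x, i (τ x) = σ (i x)) {α : Lk a b}
    {c : Gal F → Pt (cur a b D) (AlgebraicClosure F)} (h2 : ∀ σ, (2 : ℕ) • c σ = 0)
    {t s : Fin 3 → AlgebraicClosure F}
    (ht : IsRoots (algebraMap F (AlgebraicClosure F) a) (algebraMap F (AlgebraicClosure F) b) t)
    (hs : RelT D α c t s)
    (P : Pt (cur a b D) M) (h g : Fin 3 → M) (hg : ∀ j, g j = h j * i (s j))
    (h0 : ∀ j, h j ≠ 0) (hP : ∀ j, hlf (fun j => algebraMap F M D * i (t j)) P j = h j)
    (hgal : ∀ j k, σ (i (t j)) = i (t k) → σ (g j) = g k)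
    (hP2 : (2 : ℕ) • P ≠ 0) (hfix : push (cur a b D) σ ((2 : ℕ) • P) = (2 : ℕ) • P) :
    push (cur a b D) i (c τ) = push (cur a b D) σ P - P := by
  have ht' := DLAM.mapR hDRT i ht
  have h2S : (2 : ℕ) • push (cur a b D) i (c τ) = 0 := by
    rw [← map_nsmul, h2, map_zero]
  have h2T : (2 : ℕ) • (push (cur a b D) σ P - P) = 0 := by
    rw [nsmul_sub, ← map_nsmul, hfix, sub_self]
  refine hDSG.inj hD ht' _ _ h2S h2T fun k => ?_
  obtain ⟨j, hj⟩ := hDRT.act' (σ : M →+* M) (σ.commutes a) (σ.commutes b) ht' k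
  have hjk : σ (i (t j)) = i (t k) := hj
  have hjk' : τ (t j) = t k := by
    apply i.toRingHom.injective
    change i (τ (t j)) = i (t k)
    rw [hτ, hjk]
  have e0 := (hDSG.push i hD ht ht' k k rfl (c τ)).1
  rw [e0]
  -- `σ (h j)` in two ways
  have hsk : i (s k) ≠ 0 := by
    intro h3
    exact (hs.1 k).1 ((map_eq_zero_iff i i.toRingHom.injective).1 h3)
  have e1 : σ (i (s j)) = (sD t (c τ) k : M) * i (s k) := by
    rw [← hτ, hs.2 τ j k hjk', map_mul, map_intCast]
  have e2 : σ (h j) * σ (i (s j)) = h k * i (s k) := by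
    rw [← map_mul, ← hg, hgal j k hjk, hg]
  have e3 : σ (h j) * (sD t (c τ) k : M) = h k := by
    rw [e1, ← mul_assoc] at e2
    exact mul_right_cancel₀ hsk e2
  have e4 := (hDSG.push σ hD ht' ht' j k hjk P).2
  have e5 : push (cur a b D) σ P = P + (push (cur a b D) σ P - P) := by
    abel
  have e6 := hDSG.hlf hD ht' P _ h2T hP2 k
  rw [← e5] at e6
  change σ (hlf (fun j => algebraMap F M D * i (t j)) P j) =
    hlf (fun j => algebraMap F M D * i (t j)) (push (cur a b D) σ P) k at e4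
  rw [hP] at e4
  rw [hP] at e6
  rw [e4, e6] at e3
  have e7 : ((sD (fun j => i (t j)) (push (cur a b D) σ P - P) k : ℤ) : M) *
      ((sD t (c τ) k : ℤ) : M) = 1 := by
    apply mul_left_cancel₀ (h0 k)
    rw [mul_one]
    linear_combination e3
  have e8 : sD (fun j => i (t j)) (push (cur a b D) σ P - P) k * sD t (c τ) k = 1 := by
    exact_mod_cast e7
  rcases (hDSG.pm hD ht (c τ) (h2 τ)).1 k with e9 | e9
  · rw [e9, mul_one] at e8
    rw [e9, e8]
  · rw [e9] at e8
    rw [e9]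
    omega

end DALM

open DLAM DALM in
theorem specDAL (hDRT : SpecDRT) (hDIT : SpecDIT) (hDSG : SpecDSG) (hEVA : SpecEVA)
    (hDHA : SpecDHA) : SpecDAL := by
  intro F K _ _ _ _ _ a b D α c hdsc hD h2 hV hrel haff i
  obtain ⟨t, s, ht, hs1, hs2⟩ := hrel
  have hs : RelT D α c t s := ⟨hs1, hs2⟩
  obtain ⟨x, y, hy, hxy, g, hg⟩ := haff
  have hDK : algebraMap F K D ≠ 0 := (_root_.map_ne_zero _).2 hD
  have htw : ∀ x : F, algebraMap F (AlgebraicClosure K) x =
      algebraMap K (AlgebraicClosure K) (algebraMap F K x) :=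
    fun x => IsScalarTower.algebraMap_apply F K (AlgebraicClosure K) x
  have hDM : algebraMap F (AlgebraicClosure K) D ≠ 0 := (_root_.map_ne_zero _).2 hD
  have ht' := mapR hDRT i ht
  have ht'' : IsRoots (algebraMap K (AlgebraicClosure K) (algebraMap F K a))
      (algebraMap K (AlgebraicClosure K) (algebraMap F K b)) (fun j => i (t j)) := by
    rw [← htw, ← htw]
    exact ht'
  have hs0 : ∀ j, i (s j) ≠ 0 := fun j h3 =>
    (hs1 j).1 ((map_eq_zero_iff i i.toRingHom.injective).1 h3)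
  set φ := algebraMap K (AlgebraicClosure K) with hφ
  -- the values of `g`
  have hgv : ∀ j, ev φ (i (t j)) g ^ 2 =
      i (s j) ^ 2 * (φ (algebraMap F K D * x) - algebraMap F (AlgebraicClosure K) D * i (t j)) := by
    intro j
    have hr := hDRT.rt ht'' j
    have hup : ev φ (i (t j)) (up K α) = i (s j ^ 2) := by
      rw [(hs1 j).2]
      exact ev_up hDIT φ (i : AlgebraicClosure F →+* AlgebraicClosure K) (comp_eq i) (t j) α
    have h3 := congrArg (ev φ (i (t j))) hg
    rw [hEVA.mul _ _ (up K α) _ hr, hEVA.mul _ _ g g hr, ev_lin hEVA, hup] at h3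
    rw [sq, ← h3, map_mul, htw, map_pow]
    ring
  have hne : ∀ j, φ (algebraMap F K D * x) - algebraMap F (AlgebraicClosure K) D * i (t j) ≠ 0 := by
    intro j h3
    have h4 : algebraMap F (AlgebraicClosure K) D * (φ x - i (t j)) = 0 := by
      rw [← h3, map_mul, htw]
      ring
    have h5 : φ x = i (t j) := by
      rcases mul_eq_zero.1 h4 with h6 | h6
      · exact absurd h6 hDM
      · exact sub_eq_zero.1 h6
    have h6 := hDRT.rt ht'' j
    change i (t j) ^ 3 + φ (algebraMap F K a) * i (t j) + φ (algebraMap F K b) = 0 at h6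
    rw [← h5] at h6
    have h7 : φ (x ^ 3 + algebraMap F K a * x + algebraMap F K b) = 0 := by
      rw [← h6]
      simp
    have h8 : x ^ 3 + algebraMap F K a * x + algebraMap F K b = 0 := (map_eq_zero φ).1 h7
    rw [h8, mul_zero] at hxy
    exact hy (pow_eq_zero_iff two_ne_zero |>.1 hxy)
  let h : Fin 3 → AlgebraicClosure K := fun j => ev φ (i (t j)) g / i (s j)
  have hhg : ∀ j, ev φ (i (t j)) g = h j * i (s j) := fun j => (div_mul_cancel₀ _ (hs0 j)).symm
  have hh2 : ∀ j, h j ^ 2 =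
      φ (algebraMap F K D * x) - algebraMap F (AlgebraicClosure K) D * i (t j) := by
    intro j
    change (ev φ (i (t j)) g / i (s j)) ^ 2 = _
    rw [div_pow, hgv, mul_div_cancel_left₀ _ (pow_ne_zero 2 (hs0 j))]
  have hh0 : ∀ j, h j ≠ 0 := by
    intro j h3
    apply hne j
    rw [← hh2 j, h3]
    exact zero_pow two_ne_zero
  obtain ⟨P, hn, hP, hhalf⟩ := hDHA F (AlgebraicClosure K) a b D (fun j => i (t j)) h
    (φ (algebraMap F K D * x)) hD ht' fun j => ⟨hh0 j, hh2 j⟩
  -- the product of the square roots is in `F`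
  obtain ⟨n, hn2⟩ := hV.2
  have hprod : ∃ q : F, s 0 * s 1 * s 2 = algebraMap F (AlgebraicClosure F) q := by
    have h3 := hDIT.nrm (algebraMap F (AlgebraicClosure F)) ht α
    have h4 : ∀ j, ev (algebraMap F (AlgebraicClosure F)) (t j) α = s j ^ 2 := by
      intro j
      exact (hs1 j).2.symm
    rw [h4, h4, h4, hn2, map_mul] at h3
    have h5 : (s 0 * s 1 * s 2) ^ 2 = (algebraMap F (AlgebraicClosure F) n) ^ 2 := by
      linear_combination -h3
    rcases sq_eq_sq_iff_eq_or_eq_neg.1 h5 with h6 | h6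
    · exact ⟨n, h6⟩
    · exact ⟨-n, by rw [h6, map_neg]⟩
  obtain ⟨q, hq⟩ := hprod
  have hY : ∃ z : K, h 0 * h 1 * h 2 = φ z := by
    have h3 := hDIT.nrm φ ht'' g
    rw [hhg 0, hhg 1, hhg 2] at h3
    have h4 : i (s 0) * i (s 1) * i (s 2) = φ (algebraMap F K q) := by
      rw [← map_mul, ← map_mul, hq]
      exact (i.commutes q).trans (htw q)
    have h5 : φ (algebraMap F K q) ≠ 0 := by
      rw [← h4]
      exact mul_ne_zero (mul_ne_zero (hs0 0) (hs0 1)) (hs0 2)
    refine ⟨Algebra.norm K g / algebraMap F K q, ?_⟩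
    rw [map_div₀, h3, eq_div_iff h5, ← h4]
    ring
  obtain ⟨z, hz⟩ := hY
  refine ⟨P, fun σ τ hτ => ?_⟩
  refine core hDRT hDSG hD i
    ((σ : AlgebraicClosure K →ₐ[K] AlgebraicClosure K).restrictScalars F) τ hτ h2 ht hs P h
    (fun j => ev φ (i (t j)) g) hhg hh0 hhalf ?_ ?_ ?_
  · intro j k hjk
    change σ (i (t j)) = i (t k) at hjk
    change σ (ev φ (i (t j)) g) = ev φ (i (t k)) g
    rw [hφ, hDIT.gal, hjk]
  · rw [hP]
    exact WeierstrassCurve.Affine.Point.some_ne_zero _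
  · rw [hP]
    refine push_fix _ hn ?_ ?_
    · change σ (φ (algebraMap F K D * x)) = φ (algebraMap F K D * x)
      exact σ.commutes _
    · change σ (h 0 * h 1 * h 2) = h 0 * h 1 * h 2
      rw [hz]
      exact σ.commutes _

end Pool.Agent.Lib.MP_8cb858_nt.PF
end

section
/-!
# DEX: every element of the cubic algebra of square norm gives a cocycle
-/
namespace Pool.Agent.Lib.MP_8cb858_nt.PF

open Polynomial NumberField Pool.Agent.Lib.MP_8cb858_nt.SEL
open scoped Classical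

theorem DEXM.coc {F K : Type} [Field F] [Field K] [CharZero K] [Algebra F K] (hDSG : SpecDSG)
    {a b D : F} (hD : D ≠ 0) {t s : Fin 3 → K}
    (ht : IsRoots (algebraMap F K a) (algebraMap F K b) t) (hs0 : ∀ i, s i ≠ 0)
    (σ τ ρ : K →ₐ[F] K) (hρ : ∀ x, ρ x = σ (τ x)) (gs gt : Fin 3 → Fin 3)
    (hgs : ∀ k, σ (t (gs k)) = t k) (hgt : ∀ k, τ (t (gt k)) = t k)
    (c1 c2 c3 : Pt (cur a b D) K) (h1 : (2 : ℕ) • c1 = 0) (h2 : (2 : ℕ) • c2 = 0)
    (h3 : (2 : ℕ) • c3 = 0)
    (r1 : ∀ i k, σ (t i) = t k → σ (s i) = (sD t c1 k : K) * s k)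
    (r2 : ∀ i k, τ (t i) = t k → τ (s i) = (sD t c2 k : K) * s k)
    (r3 : ∀ i k, ρ (t i) = t k → ρ (s i) = (sD t c3 k : K) * s k) :
    c3 = c1 + push (cur a b D) σ c2 := by
  have hp2 : (2 : ℕ) • push (cur a b D) σ c2 = 0 := by
    rw [← map_nsmul, h2, map_zero]
  apply hDSG.inj hD ht _ _ h3
  · rw [nsmul_add, h1, hp2, add_zero]
  · intro k
    rw [hDSG.mul hD ht _ _ h1 hp2]
    have e1 := (hDSG.push σ hD ht ht (gs k) k (hgs k) c2).1
    rw [e1]
    have e2 : ρ (t (gt (gs k))) = t k := by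
      rw [hρ, hgt, hgs]
    have e3 := r3 _ _ e2
    rw [hρ, r2 _ _ (hgt (gs k)), map_mul, map_intCast, r1 _ _ (hgs k)] at e3
    have e5 : ((sD t c3 k : K) - (sD t c1 k : K) * (sD t c2 (gs k) : K)) * s k = 0 := by
      linear_combination -e3
    have e6 := sub_eq_zero.1 ((mul_eq_zero.1 e5).resolve_right (hs0 k))
    exact_mod_cast e6

theorem specDEX (hDRT : SpecDRT) (hDIT : SpecDIT) (hDSG : SpecDSG) : SpecDEX := by
  intro F _ _ a b D α hd hD hα
  have hd' : dsc (algebraMap F (AlgebraicClosure F) a) (algebraMap F (AlgebraicClosure F) b) ≠ 0 := by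
    have h1 : dsc (algebraMap F (AlgebraicClosure F) a) (algebraMap F (AlgebraicClosure F) b) =
        algebraMap F (AlgebraicClosure F) (dsc a b) := by
      unfold dsc
      simp only [map_add, map_mul, map_pow, map_ofNat]
    rw [h1]
    exact (_root_.map_ne_zero _).2 hd
  obtain ⟨t, ht⟩ := hDRT.ex (K := AlgebraicClosure F) hd'
  have hev : ∀ i, ev (algebraMap F (AlgebraicClosure F)) (t i) α ≠ 0 :=
    (hDIT.unit (algebraMap F (AlgebraicClosure F)) ht α).1 hα.1
  have hsq : ∀ i, ∃ x : AlgebraicClosure F, x ^ 2 = ev (algebraMap F (AlgebraicClosure F)) (t i) α :=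
    fun i => IsAlgClosed.exists_pow_nat_eq _ (by norm_num)
  choose s hs using hsq
  have hs0 : ∀ i, s i ≠ 0 := by
    intro i h0
    apply hev i
    rw [← hs i, h0]
    norm_num
  obtain ⟨n, hn⟩ := hα.2
  -- the product of the square roots is rational
  have hprod : ∀ σ : Gal F, σ (s 0 * s 1 * s 2) = s 0 * s 1 * s 2 := by
    intro σ
    have h1 := hDIT.nrm (algebraMap F (AlgebraicClosure F)) ht α
    rw [← hs 0, ← hs 1, ← hs 2, hn, map_mul] at h1
    have h2 : (s 0 * s 1 * s 2) ^ 2 = (algebraMap F (AlgebraicClosure F) n) ^ 2 := by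
      linear_combination -h1
    have hfix : σ (algebraMap F (AlgebraicClosure F) n) = algebraMap F (AlgebraicClosure F) n :=
      σ.commutes n
    rcases sq_eq_sq_iff_eq_or_eq_neg.1 h2 with h | h
    · rw [h, hfix]
    · rw [h, map_neg, hfix]
  have hact : ∀ (σ : Gal F) (k : Fin 3), ∃ i, σ (t i) = t k := fun σ k =>
    hDRT.act' (σ : AlgebraicClosure F →+* AlgebraicClosure F) (σ.commutes a) (σ.commutes b) ht k
  choose g hg using hact
  have hguniq : ∀ (σ : Gal F) (i k : Fin 3), σ (t i) = t k → i = g σ k := by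
    intro σ i k h
    apply ht.inj
    apply σ.injective
    rw [h, hg]
  have hginj : ∀ σ : Gal F, Function.Injective (g σ) := by
    intro σ i j hij
    apply ht.inj
    rw [← hg σ i, ← hg σ j, hij]
  have hgbij : ∀ σ : Gal F, Function.Bijective (g σ) := fun σ =>
    ⟨hginj σ, Finite.injective_iff_surjective.1 (hginj σ)⟩
  have hsig : ∀ (σ : Gal F) (k : Fin 3), σ (s (g σ k)) ^ 2 = s k ^ 2 := by
    intro σ k
    rw [← map_pow, hs, hs]
    have h1 := hDIT.gal σ α (t (g σ k))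
    rw [hg] at h1
    exact h1
  let e : Gal F → Fin 3 → ℤ := fun σ k => if σ (s (g σ k)) = s k then 1 else -1
  have he : ∀ σ k, σ (s (g σ k)) = (e σ k : AlgebraicClosure F) * s k := by
    intro σ k
    by_cases h : σ (s (g σ k)) = s k
    · simp only [e, if_pos h, Int.cast_one, one_mul]
      exact h
    · simp only [e, if_neg h, Int.cast_neg, Int.cast_one, neg_mul, one_mul]
      rcases sq_eq_sq_iff_eq_or_eq_neg.1 (hsig σ k) with h1 | h1
      · exact absurd h1 h
      · exact h1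
  have hepm : ∀ σ k, e σ k = 1 ∨ e σ k = -1 := by
    intro σ k
    by_cases h : σ (s (g σ k)) = s k
    · left; simp only [e, if_pos h]
    · right; simp only [e, if_neg h]
  have heprod : ∀ σ, e σ 0 * e σ 1 * e σ 2 = 1 := by
    intro σ
    have h1 : ∏ k, σ (s (g σ k)) = ∏ k, σ (s k) := (hgbij σ).prod_comp fun k => σ (s k)
    have h2 : ∏ k, σ (s (g σ k)) = ∏ k, ((e σ k : AlgebraicClosure F) * s k) :=
      Finset.prod_congr rfl fun k _ => he σ k
    rw [h2] at h1
    simp only [Fin.prod_univ_three] at h1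
    have h3 : σ (s 0) * σ (s 1) * σ (s 2) = s 0 * s 1 * s 2 := by
      rw [← map_mul, ← map_mul]
      exact hprod σ
    rw [h3] at h1
    have h4 : s 0 * s 1 * s 2 ≠ 0 := mul_ne_zero (mul_ne_zero (hs0 0) (hs0 1)) (hs0 2)
    have h5 : ((e σ 0 : AlgebraicClosure F) * e σ 1 * e σ 2 - 1) * (s 0 * s 1 * s 2) = 0 := by
      linear_combination h1
    have h6 := sub_eq_zero.1 ((mul_eq_zero.1 h5).resolve_right h4)
    exact_mod_cast h6
  have hex := fun σ : Gal F => hDSG.ex hD ht (e σ) (hepm σ) (heprod σ)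
  choose c hc2 hc using hex
  have hrel : ∀ (σ : Gal F) (i k : Fin 3), σ (t i) = t k →
      σ (s i) = (sD t (c σ) k : AlgebraicClosure F) * s k := by
    intro σ i k h
    rw [hguniq σ i k h, hc, he]
  refine ⟨c, ⟨?_, ?_⟩, hc2, t, s, ht, fun i => ⟨hs0 i, hs i⟩, hrel⟩
  · intro σ τ
    exact DEXM.coc hDSG hD ht hs0 (AlgEquiv.toAlgHom σ) (AlgEquiv.toAlgHom τ)
      (AlgEquiv.toAlgHom (σ * τ)) (fun _ => rfl) (g σ) (g τ) (hg σ) (hg τ) (c σ) (c τ) (c (σ * τ))
      (hc2 _) (hc2 _) (hc2 _) (hrel σ) (hrel τ) (hrel (σ * τ))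
  · refine ⟨IntermediateField.adjoin F (Set.range t ∪ Set.range s), ?_, ?_⟩
    · have hfin : (Set.range t ∪ Set.range s).Finite := (Set.finite_range t).union (Set.finite_range s)
      have : Finite (Set.range t ∪ Set.range s : Set (AlgebraicClosure F)) := hfin
      apply IntermediateField.finiteDimensional_adjoin
      intro x _
      exact (AlgebraicClosure.isAlgebraic F).isIntegral.isIntegral x
    · intro σ τ h
      have hT : ∀ i, σ (t i) = τ (t i) := fun i =>
        h _ (IntermediateField.subset_adjoin F _ (Or.inl ⟨i, rfl⟩))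
      have hS : ∀ i, σ (s i) = τ (s i) := fun i =>
        h _ (IntermediateField.subset_adjoin F _ (Or.inr ⟨i, rfl⟩))
      have hgg : ∀ k, g σ k = g τ k := by
        intro k
        apply hguniq τ
        rw [← hT, hg]
      apply hDSG.inj hD ht _ _ (hc2 _) (hc2 _)
      intro k
      rw [hc, hc]
      simp only [e, hgg k, hS]

end Pool.Agent.Lib.MP_8cb858_nt.PF
end

section
/-!
# DFI: the 2-Selmer group in terms of the cubic algebra (assembly of part D)
-/
namespace Pool.Agent.Lib.MP_8cb858_nt.PF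

open Polynomial NumberField IsDedekindDomain Pool.Agent.Lib.MP_8cb858_nt.SEL
open scoped Classical

namespace DFIM

theorem fin4 (hBIG : SpecBIG.{0}) {F : Type} [Field F] [NumberField F]
    (v : HeightOneSpectrum (𝓞 F)) {a b D : F} (hd : dsc a b ≠ 0) (hD : D ≠ 0) :
    ∃ R : Pt (cur a b D) (v.adicCompletion F), (4 : ℕ) • R ≠ 0 := by
  refine hBIG F v _ _ ?_
  have h1 : 4 * (a * D ^ 2) ^ 3 + 27 * (b * D ^ 3) ^ 2 = D ^ 6 * dsc a b := by
    unfold dsc
    ring
  rw [h1]
  exact mul_ne_zero (pow_ne_zero _ hD) hd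

end DFIM

theorem specDFI (hDEX : SpecDEX) (hDAL : SpecDAL) (hDLA : SpecDLA) (hDR4 : SpecDR4)
    (hBIG : SpecBIG.{0}) (hDUN : SpecDUN) (hDSU : SpecDSU) (hDIN : SpecDIN)
    (hDMU : SpecDMU) (hINV : SpecINV) : SpecDFI where
  sel := by
    rintro F _ _ a b D hd hD α z ⟨hα, c, hc, -⟩
    obtain ⟨h1, h2, h3, h4⟩ := c.2
    refine ⟨hα, ?_, ?_⟩
    · intro v
      exact hDLA F (v.adicCompletion F) a b D α c.1 hd hD h2 hc (DFIM.fin4 hBIG v hd hD) (h3 v)
    · intro v
      exact hDLA F v.Completion a b D α c.1 hd hD h2 hc (hDR4 F v _ _) (h4 v)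
  ex := by
    rintro F _ _ a b D hd hD α ⟨hα, hp, hr⟩
    obtain ⟨c, hc1, hc2, hc3⟩ := hDEX F a b D α hd hD hα
    have hmem : c ∈ Cocycles 2 (cur a b D) := by
      refine ⟨hc1, hc2, fun v => ?_, fun v => ?_⟩
      · exact hDAL F (v.adicCompletion F) a b D α c hd hD hc2 hα hc3 (hp v)
      · exact hDAL F v.Completion a b D α c hd hD hc2 hα hc3 (hr v)
    exact ⟨QuotientAddGroup.mk ⟨c, hmem⟩, hα, ⟨c, hmem⟩, hc3, rfl⟩
  uni := by
    rintro F _ _ a b D hd hD α z w ⟨hα, c, hc, rfl⟩ ⟨-, c', hc', rfl⟩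
    have h := hDUN F a b D α c'.1 c.1 hD c'.2.2.1 c.2.2.1 hc' hc
    rw [QuotientAddGroup.eq, AddSubgroup.mem_addSubgroupOf]
    have e : (-c + c' : Cocycles 2 (cur a b D)).1 = c'.1 - c.1 := neg_add_eq_sub c.1 c'.1
    exact e ▸ h
  surj := by
    intro F _ _ a b D hd hD z
    obtain ⟨c, rfl⟩ := QuotientAddGroup.mk_surjective z
    obtain ⟨α, hα, hc⟩ := hDSU F a b D c.1 hd hD c.2.1 c.2.2.1
    exact ⟨α, hα, c, hc, rfl⟩
  inj := by
    rintro F _ _ a b D hd hD α β z ⟨hα, c, hc, hz⟩ ⟨hβ, c', hc', hz'⟩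
    apply hDIN F a b D α β c.1 c'.1 hD c.2.2.1 c'.2.2.1 hc hc'
    have h : (QuotientAddGroup.mk c' : Sel 2 (cur a b D)) = QuotientAddGroup.mk c := by
      rw [hz, hz']
    rw [QuotientAddGroup.eq, AddSubgroup.mem_addSubgroupOf] at h
    have e : (-c' + c : Cocycles 2 (cur a b D)).1 = c.1 - c'.1 := neg_add_eq_sub c'.1 c.1
    exact e ▸ h
  mul := by
    rintro F _ _ a b D hd hD α β z w ⟨hα, c, hc, rfl⟩ ⟨hβ, c', hc', rfl⟩
    exact ⟨hINV.mul α β hα hβ, c + c',
      hDMU.1 F a b D α β c.1 c'.1 hD c.2.2.1 c'.2.2.1 hc hc', rfl⟩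
  sqr := by
    rintro F _ _ a b D hd hD α γ z hγ ⟨hα, c, hc, rfl⟩
    exact ⟨(hINV.msq α γ hγ).2 hα, c, hDMU.2 F a b D α γ c.1 hγ hc, rfl⟩

end Pool.Agent.Lib.MP_8cb858_nt.PF
end

section
/-!
# DR4: local points which are not killed by 4
-/
set_option autoImplicit false

namespace Pool.Agent.Lib.MP_8cb858_nt.PF

open Polynomial NumberField IsDedekindDomain Pool.Agent.Lib.MP_8cb858_nt.SEL
open scoped Classical

namespace DR4M

theorem cubic_pos {a b M X : ℝ} (hM : M = 1 + |a| + |b|) (hX : M ≤ X) :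
    0 < X ^ 3 + a * X + b := by
  have ha := neg_abs_le a
  have hb := neg_abs_le b
  have ha0 := abs_nonneg a
  have hb0 := abs_nonneg b
  have hX1 : 1 ≤ X := by linarith
  have h1 : -(|a| * X) ≤ a * X := by nlinarith
  have h2 : -(|b| * X) ≤ b := by nlinarith
  have h3 : (|a| + |b|) * X ≤ (X - 1) * X := by
    apply mul_le_mul_of_nonneg_right _ (by linarith)
    linarith
  have h4 : 0 < X ^ 3 - (X - 1) * X := by
    have : X ^ 3 - (X - 1) * X = X * ((X - 1) ^ 2 + X) := by ring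
    rw [this]
    positivity
  nlinarith

theorem double_ge {a b M X Z X' : ℝ} (hM : M = 1 + |a| + |b|) (hX : X = 100 * M)
    (hZ : Z = X ^ 3 + a * X + b) (h : 4 * Z * X' = (3 * X ^ 2 + a) ^ 2 - 8 * X * Z) : M ≤ X' := by
  have ha := neg_abs_le a
  have hb := neg_abs_le b
  have ha' := le_abs_self a
  have hb' := le_abs_self b
  have ha0 := abs_nonneg a
  have hb0 := abs_nonneg b
  have hM1 : 1 ≤ M := by linarith
  have hX100 : 100 ≤ X := by linarith
  have hX0 : 0 < X := by linarith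
  have hZ0 : 0 < Z := by
    rw [hZ]
    exact cubic_pos hM (by linarith)
  have haX : a ≤ X := by linarith
  have hbX : b ≤ X := by linarith
  have hZ2 : Z ≤ 2 * X ^ 3 := by
    have h1 : a * X ≤ X * X := mul_le_mul_of_nonneg_right haX hX0.le
    have h2 : X ≤ X * X := by nlinarith
    have h3 : 2 * (X * X) ≤ X * (X * X) := by nlinarith [mul_pos hX0 hX0]
    rw [hZ]
    nlinarith
  have hR : X ^ 4 / 2 ≤ 4 * Z * X' := by
    rw [h, hZ]
    have h1 : a * X ^ 2 ≤ (X / 100) * X ^ 2 :=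
      mul_le_mul_of_nonneg_right (by linarith) (sq_nonneg X)
    have h2 : b * X ≤ (X / 100) * X := mul_le_mul_of_nonneg_right (by linarith) hX0.le
    have h3 : X ^ 3 ≤ X ^ 4 / 100 := by
      have : X ^ 3 * 100 ≤ X ^ 3 * X := mul_le_mul_of_nonneg_left hX100 (by positivity)
      nlinarith
    have h4 : X ^ 2 ≤ X ^ 4 / 100 := by
      have h5 : X ^ 2 ≤ X ^ 3 := by nlinarith [sq_nonneg X]
      linarith
    have h6 : (3 * X ^ 2 + a) ^ 2 - 8 * X * (X ^ 3 + a * X + b) =
        X ^ 4 - 2 * (a * X ^ 2) - 8 * (b * X) + a ^ 2 := by ring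
    rw [h6]
    nlinarith [sq_nonneg a]
  by_contra hc
  push Not at hc
  have h1 : 4 * Z * X' < 4 * Z * M := by
    apply mul_lt_mul_of_pos_left hc
    linarith
  have h2 : 4 * Z * M ≤ 8 * X ^ 3 * M := by
    apply mul_le_mul_of_nonneg_right _ (by linarith)
    linarith
  have h3 : 8 * X ^ 3 * M = X ^ 4 * (8 / 100) := by
    rw [hX]
    ring
  have h4 : 0 < X ^ 4 := by positivity
  linarith

theorem exists_point {F K : Type} [Field F] [Field K] [CharZero K] [Algebra F K] (φ : K ≃+* ℝ)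
    (a b : F) : ∃ R : Pt (curve a b) K, (4 : ℕ) • R ≠ 0 := by
  set al := algebraMap F K a with hal
  set be := algebraMap F K b with hbe
  obtain ⟨M, hM⟩ : ∃ M, M = 1 + |φ al| + |φ be| := ⟨_, rfl⟩
  obtain ⟨X, hX⟩ : ∃ X, X = 100 * M := ⟨_, rfl⟩
  have hM1 : 1 ≤ M := by
    have := abs_nonneg (φ al)
    have := abs_nonneg (φ be)
    linarith
  have hpos : 0 < X ^ 3 + φ al * X + φ be := cubic_pos hM (by linarith)
  set Y := Real.sqrt (X ^ 3 + φ al * X + φ be) with hY
  have hY0 : Y ≠ 0 := (Real.sqrt_pos.2 hpos).ne'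
  have hY2 : Y ^ 2 = X ^ 3 + φ al * X + φ be := Real.sq_sqrt hpos.le
  have hy0 : φ.symm Y ≠ 0 := by
    intro h
    apply hY0
    have := congrArg φ h
    simpa using this
  have hxy : (φ.symm Y) ^ 2 = (φ.symm X) ^ 3 + al * φ.symm X + be := by
    apply φ.injective
    simpa using hY2
  have hns := BIGM.nonsing (K := K) a b hy0 hxy
  obtain ⟨x', y', h', e1, e2⟩ := BIGM.dbl a b hns hy0
  have e3 : 4 * (X ^ 3 + φ al * X + φ be) * φ x' =
      (3 * X ^ 2 + φ al) ^ 2 - 8 * X * (X ^ 3 + φ al * X + φ be) := by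
    have e5 := congrArg φ e2
    simp only [map_mul, map_pow, map_sub, map_add, map_ofNat, RingEquiv.apply_symm_apply] at e5
    rw [← hY2]
    exact e5
  have hX' := double_ge hM hX rfl e3
  have hy' : y' ^ 2 = x' ^ 3 + al * x' + be := (BIGM.eqn a b).1 h'.1
  have hy'0 : y' ≠ 0 := by
    intro h0
    have h1 := congrArg φ hy'
    rw [h0] at h1
    have h2 := cubic_pos hM hX'
    simp at h1
    linarith
  obtain ⟨x'', y'', h'', e4, _⟩ := BIGM.dbl a b h' hy'0
  refine ⟨WeierstrassCurve.Affine.Point.some _ _ hns, ?_⟩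
  have h4 : (4 : ℕ) = 2 * 2 := by norm_num
  rw [h4, mul_nsmul, e1, e4]
  exact WeierstrassCurve.Affine.Point.some_ne_zero _

/-! ## Complex places -/

theorem cubic_ne {a b z : ℂ} {M : ℝ} (hM : M = 1 + ‖a‖ + ‖b‖) (hz : M ≤ ‖z‖) :
    z ^ 3 + a * z + b ≠ 0 := by
  intro h
  have ha0 := norm_nonneg a
  have hb0 := norm_nonneg b
  have h1 : z ^ 3 = -(a * z + b) := by linear_combination h
  have h2 : ‖z‖ ^ 3 ≤ ‖a‖ * ‖z‖ + ‖b‖ := by
    rw [← norm_pow, h1, norm_neg]
    refine (norm_add_le _ _).trans ?_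
    rw [norm_mul]
  have hz1 : 1 ≤ ‖z‖ := by linarith
  have h3 : ‖a‖ * ‖z‖ + ‖b‖ ≤ (‖z‖ - 1) * ‖z‖ := by
    have h4 : (‖a‖ + ‖b‖) * ‖z‖ ≤ (‖z‖ - 1) * ‖z‖ :=
      mul_le_mul_of_nonneg_right (by linarith) (by linarith)
    nlinarith
  have h5 : ‖z‖ ^ 3 - (‖z‖ - 1) * ‖z‖ = ‖z‖ * ((‖z‖ - 1) ^ 2 + ‖z‖) := by ring
  have h6 : 0 < ‖z‖ * ((‖z‖ - 1) ^ 2 + ‖z‖) := by positivity
  linarith

theorem double_norm {a b x' : ℂ} {M X : ℝ} (hM : M = 1 + ‖a‖ + ‖b‖) (hX : X = 100 * M)
    (h : 4 * ((X : ℂ) ^ 3 + a * X + b) * x' =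
      (3 * (X : ℂ) ^ 2 + a) ^ 2 - 8 * X * ((X : ℂ) ^ 3 + a * X + b)) : M ≤ ‖x'‖ := by
  have ha0 := norm_nonneg a
  have hb0 := norm_nonneg b
  have hM1 : 1 ≤ M := by linarith
  have hX100 : 100 ≤ X := by linarith
  have hX0 : 0 < X := by linarith
  have haX : ‖a‖ ≤ X / 100 := by linarith
  have hbX : ‖b‖ ≤ X / 100 := by linarith
  have hXn : ‖(X : ℂ)‖ = X := by rw [Complex.norm_real, Real.norm_of_nonneg hX0.le]
  have p2 : X ≤ X ^ 2 / 100 := by nlinarith
  have p3 : X ^ 2 ≤ X ^ 3 / 100 := by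
    have := mul_le_mul_of_nonneg_left hX100 (sq_nonneg X)
    nlinarith
  have p4 : X ^ 3 ≤ X ^ 4 / 100 := by
    have := mul_le_mul_of_nonneg_left hX100 (by positivity : (0 : ℝ) ≤ X ^ 3)
    nlinarith
  -- the left side
  have hL : ‖4 * ((X : ℂ) ^ 3 + a * X + b) * x'‖ ≤ 8 * X ^ 3 * ‖x'‖ := by
    rw [norm_mul, norm_mul]
    refine mul_le_mul_of_nonneg_right ?_ (norm_nonneg _)
    have h1 : ‖(X : ℂ) ^ 3 + a * X + b‖ ≤ X ^ 3 + ‖a‖ * X + ‖b‖ := by
      refine (norm_add_le _ _).trans ?_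
      refine add_le_add_left ?_ _ |>.trans (le_of_eq rfl)
      refine (norm_add_le _ _).trans ?_
      rw [norm_pow, norm_mul, hXn]
    have h2 : ‖a‖ * X ≤ X / 100 * X := mul_le_mul_of_nonneg_right haX hX0.le
    have h4 : ‖(4 : ℂ)‖ = 4 := by simp
    rw [h4]
    nlinarith
  -- the right side
  have hR : X ^ 4 / 2 ≤ ‖4 * ((X : ℂ) ^ 3 + a * X + b) * x'‖ := by
    rw [h]
    have h1 : (3 * (X : ℂ) ^ 2 + a) ^ 2 - 8 * X * ((X : ℂ) ^ 3 + a * X + b) =
        (X : ℂ) ^ 4 - (2 * a * (X : ℂ) ^ 2 + 8 * b * X - a ^ 2) := by ring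
    rw [h1]
    have h2 := norm_sub_norm_le ((X : ℂ) ^ 4) (2 * a * (X : ℂ) ^ 2 + 8 * b * X - a ^ 2)
    have h3 : ‖2 * a * (X : ℂ) ^ 2 + 8 * b * X - a ^ 2‖ ≤
        2 * ‖a‖ * X ^ 2 + 8 * ‖b‖ * X + ‖a‖ ^ 2 := by
      refine (norm_sub_le _ _).trans ?_
      rw [norm_pow a]
      refine add_le_add_left ?_ _ |>.trans (le_of_eq rfl)
      refine (norm_add_le _ _).trans ?_
      rw [norm_mul, norm_mul, norm_mul, norm_mul, norm_pow, hXn]
      simp
    have h4 : ‖(X : ℂ) ^ 4‖ = X ^ 4 := by rw [norm_pow, hXn]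
    rw [h4] at h2
    have h5 : ‖a‖ * X ^ 2 ≤ X / 100 * X ^ 2 := mul_le_mul_of_nonneg_right haX (sq_nonneg X)
    have h6 : ‖b‖ * X ≤ X / 100 * X := mul_le_mul_of_nonneg_right hbX hX0.le
    have h7 : ‖a‖ ^ 2 ≤ X ^ 2 := by
      refine pow_le_pow_left₀ ha0 ?_ 2
      linarith
    nlinarith
  by_contra hc
  push Not at hc
  have h1 : 8 * X ^ 3 * ‖x'‖ < 8 * X ^ 3 * M := mul_lt_mul_of_pos_left hc (by positivity)
  have h3 : 8 * X ^ 3 * M = X ^ 4 * (8 / 100) := by
    rw [hX]
    ring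
  have h4 : 0 < X ^ 4 := by positivity
  linarith

theorem exists_point_complex {F K : Type} [Field F] [Field K] [CharZero K] [Algebra F K]
    (φ : K ≃+* ℂ) (a b : F) : ∃ R : Pt (curve a b) K, (4 : ℕ) • R ≠ 0 := by
  set al := algebraMap F K a with hal
  set be := algebraMap F K b with hbe
  obtain ⟨M, hM⟩ : ∃ M, M = 1 + ‖φ al‖ + ‖φ be‖ := ⟨_, rfl⟩
  obtain ⟨X, hX⟩ : ∃ X, X = 100 * M := ⟨_, rfl⟩
  have hM1 : 1 ≤ M := by
    have := norm_nonneg (φ al)
    have := norm_nonneg (φ be)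
    linarith
  have hXn : M ≤ ‖(X : ℂ)‖ := by
    rw [Complex.norm_real, Real.norm_of_nonneg (by linarith)]
    linarith
  have hne : (X : ℂ) ^ 3 + φ al * X + φ be ≠ 0 := cubic_ne hM hXn
  obtain ⟨Y, hY2⟩ := IsAlgClosed.exists_pow_nat_eq ((X : ℂ) ^ 3 + φ al * X + φ be)
    (by norm_num : 0 < 2)
  have hY0 : Y ≠ 0 := by
    rintro rfl
    apply hne
    rw [← hY2]
    norm_num
  have hy0 : φ.symm Y ≠ 0 := by
    intro h
    apply hY0
    have := congrArg φ h
    simpa using this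
  have hxy : (φ.symm Y) ^ 2 = (φ.symm (X : ℂ)) ^ 3 + al * φ.symm (X : ℂ) + be := by
    apply φ.injective
    simpa using hY2
  have hns := BIGM.nonsing (K := K) a b hy0 hxy
  obtain ⟨x', y', h', e1, e2⟩ := BIGM.dbl a b hns hy0
  have e3 : 4 * ((X : ℂ) ^ 3 + φ al * X + φ be) * φ x' =
      (3 * (X : ℂ) ^ 2 + φ al) ^ 2 - 8 * X * ((X : ℂ) ^ 3 + φ al * X + φ be) := by
    have e5 := congrArg φ e2
    simp only [map_mul, map_pow, map_sub, map_add, map_ofNat, RingEquiv.apply_symm_apply] at e5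
    rw [← hY2]
    exact e5
  have hX' := double_norm hM hX e3
  have hy' : y' ^ 2 = x' ^ 3 + al * x' + be := (BIGM.eqn a b).1 h'.1
  have hy'0 : y' ≠ 0 := by
    intro h0
    have h1 := congrArg φ hy'
    rw [h0] at h1
    refine cubic_ne hM hX' ?_
    simpa using h1.symm
  obtain ⟨x'', y'', h'', e4, _⟩ := BIGM.dbl a b h' hy'0
  refine ⟨WeierstrassCurve.Affine.Point.some _ _ hns, ?_⟩
  have h4 : (4 : ℕ) = 2 * 2 := by norm_num
  rw [h4, mul_nsmul, e1, e4]
  exact WeierstrassCurve.Affine.Point.some_ne_zero _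

end DR4M

theorem specDR4 : SpecDR4 := by
  intro F _ _ v a b
  rcases v.isReal_or_isComplex with h | h
  · exact DR4M.exists_point (InfinitePlace.Completion.ringEquivRealOfIsReal h) a b
  · exact DR4M.exists_point_complex (InfinitePlace.Completion.ringEquivComplexOfIsComplex h) a b

end Pool.Agent.Lib.MP_8cb858_nt.PF
end

section
/-!
# NFA: the completions of a number field are local fields
-/
namespace Pool.Agent.Lib.MP_8cb858_nt.PF.NFAM

open NumberField IsDedekindDomain Filter Pool.Agent.Lib.MP_8cb858_nt.SEL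
open scoped Classical WithZero Topology

variable {F : Type} [Field F] [NumberField F]

/-- The open balls of `v.adicCompletion F`. -/
theorem ball_mem (v : HeightOneSpectrum (𝓞 F)) (x : v.adicCompletion F) {g : ℤᵐ⁰} (hg : g ≠ 0) :
    {y | vv v (y - x) < g} ∈ 𝓝 x := by
  obtain ⟨z, hz⟩ := HeightOneSpectrum.valuedAdicCompletion_surjective F v g
  have hz0 : (Valued.v.restrict z :
      MonoidWithZeroHom.ValueGroup₀ (.ofClass (Valued.v : Valuation (v.adicCompletion F) ℤᵐ⁰))) ≠ 0 := by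
    intro h
    apply hg
    rw [← hz]
    have : z = 0 := (Valuation.zero_iff _).1 h
    rw [this, map_zero]
  rw [Valued.mem_nhds]
  refine ⟨Units.mk0 _ hz0, ?_⟩
  intro y hy
  have h1 : (Valued.v.restrict (y - x) :
      MonoidWithZeroHom.ValueGroup₀ (.ofClass (Valued.v : Valuation (v.adicCompletion F) ℤᵐ⁰))) <
        Valued.v.restrict z := hy
  have h2 := (Valuation.restrict_lt_iff_lt_embedding _).1 h1
  show vv v (y - x) < g
  rw [← hz]
  simpa using h2

/-- Density of `F`. -/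
theorem dense_F (v : HeightOneSpectrum (𝓞 F)) (x : v.adicCompletion F) {g : ℤᵐ⁰} (hg : g ≠ 0) :
    ∃ y : F, vv v (algebraMap F (v.adicCompletion F) y - x) < g := by
  have h1 := (HeightOneSpectrum.denseRange_algebraMap (K := F) v).closure_range
  have h2 : x ∈ closure (Set.range (algebraMap F (v.adicCompletion F))) := by
    rw [h1]; trivial
  obtain ⟨y, hy, y', rfl⟩ := mem_closure_iff_nhds.1 h2 _ (ball_mem v x hg)
  exact ⟨y', hy⟩

/-- Density of `𝓞 F` in the integers. -/
theorem dense_O (v : HeightOneSpectrum (𝓞 F)) (x : v.adicCompletion F) (hx : vv v x ≤ 1)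
    {g : ℤᵐ⁰} (hg : g ≠ 0) (hg1 : g ≤ 1) :
    ∃ y : 𝓞 F, vv v (algebraMap F (v.adicCompletion F) (y : F) - x) < g := by
  obtain ⟨y, hy⟩ := dense_F v x hg
  have h1 : vv v (algebraMap F (v.adicCompletion F) y) ≤ 1 := by
    have : algebraMap F (v.adicCompletion F) y = (algebraMap F (v.adicCompletion F) y - x) + x := by
      ring
    rw [this]
    exact (Valuation.map_add _ _ _).trans (max_le (hy.le.trans hg1) hx)
  have h2 : v.valuation F y ≤ 1 := by
    rw [← HeightOneSpectrum.valuedAdicCompletion_eq_valuation' v y]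
    exact h1
  obtain ⟨a, ha⟩ := HeightOneSpectrum.exists_valuation_sub_lt_of_integer (K := F) v h2 (Units.mk0 g hg)
  refine ⟨a, ?_⟩
  have h3 : vv v (algebraMap F (v.adicCompletion F) ((a : F) - y)) < g := by
    have := HeightOneSpectrum.valuedAdicCompletion_eq_valuation' v ((a : F) - y)
    exact lt_of_eq_of_lt this ha
  have h4 : algebraMap F (v.adicCompletion F) (a : F) - x =
      algebraMap F (v.adicCompletion F) ((a : F) - y) + (algebraMap F (v.adicCompletion F) y - x) := by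
    rw [map_sub]; ring
  rw [h4]
  exact Valuation.map_add_lt _ h3 hy

/-- units of the valuation ring -/
theorem unit_one {K : Type} [Field K] (w : Valuation K ℤᵐ⁰) {a : w.valuationSubring} (h : IsUnit a) :
    w (a : K) = 1 := by
  obtain ⟨b, hb⟩ := h.exists_right_inv
  have h1 : w (a : K) * w (b : K) = 1 := by
    rw [← map_mul]
    have : ((a * b : w.valuationSubring) : K) = 1 := by rw [hb]; rfl
    rw [show (a : K) * (b : K) = ((a * b : w.valuationSubring) : K) from rfl, this, map_one]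
  have ha : w (a : K) ≤ 1 := a.2
  have hb' : w (b : K) ≤ 1 := b.2
  refine le_antisymm ha ?_
  calc (1 : ℤᵐ⁰) = w (a : K) * w (b : K) := h1.symm
    _ ≤ w (a : K) * 1 := mul_le_mul_right hb' _
    _ = w (a : K) := mul_one _

/-- the residue field is finite -/
theorem fin_res (v : HeightOneSpectrum (𝓞 F)) :
    Finite (IsLocalRing.ResidueField (vv v).valuationSubring) := by
  have hfin : Finite (𝓞 F ⧸ v.asIdeal) := Ideal.finiteQuotientOfFreeOfNeBot v.asIdeal v.ne_bot
  have hle : ∀ x : 𝓞 F, vv v (algebraMap F (v.adicCompletion F) (x : F)) ≤ 1 := fun x => by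
    have := HeightOneSpectrum.valuedAdicCompletion_eq_valuation' v (x : F)
    exact (le_of_eq this).trans (v.valuation_le_one x)
  let f : 𝓞 F →+* (vv v).valuationSubring :=
    { toFun := fun x => ⟨algebraMap F (v.adicCompletion F) (x : F), hle x⟩
      map_one' := by ext; simp
      map_zero' := by ext; simp
      map_add' := fun x y => by ext; simp
      map_mul' := fun x y => by ext; simp }
  let g : 𝓞 F →+* IsLocalRing.ResidueField (vv v).valuationSubring :=
    (IsLocalRing.residue _).comp f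
  have hg : ∀ x ∈ v.asIdeal, g x = 0 := by
    intro x hx
    show IsLocalRing.residue _ (f x) = 0
    rw [IsLocalRing.residue_eq_zero_iff, IsLocalRing.mem_maximalIdeal, mem_nonunits_iff]
    intro hu
    have h1 : vv v (f x : v.adicCompletion F) = 1 := unit_one (vv v) hu
    have h2 : vv v (algebraMap F (v.adicCompletion F) (x : F)) < 1 := by
      have := HeightOneSpectrum.valuedAdicCompletion_eq_valuation' v (x : F)
      refine lt_of_eq_of_lt this ?_
      exact (v.valuation_lt_one_iff_mem x).2 hx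
    exact absurd h1 h2.ne
  let h : 𝓞 F ⧸ v.asIdeal →+* IsLocalRing.ResidueField (vv v).valuationSubring :=
    Ideal.Quotient.lift v.asIdeal g hg
  refine Finite.of_surjective h ?_
  intro y
  obtain ⟨⟨x, hx⟩, rfl⟩ := IsLocalRing.residue_surjective y
  obtain ⟨a, ha⟩ := dense_O v x hx (g := 1) one_ne_zero le_rfl
  refine ⟨Ideal.Quotient.mk _ a, ?_⟩
  show IsLocalRing.residue _ (f a) = _
  rw [← sub_eq_zero, ← map_sub, IsLocalRing.residue_eq_zero_iff, IsLocalRing.mem_maximalIdeal,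
    mem_nonunits_iff]
  intro hu
  have h1 := unit_one (vv v) hu
  exact absurd h1 (ne_of_lt ha)

/-- completeness -/
theorem compl (v : HeightOneSpectrum (𝓞 F)) (s : ℕ → v.adicCompletion F)
    (hs : ∀ n : ℕ, vv v (s (n + 1) - s n) ≤ WithZero.exp (-(n : ℤ))) :
    ∃ x : v.adicCompletion F, ∀ n : ℕ, vv v (x - s n) ≤ WithZero.exp (-(n : ℤ)) := by
  have : NonarchimedeanAddGroup (v.adicCompletion F) := BIGM.nonarch (G := ℤᵐ⁰)
  have h1 : Tendsto (fun n => s (n + 1) - s n) atTop (𝓝 0) := by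
    refine BIGM.tendsto_of_le_pow (G := ℤᵐ⁰) (g := WithZero.exp (-1 : ℤ)) ?_ ?_
    · rw [← WithZero.exp_zero]
      exact WithZero.exp_lt_exp.2 (by norm_num)
    · intro n
      refine (hs n).trans (le_of_eq ?_)
      rw [← WithZero.exp_nsmul]
      congr 1
      simp
  have h2 : CauchySeq s := NonarchimedeanAddGroup.cauchySeq_of_tendsto_sub_nhds_zero h1
  obtain ⟨x, hx⟩ := cauchySeq_tendsto_of_complete h2
  refine ⟨x, fun n => ?_⟩
  have h3 : ∀ m, n ≤ m → vv v (s m - s n) ≤ WithZero.exp (-(n : ℤ)) := by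
    intro m hm
    induction m, hm using Nat.le_induction with
    | base => rw [sub_self, map_zero]; exact zero_le
    | succ k hk ih =>
      have e : s (k + 1) - s n = (s (k + 1) - s k) + (s k - s n) := by ring
      rw [e]
      refine (Valuation.map_add _ _ _).trans (max_le ((hs k).trans ?_) ih)
      exact WithZero.exp_le_exp.2 (by omega)
  have h4 := hx.eventually (ball_mem v x (g := WithZero.exp (-(n : ℤ))) WithZero.exp_ne_zero)
  obtain ⟨m, hm⟩ := (h4.and (eventually_ge_atTop n)).exists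
  have e : x - s n = -(s m - x) + (s m - s n) := by ring
  rw [e]
  refine (Valuation.map_add _ _ _).trans (max_le ?_ (h3 m hm.2))
  rw [Valuation.map_neg]
  exact le_of_lt hm.1

end Pool.Agent.Lib.MP_8cb858_nt.PF.NFAM

namespace Pool.Agent.Lib.MP_8cb858_nt.PF

open NumberField IsDedekindDomain

theorem specNFA : SpecNFA := fun F _ _ v =>
  { surj := HeightOneSpectrum.valuedAdicCompletion_surjective F v
    fin := NFAM.fin_res v
    comp := NFAM.compl v }

end Pool.Agent.Lib.MP_8cb858_nt.PF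
end

section
/-!
# Reciprocity, module SQV (helper65): square classes at an odd place of degree one
-/
namespace Pool.Agent.Lib.MP_8cb858_nt.PF.RF

open NumberField IsDedekindDomain
open scoped Classical WithZero

universe u

namespace SQVM

variable {F : Type u} [Field F] [NumberField F]

theorem val_alg (w : HeightOneSpectrum (𝓞 F)) (x : F) :
    (Valued.v (algebraMap F (w.adicCompletion F) x) : ℤᵐ⁰) = w.valuation F x :=
  w.valuedAdicCompletion_eq_valuation' x

theorem val_le (w : HeightOneSpectrum (𝓞 F)) (a : 𝓞 F) :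
    (Valued.v (algebraMap F (w.adicCompletion F) (a : F)) : ℤᵐ⁰) ≤ 1 := by
  rw [val_alg]; exact w.valuation_le_one a

theorem val_lt (w : HeightOneSpectrum (𝓞 F)) (a : 𝓞 F) :
    (Valued.v (algebraMap F (w.adicCompletion F) (a : F)) : ℤᵐ⁰) < 1 ↔ a ∈ w.asIdeal := by
  rw [val_alg]; exact w.valuation_lt_one_iff_mem a

theorem val_one (w : HeightOneSpectrum (𝓞 F)) {a : 𝓞 F} (ha : a ∉ w.asIdeal) :
    (Valued.v (algebraMap F (w.adicCompletion F) (a : F)) : ℤᵐ⁰) = 1 :=
  le_antisymm (val_le w a) (not_lt.1 fun h => ha ((val_lt w a).1 h))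

theorem val_int_lt (w : HeightOneSpectrum (𝓞 F)) (a : ℤ) :
    (Valued.v ((a : ℤ) : w.adicCompletion F) : ℤᵐ⁰) < 1 ↔ (a : 𝓞 F) ∈ w.asIdeal := by
  rw [← val_lt]; simp

theorem val_int_one (w : HeightOneSpectrum (𝓞 F)) {a : ℤ} (ha : (a : 𝓞 F) ∉ w.asIdeal) :
    (Valued.v ((a : ℤ) : w.adicCompletion F) : ℤᵐ⁰) = 1 := by
  have := val_one w ha
  simpa using this

omit [NumberField F] in
/-- an odd place -/
theorem two_notMem {w : HeightOneSpectrum (𝓞 F)} {ℓ : ℕ} (h4 : ℓ % 4 = 1)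
    (hw : (ℓ : 𝓞 F) ∈ w.asIdeal) : (2 : 𝓞 F) ∉ w.asIdeal := by
  intro h2
  apply w.isPrime.ne_top
  rw [Ideal.eq_top_iff_one]
  obtain ⟨k, hk⟩ : ∃ k : ℕ, ℓ = 2 * k + 1 := ⟨ℓ / 2, by omega⟩
  have : (1 : 𝓞 F) = (ℓ : 𝓞 F) - (k : 𝓞 F) * 2 := by rw [hk]; push_cast; ring
  rw [this]
  exact w.asIdeal.sub_mem hw (w.asIdeal.mul_mem_left _ h2)

theorem val_four {w : HeightOneSpectrum (𝓞 F)} {ℓ : ℕ} (h4 : ℓ % 4 = 1)
    (hw : (ℓ : 𝓞 F) ∈ w.asIdeal) : (Valued.v (4 : w.adicCompletion F) : ℤᵐ⁰) = 1 := by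
  have h2 : (Valued.v ((2 : ℤ) : w.adicCompletion F) : ℤᵐ⁰) = 1 :=
    val_int_one w (by push_cast; exact two_notMem h4 hw)
  have : (4 : w.adicCompletion F) = ((2 : ℤ) : w.adicCompletion F) ^ 2 := by push_cast; norm_num
  rw [this, map_pow, h2, one_pow]

theorem near {w : HeightOneSpectrum (𝓞 F)} (h4 : (Valued.v (4 : w.adicCompletion F) : ℤᵐ⁰) = 1)
    {y z : w.adicCompletion F} (hz : (Valued.v z : ℤᵐ⁰) = 1)
    (hyz : (Valued.v (y - z) : ℤᵐ⁰) < 1) : ∃ s : w.adicCompletion F, s ≠ 0 ∧ y = z * s ^ 2 := by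
  have hz0 : z ≠ 0 := by
    rintro rfl
    rw [map_zero] at hz
    exact zero_ne_one hz
  have h40 : (4 : w.adicCompletion F) ≠ 0 := by
    intro h
    rw [h, map_zero] at h4
    exact zero_ne_one h4
  obtain ⟨s, hs⟩ := SEL.BIGM.sq_of_near (G := ℤᵐ⁰) h40 (u := y / z) (by
    have e : y / z - 1 = (y - z) / z := by field_simp
    rw [e, map_div₀, hz, div_one, h4]
    exact hyz)
  have hy : y = z * s ^ 2 := by rw [hs]; field_simp
  refine ⟨s, ?_, hy⟩
  rintro rfl
  rw [zero_pow two_ne_zero, mul_zero] at hy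
  rw [hy, zero_sub, Valuation.map_neg, hz] at hyz
  exact lt_irrefl _ hyz

/-- integers represent the residue classes at a place of degree one -/
theorem int_repr {v : HeightOneSpectrum (𝓞 F)} {ℓ : ℕ} (hℓ : ℓ.Prime)
    (hv : Ideal.absNorm v.asIdeal = ℓ) (n : 𝓞 F) : ∃ m : ℤ, n - (m : 𝓞 F) ∈ v.asIdeal := by
  have hcard : Nat.card (𝓞 F ⧸ v.asIdeal) = ℓ := by
    rw [← hv]; rfl
  have hfact : Fact (Nat.card (𝓞 F ⧸ v.asIdeal)).Prime := ⟨by rw [hcard]; exact hℓ⟩
  have hH : (Int.castAddHom (𝓞 F ⧸ v.asIdeal)).range = ⊤ := by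
    rcases AddSubgroup.eq_bot_or_eq_top_of_prime_card (Int.castAddHom (𝓞 F ⧸ v.asIdeal)).range
      with h | h
    · exfalso
      have h1 : (1 : 𝓞 F ⧸ v.asIdeal) ∈ (Int.castAddHom (𝓞 F ⧸ v.asIdeal)).range := ⟨1, by simp⟩
      rw [h, AddSubgroup.mem_bot] at h1
      have h2 : (1 : 𝓞 F) ∈ v.asIdeal := Ideal.Quotient.eq_zero_iff_mem.1 (by simpa only [map_one] using h1)
      exact v.isPrime.ne_top ((Ideal.eq_top_iff_one _).2 h2)
    · exact h
  have hmem : (Ideal.Quotient.mk v.asIdeal n) ∈ (Int.castAddHom (𝓞 F ⧸ v.asIdeal)).range := by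
    rw [hH]; trivial
  obtain ⟨m, hm⟩ := hmem
  refine ⟨m, ?_⟩
  rw [← Ideal.Quotient.eq_zero_iff_mem, map_sub, ← hm]
  simp

/-- a unit is close to an integer -/
theorem unit_near {v : HeightOneSpectrum (𝓞 F)} {ℓ : ℕ} (hℓ : ℓ.Prime)
    (hv : Ideal.absNorm v.asIdeal = ℓ) {y : v.adicCompletion F}
    (hy : (Valued.v y : ℤᵐ⁰) = 1) : ∃ m : ℤ, (Valued.v (y - (m : v.adicCompletion F)) : ℤᵐ⁰) < 1 := by
  have hopen : IsOpen {z : v.adicCompletion F | (Valued.v (y - z) : ℤᵐ⁰) < 1} := by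
    have h1 : IsOpen {z : v.adicCompletion F | (Valued.v z : ℤᵐ⁰) < 1} := by
      have := Valued.isOpen_ball (v.adicCompletion F) 1
      simpa only [Valuation.restrict_lt_one_iff] using this
    exact h1.preimage (continuous_const.sub continuous_id)
  obtain ⟨z, hz⟩ := (HeightOneSpectrum.denseRange_algebraMap (K := F) v).exists_mem_open hopen
    ⟨y, by simp⟩
  have hz' : (Valued.v (y - algebraMap F (v.adicCompletion F) z) : ℤᵐ⁰) < 1 := hz
  have hz1 : v.valuation F z ≤ 1 := by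
    rw [← val_alg]
    have : algebraMap F (v.adicCompletion F) z = y - (y - algebraMap F (v.adicCompletion F) z) := by
      ring
    rw [this]
    exact (Valuation.map_sub _ _ _).trans (max_le hy.le hz'.le)
  obtain ⟨n, hn⟩ := v.exists_valuation_sub_lt_of_integer hz1 1
  rw [Units.val_one, ← val_alg, map_sub] at hn
  obtain ⟨m, hm⟩ := int_repr hℓ hv n
  rw [← val_lt] at hm
  refine ⟨m, ?_⟩
  have e : y - (m : v.adicCompletion F) = (y - algebraMap F (v.adicCompletion F) z) +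
      (-(algebraMap F (v.adicCompletion F) (algebraMap (𝓞 F) F n) -
        algebraMap F (v.adicCompletion F) z) +
      algebraMap F (v.adicCompletion F) ((n - (m : 𝓞 F) : 𝓞 F) : F)) := by
    simp only [map_sub, map_intCast]
    ring
  rw [e]
  refine Valuation.map_add_lt _ hz' (Valuation.map_add_lt _ ?_ hm)
  rw [Valuation.map_neg]
  exact hn

theorem exists_sq {ℓ : ℕ} [Fact ℓ.Prime] {u : ℤ}
    (hu : ∀ m : ℤ, ¬ (ℓ : ℤ) ∣ m ^ 2 - u) (m : ℤ) (hm : ¬ (ℓ : ℤ) ∣ m) :
    ∃ s : ℤ, ¬ (ℓ : ℤ) ∣ s ∧ ((ℓ : ℤ) ∣ m - s ^ 2 ∨ (ℓ : ℤ) ∣ m - u * s ^ 2) := by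
  have hm0 : (m : ZMod ℓ) ≠ 0 := by
    rw [Ne, ZMod.intCast_zmod_eq_zero_iff_dvd]
    exact hm
  have huN : ¬ IsSquare (u : ZMod ℓ) := by
    rintro ⟨r, hr⟩
    obtain ⟨r', rfl⟩ := ZMod.intCast_surjective r
    apply hu r'
    rw [← ZMod.intCast_zmod_eq_zero_iff_dvd]
    push_cast
    rw [hr]
    ring
  have hu0 : (u : ZMod ℓ) ≠ 0 := by
    intro h
    exact huN (by rw [h]; exact IsSquare.zero)
  have key : ∃ s : ZMod ℓ, s ≠ 0 ∧ ((m : ZMod ℓ) = s ^ 2 ∨ (m : ZMod ℓ) = u * s ^ 2) := by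
    by_cases hsq : IsSquare (m : ZMod ℓ)
    · obtain ⟨s, hs⟩ := hsq
      refine ⟨s, ?_, Or.inl (by rw [hs]; ring)⟩
      rintro rfl
      exact hm0 (by rw [hs]; ring)
    · have h1 := quadraticChar_neg_one_iff_not_isSquare.2 hsq
      have h2 := quadraticChar_neg_one_iff_not_isSquare.2 huN
      have h3 : quadraticChar (ZMod ℓ) ((m : ZMod ℓ) * u) = 1 := by
        rw [map_mul, h1, h2]; norm_num
      obtain ⟨s, hs⟩ := (quadraticChar_one_iff_isSquare (mul_ne_zero hm0 hu0)).1 h3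
      have hs0 : s ≠ 0 := by
        rintro rfl
        exact mul_ne_zero hm0 hu0 (by rw [hs]; ring)
      refine ⟨s / u, div_ne_zero hs0 hu0, Or.inr ?_⟩
      field_simp
      rw [← pow_two] at hs
      rw [← hs]
  obtain ⟨s, hs0, hs⟩ := key
  obtain ⟨s', rfl⟩ := ZMod.intCast_surjective s
  refine ⟨s', ?_, ?_⟩
  · rw [← ZMod.intCast_zmod_eq_zero_iff_dvd]
    exact hs0
  · rcases hs with h | h
    · left
      rw [← ZMod.intCast_zmod_eq_zero_iff_dvd]
      push_cast
      rw [h]; ring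
    · right
      rw [← ZMod.intCast_zmod_eq_zero_iff_dvd]
      push_cast
      rw [h]; ring

omit [NumberField F] in
theorem int_mem {v : HeightOneSpectrum (𝓞 F)} {ℓ : ℕ} (hv : (ℓ : 𝓞 F) ∈ v.asIdeal) {a : ℤ}
    (h : (ℓ : ℤ) ∣ a) : (a : 𝓞 F) ∈ v.asIdeal := by
  obtain ⟨k, rfl⟩ := h
  push_cast
  exact v.asIdeal.mul_mem_right _ hv

omit [NumberField F] in
theorem int_notMem {v : HeightOneSpectrum (𝓞 F)} {ℓ : ℕ} (hℓ : ℓ.Prime)
    (hv : (ℓ : 𝓞 F) ∈ v.asIdeal) {a : ℤ} (h : ¬ (ℓ : ℤ) ∣ a) : (a : 𝓞 F) ∉ v.asIdeal := by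
  intro ha
  have hc : IsCoprime (ℓ : ℤ) a := by
    rw [(Nat.prime_iff_prime_int.1 hℓ).coprime_iff_not_dvd]
    exact h
  obtain ⟨x, y, hxy⟩ := hc
  apply v.isPrime.ne_top
  rw [Ideal.eq_top_iff_one]
  have : (1 : 𝓞 F) = (x : 𝓞 F) * (ℓ : 𝓞 F) + (y : 𝓞 F) * (a : 𝓞 F) := by
    have := congrArg (fun z : ℤ => (z : 𝓞 F)) hxy
    push_cast at this
    exact this.symm
  rw [this]
  exact v.asIdeal.add_mem (v.asIdeal.mul_mem_left _ hv) (v.asIdeal.mul_mem_left _ ha)

end SQVM

open SQVM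

theorem specSQV : SpecSQV.{u} := by
  intro F _ _ v ℓ u hℓ h4 hv hv2 hu
  have hfact : Fact ℓ.Prime := ⟨hℓ⟩
  have hvm : (ℓ : 𝓞 F) ∈ v.asIdeal := by
    rw [← hv]; exact Ideal.absNorm_mem _
  have hv4 := val_four h4 hvm
  refine ⟨?_, ?_, ?_⟩
  · intro w hw a b hab hb
    apply near (val_four h4 hw) (val_one w hb)
    rw [← map_sub]
    have : ((a : F) - (b : F)) = ((a - b : 𝓞 F) : F) := by simp
    rw [this, val_lt]
    exact hab
  · have hun : ∀ y : v.adicCompletion F, (Valued.v y : ℤᵐ⁰) = 1 → ∃ r : v.adicCompletion F, r ≠ 0 ∧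
        (y = r ^ 2 ∨ y = (u : v.adicCompletion F) * r ^ 2) := by
      intro y hy
      obtain ⟨m, hm⟩ := unit_near hℓ hv hy
      have hmn : ¬ (ℓ : ℤ) ∣ m := by
        intro h
        have h1 := (val_int_lt v m).2 (int_mem hvm h)
        have h2 : (Valued.v y : ℤᵐ⁰) < 1 := by
          have e : y = (y - (m : v.adicCompletion F)) + m := by ring
          rw [e]
          exact Valuation.map_add_lt _ hm h1
        rw [hy] at h2
        exact lt_irrefl _ h2
      obtain ⟨s, hs, h⟩ := exists_sq hu m hmn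
      have hs1 := val_int_one v (int_notMem hℓ hvm hs)
      have hs0 : ((s : ℤ) : v.adicCompletion F) ≠ 0 := by
        intro h
        rw [h, map_zero] at hs1
        exact zero_ne_one hs1
      have hu1 : (Valued.v ((u : ℤ) : v.adicCompletion F) : ℤᵐ⁰) = 1 := by
        apply val_int_one v (int_notMem hℓ hvm ?_)
        intro h
        apply hu 0
        simpa using h
      rcases h with h | h
      · have h1 := (val_int_lt v _).2 (int_mem hvm h)
        obtain ⟨r, hr, hr2⟩ := near hv4 (y := y) (z := ((s : ℤ) : v.adicCompletion F) ^ 2)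
          (by rw [map_pow, hs1, one_pow]) (by
            have e : y - ((s : ℤ) : v.adicCompletion F) ^ 2 = (y - (m : v.adicCompletion F)) +
              ((m - s ^ 2 : ℤ) : v.adicCompletion F) := by push_cast; ring
            rw [e]
            exact Valuation.map_add_lt _ hm h1)
        refine ⟨s * r, mul_ne_zero hs0 hr, Or.inl ?_⟩
        rw [hr2]; ring
      · have h1 := (val_int_lt v _).2 (int_mem hvm h)
        obtain ⟨r, hr, hr2⟩ := near hv4 (y := y)
          (z := ((u : ℤ) : v.adicCompletion F) * ((s : ℤ) : v.adicCompletion F) ^ 2)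
          (by rw [map_mul, map_pow, hs1, hu1, one_pow, one_mul]) (by
            have e : y - ((u : ℤ) : v.adicCompletion F) * ((s : ℤ) : v.adicCompletion F) ^ 2 =
              (y - (m : v.adicCompletion F)) +
              ((m - u * s ^ 2 : ℤ) : v.adicCompletion F) := by push_cast; ring
            rw [e]
            exact Valuation.map_add_lt _ hm h1)
        refine ⟨s * r, mul_ne_zero hs0 hr, Or.inr ?_⟩
        rw [hr2]; ring
    have hℓv : (Valued.v ((ℓ : ℕ) : v.adicCompletion F) : ℤᵐ⁰) = WithZero.exp (-1 : ℤ) := by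
      have e : (Valued.v ((ℓ : ℕ) : v.adicCompletion F) : ℤᵐ⁰) = v.intValuation (ℓ : 𝓞 F) := by
        rw [← v.valuation_of_algebraMap (K := F), ← val_alg]
        simp
      rw [e]
      have h1 := (v.intValuation_le_pow_iff_mem (ℓ : 𝓞 F) 1).2 (by rw [pow_one]; exact hvm)
      have h2 : ¬ v.intValuation (ℓ : 𝓞 F) ≤ WithZero.exp (-((2 : ℕ) : ℤ)) := fun h =>
        hv2 ((v.intValuation_le_pow_iff_mem (ℓ : 𝓞 F) 2).1 h)
      have hne : v.intValuation (ℓ : 𝓞 F) ≠ 0 :=
        v.intValuation_ne_zero _ (by exact_mod_cast hℓ.ne_zero)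
      obtain ⟨k, hk⟩ : ∃ k : ℤ, v.intValuation (ℓ : 𝓞 F) = WithZero.exp k :=
        ⟨WithZero.log (v.intValuation (ℓ : 𝓞 F)), (WithZero.exp_log hne).symm⟩
      rw [hk, WithZero.exp_le_exp] at h1
      rw [hk, WithZero.exp_le_exp] at h2
      rw [hk]
      congr 1
      push_cast at h1 h2
      omega
    have hℓ0 : ((ℓ : ℕ) : v.adicCompletion F) ≠ 0 := by
      intro h
      rw [h, map_zero] at hℓv
      exact WithZero.exp_ne_zero hℓv.symm
    intro x hx
    have hvx : (Valued.v x : ℤᵐ⁰) ≠ 0 := (Valuation.ne_zero_iff _).2 hx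
    obtain ⟨k, hk⟩ : ∃ k : ℤ, (Valued.v x : ℤᵐ⁰) = WithZero.exp k :=
      ⟨WithZero.log (Valued.v x : ℤᵐ⁰), (WithZero.exp_log hvx).symm⟩
    obtain ⟨y, hy⟩ : ∃ y, y = x * ((ℓ : ℕ) : v.adicCompletion F) ^ k := ⟨_, rfl⟩
    have hy1 : (Valued.v y : ℤᵐ⁰) = 1 := by
      rw [hy, map_mul, map_zpow₀, hk, hℓv, ← WithZero.exp_zsmul, ← WithZero.exp_add]
      simp
    have hxy : x = y * ((ℓ : ℕ) : v.adicCompletion F) ^ (-k) := by
      rw [hy, mul_assoc, ← zpow_add₀ hℓ0]
      simp
    obtain ⟨r, hr, hr2⟩ := hun y hy1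
    rcases Int.even_or_odd' k with ⟨m, hm | hm⟩
    · have e : ((ℓ : ℕ) : v.adicCompletion F) ^ (-k) = (((ℓ : ℕ) : v.adicCompletion F) ^ (-m)) ^ 2 := by
        rw [← zpow_natCast, ← zpow_mul, hm]
        congr 1
        push_cast
        ring
      have hne := zpow_ne_zero (-m) hℓ0
      refine ⟨r * ((ℓ : ℕ) : v.adicCompletion F) ^ (-m), mul_ne_zero hr hne, ?_⟩
      rcases hr2 with h | h
      · left
        rw [hxy, h, e]; ring
      · right; left
        rw [hxy, h, e]; ring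
    · have e : ((ℓ : ℕ) : v.adicCompletion F) ^ (-k) = ((ℓ : ℕ) : v.adicCompletion F) *
          (((ℓ : ℕ) : v.adicCompletion F) ^ (-m - 1)) ^ 2 := by
        rw [← zpow_natCast, ← zpow_mul, ← zpow_one_add₀ hℓ0, hm]
        congr 1
        push_cast
        ring
      have hne := zpow_ne_zero (-m - 1) hℓ0
      refine ⟨r * ((ℓ : ℕ) : v.adicCompletion F) ^ (-m - 1), mul_ne_zero hr hne, ?_⟩
      rcases hr2 with h | h
      · right; right; left
        rw [hxy, h, e]; ring
      · right; right; right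
        rw [hxy, h, e]; ring
  · obtain ⟨r, hr⟩ := (ZMod.exists_sq_eq_neg_one_iff (p := ℓ)).2 (by omega)
    obtain ⟨r', rfl⟩ := ZMod.intCast_surjective r
    have hd : (ℓ : ℤ) ∣ -1 - r' ^ 2 := by
      rw [← ZMod.intCast_zmod_eq_zero_iff_dvd]
      push_cast
      rw [hr]; ring
    have hrn : ¬ (ℓ : ℤ) ∣ r' := by
      intro h
      have h1 : (ℓ : ℤ) ∣ 1 := by
        have : (1 : ℤ) = -((-1 - r' ^ 2) + r' * r') := by ring
        rw [this]
        exact (dvd_add hd (dvd_mul_of_dvd_left h _)).neg_right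
      have h2 : ℓ ∣ 1 := by exact_mod_cast h1
      exact hℓ.one_lt.ne' (Nat.dvd_one.1 h2)
    have hr1 := val_int_one v (int_notMem hℓ hvm hrn)
    obtain ⟨s, hs, hs2⟩ := near hv4 (y := (-1 : v.adicCompletion F))
      (z := ((r' : ℤ) : v.adicCompletion F) ^ 2) (by rw [map_pow, hr1, one_pow]) (by
        have h1 := (val_int_lt v _).2 (int_mem hvm hd)
        have e : (-1 : v.adicCompletion F) - ((r' : ℤ) : v.adicCompletion F) ^ 2 =
          ((-1 - r' ^ 2 : ℤ) : v.adicCompletion F) := by push_cast; ring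
        rw [e]
        exact h1)
    exact ⟨r' * s, by rw [hs2]; ring⟩

end Pool.Agent.Lib.MP_8cb858_nt.PF.RF
end
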