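import Pool.Agent.Lib.MP_8cb858_nt.PF.RF.Spec

/-!
# HAS: the Hasse invariant of a quadratic form is well defined
-/

namespace Pool.Agent.Lib.MP_8cb858_nt.PF.RF

open Matrix

namespace HASM

variable {K : Type} [Field K] {V : Type} [AddCommGroup V] [Module K V]

/-- A good list: pairwise orthogonal anisotropic vectors. -/
def Good (B : V →ₗ[K] V →ₗ[K] K) (l : List V) : Prop :=
  l.Pairwise (fun x y => B x y = 0) ∧ ∀ x ∈ l, B x x ≠ 0

/-- the span of a list -/
def sp (K : Type) [Field K] {V : Type} [AddCommGroup V] [Module K V] (l : List V) :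
    Submodule K V := Submodule.span K {x | x ∈ l}

/-- the values of the quadratic form -/
def vl (B : V →ₗ[K] V →ₗ[K] K) (l : List V) : List K := l.map (fun x => B x x)

/-- Equivalence of good lists. -/
structure Rel (B : V →ₗ[K] V →ₗ[K] K) (l m : List V) : Prop where
  gl : Good B l
  gm : Good B m
  sp : sp K l = sp K m
  hh : hl K (vl B l) = hl K (vl B m)
  dd : ∃ s : K, s ≠ 0 ∧ (vl B l).prod = (vl B m).prod * s ^ 2

variable {B : V →ₗ[K] V →ₗ[K] K}

lemma Rel.refl {l : List V} (h : Good B l) : Rel B l l :=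
  ⟨h, h, rfl, rfl, 1, one_ne_zero, by ring⟩

lemma Rel.trans {l m n : List V} (h : Rel B l m) (h' : Rel B m n) : Rel B l n := by
  obtain ⟨s, hs, e⟩ := h.dd
  obtain ⟨t, ht, e'⟩ := h'.dd
  exact ⟨h.gl, h'.gm, h.sp.trans h'.sp, h.hh.trans h'.hh, s * t, mul_ne_zero hs ht,
    by rw [e, e']; ring⟩

lemma vl_ne {l : List V} (h : Good B l) : ∀ x ∈ vl B l, x ≠ 0 := by
  intro x hx
  obtain ⟨y, hy, rfl⟩ := List.mem_map.1 hx
  exact h.2 y hy

lemma prod_ne {l : List V} (h : Good B l) : (vl B l).prod ≠ 0 :=
  List.prod_ne_zero (fun h0 => vl_ne h 0 h0 rfl)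

lemma hl_cons (a : K) (l : List K) : hl K (a :: l) = hs K a l.prod * hl K l := rfl

lemma sp_cons (x : V) (l : List V) : sp K (x :: l) = Submodule.span K {x} ⊔ sp K l := by
  unfold sp
  rw [← Submodule.span_union]
  congr 1
  ext y
  simp

lemma mem_sp {l : List V} {x : V} (h : x ∈ l) : x ∈ sp K l := Submodule.subset_span h

/-- a vector orthogonal to the list is orthogonal to the span -/
lemma orth {l : List V} {x : V} (h : ∀ y ∈ l, B x y = 0) : ∀ y ∈ sp K l, B x y = 0 := by
  intro y hy
  have : sp K l ≤ LinearMap.ker (B x) := by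
    unfold sp
    rw [Submodule.span_le]
    intro z hz
    exact h z hz
  exact this hy

lemma good_cons {x : V} {l : List V} :
    Good B (x :: l) ↔ (∀ y ∈ l, B x y = 0) ∧ B x x ≠ 0 ∧ Good B l := by
  unfold Good
  rw [List.pairwise_cons]
  simp only [List.mem_cons, forall_eq_or_imp]
  tauto

lemma hl_perm (hH : SpecHLP) (hB : Bi K) {l m : List K} (h : l.Perm m) (hn : ∀ x ∈ l, x ≠ 0) :
    hl K l = hl K m := (hH K hB).1 l m hn h

lemma Rel.perm (hH : SpecHLP) (hB : Bi K) (hsy : ∀ x y, B x y = B y x) {l m : List V}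
    (h : l.Perm m) (hl : Good B l) : Rel B l m := by
  refine ⟨hl, ⟨?_, ?_⟩, ?_, ?_, 1, one_ne_zero, ?_⟩
  · exact (h.pairwise_iff (fun {x y} (hxy : B x y = 0) => by rw [hsy]; exact hxy)).1 hl.1
  · intro x hx
    exact hl.2 x (h.mem_iff.2 hx)
  · unfold HASM.sp
    congr 1
    ext x
    exact h.mem_iff
  · exact hl_perm hH hB (h.map _) (vl_ne hl)
  · rw [one_pow, mul_one]
    exact (h.map _).prod_eq

lemma Rel.cons (hB : Bi K) {x : V} {l m : List V} (h : Rel B l m) (hx : Good B (x :: l)) :
    Rel B (x :: l) (x :: m) := by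
  rw [good_cons] at hx
  obtain ⟨s, hs, e⟩ := h.dd
  refine ⟨good_cons.2 hx, good_cons.2 ⟨?_, hx.2.1, h.gm⟩, ?_, ?_, s, hs, ?_⟩
  · intro y hy
    apply orth hx.1
    rw [h.sp]
    exact mem_sp hy
  · rw [sp_cons, sp_cons, h.sp]
  · show hl K (B x x :: vl B l) = hl K (B x x :: vl B m)
    rw [hl_cons, hl_cons, h.hh, e, hs_mul_sq_right hs]
  · show (B x x :: vl B l).prod = (B x x :: vl B m).prod * s ^ 2
    rw [List.prod_cons, List.prod_cons, e]; ring

lemma span_smul {x : V} {c : K} (hc : c ≠ 0) : Submodule.span K {c • x} = Submodule.span K {x} :=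
  Submodule.span_singleton_smul_eq (isUnit_iff_ne_zero.2 hc) x

lemma Rel.scale {x : V} {l : List V} {c : K} (hc : c ≠ 0) (hx : Good B (x :: l)) :
    Rel B (x :: l) (c • x :: l) := by
  have hx' := good_cons.1 hx
  have e : B (c • x) (c • x) = B x x * c ^ 2 := by
    simp only [map_smul, LinearMap.smul_apply, smul_eq_mul]; ring
  have e' : B x x = B (c • x) (c • x) * c⁻¹ ^ 2 := by
    rw [e]; field_simp
  refine ⟨hx, good_cons.2 ⟨?_, ?_, hx'.2.2⟩, ?_, ?_, c⁻¹, inv_ne_zero hc, ?_⟩
  · intro y hy
    simp only [map_smul, LinearMap.smul_apply, smul_eq_mul, hx'.1 y hy, mul_zero]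
  · rw [e]; exact mul_ne_zero hx'.2.1 (pow_ne_zero _ hc)
  · rw [sp_cons, sp_cons, span_smul hc]
  · show hl K (B x x :: vl B l) = hl K (B (c • x) (c • x) :: vl B l)
    rw [hl_cons, hl_cons, e, hs_mul_sq hc]
  · show (B x x :: vl B l).prod = (B (c • x) (c • x) :: vl B l).prod * c⁻¹ ^ 2
    rw [List.prod_cons, List.prod_cons]
    conv_lhs => rw [e']
    ring

/-- the symbol identity of the binary move -/
lemma hs_move (hB : Bi K) {a b : K} (ha : a ≠ 0) (hb : b ≠ 0) (hc : a + b ≠ 0) :
    hs K a b = hs K (a + b) ((a * b) * (a + b)) := by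
  set c := a + b with hcdef
  have hab := mul_ne_zero ha hb
  have h1 : hs K (a * c) (b * c) = 1 := by
    have e1 : a * c = (a / c) * c ^ 2 := by field_simp
    have e2 : b * c = (b / c) * c ^ 2 := by field_simp
    rw [e1, e2, hs_mul_sq hc, hs_mul_sq_right hc]
    refine hs_one_iff.2 ⟨1, 1, 1, by simp, ?_⟩
    rw [one_pow, mul_one, mul_one, ← add_div, ← hcdef, div_self hc]
  rw [hB a c (b * c) ha hc (mul_ne_zero hb hc), hB.right ha hb hc, hB.right hc hb hc] at h1
  rw [hB.right hc hab hc, hB.right hc ha hb]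
  have h2 := hs_sq (K := K) a c
  have h3 := hs_sq (K := K) c b
  have h4 := hs_sq (K := K) c c
  rw [hs_comm c a]
  -- h1 : ab * ac * (cb * cc) = 1
  calc hs K a b = hs K a b * 1 := by ring
    _ = hs K a b * ((hs K a b * hs K a c) * (hs K c b * hs K c c)) := by rw [h1]
    _ = (hs K a b * hs K a b) * (hs K a c * hs K c b * hs K c c) := by ring
    _ = hs K a c * hs K c b * hs K c c := by rw [hs_sq]; ring

lemma mem_of {S : Submodule K V} {x y : V} {a b : K} (hc : a + b ≠ 0) (h1 : x + y ∈ S)
    (h2 : b • x - a • y ∈ S) : x ∈ S ∧ y ∈ S := by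
  have e1 : x = (a + b)⁻¹ • (a • (x + y) + (b • x - a • y)) := by
    have : a • (x + y) + (b • x - a • y) = (a + b) • x := by
      rw [smul_add, add_smul]; abel
    rw [this, smul_smul, inv_mul_cancel₀ hc, one_smul]
  have e2 : y = (a + b)⁻¹ • (b • (x + y) - (b • x - a • y)) := by
    have : b • (x + y) - (b • x - a • y) = (a + b) • y := by
      rw [smul_add, add_smul]; abel
    rw [this, smul_smul, inv_mul_cancel₀ hc, one_smul]
  constructor
  · rw [e1]
    exact Submodule.smul_mem _ _ (Submodule.add_mem _ (Submodule.smul_mem _ _ h1) h2)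
  · rw [e2]
    exact Submodule.smul_mem _ _ (Submodule.sub_mem _ (Submodule.smul_mem _ _ h1) h2)

lemma Rel.move (hB : Bi K) (hsy : ∀ x y, B x y = B y x) {x y : V} {l : List V}
    (h : Good B (x :: y :: l)) (hc : B x x + B y y ≠ 0) :
    Rel B (x :: y :: l) ((x + y) :: (B y y • x - B x x • y) :: l) := by
  have h' := good_cons.1 h
  have h'' := good_cons.1 h'.2.2
  have hxy : B x y = 0 := h'.1 y List.mem_cons_self
  have hyx : B y x = 0 := by rw [hsy]; exact hxy
  have ha := h'.2.1
  have hb := h''.2.1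
  set a := B x x with hadef
  set b := B y y with hbdef
  have e1 : B (x + y) (x + y) = a + b := by
    simp only [map_add, LinearMap.add_apply, hxy, hyx]; rw [hadef, hbdef]; ring
  have e2 : B (b • x - a • y) (b • x - a • y) = a * b * (a + b) := by
    simp only [map_sub, map_smul, LinearMap.sub_apply, LinearMap.smul_apply, smul_eq_mul, hxy,
      hyx, ← hadef, ← hbdef]
    ring
  have e3 : B (x + y) (b • x - a • y) = 0 := by
    simp only [map_sub, map_smul, map_add, LinearMap.add_apply, smul_eq_mul, hxy,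
      hyx, ← hadef, ← hbdef]
    ring
  have hP : (vl B l).prod ≠ 0 := prod_ne h''.2.2
  have hab := mul_ne_zero ha hb
  have habc := mul_ne_zero hab hc
  refine ⟨h, good_cons.2 ⟨?_, ?_, good_cons.2 ⟨?_, ?_, h''.2.2⟩⟩, ?_, ?_, (a + b)⁻¹,
    inv_ne_zero hc, ?_⟩
  · intro z hz
    rcases List.mem_cons.1 hz with rfl | hz
    · exact e3
    · simp only [map_add, LinearMap.add_apply, h'.1 z (List.mem_cons_of_mem _ hz), h''.1 z hz,
        add_zero]
  · rw [e1]; exact hc
  · intro z hz
    simp only [map_sub, map_smul, LinearMap.sub_apply, LinearMap.smul_apply, smul_eq_mul,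
      h'.1 z (List.mem_cons_of_mem _ hz), h''.1 z hz, mul_zero, sub_zero]
  · rw [e2]; exact habc
  · rw [sp_cons, sp_cons, sp_cons, sp_cons, ← sup_assoc, ← sup_assoc]
    congr 1
    rw [← Submodule.span_union, ← Submodule.span_union]
    apply le_antisymm
    · rw [Submodule.span_le]
      have m1 : x + y ∈ Submodule.span K ({x + y} ∪ {b • x - a • y}) :=
        Submodule.subset_span (Or.inl rfl)
      have m2 : b • x - a • y ∈ Submodule.span K ({x + y} ∪ {b • x - a • y}) :=
        Submodule.subset_span (Or.inr rfl)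
      have m3 := mem_of hc m1 m2
      intro z hz
      rcases hz with hz | hz
      · rw [Set.mem_singleton_iff] at hz
        rw [hz]; exact m3.1
      · rw [Set.mem_singleton_iff] at hz
        rw [hz]; exact m3.2
    · rw [Submodule.span_le]
      have m1 : x ∈ Submodule.span K ({x} ∪ {y}) := Submodule.subset_span (Or.inl rfl)
      have m2 : y ∈ Submodule.span K ({x} ∪ {y}) := Submodule.subset_span (Or.inr rfl)
      intro z hz
      rcases hz with hz | hz
      · rw [Set.mem_singleton_iff] at hz
        rw [hz]; exact Submodule.add_mem _ m1 m2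
      · rw [Set.mem_singleton_iff] at hz
        rw [hz]
        exact Submodule.sub_mem _ (Submodule.smul_mem _ _ m1) (Submodule.smul_mem _ _ m2)
  · show hl K (a :: b :: vl B l) = hl K (B (x + y) (x + y) ::
      B (b • x - a • y) (b • x - a • y) :: vl B l)
    rw [e1, e2, hl_cons, hl_cons, hl_cons, hl_cons, List.prod_cons, List.prod_cons,
      hB.right ha hb hP, hB.right hc habc hP, ← hs_move hB ha hb hc, hB (a * b) (a + b) _ hab hc hP,
      hB a b _ ha hb hP]
    have := hs_sq (K := K) (a + b) (vl B l).prod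
    linear_combination (-(hs K a b * hs K a (vl B l).prod * hs K b (vl B l).prod *
      hl K (vl B l))) * this
  · show (a :: b :: vl B l).prod = (B (x + y) (x + y) ::
      B (b • x - a • y) (b • x - a • y) :: vl B l).prod * (a + b)⁻¹ ^ 2
    rw [e1, e2, List.prod_cons, List.prod_cons, List.prod_cons, List.prod_cons]
    field_simp

/-- decomposition of an element of the span -/
lemma dec (hH : SpecHLP) (hB : Bi K) (hsy : ∀ x y, B x y = B y x) (l : List V) :
    Good B l → ∀ v ∈ sp K l, ∃ A R, Rel B l (A ++ R) ∧ A.sum = v := by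
  induction l with
  | nil =>
    intro h v hv
    refine ⟨[], [], Rel.refl h, ?_⟩
    unfold sp at hv
    simp at hv
    simp [hv]
  | cons x l ih =>
    intro h v hv
    rw [sp_cons, Submodule.mem_sup] at hv
    obtain ⟨y, hy, w, hw, rfl⟩ := hv
    obtain ⟨c, rfl⟩ := Submodule.mem_span_singleton.1 hy
    obtain ⟨A, R, hR, rfl⟩ := ih (good_cons.1 h).2.2 w hw
    have h1 := hR.cons hB h
    by_cases hc : c = 0
    · subst hc
      refine ⟨A, x :: R, h1.trans (Rel.perm hH hB hsy ?_ h1.gm), by simp⟩
      exact List.perm_middle.symm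
    · exact ⟨(c • x) :: A, R, h1.trans (Rel.scale hc h1.gm), by simp⟩

/-- one step of REP -/
lemma step (hH : SpecHLP) (hB : Bi K) (hsy : ∀ x y, B x y = B y x) {x y : V} {A R : List V}
    (h : Good B ((x :: y :: A) ++ R)) (hc : B x x + B y y ≠ 0) :
    ∃ w, Rel B ((x :: y :: A) ++ R) (((x + y) :: A) ++ (w :: R)) := by
  have h1 := Rel.move hB hsy (x := x) (y := y) (l := A ++ R) (by simpa using h) hc
  refine ⟨B y y • x - B x x • y, ?_⟩
  have h2 : ((x + y) :: (B y y • x - B x x • y) :: (A ++ R)).Perm
      (((x + y) :: A) ++ ((B y y • x - B x x • y) :: R)) := by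
    rw [List.cons_append]
    exact List.Perm.cons _ List.perm_middle.symm
  exact (by simpa using h1 : Rel B ((x :: y :: A) ++ R) _).trans (Rel.perm hH hB hsy h2 h1.gm)

lemma sum_q (hsy : ∀ x y, B x y = B y x) (A : List V) :
    A.Pairwise (fun x y => B x y = 0) →
    B A.sum A.sum = (A.map (fun x => B x x)).sum := by
  induction A with
  | nil => intro _; simp
  | cons x A ih =>
    intro h
    rw [List.pairwise_cons] at h
    have h1 : B x A.sum = 0 := by
      have : ∀ A : List V, (∀ y ∈ A, B x y = 0) → B x A.sum = 0 := by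
        intro A
        induction A with
        | nil => intro _; simp
        | cons y A ih =>
          intro h
          rw [List.sum_cons, map_add, h y List.mem_cons_self,
            ih (fun z hz => h z (List.mem_cons_of_mem _ hz)), add_zero]
      exact this A h.1
    rw [List.sum_cons, List.map_cons, List.sum_cons, ← ih h.2]
    simp only [map_add, LinearMap.add_apply, h1, hsy A.sum x]
    ring

lemma rep [CharZero K] (hH : SpecHLP) (hB : Bi K) (hsy : ∀ x y, B x y = B y x) (v : V)
    (hv : B v v ≠ 0) (n : ℕ) :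
    ∀ A R : List V, A.length = n → Good B (A ++ R) → A.sum = v →
      ∃ l', Rel B (A ++ R) (v :: l') := by
  induction n with
  | zero =>
    intro A R hA h hsum
    exfalso
    rw [List.length_eq_zero_iff] at hA
    subst hA
    apply hv
    rw [← hsum]; simp
  | succ n ih =>
    intro A R hA h hsum
    match A, hA, h, hsum with
    | [x], _, h, hsum =>
      refine ⟨R, ?_⟩
      have : x = v := by simpa using hsum
      subst this
      exact Rel.refl h
    | x :: y :: A, hA, h, hsum =>
      -- a permutation such that the first two can be merged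
      have key : ∃ x' y' A', (x :: y :: A).Perm (x' :: y' :: A') ∧ B x' x' + B y' y' ≠ 0 := by
        by_cases hc : B x x + B y y = 0
        · have hp : ((x :: y :: A) ++ R).Pairwise (fun x y => B x y = 0) := h.1
          have hp' := (List.pairwise_append.1 hp).1
          match A, hsum, hp', h with
          | [], hsum, hp', _ =>
            exfalso
            apply hv
            rw [← hsum, sum_q hsy _ hp']
            simp [hc]
          | z :: A, _, _, h =>
            by_cases hc' : B x x + B z z = 0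
            · refine ⟨y, z, x :: A, ?_, ?_⟩
              · have : (x :: y :: z :: A).Perm (y :: x :: z :: A) := List.Perm.swap _ _ _
                exact this.trans (List.Perm.cons _ (List.Perm.swap _ _ _))
              · have hx : B x x ≠ 0 := h.2 x (by simp)
                have e1 : B y y = - B x x := by linear_combination hc
                have e2 : B z z = - B x x := by linear_combination hc'
                rw [e1, e2]
                intro h0
                apply hx
                have : (2 : K) * B x x = 0 := by linear_combination -h0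
                rcases mul_eq_zero.1 this with h2 | h2
                · exact absurd h2 two_ne_zero
                · exact h2
            · exact ⟨x, z, y :: A, List.Perm.cons _ (List.Perm.swap _ _ _), hc'⟩
        · exact ⟨x, y, A, List.Perm.refl _, hc⟩
      obtain ⟨x', y', A', hp, hc⟩ := key
      have h1 : Rel B ((x :: y :: A) ++ R) ((x' :: y' :: A') ++ R) :=
        Rel.perm hH hB hsy (hp.append_right R) h
      obtain ⟨w, h2⟩ := step hH hB hsy h1.gm hc
      have hlen : A'.length = A.length := by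
        have := hp.length_eq
        simp at this
        exact this.symm
      obtain ⟨l', h3⟩ := ih ((x' + y') :: A') (w :: R) (by
        simp at hA ⊢; omega) h2.gm (by
        rw [← hsum, hp.sum_eq]; simp [add_assoc])
      exact ⟨l', (h1.trans h2).trans h3⟩

lemma perp (hsy : ∀ x y, B x y = B y x) {v : V} {l : List V} (h : Good B (v :: l)) (x : V) :
    x ∈ sp K l ↔ x ∈ sp K (v :: l) ∧ B v x = 0 := by
  have h' := good_cons.1 h
  constructor
  · intro hx
    refine ⟨?_, orth h'.1 x hx⟩
    rw [sp_cons]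
    exact Submodule.mem_sup_right hx
  · rintro ⟨hx, hx'⟩
    rw [sp_cons, Submodule.mem_sup] at hx
    obtain ⟨y, hy, w, hw, rfl⟩ := hx
    obtain ⟨c, rfl⟩ := Submodule.mem_span_singleton.1 hy
    have h1 := orth h'.1 w hw
    rw [map_add, map_smul, h1, add_zero, smul_eq_mul] at hx'
    rcases mul_eq_zero.1 hx' with h2 | h2
    · rw [h2, zero_smul, zero_add]; exact hw
    · exact absurd h2 h'.2.1

lemma main [CharZero K] (hH : SpecHLP) (hB : Bi K) (hsy : ∀ x y, B x y = B y x) (m : List V) :
    ∀ l : List V, Good B l → Good B m → sp K l = sp K m → Rel B l m := by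
  induction m with
  | nil =>
    intro l hl hm h
    have : l = [] := by
      rw [List.eq_nil_iff_forall_not_mem]
      intro x hx
      have h1 : x ∈ sp K l := mem_sp hx
      rw [h] at h1
      unfold sp at h1
      simp at h1
      apply hl.2 x hx
      rw [h1]; simp
    subst this
    exact Rel.refl hl
  | cons v m ih =>
    intro l hl hm h
    have hm' := good_cons.1 hm
    have hv : v ∈ sp K l := by rw [h]; exact mem_sp List.mem_cons_self
    obtain ⟨A, R, h1, h2⟩ := dec hH hB hsy l hl v hv
    obtain ⟨l', h3⟩ := rep hH hB hsy v hm'.2.1 A.length A R rfl h1.gm h2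
    have h4 := h1.trans h3
    have h5 : sp K l' = sp K m := by
      ext x
      rw [perp hsy h4.gm x, perp hsy hm x, ← h4.sp, h]
    have h6 := ih l' (good_cons.1 h4.gm).2.2 hm'.2.2 h5
    exact h4.trans (h6.cons hB h4.gm)

end HASM

open HASM in
theorem specHAS (hHLP : SpecHLP) : SpecHAS := by
  intro K _ _ hB ι _ _ G d hd
  have symm : ∀ {d : ι → K}, Diag G d → Gᵀ = G := by
    rintro d ⟨_, P, hP, e⟩
    have e' : Pᵀ * Gᵀ * P = Pᵀ * G * P := by
      rw [e]
      have := congrArg transpose e
      rw [transpose_mul, transpose_mul, transpose_transpose, diagonal_transpose, ← Matrix.mul_assoc]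
        at this
      exact this
    have hu : IsUnit P.det := isUnit_iff_ne_zero.2 hP
    have hu' : IsUnit Pᵀ.det := by rwa [det_transpose]
    calc Gᵀ = (Pᵀ)⁻¹ * (Pᵀ * Gᵀ * P) * P⁻¹ := by
          calc Gᵀ = ((Pᵀ)⁻¹ * Pᵀ) * Gᵀ * (P * P⁻¹) := by
                rw [nonsing_inv_mul _ hu', mul_nonsing_inv _ hu, one_mul, mul_one]
            _ = _ := by simp only [Matrix.mul_assoc]
      _ = (Pᵀ)⁻¹ * (Pᵀ * G * P) * P⁻¹ := by rw [e']
      _ = ((Pᵀ)⁻¹ * Pᵀ) * G * (P * P⁻¹) := by simp only [Matrix.mul_assoc]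
      _ = G := by rw [nonsing_inv_mul _ hu', mul_nonsing_inv _ hu, one_mul, mul_one]
  have hG := symm hd
  let B : (ι → K) →ₗ[K] (ι → K) →ₗ[K] K := Matrix.toBilin' G
  have hBdef : ∀ x y, B x y = x ⬝ᵥ G *ᵥ y := fun x y => Matrix.toBilin'_apply' G x y
  have hBs : ∀ x y, B x y = B y x := by
    intro x y
    rw [hBdef, hBdef, dotProduct_mulVec, ← mulVec_transpose, hG, dotProduct_comm]
  have key : ∀ (P : Matrix ι ι K) (d : ι → K), (∀ i, d i ≠ 0) → P.det ≠ 0 →
      Pᵀ * G * P = diagonal d →
      Good B (Finset.univ.toList.map (fun i => Pᵀ i)) ∧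
      sp K (Finset.univ.toList.map (fun i => Pᵀ i)) = ⊤ ∧
      vl B (Finset.univ.toList.map (fun i => Pᵀ i)) = Finset.univ.toList.map d := by
    intro P d hd hP e
    have hB' : ∀ i j, B (Pᵀ i) (Pᵀ j) = diagonal d i j := by
      intro i j
      rw [hBdef, ← e, dotProduct_mulVec]
      simp only [Matrix.mul_apply, dotProduct, vecMul, transpose_apply]
    refine ⟨⟨?_, ?_⟩, ?_, ?_⟩
    · rw [List.pairwise_map]
      refine List.Pairwise.imp ?_ (Finset.nodup_toList (Finset.univ : Finset ι))
      intro i j hij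
      rw [hB', diagonal_apply_ne _ hij]
    · intro x hx
      obtain ⟨i, -, rfl⟩ := List.mem_map.1 hx
      rw [hB', diagonal_apply_eq]
      exact hd i
    · rw [eq_top_iff]
      intro x _
      have hu : IsUnit P.det := isUnit_iff_ne_zero.2 hP
      have hx : x = ∑ i, (P⁻¹ *ᵥ x) i • Pᵀ i := by
        calc x = P *ᵥ (P⁻¹ *ᵥ x) := by rw [mulVec_mulVec, mul_nonsing_inv _ hu, one_mulVec]
          _ = ∑ i, (P⁻¹ *ᵥ x) i • Pᵀ i := by
            ext j
            simp only [mulVec, dotProduct, Finset.sum_apply, Pi.smul_apply, transpose_apply,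
              smul_eq_mul]
            exact Finset.sum_congr rfl fun i _ => mul_comm _ _
      rw [hx]
      refine Submodule.sum_mem _ fun i _ => Submodule.smul_mem _ _ (mem_sp ?_)
      exact List.mem_map.2 ⟨i, by simp, rfl⟩
    · unfold vl
      rw [List.map_map]
      refine List.map_congr_left fun i _ => ?_
      show B (Pᵀ i) (Pᵀ i) = d i
      rw [hB', diagonal_apply_eq]
  have uniq : ∀ d' : ι → K, Diag G d' → hf K d' = hf K d := by
    rintro d' ⟨hd0', P', hP', e'⟩
    obtain ⟨hd0, P, hP, e⟩ := hd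
    obtain ⟨g1, s1, v1⟩ := key P d hd0 hP e
    obtain ⟨g2, s2, v2⟩ := key P' d' hd0' hP' e'
    have := (main hHLP hB hBs _ _ g2 g1 (s2.trans s1.symm)).hh
    rw [v1, v2] at this
    exact this
  have hex : ∃ d : ι → K, Diag G d := ⟨d, hd⟩
  unfold hM
  rw [dif_pos hex]
  exact uniq _ hex.choose_spec

end Pool.Agent.Lib.MP_8cb858_nt.PF.RF
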