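import Mathlib
import Pool.Agent.Lib.MP_8cb858_nt.PF.RF.Spec

section
/-!
# Isotropy of ternary diagonal forms over the completions of the rationals

`IsoD K a b c` : the form `a x^2 + b y^2 + c z^2` has a nontrivial zero over the field `K`.
Local criteria for pairwise coprime integers `a, b, c`.
-/
namespace Pool.Agent.Lib.MP_8cb858_nt.PR

/-- The diagonal form `a x^2 + b y^2 + c z^2` has a nontrivial zero over `K`. -/
def IsoD (K : Type*) [Field K] (a b c : K) : Prop :=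
  ∃ x y z : K, (x ≠ 0 ∨ y ≠ 0 ∨ z ≠ 0) ∧ a * x ^ 2 + b * y ^ 2 + c * z ^ 2 = 0

namespace RecM

section general
variable {K : Type*} [Field K]

lemma rot {a b c : K} (h : IsoD K a b c) : IsoD K b c a := by
  obtain ⟨x, y, z, h1, h2⟩ := h
  exact ⟨y, z, x, by tauto, by linear_combination h2⟩

lemma isoD_rot {a b c : K} : IsoD K a b c ↔ IsoD K b c a :=
  ⟨fun h => rot h, fun h => rot (rot h)⟩

lemma swap {a b c : K} (h : IsoD K a b c) : IsoD K b a c := by
  obtain ⟨x, y, z, h1, h2⟩ := h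
  exact ⟨y, x, z, by tauto, by linear_combination h2⟩

lemma isoD_swap {a b c : K} : IsoD K a b c ↔ IsoD K b a c :=
  ⟨fun h => swap h, fun h => swap h⟩

/-- if `-bc` is a square the form is isotropic -/
lemma isoD_of_sq {a b c s : K} (hb : b ≠ 0) (h : s ^ 2 = -(b * c)) : IsoD K a b c := by
  refine ⟨0, s, b, Or.inr (Or.inr hb), ?_⟩
  rw [h]; ring

end general

section padic
variable {p : ℕ} [hp : Fact p.Prime]

/-- a nontrivial zero can be made primitive -/
lemma primitive {a b c : ℤ} (h : IsoD ℚ_[p] a b c) :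
    ∃ x y z : ℤ_[p], (x = 1 ∨ y = 1 ∨ z = 1) ∧
      (a : ℤ_[p]) * x ^ 2 + b * y ^ 2 + c * z ^ 2 = 0 := by
  obtain ⟨x, y, z, h1, h2⟩ := h
  -- scaling by the inverse of an element of maximal norm
  have key : ∀ t : ℚ_[p], t ≠ 0 → ‖x‖ ≤ ‖t‖ → ‖y‖ ≤ ‖t‖ → ‖z‖ ≤ ‖t‖ →
      ∃ x' y' z' : ℤ_[p], (x' : ℚ_[p]) = x / t ∧ (y' : ℚ_[p]) = y / t ∧ (z' : ℚ_[p]) = z / t ∧
      (a : ℤ_[p]) * x' ^ 2 + b * y' ^ 2 + c * z' ^ 2 = 0 := by
    intro t ht hx hy hz
    have ht' : 0 < ‖t‖ := norm_pos_iff.2 ht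
    refine ⟨⟨x / t, ?_⟩, ⟨y / t, ?_⟩, ⟨z / t, ?_⟩, rfl, rfl, rfl, ?_⟩
    · rw [norm_div]; exact (div_le_one ht').2 hx
    · rw [norm_div]; exact (div_le_one ht').2 hy
    · rw [norm_div]; exact (div_le_one ht').2 hz
    · apply PadicInt.ext
      push_cast
      have : (a : ℚ_[p]) * (x / t) ^ 2 + b * (y / t) ^ 2 + c * (z / t) ^ 2 =
          (a * x ^ 2 + b * y ^ 2 + c * z ^ 2) / t ^ 2 := by
        field_simp
      rw [this, h2, zero_div]
  rcases le_total ‖x‖ ‖y‖ with hxy | hxy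
  · rcases le_total ‖y‖ ‖z‖ with hyz | hyz
    · have hz : z ≠ 0 := by
        rintro rfl
        rw [norm_zero] at hyz
        have hy : y = 0 := norm_le_zero_iff.1 hyz
        subst hy
        rw [norm_zero] at hxy
        have hx : x = 0 := norm_le_zero_iff.1 hxy
        subst hx
        simp at h1
      obtain ⟨x', y', z', _, _, h5, h6⟩ := key z hz (hxy.trans hyz) hyz le_rfl
      refine ⟨x', y', z', Or.inr (Or.inr ?_), h6⟩
      apply PadicInt.ext
      rw [h5, div_self hz]; rfl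
    · have hy : y ≠ 0 := by
        rintro rfl
        rw [norm_zero] at hyz hxy
        have hz : z = 0 := norm_le_zero_iff.1 hyz
        subst hz
        have hx : x = 0 := norm_le_zero_iff.1 hxy
        subst hx
        simp at h1
      obtain ⟨x', y', z', _, h5, _, h6⟩ := key y hy hxy le_rfl hyz
      refine ⟨x', y', z', Or.inr (Or.inl ?_), h6⟩
      apply PadicInt.ext
      rw [h5, div_self hy]; rfl
  · rcases le_total ‖x‖ ‖z‖ with hxz | hxz
    · have hz : z ≠ 0 := by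
        rintro rfl
        rw [norm_zero] at hxz
        have hx : x = 0 := norm_le_zero_iff.1 hxz
        subst hx
        rw [norm_zero] at hxy
        have hy : y = 0 := norm_le_zero_iff.1 hxy
        subst hy
        simp at h1
      obtain ⟨x', y', z', _, _, h5, h6⟩ := key z hz hxz (hxy.trans hxz) le_rfl
      refine ⟨x', y', z', Or.inr (Or.inr ?_), h6⟩
      apply PadicInt.ext
      rw [h5, div_self hz]; rfl
    · have hx : x ≠ 0 := by
        rintro rfl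
        rw [norm_zero] at hxz hxy
        have hz : z = 0 := norm_le_zero_iff.1 hxz
        subst hz
        have hy : y = 0 := norm_le_zero_iff.1 hxy
        subst hy
        simp at h1
      obtain ⟨x', y', z', h5, _, _, h6⟩ := key x hx le_rfl hxy hxz
      refine ⟨x', y', z', Or.inl ?_, h6⟩
      apply PadicInt.ext
      rw [h5, div_self hx]; rfl

/-- Hensel for `X^2 - n` -/
lemma hensel_sq {n r : ℤ} (h : ‖((n - r ^ 2 : ℤ) : ℤ_[p])‖ < ‖((2 * r : ℤ) : ℤ_[p])‖ ^ 2) :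
    ∃ s : ℚ_[p], s ^ 2 = n := by
  obtain ⟨s, hs, -⟩ := hensels_lemma (p := p) (R := ℤ_[p])
    (F := Polynomial.X ^ 2 - Polynomial.C (n : ℤ_[p])) (a := (r : ℤ_[p])) (by
      have e1 : (Polynomial.aeval (r : ℤ_[p])) (Polynomial.X ^ 2 - Polynomial.C (n : ℤ_[p])) =
          -((n - r ^ 2 : ℤ) : ℤ_[p]) := by
        simp
      have e2 : (Polynomial.aeval (r : ℤ_[p]))
          (Polynomial.derivative (Polynomial.X ^ 2 - Polynomial.C (n : ℤ_[p]))) =
          ((2 * r : ℤ) : ℤ_[p]) := by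
        simp
        left; norm_num
      rw [e1, e2, norm_neg]
      exact h)
  refine ⟨(s : ℚ_[p]), ?_⟩
  simp at hs
  have : s ^ 2 = (n : ℤ_[p]) := by linear_combination hs
  have h5 := congrArg (fun t : ℤ_[p] => (t : ℚ_[p])) this
  push_cast at h5
  exact_mod_cast h5

/-- Hensel: an integer prime to the odd prime `p` which is a square modulo `p` is a square in
`ℚ_p`. -/
lemma sq_of_mod (hp2 : p ≠ 2) {n r : ℤ} (hr : ¬ (p : ℤ) ∣ r) (h : (p : ℤ) ∣ n - r ^ 2) :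
    ∃ s : ℚ_[p], s ^ 2 = n := by
  apply hensel_sq (r := r)
  have hpp : Prime (p : ℤ) := Nat.prime_iff_prime_int.1 hp.out
  have h2 : ¬ (p : ℤ) ∣ 2 * r := by
    intro hd
    rcases hpp.dvd_or_dvd hd with h' | h'
    · have : p ∣ 2 := by exact_mod_cast h'
      exact hp2 ((Nat.prime_dvd_prime_iff_eq hp.out Nat.prime_two).1 this)
    · exact hr h'
  have h3 : ‖((2 * r : ℤ) : ℤ_[p])‖ = 1 := by
    have h4 := PadicInt.norm_le_one ((2 * r : ℤ) : ℤ_[p])
    have h5 : ¬ ‖((2 * r : ℤ) : ℤ_[p])‖ < 1 := by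
      rw [PadicInt.norm_int_lt_one_iff_dvd]; exact h2
    exact le_antisymm h4 (not_lt.1 h5)
  rw [h3, one_pow, PadicInt.norm_int_lt_one_iff_dvd]
  exact h

/-- An integer congruent to 1 modulo 8 is a 2-adic square. -/
lemma sq_of_mod8 {n : ℤ} (h : (8 : ℤ) ∣ n - 1) : ∃ s : ℚ_[2], s ^ 2 = n := by
  apply hensel_sq (p := 2) (r := 1)
  have h1 : ‖((n - 1 ^ 2 : ℤ) : ℤ_[2])‖ ≤ (2 : ℝ) ^ (-(3 : ℤ)) := by
    have := (PadicInt.norm_int_le_pow_iff_dvd (p := 2) (k := n - 1 ^ 2) (n := 3)).2 (by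
      simpa using h)
    simpa using this
  have h2 : ‖((2 * 1 : ℤ) : ℤ_[2])‖ = (2 : ℝ)⁻¹ := by
    have := PadicInt.norm_p (p := 2)
    simpa using this
  rw [h2]
  refine lt_of_le_of_lt h1 ?_
  norm_num

/-- (L1) -/
lemma isoD_good (hp2 : p ≠ 2) {a b c : ℤ} (ha : ¬ (p : ℤ) ∣ a) (hb : ¬ (p : ℤ) ∣ b)
    (hc : ¬ (p : ℤ) ∣ c) : IsoD ℚ_[p] a b c := by
  have hpp : Prime (p : ℤ) := Nat.prime_iff_prime_int.1 hp.out
  have key : ∀ a b c x y : ℤ, ¬ (p : ℤ) ∣ a → ¬ (p : ℤ) ∣ x →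
      (p : ℤ) ∣ a * x ^ 2 + b * y ^ 2 + c → IsoD ℚ_[p] a b c := by
    intro a b c x y ha hx h
    have ha0 : (a : ℚ_[p]) ≠ 0 := by
      intro h0
      have : a = 0 := by exact_mod_cast h0
      rw [this] at ha; exact ha (dvd_zero _)
    obtain ⟨s, hs⟩ := sq_of_mod (p := p) hp2 (n := -(a * (b * y ^ 2 + c))) (r := a * x) (by
      intro hd
      rcases hpp.dvd_or_dvd hd with h' | h'
      · exact ha h'
      · exact hx h') (by
      have : -(a * (b * y ^ 2 + c)) - (a * x) ^ 2 = -(a * (a * x ^ 2 + b * y ^ 2 + c)) := by ring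
      rw [this]
      exact (dvd_neg.2 (Dvd.dvd.mul_left h a)))
    refine ⟨s / a, y, 1, Or.inr (Or.inr one_ne_zero), ?_⟩
    rw [div_pow, hs]
    push_cast
    field_simp
    ring
  obtain ⟨x, y, hxy⟩ : ∃ x y : ZMod p, (a : ZMod p) * x ^ 2 + b * y ^ 2 + c = 0 := by
    have hA : (a : ZMod p) ≠ 0 := by rwa [Ne, ZMod.intCast_zmod_eq_zero_iff_dvd]
    have hB : (b : ZMod p) ≠ 0 := by rwa [Ne, ZMod.intCast_zmod_eq_zero_iff_dvd]
    have hf : (Polynomial.C (a : ZMod p) * Polynomial.X ^ 2).degree = 2 :=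
      Polynomial.degree_C_mul_X_pow 2 hA
    have hg : (Polynomial.C (b : ZMod p) * Polynomial.X ^ 2 + Polynomial.C (c : ZMod p)).degree = 2 := by
      rw [Polynomial.degree_add_eq_left_of_degree_lt]
      · exact Polynomial.degree_C_mul_X_pow 2 hB
      · rw [Polynomial.degree_C_mul_X_pow 2 hB]
        exact lt_of_le_of_lt Polynomial.degree_C_le (by norm_num)
    obtain ⟨x, y, h⟩ := FiniteField.exists_root_sum_quadratic hf hg (by
      rw [ZMod.card]; exact hp.out.odd_of_ne_two hp2 |> Nat.odd_iff.1)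
    refine ⟨x, y, ?_⟩
    simp at h
    linear_combination h
  obtain ⟨x, rfl⟩ := ZMod.intCast_surjective x
  obtain ⟨y, rfl⟩ := ZMod.intCast_surjective y
  have hd : (p : ℤ) ∣ a * x ^ 2 + b * y ^ 2 + c := by
    rw [← ZMod.intCast_zmod_eq_zero_iff_dvd]
    push_cast
    exact hxy
  by_cases hx : (p : ℤ) ∣ x
  · by_cases hy : (p : ℤ) ∣ y
    · exfalso
      apply hc
      have h1 : (p : ℤ) ∣ a * x ^ 2 + b * y ^ 2 :=
        dvd_add (Dvd.dvd.mul_left (dvd_pow hx two_ne_zero) a)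
          (Dvd.dvd.mul_left (dvd_pow hy two_ne_zero) b)
      exact (dvd_add_right h1).1 hd
    · have := key b a c y x hb hy (by
        have : b * y ^ 2 + a * x ^ 2 + c = a * x ^ 2 + b * y ^ 2 + c := by ring
        rw [this]; exact hd)
      exact swap this
  · exact key a b c x y ha hx hd

/-- (L2) -/
lemma isoD_bad (hp2 : p ≠ 2) {a b c : ℤ} (ha : (p : ℤ) ∣ a) (ha2 : ¬ (p : ℤ) ^ 2 ∣ a)
    (hb : ¬ (p : ℤ) ∣ b) (hc : ¬ (p : ℤ) ∣ c) :
    IsoD ℚ_[p] a b c ↔ legendreSym p (-(b * c)) = 1 := by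
  have hpp : Prime (p : ℤ) := Nat.prime_iff_prime_int.1 hp.out
  have hbc : ¬ (p : ℤ) ∣ -(b * c) := by
    rw [dvd_neg]
    intro hd
    rcases hpp.dvd_or_dvd hd with h' | h'
    · exact hb h'
    · exact hc h'
  have hbc' : ((-(b * c) : ℤ) : ZMod p) ≠ 0 := by
    rwa [Ne, ZMod.intCast_zmod_eq_zero_iff_dvd]
  rw [legendreSym.eq_one_iff p hbc']
  constructor
  · intro h
    obtain ⟨x, y, z, h1, h2⟩ := primitive h
    have h3 := congrArg (PadicInt.toZMod (p := p)) h2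
    simp only [map_add, map_mul, map_pow, map_intCast, map_zero] at h3
    have ha0 : (a : ZMod p) = 0 := (ZMod.intCast_zmod_eq_zero_iff_dvd _ _).2 ha
    rw [ha0, zero_mul, zero_add] at h3
    set Y := PadicInt.toZMod y with hY
    set Z := PadicInt.toZMod z with hZ
    have hb0 : (b : ZMod p) ≠ 0 := by rwa [Ne, ZMod.intCast_zmod_eq_zero_iff_dvd]
    have hc0 : (c : ZMod p) ≠ 0 := by rwa [Ne, ZMod.intCast_zmod_eq_zero_iff_dvd]
    by_cases hZ0 : Z = 0
    · exfalso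
      rw [hZ0] at h3
      have hY0 : Y = 0 := by
        have : (b : ZMod p) * Y ^ 2 = 0 := by linear_combination h3
        rcases mul_eq_zero.1 this with h' | h'
        · exact absurd h' hb0
        · exact pow_eq_zero_iff two_ne_zero |>.1 h'
      -- p divides y and z, so p^2 divides a x^2
      have hx : x = 1 := by
        rcases h1 with h' | h' | h'
        · exact h'
        · exfalso; rw [hY, h', map_one] at hY0; exact one_ne_zero hY0
        · exfalso; rw [hZ, h', map_one] at hZ0; exact one_ne_zero hZ0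
      have hy' : (p : ℤ_[p]) ∣ y := by
        have : y ∈ RingHom.ker (PadicInt.toZMod (p := p)) := hY0
        rw [PadicInt.ker_toZMod, PadicInt.maximalIdeal_eq_span_p, Ideal.mem_span_singleton] at this
        exact this
      have hz' : (p : ℤ_[p]) ∣ z := by
        have : z ∈ RingHom.ker (PadicInt.toZMod (p := p)) := hZ0
        rw [PadicInt.ker_toZMod, PadicInt.maximalIdeal_eq_span_p, Ideal.mem_span_singleton] at this
        exact this
      obtain ⟨y', rfl⟩ := hy'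
      obtain ⟨z', rfl⟩ := hz'
      apply ha2
      have h4 : (p : ℤ_[p]) ^ 2 ∣ (a : ℤ_[p]) := by
        refine ⟨-(b * y' ^ 2 + c * z' ^ 2), ?_⟩
        rw [hx] at h2
        linear_combination h2
      have h5 := (PadicInt.norm_int_le_pow_iff_dvd (p := p) (k := a) (n := 2)).1 (by
        rw [PadicInt.norm_le_pow_iff_mem_span_pow, Ideal.mem_span_singleton]
        exact h4)
      exact_mod_cast h5
    · refine ⟨b * Y / Z, ?_⟩
      field_simp
      push_cast
      linear_combination (-(b : ZMod p)) * h3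
  · rintro ⟨r, hr⟩
    obtain ⟨r, rfl⟩ := ZMod.intCast_surjective r
    obtain ⟨s, hs⟩ := sq_of_mod (p := p) hp2 (n := -(b * c)) (r := r) (by
      intro hd
      have : ((r : ℤ) : ZMod p) = 0 := (ZMod.intCast_zmod_eq_zero_iff_dvd _ _).2 hd
      rw [this, mul_zero] at hr
      exact hbc' hr) (by
      rw [← ZMod.intCast_zmod_eq_zero_iff_dvd]
      push_cast at hr ⊢
      linear_combination hr)
    have hb0 : (b : ℚ_[p]) ≠ 0 := by
      intro h0
      have : b = 0 := by exact_mod_cast h0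
      rw [this] at hb; exact hb (dvd_zero _)
    exact isoD_of_sq hb0 (by rw [hs]; push_cast; ring)

end padic

section two

/-- squares modulo 8 -/
lemma sq8 : ∀ x : ZMod 8, (x ^ 2 = 0 ∨ x ^ 2 = 4 ∨ x ^ 2 = 1) := by decide

lemma prim8 {a b c : ℤ} (h : IsoD ℚ_[2] a b c) :
    ∃ X Y Z : ZMod 8, (X = 0 ∨ X = 4 ∨ X = 1) ∧ (Y = 0 ∨ Y = 4 ∨ Y = 1) ∧
      (Z = 0 ∨ Z = 4 ∨ Z = 1) ∧ (X = 1 ∨ Y = 1 ∨ Z = 1) ∧
      (a : ZMod 8) * X + b * Y + c * Z = 0 := by
  obtain ⟨x, y, z, h1, h2⟩ := primitive (p := 2) h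
  have h3 := congrArg (PadicInt.toZModPow (p := 2) 3) h2
  simp only [map_add, map_mul, map_pow, map_intCast, map_zero] at h3
  change ((a : ZMod 8) * _ + _ + _) = 0 at h3
  refine ⟨(PadicInt.toZModPow (p := 2) 3 x : ZMod 8) ^ 2,
    (PadicInt.toZModPow (p := 2) 3 y : ZMod 8) ^ 2,
    (PadicInt.toZModPow (p := 2) 3 z : ZMod 8) ^ 2, sq8 _, sq8 _, sq8 _, ?_, h3⟩
  rcases h1 with rfl | rfl | rfl
  · left; simp
  · right; left; simp
  · right; right; simp

lemma dec_odd : ∀ a b c : ZMod 8, (a * a = 1) → (b * b = 1) → (c * c = 1) →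
    ((∃ X Y Z : ZMod 8, (X = 0 ∨ X = 4 ∨ X = 1) ∧ (Y = 0 ∨ Y = 4 ∨ Y = 1) ∧
      (Z = 0 ∨ Z = 4 ∨ Z = 1) ∧ (X = 1 ∨ Y = 1 ∨ Z = 1) ∧ a * X + b * Y + c * Z = 0)) →
    (-(a * b) = 1 ∨ -(a * (b + 4 * c)) = 1 ∨ -(b * c) = 1 ∨ -(b * (c + 4 * a)) = 1 ∨
      -(c * a) = 1 ∨ -(c * (a + 4 * b)) = 1) := by
  decide

lemma dec_even : ∀ a b c : ZMod 8, (a * a = 4) → (b * b = 1) → (c * c = 1) →
    ((∃ X Y Z : ZMod 8, (X = 0 ∨ X = 4 ∨ X = 1) ∧ (Y = 0 ∨ Y = 4 ∨ Y = 1) ∧
      (Z = 0 ∨ Z = 4 ∨ Z = 1) ∧ (X = 1 ∨ Y = 1 ∨ Z = 1) ∧ a * X + b * Y + c * Z = 0)) →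
    (-(b * c) = 1 ∨ -(b * (a + c)) = 1) := by
  rintro a b c ha hb hc ⟨X, Y, Z, hX, hY, hZ, h1, h2⟩
  rcases hX with rfl | rfl | rfl <;> rcases hY with rfl | rfl | rfl <;>
    rcases hZ with rfl | rfl | rfl <;>
    first | (exfalso; revert h1; decide) | (clear h1; revert a b c; decide)

lemma sq_of_one8 {n : ℤ} (h : (n : ZMod 8) = 1) : ∃ s : ℚ_[2], s ^ 2 = n := by
  apply sq_of_mod8
  have : ((n - 1 : ℤ) : ZMod 8) = 0 := by push_cast; rw [h]; ring
  exact_mod_cast (ZMod.intCast_zmod_eq_zero_iff_dvd (n - 1) 8).1 this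

/-- `a y^2 = -(b + c t^2)` is solvable -/
lemma isoD_two_of {a b c t : ℤ} (ha : a ≠ 0) (h : ((-(a * (b + c * t ^ 2)) : ℤ) : ZMod 8) = 1) :
    IsoD ℚ_[2] a b c := by
  obtain ⟨s, hs⟩ := sq_of_one8 h
  have ha0 : (a : ℚ_[2]) ≠ 0 := by exact_mod_cast ha
  refine ⟨s / a, 1, t, Or.inr (Or.inl one_ne_zero), ?_⟩
  rw [div_pow, hs]
  push_cast
  field_simp
  ring

/-- the 2-adic criterion, `a b c` odd -/
def odd8 (a b c : ZMod 8) : Prop :=
  -(a * b) = 1 ∨ -(a * (b + 4 * c)) = 1 ∨ -(b * c) = 1 ∨ -(b * (c + 4 * a)) = 1 ∨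
      -(c * a) = 1 ∨ -(c * (a + 4 * b)) = 1

instance (a b c : ZMod 8) : Decidable (odd8 a b c) := by unfold odd8; infer_instance

/-- the 2-adic criterion, `a = 2 mod 4`, `b c` odd -/
def even8 (a b c : ZMod 8) : Prop := -(b * c) = 1 ∨ -(b * (a + c)) = 1

instance (a b c : ZMod 8) : Decidable (even8 a b c) := by unfold even8; infer_instance

lemma mul_self_odd {a : ℤ} (h : Odd a) : (a : ZMod 8) * a = 1 := by
  have h1 : (8 : ℤ) ∣ a * a - 1 := by
    obtain ⟨k, rfl⟩ := h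
    have : (2 * k + 1) * (2 * k + 1) - 1 = 4 * (k * (k + 1)) := by ring
    rw [this]
    have h2 : (2 : ℤ) ∣ k * (k + 1) := (Int.even_mul_succ_self k).two_dvd
    obtain ⟨m, hm⟩ := h2
    exact ⟨m, by rw [hm]; ring⟩
  have h3 : ((a * a - 1 : ℤ) : ZMod 8) = 0 :=
    (ZMod.intCast_zmod_eq_zero_iff_dvd (a * a - 1) 8).2 (by exact_mod_cast h1)
  push_cast at h3
  linear_combination h3

lemma mul_self_even {a : ℤ} (h : Odd a) : ((2 * a : ℤ) : ZMod 8) * ((2 * a : ℤ) : ZMod 8) = 4 := by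
  have := mul_self_odd h
  push_cast
  linear_combination 4 * this

/-- (L3) -/
lemma isoD_two_odd {a b c : ℤ} (ha : Odd a) (hb : Odd b) (hc : Odd c) :
    IsoD ℚ_[2] a b c ↔ odd8 a b c := by
  have ne : ∀ {x : ℤ}, Odd x → x ≠ 0 := by
    rintro x hx rfl
    simp at hx
  constructor
  · intro h
    exact dec_odd a b c (mul_self_odd ha) (mul_self_odd hb) (mul_self_odd hc) (prim8 h)
  · rintro (h | h | h | h | h | h)
    · exact isoD_two_of (t := 0) (ne ha) (by push_cast; linear_combination h)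
    · exact isoD_two_of (t := 2) (ne ha) (by push_cast; linear_combination h)
    · exact isoD_rot.2 (isoD_two_of (t := 0) (ne hb) (by push_cast; linear_combination h))
    · exact isoD_rot.2 (isoD_two_of (t := 2) (ne hb) (by push_cast; linear_combination h))
    · exact isoD_rot.2 (isoD_rot.2
        (isoD_two_of (t := 0) (ne hc) (by push_cast; linear_combination h)))
    · exact isoD_rot.2 (isoD_rot.2
        (isoD_two_of (t := 2) (ne hc) (by push_cast; linear_combination h)))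

/-- (L4) -/
lemma isoD_two_even {a b c : ℤ} (ha : Odd a) (hb : Odd b) (hc : Odd c) :
    IsoD ℚ_[2] ((2 * a : ℤ) : ℚ_[2]) b c ↔ even8 ((2 * a : ℤ) : ZMod 8) b c := by
  have ne : ∀ {x : ℤ}, Odd x → x ≠ 0 := by
    rintro x hx rfl
    simp at hx
  constructor
  · intro h
    exact dec_even _ b c (mul_self_even ha) (mul_self_odd hb) (mul_self_odd hc) (prim8 h)
  · rintro (h | h)
    · exact isoD_rot.2 (isoD_two_of (t := 0) (ne hb) (by push_cast; linear_combination h))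
    · exact isoD_rot.2 (isoD_two_of (t := 1) (ne hb) (by
        push_cast at h ⊢; linear_combination h))

end two

section real

/-- (L5) -/
lemma isoD_real {a b c : ℤ} (ha : a ≠ 0) (hb : b ≠ 0) (hc : c ≠ 0) :
    IsoD ℝ a b c ↔ ¬ ((0 < a ∧ 0 < b ∧ 0 < c) ∨ (a < 0 ∧ b < 0 ∧ c < 0)) := by
  constructor
  · rintro ⟨x, y, z, h1, h2⟩ h
    have pos : ∀ a b c : ℝ, 0 < a → 0 < b → 0 < c → a * x ^ 2 + b * y ^ 2 + c * z ^ 2 = 0 →
        False := by
      intro a b c ha hb hc h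
      have hx : 0 ≤ a * x ^ 2 := by positivity
      have hy : 0 ≤ b * y ^ 2 := by positivity
      have hz : 0 ≤ c * z ^ 2 := by positivity
      have hx0 : a * x ^ 2 = 0 := by linarith
      have hy0 : b * y ^ 2 = 0 := by linarith
      have hz0 : c * z ^ 2 = 0 := by linarith
      have hx1 : x = 0 := by
        rcases mul_eq_zero.1 hx0 with h' | h'
        · exact absurd h' ha.ne'
        · exact pow_eq_zero_iff two_ne_zero |>.1 h'
      have hy1 : y = 0 := by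
        rcases mul_eq_zero.1 hy0 with h' | h'
        · exact absurd h' hb.ne'
        · exact pow_eq_zero_iff two_ne_zero |>.1 h'
      have hz1 : z = 0 := by
        rcases mul_eq_zero.1 hz0 with h' | h'
        · exact absurd h' hc.ne'
        · exact pow_eq_zero_iff two_ne_zero |>.1 h'
      tauto
    rcases h with ⟨h3, h4, h5⟩ | ⟨h3, h4, h5⟩
    · exact pos a b c (by exact_mod_cast h3) (by exact_mod_cast h4) (by exact_mod_cast h5) h2
    · exact pos (-a) (-b) (-c) (by simpa using h3) (by simpa using h4) (by simpa using h5)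
        (by linear_combination -h2)
  · intro h
    have key : ∀ a b c : ℤ, 0 < a → b < 0 → IsoD ℝ a b c := by
      intro a b c ha hb
      have ha' : (0 : ℝ) < a := by exact_mod_cast ha
      have hb' : (0 : ℝ) < -(b : ℝ) := by
        have : (b : ℝ) < 0 := by exact_mod_cast hb
        linarith
      refine ⟨Real.sqrt (-b), Real.sqrt a, 0, Or.inl (Real.sqrt_pos.2 hb').ne', ?_⟩
      rw [Real.sq_sqrt hb'.le, Real.sq_sqrt ha'.le]
      ring
    rcases lt_or_gt_of_ne ha with ha' | ha' <;> rcases lt_or_gt_of_ne hb with hb' | hb' <;>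
      rcases lt_or_gt_of_ne hc with hc' | hc'
    · exact absurd (Or.inr ⟨ha', hb', hc'⟩) h
    · exact isoD_rot.2 (isoD_rot.2 (key c a b hc' ha'))
    · exact isoD_rot.2 (key b c a hb' hc')
    · exact swap (key b a c hb' ha')
    · exact key a b c ha' hb'
    · exact key a b c ha' hb'
    · exact isoD_rot.2 (key b c a hb' hc')
    · exact absurd (Or.inl ⟨ha', hb', hc'⟩) h

end real

end RecM

end Pool.Agent.Lib.MP_8cb858_nt.PR
end

section
/-!
# HBP: the Hilbert symbol over `ℚ_p`, `p` odd, is bimultiplicative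
-/
namespace Pool.Agent.Lib.MP_8cb858_nt.PF.RF

namespace HBPM

open Pool.Agent.Lib.MP_8cb858_nt.PR (IsoD)
open Pool.Agent.Lib.MP_8cb858_nt.PR.RecM

lemma con_iff {K : Type*} [Field K] {a b : K} : Con K a b ↔ IsoD K a b (-1) := by
  constructor <;> rintro ⟨x, y, z, h, e⟩ <;> exact ⟨x, y, z, h, by linear_combination e⟩

lemma hs_of_iff {K : Type*} [Field K] {a b : K} {t : ℤ} (ht : t = 1 ∨ t = -1)
    (h : IsoD K a b (-1) ↔ t = 1) : hs K a b = t := by
  rcases hs_eq a b with h1 | h1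
  · rw [h1, h.1 (con_iff.1 (hs_one_iff.1 h1))]
  · rcases ht with h2 | h2
    · have := hs_one_iff.2 (con_iff.2 (h.2 h2))
      rw [h1] at this
      norm_num at this
    · rw [h1, h2]

/-- both coefficients divisible by `s` -/
lemma isoD_two {K : Type*} [Field K] {m r s : K} (hs : s ≠ 0) :
    IsoD K (s * m) (s * r) (-1) ↔ IsoD K m r (-s) := by
  constructor
  · rintro ⟨x, y, z, h, e⟩
    refine ⟨x, y, z / s, ?_, ?_⟩
    · rcases h with h | h | h
      · exact Or.inl h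
      · exact Or.inr (Or.inl h)
      · exact Or.inr (Or.inr (div_ne_zero h hs))
    · field_simp
      linear_combination e
  · rintro ⟨x, y, z, h, e⟩
    refine ⟨x, y, s * z, ?_, by linear_combination s * e⟩
    rcases h with h | h | h
    · exact Or.inl h
    · exact Or.inr (Or.inl h)
    · exact Or.inr (Or.inr (mul_ne_zero hs h))

section
variable {p : ℕ} [hp : Fact p.Prime]

/-- Hensel for `X^2 - w` -/
lemma hensel' {w r : ℤ_[p]} (h : ‖w - r ^ 2‖ < ‖2 * r‖ ^ 2) : ∃ s : ℤ_[p], s ^ 2 = w := by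
  obtain ⟨s, hs, -⟩ := hensels_lemma (p := p) (R := ℤ_[p])
    (F := Polynomial.X ^ 2 - Polynomial.C w) (a := r) (by
      have e1 : (Polynomial.aeval r) (Polynomial.X ^ 2 - Polynomial.C w) = -(w - r ^ 2) := by
        simp
      have e2 : (Polynomial.aeval r)
          (Polynomial.derivative (Polynomial.X ^ 2 - Polynomial.C w)) = 2 * r := by
        simp
        left; norm_num
      rw [e1, e2, norm_neg]
      exact h)
  refine ⟨s, ?_⟩
  simp at hs
  linear_combination hs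

/-- the classes -/
lemma cls {N : ℕ} (hN0 : 0 < N) (hN : (p : ℝ) ^ (-(N : ℤ)) < ‖(2 : ℤ_[p])‖ ^ 2) (x : ℚ_[p])
    (hx : x ≠ 0) : ∃ (i : ℕ) (m : ℤ) (s : ℚ_[p]), ¬ (p : ℤ) ∣ m ∧ s ≠ 0 ∧
      x = (((p : ℤ) ^ i * m : ℤ) : ℚ_[p]) * s ^ 2 := by
  have hp0 : (p : ℚ_[p]) ≠ 0 := by exact_mod_cast hp.out.ne_zero
  have hpR : (1 : ℝ) < p := by exact_mod_cast hp.out.one_lt
  set n := x.valuation with hn
  have hu : ‖x * (p : ℚ_[p]) ^ (-n)‖ = 1 := by
    rw [norm_mul, Padic.norm_eq_zpow_neg_valuation hx, Padic.norm_p_zpow, neg_neg, ← hn,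
      ← zpow_add₀ (by positivity)]
    simp
  set w : ℤ_[p] := ⟨x * (p : ℚ_[p]) ^ (-n), hu.le⟩ with hw
  set m : ℤ := (w.appr N : ℤ) with hm
  have h1 : ‖w - (m : ℤ_[p])‖ ≤ (p : ℝ) ^ (-(N : ℤ)) := by
    rw [PadicInt.norm_le_pow_iff_mem_span_pow]
    have := PadicInt.appr_spec N w
    simpa [hm] using this
  have hlt : (p : ℝ) ^ (-(N : ℤ)) < 1 := zpow_lt_one_of_neg₀ hpR (by omega)
  have hwn : ‖w‖ = 1 := hu
  have hmn : ‖(m : ℤ_[p])‖ = 1 := by
    have h3 : ‖w - (m : ℤ_[p])‖ < ‖w‖ := by rw [hwn]; exact lt_of_le_of_lt h1 hlt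
    have h4 : (m : ℤ_[p]) = w - (w - m) := by ring
    rw [h4, sub_eq_add_neg, PadicInt.norm_add_eq_max_of_ne (by rw [norm_neg]; exact h3.ne'),
      norm_neg, max_eq_left h3.le, hwn]
  have hmd : ¬ (p : ℤ) ∣ m := by
    intro hd
    have := (PadicInt.norm_int_lt_one_iff_dvd (p := p) m).2 hd
    rw [hmn] at this
    exact lt_irrefl _ this
  have hm0 : (m : ℚ_[p]) ≠ 0 := by
    intro h0
    have : m = 0 := by exact_mod_cast h0
    exact hmd (this ▸ dvd_zero _)
  obtain ⟨s, hs⟩ := hensel' (w := w * (m : ℤ_[p])) (r := (m : ℤ_[p])) (by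
    have : w * (m : ℤ_[p]) - (m : ℤ_[p]) ^ 2 = (w - m) * m := by ring
    rw [this, norm_mul, hmn, mul_one, norm_mul, hmn, mul_one]
    exact lt_of_le_of_lt h1 hN)
  have hs' : (s : ℚ_[p]) ^ 2 = x * (p : ℚ_[p]) ^ (-n) * m := by
    have := congrArg (fun t : ℤ_[p] => (t : ℚ_[p])) hs
    push_cast at this
    rw [this, hw]
  have hs0 : (s : ℚ_[p]) ≠ 0 := by
    intro h0
    rw [h0] at hs'
    have : x * (p : ℚ_[p]) ^ (-n) * m ≠ 0 :=
      mul_ne_zero (mul_ne_zero hx (zpow_ne_zero _ hp0)) hm0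
    exact this (by rw [← hs']; ring)
  refine ⟨(n % 2).toNat, m, (s : ℚ_[p]) / m * (p : ℚ_[p]) ^ (n / 2), hmd,
    mul_ne_zero (div_ne_zero hs0 hm0) (zpow_ne_zero _ hp0), ?_⟩
  have h5 : ((p : ℚ_[p]) ^ (n % 2).toNat) = (p : ℚ_[p]) ^ (n % 2) := by
    rw [← zpow_natCast, Int.toNat_of_nonneg (Int.emod_nonneg _ (by norm_num))]
  have h6 : (p : ℚ_[p]) ^ (n % 2) * ((p : ℚ_[p]) ^ (n / 2)) ^ 2 = (p : ℚ_[p]) ^ n := by
    rw [← zpow_natCast, ← zpow_mul, ← zpow_add₀ hp0]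
    congr 1
    push_cast
    omega
  push_cast
  rw [mul_pow, div_pow, hs', h5]
  have h7 : (p : ℚ_[p]) ^ (-n) * (p : ℚ_[p]) ^ n = 1 := by
    rw [← zpow_add₀ hp0]; simp
  calc x = x * ((p : ℚ_[p]) ^ (-n) * (p : ℚ_[p]) ^ n) := by rw [h7, mul_one]
    _ = x * ((p : ℚ_[p]) ^ (-n) * ((p : ℚ_[p]) ^ (n % 2) * ((p : ℚ_[p]) ^ (n / 2)) ^ 2)) := by
        rw [h6]
    _ = _ := by field_simp

/-- the formal part -/
lemma bi_of (C : ℤ → ℤ) (D : ℤ) (E : ℤ → ℤ → ℤ)
    (hcls : ∀ x : ℚ_[p], x ≠ 0 → ∃ (i : ℕ) (m : ℤ) (s : ℚ_[p]), ¬ (p : ℤ) ∣ m ∧ s ≠ 0 ∧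
      x = (((p : ℤ) ^ i * m : ℤ) : ℚ_[p]) * s ^ 2)
    (hC2 : ∀ m : ℤ, ¬ (p : ℤ) ∣ m → C m ^ 2 = 1) (hD : D ^ 2 = 1)
    (hCm : ∀ m n : ℤ, ¬ (p : ℤ) ∣ m → ¬ (p : ℤ) ∣ n → C (m * n) = C m * C n)
    (hEm : ∀ m n r : ℤ, ¬ (p : ℤ) ∣ m → ¬ (p : ℤ) ∣ n → ¬ (p : ℤ) ∣ r →
      E (m * n) r = E m r * E n r)
    (h00 : ∀ m r : ℤ, ¬ (p : ℤ) ∣ m → ¬ (p : ℤ) ∣ r → hs ℚ_[p] m r = E m r)
    (h10 : ∀ m r : ℤ, ¬ (p : ℤ) ∣ m → ¬ (p : ℤ) ∣ r →
      hs ℚ_[p] ((p * m : ℤ) : ℚ_[p]) r = C r * E m r)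
    (h01 : ∀ m r : ℤ, ¬ (p : ℤ) ∣ m → ¬ (p : ℤ) ∣ r →
      hs ℚ_[p] m ((p * r : ℤ) : ℚ_[p]) = C m * E m r)
    (h11 : ∀ m r : ℤ, ¬ (p : ℤ) ∣ m → ¬ (p : ℤ) ∣ r →
      hs ℚ_[p] ((p * m : ℤ) : ℚ_[p]) ((p * r : ℤ) : ℚ_[p]) = C r * C m * D * E m r) :
    Bi ℚ_[p] := by
  have hp0 : (p : ℚ_[p]) ≠ 0 := by exact_mod_cast hp.out.ne_zero
  have hpp : Prime (p : ℤ) := Nat.prime_iff_prime_int.1 hp.out
  have tab : ∀ (i k : ℕ) (m r : ℤ), ¬ (p : ℤ) ∣ m → ¬ (p : ℤ) ∣ r →
      hs ℚ_[p] (((p : ℤ) ^ i * m : ℤ) : ℚ_[p]) (((p : ℤ) ^ k * r : ℤ) : ℚ_[p]) =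
        C r ^ i * C m ^ k * D ^ (i * k) * E m r := by
    intro i k m r hm hr
    obtain ⟨i', hi⟩ : ∃ i', i = 2 * i' + i % 2 := ⟨i / 2, by omega⟩
    obtain ⟨k', hk⟩ : ∃ k', k = 2 * k' + k % 2 := ⟨k / 2, by omega⟩
    have e1 : (((p : ℤ) ^ i * m : ℤ) : ℚ_[p]) =
        (((p : ℤ) ^ (i % 2) * m : ℤ) : ℚ_[p]) * ((p : ℚ_[p]) ^ i') ^ 2 := by
      conv_lhs => rw [hi]
      push_cast
      ring
    have e2 : (((p : ℤ) ^ k * r : ℤ) : ℚ_[p]) =
        (((p : ℤ) ^ (k % 2) * r : ℤ) : ℚ_[p]) * ((p : ℚ_[p]) ^ k') ^ 2 := by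
      conv_lhs => rw [hk]
      push_cast
      ring
    rw [e1, e2, hs_mul_sq (pow_ne_zero _ hp0), hs_mul_sq_right (pow_ne_zero _ hp0)]
    have e3 : C r ^ i = C r ^ (i % 2) := by
      conv_lhs => rw [hi, pow_add, pow_mul, hC2 r hr, one_pow, one_mul]
    have e4 : C m ^ k = C m ^ (k % 2) := by
      conv_lhs => rw [hk, pow_add, pow_mul, hC2 m hm, one_pow, one_mul]
    have e5 : D ^ (i * k) = D ^ ((i % 2) * (k % 2)) := by
      have : i * k = 2 * (i' * k + (i % 2) * k') + (i % 2) * (k % 2) := by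
        conv_lhs => rw [hi]
        have : (2 * i' + i % 2) * k = 2 * (i' * k) + (i % 2) * k := by ring
        rw [this]
        conv_lhs => rw [hk]
        have h9 : i' * (2 * k' + k % 2) = i' * k := by rw [← hk]
        rw [h9]
        ring
      rw [this, pow_add, pow_mul, hD, one_pow, one_mul]
    rw [e3, e4, e5]
    rcases Nat.mod_two_eq_zero_or_one i with hi0 | hi0 <;>
      rcases Nat.mod_two_eq_zero_or_one k with hk0 | hk0
    · rw [hi0, hk0]
      have := h00 m r hm hr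
      simpa using this
    · rw [hi0, hk0]
      have := h01 m r hm hr
      simpa using this
    · rw [hi0, hk0]
      have := h10 m r hm hr
      simpa using this
    · rw [hi0, hk0]
      have := h11 m r hm hr
      simpa using this
  intro a a' b ha ha' hb
  obtain ⟨i, m, s, hm, hs, ea⟩ := hcls a ha
  obtain ⟨j, n, t, hn, ht, ea'⟩ := hcls a' ha'
  obtain ⟨k, r, q, hr, hq, eb⟩ := hcls b hb
  have hmn : ¬ (p : ℤ) ∣ m * n := by
    intro hd
    rcases hpp.dvd_or_dvd hd with h | h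
    · exact hm h
    · exact hn h
  have eaa : a * a' = (((p : ℤ) ^ (i + j) * (m * n) : ℤ) : ℚ_[p]) * (s * t) ^ 2 := by
    rw [ea, ea']
    push_cast
    ring
  rw [eaa, eb, hs_mul_sq (mul_ne_zero hs ht), hs_mul_sq_right hq, tab _ _ _ _ hmn hr, ea, ea',
    hs_mul_sq hs, hs_mul_sq_right hq, tab _ _ _ _ hm hr, hs_mul_sq ht, hs_mul_sq_right hq,
    tab _ _ _ _ hn hr, hCm m n hm hn, hEm m n r hm hn hr]
  ring

lemma norm_two (hp2 : p ≠ 2) : ‖(2 : ℤ_[p])‖ = 1 := by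
  have h := (PadicInt.norm_int_lt_one_iff_dvd (p := p) 2).not.2 (by
    intro hd
    have h1 : p ∣ 2 := by exact_mod_cast hd
    exact hp2 ((Nat.prime_dvd_prime_iff_eq hp.out Nat.prime_two).1 h1))
  push_cast at h
  exact le_antisymm (PadicInt.norm_le_one _) (not_lt.1 h)

end

end HBPM

open HBPM Pool.Agent.Lib.MP_8cb858_nt.PR.RecM

theorem specHBP : SpecHBP := by
  intro p hp hp2
  have hpp : Prime (p : ℤ) := Nat.prime_iff_prime_int.1 hp.out
  have hp0 : (p : ℚ_[p]) ≠ 0 := by exact_mod_cast hp.out.ne_zero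
  have h1d : ¬ (p : ℤ) ∣ -1 := by
    rw [dvd_neg]
    intro hd
    exact hpp.not_isUnit (isUnit_of_dvd_one hd)
  have hsq : ¬ (p : ℤ) ^ 2 ∣ p := by
    intro hd
    have : (p : ℤ) ∣ 1 := by
      obtain ⟨c, hc⟩ := hd
      refine ⟨c, ?_⟩
      have h0 : (p : ℤ) ≠ 0 := hpp.ne_zero
      have : (p : ℤ) * 1 = p * (p * c) := by linear_combination hc
      exact mul_left_cancel₀ h0 this
    exact hpp.not_isUnit (isUnit_of_dvd_one this)
  have hsqm : ∀ m : ℤ, ¬ (p : ℤ) ∣ m → ¬ (p : ℤ) ^ 2 ∣ p * m := by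
    intro m hm hd
    obtain ⟨c, hc⟩ := hd
    have h0 : (p : ℤ) ≠ 0 := hpp.ne_zero
    exact hm ⟨c, mul_left_cancel₀ h0 (by linear_combination hc)⟩
  have hl : ∀ m : ℤ, ¬ (p : ℤ) ∣ m → legendreSym p m = 1 ∨ legendreSym p m = -1 := by
    intro m hm
    exact legendreSym.eq_one_or_neg_one p (by
      rwa [Ne, ZMod.intCast_zmod_eq_zero_iff_dvd])
  have hl2 : ∀ m : ℤ, ¬ (p : ℤ) ∣ m → legendreSym p m ^ 2 = 1 := by
    intro m hm
    rcases hl m hm with h | h <;> rw [h] <;> norm_num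
  refine bi_of (legendreSym p) (legendreSym p (-1)) (fun _ _ => 1)
    (cls (N := 1) one_pos (by
      rw [norm_two hp2, one_pow]
      exact zpow_lt_one_of_neg₀ (by exact_mod_cast hp.out.one_lt) (by norm_num)))
    hl2 (hl2 _ h1d) (fun m n _ _ => legendreSym.mul p m n) (fun _ _ _ _ _ _ => by norm_num)
    ?_ ?_ ?_ ?_
  · intro m r hm hr
    refine hs_of_iff (Or.inl rfl) ⟨fun _ => rfl, fun _ => ?_⟩
    have := isoD_good hp2 hm hr h1d
    simpa using this
  · intro m r hm hr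
    rw [mul_one]
    refine hs_of_iff (hl r hr) ?_
    have := isoD_bad hp2 (a := p * m) (b := r) (c := -1) (dvd_mul_right _ _) (hsqm m hm) hr h1d
    rw [show -(r * -1) = r by ring] at this
    simpa using this
  · intro m r hm hr
    rw [mul_one, hs_comm]
    refine hs_of_iff (hl m hm) ?_
    have := isoD_bad hp2 (a := p * r) (b := m) (c := -1) (dvd_mul_right _ _) (hsqm r hr) hm h1d
    rw [show -(m * -1) = m by ring] at this
    simpa using this
  · intro m r hm hr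
    have e : legendreSym p r * legendreSym p m * legendreSym p (-1) * 1 =
        legendreSym p (-(m * r)) := by
      rw [show -(m * r) = r * m * (-1) by ring, legendreSym.mul, legendreSym.mul, mul_one]
    rw [e]
    have hmr : ¬ (p : ℤ) ∣ -(m * r) := by
      rw [dvd_neg]
      intro hd
      rcases hpp.dvd_or_dvd hd with h | h
      · exact hm h
      · exact hr h
    refine hs_of_iff (hl _ hmr) ?_
    have h1 := isoD_bad hp2 (a := -p) (b := m) (c := r) (by rw [dvd_neg])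
      (by rw [dvd_neg]; exact hsq) hm hr
    push_cast at h1 ⊢
    rw [isoD_two hp0, ← h1]
    exact ⟨fun h => rot (rot h), fun h => rot h⟩

end Pool.Agent.Lib.MP_8cb858_nt.PF.RF
end

section
/-!
# HB2: the Hilbert symbol over `ℚ_2` is bimultiplicative
-/
namespace Pool.Agent.Lib.MP_8cb858_nt.PF.RF

namespace HB2M

/-- `(-1)^((m-1)/2 (r-1)/2)` -/
def ee (m r : ZMod 8) : ℤ := if (m = 3 ∨ m = 7) ∧ (r = 3 ∨ r = 7) then -1 else 1

/-- `(-1)^((m^2-1)/8)` -/
def ww (m : ZMod 8) : ℤ := if m = 3 ∨ m = 5 then -1 else 1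

open Pool.Agent.Lib.MP_8cb858_nt.PR.RecM in
lemma d00 : ∀ m r : ZMod 8, m * m = 1 → r * r = 1 → (odd8 m r (-1) ↔ ee m r = 1) := by
  unfold ee odd8; decide

open Pool.Agent.Lib.MP_8cb858_nt.PR.RecM in
lemma d10 : ∀ m r : ZMod 8, m * m = 1 → r * r = 1 →
    (even8 (2 * m) r (-1) ↔ ww r * ee m r = 1) := by
  unfold ee even8 ww; decide

open Pool.Agent.Lib.MP_8cb858_nt.PR.RecM in
lemma d11 : ∀ m r : ZMod 8, m * m = 1 → r * r = 1 →
    (even8 (2 * -1) m r ↔ ww r * ww m * 1 * ee m r = 1) := by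
  unfold ee even8 ww; decide

lemma esymm : ∀ m r : ZMod 8, ee m r = ee r m := by unfold ee; decide

lemma e_or (m r : ZMod 8) : ee m r = 1 ∨ ee m r = -1 := by
  unfold ee; split_ifs <;> simp

lemma w_or (m : ZMod 8) : ww m = 1 ∨ ww m = -1 := by
  unfold ww; split_ifs <;> simp

lemma wmul : ∀ m n : ZMod 8, m * m = 1 → n * n = 1 → ww (m * n) = ww m * ww n := by
  unfold ww; decide

lemma emul : ∀ m n r : ZMod 8, m * m = 1 → n * n = 1 → r * r = 1 →
    ee (m * n) r = ee m r * ee n r := by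
  unfold ee; decide

lemma odd_of {m : ℤ} (h : ¬ ((2 : ℕ) : ℤ) ∣ m) : Odd m := by
  rw [← Int.not_even_iff_odd, even_iff_two_dvd]; exact_mod_cast h

end HB2M

open HBPM HB2M Pool.Agent.Lib.MP_8cb858_nt.PR.RecM

theorem specHB2 : SpecHB2 := by
  have h1o : Odd (-1 : ℤ) := ⟨-1, by norm_num⟩
  have h20 : (2 : ℚ_[2]) ≠ 0 := two_ne_zero
  refine bi_of (p := 2) (fun m => ww m) 1 (fun m r => ee m r)
    (cls (N := 3) (by norm_num) ?_) ?_ (one_pow 2) ?_ ?_ ?_ ?_ ?_ ?_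
  · have : ‖(2 : ℤ_[2])‖ = (2 : ℝ)⁻¹ := by
      have := PadicInt.norm_p (p := 2)
      simpa using this
    rw [this]
    norm_num
  · intro m _
    rcases w_or (m : ZMod 8) with h | h <;> simp only [h] <;> norm_num
  · intro m n hm hn
    have := wmul m n (mul_self_odd (odd_of hm)) (mul_self_odd (odd_of hn))
    simpa using this
  · intro m n r hm hn hr
    have := emul m n r (mul_self_odd (odd_of hm)) (mul_self_odd (odd_of hn))
      (mul_self_odd (odd_of hr))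
    simpa using this
  · intro m r hm hr
    have hm' := odd_of hm
    have hr' := odd_of hr
    refine hs_of_iff (e_or _ _) ?_
    have := isoD_two_odd hm' hr' h1o
    rw [← d00 _ _ (mul_self_odd hm') (mul_self_odd hr')]
    simpa using this
  · intro m r hm hr
    have hm' := odd_of hm
    have hr' := odd_of hr
    refine hs_of_iff ?_ ?_
    · rcases w_or (r : ZMod 8) with h | h <;> rcases e_or (m : ZMod 8) r with h' | h' <;>
        simp [h, h']
    have := isoD_two_even hm' hr' h1o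
    show _ ↔ ww r * ee m r = 1
    rw [← d10 _ _ (mul_self_odd hm') (mul_self_odd hr')]
    simpa using this
  · intro m r hm hr
    have hm' := odd_of hm
    have hr' := odd_of hr
    rw [hs_comm]
    refine hs_of_iff ?_ ?_
    · rcases w_or (m : ZMod 8) with h | h <;> rcases e_or (m : ZMod 8) r with h' | h' <;>
        simp [h, h']
    have := isoD_two_even hr' hm' h1o
    show _ ↔ ww m * ee m r = 1
    rw [esymm, ← d10 _ _ (mul_self_odd hr') (mul_self_odd hm')]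
    simpa using this
  · intro m r hm hr
    have hm' := odd_of hm
    have hr' := odd_of hr
    refine hs_of_iff ?_ ?_
    · rcases w_or (m : ZMod 8) with h | h <;> rcases w_or (r : ZMod 8) with h'' | h'' <;>
        rcases e_or (m : ZMod 8) r with h' | h' <;> simp [h, h', h'']
    have h1 := isoD_two_even h1o hm' hr'
    show _ ↔ ww r * ww m * 1 * ee m r = 1
    rw [← d11 _ _ (mul_self_odd hm') (mul_self_odd hr')]
    push_cast at h1 ⊢
    have e8 : (2 * -1 : ZMod 8) = -2 := by decide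
    rw [isoD_two h20, e8, ← h1]
    constructor
    · intro h
      have := rot (rot h)
      simpa using this
    · intro h
      have := rot h
      simpa using this

end Pool.Agent.Lib.MP_8cb858_nt.PF.RF
end

section
/-!
# The number of anisotropic places of `a x^2 + b y^2 + c z^2` is even

`a, b, c` squarefree pairwise coprime integers.
-/
namespace Pool.Agent.Lib.MP_8cb858_nt.PR
namespace RecM

open scoped NumberTheorySymbols
open scoped Classical

/-- `chi_4` on residues mod 8 -/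
def c4 (r : ZMod 8) : ℤ := if r = 3 ∨ r = 7 then -1 else 1
/-- `chi_8` on residues mod 8 -/
def c8 (r : ZMod 8) : ℤ := if r = 3 ∨ r = 5 then -1 else 1
/-- the reciprocity sign -/
def qr (r s : ZMod 8) : ℤ := if (r = 3 ∨ r = 7) ∧ (s = 3 ∨ s = 7) then -1 else 1
/-- the sign of a Boolean -/
def sb (b : Bool) : ℤ := if b then 1 else -1

set_option maxRecDepth 100000 in
lemma dec1 : ∀ x y z : Bool, ∀ ra rb rc : ZMod 8, ra * ra = 1 → rb * rb = 1 → rc * rc = 1 →
    (if y = z then c4 ra else 1) * (if z = x then c4 rb else 1) * (if x = y then c4 rc else 1) *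
      (qr ra rb * qr rb rc * qr rc ra) *
      (if odd8 ((sb x : ℤ) * ra) ((sb y : ℤ) * rb) ((sb z : ℤ) * rc) then 1 else -1) *
      (if x = y ∧ y = z then -1 else 1) = 1 := by
  decide

set_option maxRecDepth 100000 in
lemma dec2 : ∀ x y z : Bool, ∀ ra rb rc : ZMod 8, ra * ra = 1 → rb * rb = 1 → rc * rc = 1 →
    (if y = z then c4 ra else 1) * (if z = x then c4 rb else 1) * (if x = y then c4 rc else 1) *
      (qr ra rb * qr rb rc * qr rc ra) * (c8 rb * c8 rc) *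
      (if even8 (2 * ((sb x : ℤ) * ra)) ((sb y : ℤ) * rb) ((sb z : ℤ) * rc) then 1 else -1) *
      (if x = y ∧ y = z then -1 else 1) = 1 := by
  decide

/-! ## Jacobi symbols -/

lemma cast8 (m : ℕ) : (m : ZMod 8) = ((m % 8 : ℕ) : ZMod 8) := by
  rw [ZMod.natCast_mod]

lemma odd_cases {m : ℕ} (hm : Odd m) : m % 8 = 1 ∨ m % 8 = 3 ∨ m % 8 = 5 ∨ m % 8 = 7 := by
  have := Nat.odd_iff.1 hm
  omega

lemma c4_eq {m : ℕ} (hm : Odd m) : J(-1 | m) = c4 m := by
  rw [jacobiSym.at_neg_one hm, ZMod.χ₄_nat_eq_if_mod_four]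
  have h2 := Nat.odd_iff.1 hm
  rw [if_neg (by omega), cast8]
  rcases odd_cases hm with h | h | h | h <;> rw [h]
  · rw [if_pos (by omega)]; decide
  · rw [if_neg (by omega)]; decide
  · rw [if_pos (by omega)]; decide
  · rw [if_neg (by omega)]; decide

lemma c8_eq {m : ℕ} (hm : Odd m) : J(2 | m) = c8 m := by
  rw [jacobiSym.at_two hm, ZMod.χ₈_nat_eq_if_mod_eight]
  have h2 := Nat.odd_iff.1 hm
  rw [if_neg (by omega), cast8]
  rcases odd_cases hm with h | h | h | h <;> rw [h]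
  · rw [if_pos (by omega)]; decide
  · rw [if_neg (by omega)]; decide
  · rw [if_neg (by omega)]; decide
  · rw [if_pos (by omega)]; decide

lemma qr_eq {m n : ℕ} (hm : Odd m) (hn : Odd n) (hc : Nat.Coprime m n) :
    J(m | n) * J(n | m) = qr m n := by
  have h1 : J(n | m) * J(n | m) = 1 := by
    have := jacobiSym.sq_one (a := (n : ℤ)) (b := m) (by
      rw [Int.gcd_natCast_natCast]; exact hc.symm)
    rwa [sq] at this
  have e4 : ∀ {k : ℕ}, Odd k → (k % 4 = 1 ∧ ¬ ((k : ZMod 8) = 3 ∨ (k : ZMod 8) = 7)) ∨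
      (k % 4 = 3 ∧ ((k : ZMod 8) = 3 ∨ (k : ZMod 8) = 7)) := by
    intro k hk
    rw [cast8 k]
    rcases odd_cases hk with h | h | h | h
    · left; refine ⟨by omega, ?_⟩; rw [h]; decide
    · right; refine ⟨by omega, ?_⟩; rw [h]; decide
    · left; refine ⟨by omega, ?_⟩; rw [h]; decide
    · right; refine ⟨by omega, ?_⟩; rw [h]; decide
  rcases e4 hm with ⟨h4, h5⟩ | ⟨h4, h5⟩
  · rw [jacobiSym.quadratic_reciprocity_one_mod_four h4 hn, h1, qr, if_neg (by tauto)]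
  · rcases e4 hn with ⟨h6, h7⟩ | ⟨h6, h7⟩
    · rw [jacobiSym.quadratic_reciprocity_one_mod_four' hm h6, h1, qr, if_neg (by tauto)]
    · rw [jacobiSym.quadratic_reciprocity_three_mod_four h4 h6, qr, if_pos ⟨h5, h7⟩]
      linear_combination -h1

lemma neg_sb (y z : Bool) {m : ℕ} (hm : Odd m) :
    J(-(sb y * sb z) | m) = if y = z then c4 m else 1 := by
  have h1 := c4_eq hm
  have h2 := jacobiSym.one_left m
  cases y <;> cases z <;> simp [sb, h1, h2]

/-- the product of the three Jacobi symbols, all odd -/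
lemma prodJ_odd (x y z : Bool) {ma mb mc : ℕ} (ha : Odd ma) (hb : Odd mb) (hc : Odd mc)
    (hab : Nat.Coprime ma mb) (hbc : Nat.Coprime mb mc) (hca : Nat.Coprime mc ma) :
    J(-((sb y * mb) * (sb z * mc)) | ma) * J(-((sb z * mc) * (sb x * ma)) | mb) *
      J(-((sb x * ma) * (sb y * mb)) | mc) =
    (if y = z then c4 ma else 1) * (if z = x then c4 mb else 1) * (if x = y then c4 mc else 1) *
      (qr ma mb * qr mb mc * qr mc ma) := by
  have e1 : (-((sb y * mb) * (sb z * mc)) : ℤ) = -(sb y * sb z) * (mb * mc) := by ring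
  have e2 : (-((sb z * mc) * (sb x * ma)) : ℤ) = -(sb z * sb x) * (mc * ma) := by ring
  have e3 : (-((sb x * ma) * (sb y * mb)) : ℤ) = -(sb x * sb y) * (ma * mb) := by ring
  rw [e1, e2, e3]
  simp only [jacobiSym.mul_left, neg_sb _ _ ha, neg_sb _ _ hb, neg_sb _ _ hc]
  rw [← qr_eq ha hb hab, ← qr_eq hb hc hbc, ← qr_eq hc ha hca]
  ring

/-- the product of the three Jacobi symbols, the first number twice an odd one -/
lemma prodJ_even (x y z : Bool) {ma mb mc : ℕ} (ha : Odd ma) (hb : Odd mb) (hc : Odd mc)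
    (hab : Nat.Coprime ma mb) (hbc : Nat.Coprime mb mc) (hca : Nat.Coprime mc ma) :
    J(-((sb y * mb) * (sb z * mc)) | ma) * J(-((sb z * mc) * (2 * (sb x * ma))) | mb) *
      J(-((2 * (sb x * ma)) * (sb y * mb)) | mc) =
    (if y = z then c4 ma else 1) * (if z = x then c4 mb else 1) * (if x = y then c4 mc else 1) *
      (qr ma mb * qr mb mc * qr mc ma) * (c8 mb * c8 mc) := by
  have e1 : (-((sb z * mc) * (2 * (sb x * ma))) : ℤ) = (-((sb z * mc) * (sb x * ma))) * 2 := by ring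
  have e2 : (-((2 * (sb x * ma)) * (sb y * mb)) : ℤ) = (-((sb x * ma) * (sb y * mb))) * 2 := by ring
  rw [e1, e2, jacobiSym.mul_left (-((sb z * mc) * (sb x * ma))), jacobiSym.mul_left
    (-((sb x * ma) * (sb y * mb))), c8_eq hb, c8_eq hc, ← prodJ_odd x y z ha hb hc hab hbc hca]
  ring

/-! ## From Jacobi symbols to local isotropy -/

/-- `-1` if the form is anisotropic over `ℚ_p`, `1` otherwise (also if `p` is not a prime) -/
noncomputable def tau (a b c : ℤ) (p : ℕ) : ℤ :=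
  if ∃ _ : Fact p.Prime, ¬ IsoD ℚ_[p] a b c then -1 else 1

lemma jac_eq_prod {n : ℤ} {m : ℕ} (hm : Squarefree m) :
    J(n | m) = ∏ p ∈ m.primeFactors, J(n | p) := by
  have h0 : m ≠ 0 := hm.ne_zero
  conv_lhs => rw [← Nat.prod_primeFactorsList h0]
  rw [jacobiSym.list_prod_right (fun p hp => (Nat.prime_of_mem_primeFactorsList hp).ne_zero)]
  have hnd : (m.primeFactorsList).Nodup := (Nat.squarefree_iff_nodup_primeFactorsList h0).1 hm
  rw [← List.prod_toFinset _ hnd]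
  rfl

lemma jac_tau {a b c : ℤ} {m : ℕ} (hm : Squarefree m) (hodd : Odd m)
    (ha : ∀ p : ℕ, p.Prime → p ∣ m → (p : ℤ) ∣ a ∧ ¬ (p : ℤ) ^ 2 ∣ a ∧ ¬ (p : ℤ) ∣ b ∧ ¬ (p : ℤ) ∣ c) :
    J(-(b * c) | m) = ∏ p ∈ m.primeFactors, tau a b c p := by
  rw [jac_eq_prod hm]
  refine Finset.prod_congr rfl fun p hp => ?_
  have hpp := Nat.prime_of_mem_primeFactors hp
  have hpm := Nat.dvd_of_mem_primeFactors hp
  have : Fact p.Prime := ⟨hpp⟩
  have hp2 : p ≠ 2 := by
    rintro rfl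
    exact (Nat.not_even_iff_odd.2 hodd) (even_iff_two_dvd.2 hpm)
  obtain ⟨h1, h2, h3, h4⟩ := ha p hpp hpm
  rw [← jacobiSym.legendreSym.to_jacobiSym]
  have key := isoD_bad hp2 h1 h2 h3 h4
  have hbc : ((-(b * c) : ℤ) : ZMod p) ≠ 0 := by
    rw [Ne, ZMod.intCast_zmod_eq_zero_iff_dvd, dvd_neg]
    intro hd
    rcases (Nat.prime_iff_prime_int.1 hpp).dvd_or_dvd hd with h' | h'
    · exact h3 h'
    · exact h4 h'
  unfold tau
  by_cases hi : IsoD ℚ_[p] a b c
  · rw [if_neg, key.1 hi]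
    rintro ⟨_, h⟩
    exact h hi
  · rw [if_pos ⟨inferInstance, hi⟩]
    rcases legendreSym.eq_one_or_neg_one p hbc with h | h
    · exact absurd (key.2 h) hi
    · exact h

/-- the set of anisotropic primes -/
def badS (a b c : ℤ) : Set ℕ := {p | ∃ _ : Fact p.Prime, ¬ IsoD ℚ_[p] a b c}

/-- the parity from the product of signs -/
lemma parity_of_prod {a b c : ℤ} (F : Finset ℕ) (hF : badS a b c ⊆ F) {h : ℤ}
    (hprod : (∏ p ∈ F, tau a b c p) * h = 1) (hh : h = if IsoD ℝ a b c then 1 else -1) :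
    (badS a b c).Finite ∧ Even ((badS a b c).ncard + if IsoD ℝ a b c then 0 else 1) := by
  have hfin : (badS a b c).Finite := F.finite_toSet.subset hF
  refine ⟨hfin, ?_⟩
  have h1 : ∏ p ∈ F, tau a b c p = (-1) ^ (badS a b c).ncard := by
    have h2 : (badS a b c).ncard = (F.filter fun p => p ∈ badS a b c).card := by
      rw [← Set.ncard_coe_finset]
      congr 1
      ext p
      simp only [Finset.coe_filter, Set.mem_ofPred_eq]
      exact ⟨fun hp => ⟨hF hp, hp⟩, fun hp => hp.2⟩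
    rw [h2, ← Finset.prod_const, Finset.prod_filter]
    refine Finset.prod_congr rfl fun p _ => ?_
    unfold tau
    by_cases hp : p ∈ badS a b c
    · rw [if_pos hp, if_pos]; exact hp
    · rw [if_neg hp, if_neg]; exact hp
  rw [h1, hh] at hprod
  by_cases hi : IsoD ℝ a b c
  · rw [if_pos hi, mul_one] at hprod
    rw [if_pos hi, add_zero]
    exact (neg_one_pow_eq_one_iff_even (by norm_num)).1 hprod
  · rw [if_neg hi] at hprod
    rw [if_neg hi]
    have : (-1 : ℤ) ^ ((badS a b c).ncard + 1) = 1 := by rw [pow_succ]; exact hprod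
    exact (neg_one_pow_eq_one_iff_even (by norm_num)).1 this

lemma tau_rot (a b c : ℤ) (p : ℕ) : tau a b c p = tau b c a p := by
  unfold tau
  have : (∃ _ : Fact p.Prime, ¬ IsoD ℚ_[p] (a : ℚ_[p]) b c) ↔
      ∃ _ : Fact p.Prime, ¬ IsoD ℚ_[p] (b : ℚ_[p]) c a := by
    constructor
    · rintro ⟨h, h'⟩; exact ⟨h, fun h'' => h' (isoD_rot.2 h'')⟩
    · rintro ⟨h, h'⟩; exact ⟨h, fun h'' => h' (isoD_rot.1 h'')⟩
  simp only [this]

lemma badS_rot (a b c : ℤ) : badS a b c = badS b c a := by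
  ext p
  constructor
  · rintro ⟨h, h'⟩; exact ⟨h, fun h'' => h' (isoD_rot.2 h'')⟩
  · rintro ⟨h, h'⟩; exact ⟨h, fun h'' => h' (isoD_rot.1 h'')⟩

/-- the local hypotheses -/
lemma loc_hyp {a b c : ℤ} {m : ℕ} (h : m ∣ a.natAbs) (sa : Squarefree a.natAbs)
    (hab : Nat.Coprime a.natAbs b.natAbs) (hca : Nat.Coprime c.natAbs a.natAbs) :
    ∀ p : ℕ, p.Prime → p ∣ m → (p : ℤ) ∣ a ∧ ¬ (p : ℤ) ^ 2 ∣ a ∧ ¬ (p : ℤ) ∣ b ∧ ¬ (p : ℤ) ∣ c := by
  intro p hp hpm
  have hpa : p ∣ a.natAbs := hpm.trans h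
  refine ⟨Int.natCast_dvd.2 hpa, ?_, ?_, ?_⟩
  · intro hd
    have h2 : p ^ 2 ∣ a.natAbs := by
      have : ((p ^ 2 : ℕ) : ℤ) ∣ a := by push_cast; exact hd
      exact Int.natCast_dvd.1 this
    rw [sq] at h2
    exact hp.one_lt.ne' (Nat.isUnit_iff.1 (sa p h2))
  · intro hd
    exact hp.one_lt.ne' (Nat.dvd_one.1 (hab ▸ Nat.dvd_gcd hpa (Int.natCast_dvd.1 hd)))
  · intro hd
    exact hp.one_lt.ne' (Nat.dvd_one.1 (hca ▸ Nat.dvd_gcd (Int.natCast_dvd.1 hd) hpa))

lemma prod_F (f : ℕ → ℤ) {ma mb mc : ℕ} (ha : Odd ma) (hb : Odd mb) (hc : Odd mc)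
    (hab : Nat.Coprime ma mb) (hbc : Nat.Coprime mb mc) (hca : Nat.Coprime mc ma) :
    ∏ p ∈ insert 2 (ma.primeFactors ∪ mb.primeFactors ∪ mc.primeFactors), f p =
      f 2 * ((∏ p ∈ ma.primeFactors, f p) * (∏ p ∈ mb.primeFactors, f p) *
        ∏ p ∈ mc.primeFactors, f p) := by
  have n2 : ∀ {m : ℕ}, Odd m → 2 ∉ m.primeFactors := by
    intro m hm h
    exact (Nat.not_even_iff_odd.2 hm) (even_iff_two_dvd.2 (Nat.dvd_of_mem_primeFactors h))
  rw [Finset.prod_insert, Finset.prod_union, Finset.prod_union]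
  · exact hab.disjoint_primeFactors
  · rw [Finset.disjoint_union_left]
    exact ⟨hca.symm.disjoint_primeFactors, hbc.disjoint_primeFactors⟩
  · simp only [Finset.mem_union, not_or]
    exact ⟨⟨n2 ha, n2 hb⟩, n2 hc⟩

lemma badS_sub {a b c : ℤ} {ma mb mc : ℕ}
    (ha : ∀ p : ℕ, p.Prime → p ≠ 2 → (p : ℤ) ∣ a → p ∣ ma)
    (hb : ∀ p : ℕ, p.Prime → p ≠ 2 → (p : ℤ) ∣ b → p ∣ mb)
    (hc : ∀ p : ℕ, p.Prime → p ≠ 2 → (p : ℤ) ∣ c → p ∣ mc)
    (ma0 : ma ≠ 0) (mb0 : mb ≠ 0) (mc0 : mc ≠ 0) :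
    badS a b c ⊆ (insert 2 (ma.primeFactors ∪ mb.primeFactors ∪ mc.primeFactors) : Finset ℕ) := by
  rintro p ⟨hp, h⟩
  simp only [Finset.coe_insert, Finset.coe_union, Set.mem_insert_iff, Set.mem_union,
    Finset.mem_coe, Nat.mem_primeFactors]
  by_cases h2 : p = 2
  · exact Or.inl h2
  · right
    by_contra hcon
    push Not at hcon
    obtain ⟨⟨h3, h4⟩, h5⟩ := hcon
    exact h (isoD_good h2 (fun hd => ma0 (h3 hp.out (ha p hp.out h2 hd)))
      (fun hd => mb0 (h4 hp.out (hb p hp.out h2 hd)))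
      (fun hd => mc0 (h5 hp.out (hc p hp.out h2 hd))))

lemma sign_eq {a : ℤ} (ha : a ≠ 0) : a = sb (decide (0 < a)) * a.natAbs := by
  rcases lt_or_gt_of_ne ha with h | h
  · rw [decide_eq_false (not_lt.2 h.le)]
    simp only [sb, Bool.false_eq_true, if_false]
    rw [Int.ofNat_natAbs_of_nonpos h.le]; ring
  · rw [decide_eq_true h]
    simp only [sb, if_true]
    rw [Int.natAbs_of_nonneg h.le]; ring

lemma real_sign {a b c : ℤ} (ha : a ≠ 0) (hb : b ≠ 0) (hc : c ≠ 0) :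
    (if decide (0 < a) = decide (0 < b) ∧ decide (0 < b) = decide (0 < c) then (-1 : ℤ) else 1) =
      if IsoD ℝ a b c then 1 else -1 := by
  have key := isoD_real ha hb hc
  by_cases h : IsoD ℝ a b c
  · rw [if_pos h, if_neg]
    rintro ⟨h1, h2⟩
    apply key.1 h
    rw [decide_eq_decide] at h1 h2
    rcases lt_or_gt_of_ne ha with ha' | ha'
    · right
      have hb' : b < 0 := lt_of_le_of_ne (not_lt.1 fun h' => absurd (h1.2 h') (not_lt.2 ha'.le)) hb
      exact ⟨ha', hb', lt_of_le_of_ne (not_lt.1 fun h' => absurd (h2.2 h') (not_lt.2 hb'.le)) hc⟩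
    · left
      exact ⟨ha', h1.1 ha', h2.1 (h1.1 ha')⟩
  · rw [if_neg h, if_pos]
    have h' := not_not.1 (fun h'' => h (key.2 h''))
    rcases h' with ⟨h1, h2, h3⟩ | ⟨h1, h2, h3⟩
    · rw [decide_eq_true h1, decide_eq_true h2, decide_eq_true h3]; exact ⟨rfl, rfl⟩
    · rw [decide_eq_false (not_lt.2 h1.le), decide_eq_false (not_lt.2 h2.le),
        decide_eq_false (not_lt.2 h3.le)]; exact ⟨rfl, rfl⟩

lemma natcast_sq {m : ℕ} (h : Odd m) : (m : ZMod 8) * m = 1 := by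
  have := mul_self_odd (a := (m : ℤ)) (by exact_mod_cast h)
  exact_mod_cast this

/-- The case of three odd numbers. -/
lemma par_odd {a b c : ℤ} (ha : Odd a) (hb : Odd b) (hc : Odd c)
    (sa : Squarefree a.natAbs) (sb' : Squarefree b.natAbs) (sc : Squarefree c.natAbs)
    (hab : Nat.Coprime a.natAbs b.natAbs) (hbc : Nat.Coprime b.natAbs c.natAbs)
    (hca : Nat.Coprime c.natAbs a.natAbs) :
    (badS a b c).Finite ∧ Even ((badS a b c).ncard + if IsoD ℝ a b c then 0 else 1) := by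
  have ne : ∀ {x : ℤ}, Odd x → x ≠ 0 := by
    rintro x hx rfl
    simp at hx
  have na := ne ha
  have nb := ne hb
  have nc := ne hc
  have oa : Odd a.natAbs := Int.natAbs_odd.2 ha
  have ob : Odd b.natAbs := Int.natAbs_odd.2 hb
  have oc : Odd c.natAbs := Int.natAbs_odd.2 hc
  have ea := sign_eq na
  have eb := sign_eq nb
  have ec := sign_eq nc
  have hF := badS_sub (ma := a.natAbs) (mb := b.natAbs) (mc := c.natAbs)
    (fun p _ _ h => Int.natCast_dvd.1 h) (fun p _ _ h => Int.natCast_dvd.1 h)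
    (fun p _ _ h => Int.natCast_dvd.1 h) sa.ne_zero sb'.ne_zero sc.ne_zero
  refine parity_of_prod _ hF (h := if IsoD ℝ a b c then 1 else -1) ?_ rfl
  rw [prod_F _ oa ob oc hab hbc hca]
  have j1 := jac_tau (a := a) (b := b) (c := c) sa oa (loc_hyp dvd_rfl sa hab hca)
  have j2 := jac_tau (a := b) (b := c) (c := a) sb' ob (loc_hyp dvd_rfl sb' hbc hab)
  have j3 := jac_tau (a := c) (b := a) (c := b) sc oc (loc_hyp dvd_rfl sc hca hbc)
  have t2 : ∀ p, tau b c a p = tau a b c p := fun p => (tau_rot a b c p).symm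
  have t3 : ∀ p, tau c a b p = tau a b c p := fun p => by rw [tau_rot c a b]
  simp only [t2] at j2
  simp only [t3] at j3
  rw [← j1, ← j2, ← j3]
  have hJ := prodJ_odd (decide (0 < a)) (decide (0 < b)) (decide (0 < c)) oa ob oc hab hbc hca
  rw [← ea, ← eb, ← ec] at hJ
  rw [hJ]
  have ht : tau a b c 2 = if odd8 ((sb (decide (0 < a)) : ℤ) * (a.natAbs : ZMod 8))
      ((sb (decide (0 < b)) : ℤ) * (b.natAbs : ZMod 8))
      ((sb (decide (0 < c)) : ℤ) * (c.natAbs : ZMod 8)) then 1 else -1 := by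
    have e1 : ∀ {x : ℤ}, x = sb (decide (0 < x)) * x.natAbs →
        ((sb (decide (0 < x)) : ℤ) : ZMod 8) * (x.natAbs : ZMod 8) = (x : ZMod 8) := by
      intro x hx
      have h := congrArg (Int.cast : ℤ → ZMod 8) hx
      rw [Int.cast_mul, Int.cast_natCast] at h
      exact h.symm
    rw [e1 ea, e1 eb, e1 ec]
    unfold tau
    have h2 := isoD_two_odd ha hb hc
    by_cases h : odd8 (a : ZMod 8) b c
    · rw [if_pos h, if_neg]
      rintro ⟨_, h'⟩
      exact h' (h2.2 h)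
    · rw [if_neg h, if_pos]
      exact ⟨inferInstance, fun h' => h (h2.1 h')⟩
  rw [ht, ← real_sign na nb nc]
  have := dec1 (decide (0 < a)) (decide (0 < b)) (decide (0 < c)) a.natAbs b.natAbs c.natAbs
    (natcast_sq oa) (natcast_sq ob) (natcast_sq oc)
  refine Eq.trans ?_ this
  ring

/-- The case where the first number is even. -/
lemma par_even {a b c : ℤ} (ha : Odd a) (hb : Odd b) (hc : Odd c)
    (sa : Squarefree (2 * a).natAbs) (sb' : Squarefree b.natAbs) (sc : Squarefree c.natAbs)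
    (hab : Nat.Coprime (2 * a).natAbs b.natAbs) (hbc : Nat.Coprime b.natAbs c.natAbs)
    (hca : Nat.Coprime c.natAbs (2 * a).natAbs) :
    (badS (2 * a) b c).Finite ∧
      Even ((badS (2 * a) b c).ncard + if IsoD ℝ ((2 * a : ℤ) : ℝ) b c then 0 else 1) := by
  have ne : ∀ {x : ℤ}, Odd x → x ≠ 0 := by
    rintro x hx rfl
    simp at hx
  have na := ne ha
  have nb := ne hb
  have nc := ne hc
  have n2a : (2 * a) ≠ 0 := mul_ne_zero two_ne_zero na
  have oa : Odd a.natAbs := Int.natAbs_odd.2 ha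
  have ob : Odd b.natAbs := Int.natAbs_odd.2 hb
  have oc : Odd c.natAbs := Int.natAbs_odd.2 hc
  have ea := sign_eq na
  have eb := sign_eq nb
  have ec := sign_eq nc
  have e2 : (2 * a).natAbs = 2 * a.natAbs := by rw [Int.natAbs_mul]; rfl
  have hdv : a.natAbs ∣ (2 * a).natAbs := e2 ▸ Dvd.intro_left 2 rfl
  have hab' : Nat.Coprime a.natAbs b.natAbs := Nat.Coprime.coprime_dvd_left hdv hab
  have hca' : Nat.Coprime c.natAbs a.natAbs := Nat.Coprime.coprime_dvd_right hdv hca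
  have sa' : Squarefree a.natAbs := sa.squarefree_of_dvd hdv
  have hF := badS_sub (a := 2 * a) (b := b) (c := c) (ma := a.natAbs) (mb := b.natAbs)
    (mc := c.natAbs) (fun p hp h2 h => by
      have h' := Int.natCast_dvd.1 h
      rw [e2] at h'
      rcases hp.dvd_mul.1 h' with h'' | h''
      · exact absurd ((Nat.prime_dvd_prime_iff_eq hp Nat.prime_two).1 h'') h2
      · exact h'')
    (fun p _ _ h => Int.natCast_dvd.1 h)
    (fun p _ _ h => Int.natCast_dvd.1 h) sa'.ne_zero sb'.ne_zero sc.ne_zero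
  refine parity_of_prod _ hF (h := if IsoD ℝ ((2 * a : ℤ) : ℝ) b c then 1 else -1) ?_ rfl
  rw [prod_F _ oa ob oc hab' hbc hca']
  have j1 := jac_tau (a := 2 * a) (b := b) (c := c) sa' oa (loc_hyp hdv sa hab hca)
  have j2 := jac_tau (a := b) (b := c) (c := 2 * a) sb' ob (loc_hyp dvd_rfl sb' hbc hab)
  have j3 := jac_tau (a := c) (b := 2 * a) (c := b) sc oc (loc_hyp dvd_rfl sc hca hbc)
  have t2 : ∀ p, tau b c (2 * a) p = tau (2 * a) b c p := fun p => (tau_rot (2 * a) b c p).symm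
  have t3 : ∀ p, tau c (2 * a) b p = tau (2 * a) b c p := fun p => by rw [tau_rot c (2 * a) b]
  simp only [t2] at j2
  simp only [t3] at j3
  rw [← j1, ← j2, ← j3]
  have hJ := prodJ_even (decide (0 < a)) (decide (0 < b)) (decide (0 < c)) oa ob oc hab' hbc hca'
  rw [← ea, ← eb, ← ec] at hJ
  rw [hJ]
  have ht : tau (2 * a) b c 2 = if even8 (2 * ((sb (decide (0 < a)) : ℤ) * (a.natAbs : ZMod 8)))
      ((sb (decide (0 < b)) : ℤ) * (b.natAbs : ZMod 8))
      ((sb (decide (0 < c)) : ℤ) * (c.natAbs : ZMod 8)) then 1 else -1 := by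
    have e1 : ∀ {x : ℤ}, x = sb (decide (0 < x)) * x.natAbs →
        ((sb (decide (0 < x)) : ℤ) : ZMod 8) * (x.natAbs : ZMod 8) = (x : ZMod 8) := by
      intro x hx
      have h := congrArg (Int.cast : ℤ → ZMod 8) hx
      rw [Int.cast_mul, Int.cast_natCast] at h
      exact h.symm
    rw [e1 ea, e1 eb, e1 ec]
    unfold tau
    have h2 := isoD_two_even ha hb hc
    have e3 : ((2 * a : ℤ) : ZMod 8) = 2 * (a : ZMod 8) := by push_cast; rfl
    rw [e3] at h2
    by_cases h : even8 (2 * (a : ZMod 8)) b c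
    · rw [if_pos h, if_neg]
      rintro ⟨_, h'⟩
      exact h' (h2.2 h)
    · rw [if_neg h, if_pos]
      exact ⟨inferInstance, fun h' => h (h2.1 h')⟩
  have hs : decide (0 < 2 * a) = decide (0 < a) := by
    rw [decide_eq_decide]; omega
  rw [ht, ← real_sign n2a nb nc, hs]
  have := dec2 (decide (0 < a)) (decide (0 < b)) (decide (0 < c)) a.natAbs b.natAbs c.natAbs
    (natcast_sq oa) (natcast_sq ob) (natcast_sq oc)
  refine Eq.trans ?_ this
  ring

/-- Pairwise coprime squarefree integers. -/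
lemma par_all {a b c : ℤ}
    (sa : Squarefree a.natAbs) (sb' : Squarefree b.natAbs) (sc : Squarefree c.natAbs)
    (hab : Nat.Coprime a.natAbs b.natAbs) (hbc : Nat.Coprime b.natAbs c.natAbs)
    (hca : Nat.Coprime c.natAbs a.natAbs) :
    (badS a b c).Finite ∧ Even ((badS a b c).ncard + if IsoD ℝ a b c then 0 else 1) := by
  have half : ∀ {x : ℤ}, Squarefree x.natAbs → ¬ Odd x → ∃ y : ℤ, Odd y ∧ x = 2 * y := by
    intro x hx ho
    rw [Int.not_odd_iff_even] at ho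
    obtain ⟨y, hy⟩ := ho.two_dvd
    refine ⟨y, ?_, hy⟩
    by_contra h
    rw [Int.not_odd_iff_even] at h
    obtain ⟨z, hz⟩ := h.two_dvd
    have : 2 * 2 ∣ x.natAbs := by
      rw [hy, hz, Int.natAbs_mul, Int.natAbs_mul]
      exact ⟨z.natAbs, by ring⟩
    exact absurd (hx 2 this) (by decide)
  have ev : ∀ {x y : ℤ}, Nat.Coprime x.natAbs y.natAbs → ¬ Odd x → Odd y := by
    intro x y h ho
    rw [Int.not_odd_iff_even] at ho
    by_contra h'
    rw [Int.not_odd_iff_even] at h'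
    have h1 : 2 ∣ x.natAbs := Int.natAbs_dvd_natAbs.2 ho.two_dvd
    have h2 : 2 ∣ y.natAbs := Int.natAbs_dvd_natAbs.2 h'.two_dvd
    have := Nat.dvd_gcd h1 h2
    rw [h] at this
    omega
  by_cases oa : Odd a
  · by_cases ob : Odd b
    · by_cases oc : Odd c
      · exact par_odd oa ob oc sa sb' sc hab hbc hca
      · obtain ⟨c', hc', rfl⟩ := half sc oc
        have := par_even hc' oa ob sc sa sb' hca hab hbc
        rw [badS_rot] at this
        have hr := isoD_rot (a := ((2 * c' : ℤ) : ℝ)) (b := (a : ℝ)) (c := (b : ℝ))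
        simp only [hr] at this
        exact this
    · obtain ⟨b', hb', rfl⟩ := half sb' ob
      have oc : Odd c := ev hbc ob
      have := par_even hb' oc oa sb' sc sa hbc hca hab
      rw [badS_rot, badS_rot] at this
      have hr := isoD_rot (a := ((2 * b' : ℤ) : ℝ)) (b := (c : ℝ)) (c := (a : ℝ))
      have hr' := isoD_rot (a := (c : ℝ)) (b := (a : ℝ)) (c := ((2 * b' : ℤ) : ℝ))
      simp only [hr, hr'] at this
      exact this
  · obtain ⟨a', ha', rfl⟩ := half sa oa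
    have ob : Odd b := ev hab oa
    have oc : Odd c := ev hca.symm oa
    exact par_even ha' ob oc sa sb' sc hab hbc hca

end RecM
end Pool.Agent.Lib.MP_8cb858_nt.PR
end

section
/-!
# NRM: an integer with prescribed residues and norm
-/
namespace Pool.Agent.Lib.MP_8cb858_nt.PF.RF

open Matrix NumberField IsDedekindDomain

universe u

namespace NRMM

variable {F : Type u} [Field F] [NumberField F]

lemma exists_int (v : HeightOneSpectrum (𝓞 F)) {ℓ : ℕ} (hℓ : ℓ.Prime)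
    (hN : Ideal.absNorm v.asIdeal = ℓ) (x : 𝓞 F) : ∃ m : ℤ, x - (m : 𝓞 F) ∈ v.asIdeal := by
  haveI : Fact ℓ.Prime := ⟨hℓ⟩
  haveI : v.asIdeal.IsMaximal := v.isMaximal
  have hmem : ((ℓ : ℕ) : 𝓞 F) ∈ v.asIdeal := by
    have := Ideal.absNorm_mem v.asIdeal
    rwa [hN] at this
  have h0 : ((ℓ : ℕ) : 𝓞 F ⧸ v.asIdeal) = 0 := by
    rw [← map_natCast (Ideal.Quotient.mk v.asIdeal)]
    exact Ideal.Quotient.eq_zero_iff_mem.2 hmem
  haveI : Nontrivial (𝓞 F ⧸ v.asIdeal) := Ideal.Quotient.nontrivial_iff.2 v.isPrime.ne_top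
  haveI hch : CharP (𝓞 F ⧸ v.asIdeal) ℓ := (CharP.charP_iff_prime_eq_zero hℓ).2 h0
  set f : ZMod ℓ →+* 𝓞 F ⧸ v.asIdeal := ZMod.castHom (dvd_refl ℓ) _ with hf
  have hinj : Function.Injective f := f.injective
  have hcard : Nat.card (𝓞 F ⧸ v.asIdeal) = ℓ := by
    rw [← hN]
    rfl
  haveI : Finite (𝓞 F ⧸ v.asIdeal) := Nat.finite_of_card_ne_zero (by rw [hcard]; exact hℓ.ne_zero)
  have hbij : Function.Bijective f := by
    rw [Nat.bijective_iff_injective_and_card]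
    refine ⟨hinj, ?_⟩
    rw [hcard, Nat.card_zmod]
  obtain ⟨z, hz⟩ := hbij.2 (Ideal.Quotient.mk v.asIdeal x)
  refine ⟨(z.val : ℤ), ?_⟩
  rw [← Ideal.Quotient.eq_zero_iff_mem, map_sub, ← hz]
  have : f z = ((z.val : ℕ) : 𝓞 F ⧸ v.asIdeal) := by
    conv_lhs => rw [← ZMod.natCast_zmod_val z]
    rw [map_natCast]
  rw [this, Int.cast_natCast, map_natCast, sub_self]

lemma dvd_of_mem (v : HeightOneSpectrum (𝓞 F)) {ℓ : ℕ} (hℓ : ℓ.Prime)
    (hmem : ((ℓ : ℕ) : 𝓞 F) ∈ v.asIdeal) {m : ℤ} (hm : (m : 𝓞 F) ∈ v.asIdeal) : (ℓ : ℤ) ∣ m := by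
  by_contra h
  have hp : Prime (ℓ : ℤ) := Nat.prime_iff_prime_int.1 hℓ
  have hc : IsCoprime (ℓ : ℤ) m := (Prime.coprime_iff_not_dvd hp).2 h
  obtain ⟨s, t, hst⟩ := hc
  apply v.isPrime.ne_top
  rw [Ideal.eq_top_iff_one]
  have : (1 : 𝓞 F) = (s : 𝓞 F) * ((ℓ : ℕ) : 𝓞 F) + (t : 𝓞 F) * (m : 𝓞 F) := by
    have h1 := congrArg (fun x : ℤ => (x : 𝓞 F)) hst
    simp only [Int.cast_add, Int.cast_mul, Int.cast_natCast, Int.cast_one] at h1
    exact h1.symm
  rw [this]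
  exact v.asIdeal.add_mem (v.asIdeal.mul_mem_left _ hmem) (v.asIdeal.mul_mem_left _ hm)

/-- the norm modulo `ℓ` -/
lemma norm_mod (v : HeightOneSpectrum (𝓞 F)) {ℓ : ℕ} (hℓ : ℓ.Prime)
    (hN : Ideal.absNorm v.asIdeal = ℓ) {e : 𝓞 F} (he1 : e - 1 ∈ v.asIdeal)
    (he : ∀ y ∈ v.asIdeal, ((ℓ : ℕ) : 𝓞 F) ∣ e * y) (u : ℤ) :
    (ℓ : ℤ) ∣ Algebra.norm ℤ (1 + ((u : 𝓞 F) - 1) * e) - u := by
  have hmem : ((ℓ : ℕ) : 𝓞 F) ∈ v.asIdeal := by
    have := Ideal.absNorm_mem v.asIdeal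
    rwa [hN] at this
  haveI : Fact ℓ.Prime := ⟨hℓ⟩
  classical
  set b := RingOfIntegers.basis F with hb
  choose k hk using fun j => exists_int v hℓ hN (b j)
  set c : Module.Free.ChooseBasisIndex ℤ (𝓞 F) → ℤ := fun i => b.repr e i with hc
  have hmul : ∀ i j, (ℓ : ℤ) ∣ b.repr (e * b j) i - c i * k j := by
    intro i j
    obtain ⟨y, hy⟩ := he _ (hk j)
    have h1 : e * b j = k j • e + (ℓ : ℤ) • y := by
      rw [zsmul_eq_mul, zsmul_eq_mul]
      push_cast
      linear_combination hy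
    rw [h1]
    refine ⟨b.repr y i, ?_⟩
    simp only [map_add, map_smul, Finsupp.add_apply, Finsupp.smul_apply, smul_eq_mul, hc]
    ring
  have hsum : (ℓ : ℤ) ∣ ∑ j, c j * k j - 1 := by
    apply dvd_of_mem v hℓ hmem
    have h1 : e = ∑ j, (c j : 𝓞 F) * b j := by
      conv_lhs => rw [← b.sum_repr e]
      exact Finset.sum_congr rfl fun j _ => by rw [zsmul_eq_mul]
    have h2 : ((∑ j, c j * k j - 1 : ℤ) : 𝓞 F) = (e - 1) - ∑ j, (c j : 𝓞 F) * (b j - (k j : 𝓞 F)) := by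
      push_cast
      conv_rhs => rw [h1]
      rw [Finset.sum_congr rfl fun j _ => mul_sub (c j : 𝓞 F) (b j) (k j : 𝓞 F),
        Finset.sum_sub_distrib]
      ring
    rw [h2]
    exact v.asIdeal.sub_mem he1 (v.asIdeal.sum_mem fun j _ => v.asIdeal.mul_mem_left _ (hk j))
  rw [Algebra.norm_eq_matrix_det b, ← ZMod.intCast_zmod_eq_zero_iff_dvd, Int.cast_sub]
  have hcast : ((Matrix.det (Algebra.leftMulMatrix b (1 + ((u : 𝓞 F) - 1) * e)) : ℤ) : ZMod ℓ) =
      Matrix.det ((Algebra.leftMulMatrix b (1 + ((u : 𝓞 F) - 1) * e)).map (Int.castRingHom (ZMod ℓ))) := by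
    rw [← RingHom.mapMatrix_apply, ← RingHom.map_det]
    rfl
  rw [hcast]
  have hmat : (Algebra.leftMulMatrix b (1 + ((u : 𝓞 F) - 1) * e)).map (Int.castRingHom (ZMod ℓ)) =
      1 + Matrix.replicateCol Unit (fun i => ((c i : ℤ) : ZMod ℓ)) *
        Matrix.replicateRow Unit (fun j => ((u : ZMod ℓ) - 1) * ((k j : ℤ) : ZMod ℓ)) := by
    ext i j
    have h0 : (Algebra.leftMulMatrix b (1 + ((u : 𝓞 F) - 1) * e)) =
        1 + (u - 1) • Algebra.leftMulMatrix b e := by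
      have : (1 + ((u : 𝓞 F) - 1) * e) = 1 + (u - 1) • e := by
        rw [zsmul_eq_mul]
        push_cast
        ring
      rw [this, map_add, map_one, map_smul]
    rw [Matrix.map_apply, h0]
    have h1 := (ZMod.intCast_zmod_eq_zero_iff_dvd _ ℓ).2 (hmul i j)
    push_cast at h1
    have h2 : ((b.repr (e * b j) i : ℤ) : ZMod ℓ) = (c i : ZMod ℓ) * (k j : ZMod ℓ) := by
      rw [sub_eq_zero] at h1
      exact h1
    simp only [Matrix.add_apply, Matrix.smul_apply, Algebra.leftMulMatrix_eq_repr_mul,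
      Matrix.mul_apply, Matrix.replicateCol_apply, Matrix.replicateRow_apply, eq_intCast,
      smul_eq_mul]
    push_cast
    rw [h2]
    simp [Matrix.one_apply]
    ring
  rw [hmat, Matrix.det_one_add_replicateCol_mul_replicateRow]
  have h3 := (ZMod.intCast_zmod_eq_zero_iff_dvd _ ℓ).2 hsum
  push_cast at h3
  have h4 : (fun j => ((u : ZMod ℓ) - 1) * ((k j : ℤ) : ZMod ℓ)) ⬝ᵥ (fun i => ((c i : ℤ) : ZMod ℓ)) =
      ((u : ZMod ℓ) - 1) * ∑ j, (c j : ZMod ℓ) * (k j : ZMod ℓ) := by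
    simp only [dotProduct, Finset.mul_sum]
    exact Finset.sum_congr rfl fun j _ => by ring
  rw [h4]
  linear_combination ((u : ZMod ℓ) - 1) * h3

end NRMM

open NRMM Pool.Agent.Lib.MP_8cb858_nt.PR in
theorem specNRM : SpecNRM.{u} := by
  constructor
  · intro F _ _ v ℓ u hℓ hN hsq
    have hmem : ((ℓ : ℕ) : 𝓞 F) ∈ v.asIdeal := by
      have := Ideal.absNorm_mem v.asIdeal
      rwa [hN] at this
    haveI : v.asIdeal.IsMaximal := v.isMaximal
    obtain ⟨J, hJ⟩ : v.asIdeal ∣ Ideal.span {((ℓ : ℕ) : 𝓞 F)} := by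
      rw [Ideal.dvd_span_singleton]
      exact hmem
    have hJv : ¬ J ≤ v.asIdeal := by
      intro h
      apply hsq
      rw [← Ideal.span_singleton_le_iff_mem, hJ, pow_two]
      exact Ideal.mul_mono le_rfl h
    obtain ⟨x, hxJ, hxv⟩ := Set.not_subset.1 hJv
    obtain ⟨y, i, hi, hyi⟩ := Ideal.IsMaximal.exists_inv v.isMaximal hxv
    have heJ : y * x ∈ J := J.mul_mem_left _ hxJ
    have he1 : y * x - 1 ∈ v.asIdeal := by
      have : y * x - 1 = -i := by linear_combination hyi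
      rw [this]
      exact v.asIdeal.neg_mem hi
    have he : ∀ z ∈ v.asIdeal, ((ℓ : ℕ) : 𝓞 F) ∣ (y * x) * z := by
      intro z hz
      rw [← Ideal.mem_span_singleton, hJ, mul_comm (y * x) z]
      exact Ideal.mul_mem_mul hz heJ
    refine ⟨1 + ((u : 𝓞 F) - 1) * (y * x), ?_, ?_, Algebra.norm ℤ (1 + ((u : 𝓞 F) - 1) * (y * x)),
      ?_, norm_mod v hℓ hN he1 he u⟩
    · have : 1 + ((u : 𝓞 F) - 1) * (y * x) - (u : 𝓞 F) = ((u : 𝓞 F) - 1) * (y * x - 1) := by ring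
      rw [this]
      exact v.asIdeal.mul_mem_left _ he1
    · intro w hw hwv
      have h1 : v.asIdeal * J ≤ w.asIdeal := by
        rw [← hJ, Ideal.span_singleton_le_iff_mem]
        exact hw
      have hJw : J ≤ w.asIdeal := by
        rcases (Ideal.IsPrime.mul_le w.isPrime).1 h1 with h | h
        · exact absurd (HeightOneSpectrum.ext (v.isMaximal.eq_of_le w.isPrime.ne_top h).symm) hwv
        · exact h
      have : 1 + ((u : 𝓞 F) - 1) * (y * x) - 1 = ((u : 𝓞 F) - 1) * (y * x) := by ring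
      rw [this]
      exact w.asIdeal.mul_mem_left _ (hJw heJ)
    · rw [← Algebra.coe_norm_int]
  · intro ℓ hF u N h2 hu hN
    have hdN : ¬ (ℓ : ℤ) ∣ N := by
      intro h
      apply hu 0
      have h3 : (0 : ℤ) ^ 2 - u = (N - u) - N := by ring
      rw [h3]
      exact dvd_sub hN h
    have hp1 : ¬ (ℓ : ℤ) ∣ -1 := by
      intro h
      have h1 : (ℓ : ℤ) ∣ 1 := by simpa using h
      have := Int.natCast_dvd_natCast.1 (by simpa using h1 : (ℓ : ℤ) ∣ ((1 : ℕ) : ℤ))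
      exact hF.out.one_lt.ne' (Nat.dvd_one.1 this)
    have hp2 : ¬ (ℓ : ℤ) ^ 2 ∣ (ℓ : ℤ) := by
      intro h
      have h1 : ℓ ^ 2 ∣ ℓ := by exact_mod_cast h
      have h3 := Nat.le_of_dvd hF.out.pos h1
      nlinarith [hF.out.one_lt]
    have key := RecM.isoD_bad (p := ℓ) h2 (a := (ℓ : ℤ)) (b := N) (c := -1) (dvd_refl _) hp2 hdN hp1
    have hcon : ¬ Con ℚ_[ℓ] (((ℓ : ℚ) : ℚ_[ℓ])) (((N : ℚ) : ℚ_[ℓ])) := by
      intro hC
      have hI : IsoD ℚ_[ℓ] (((ℓ : ℤ) : ℚ_[ℓ])) ((N : ℤ) : ℚ_[ℓ]) (((-1 : ℤ)) : ℚ_[ℓ]) := by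
        obtain ⟨x, y, z, h, e⟩ := hC
        refine ⟨x, y, z, h, ?_⟩
        push_cast at e ⊢
        linear_combination e
      have h1 := key.1 hI
      have hne : ((-(N * -1) : ℤ) : ZMod ℓ) ≠ 0 := by
        rw [Ne, ZMod.intCast_zmod_eq_zero_iff_dvd]
        simpa using hdN
      rw [legendreSym.eq_one_iff ℓ hne] at h1
      obtain ⟨r, hr⟩ := h1
      have hr' : ((r.val : ℤ) : ZMod ℓ) = r := by simp
      apply hu (r.val : ℤ)
      rw [← ZMod.intCast_zmod_eq_zero_iff_dvd]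
      have h5 := (ZMod.intCast_zmod_eq_zero_iff_dvd _ ℓ).2 hN
      push_cast at h5 hr ⊢
      rw [ZMod.natCast_zmod_val]
      linear_combination h5 - hr
    unfold hs
    rw [if_neg hcon]

end Pool.Agent.Lib.MP_8cb858_nt.PF.RF
end
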