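import Pool.Agent.Lib.MP_8cb858_nt.PF.RF.Spec

section
/-!
# ISO: isotropic ternary forms of determinant minus a square
-/
namespace Pool.Agent.Lib.MP_8cb858_nt.PF.RF

open Matrix

universe u

namespace ISOM

variable {K : Type u} [Field K] [CharZero K]

lemma symm_entries {A : Matrix (Fin 3) (Fin 3) K} (hA : A.IsSymm) :
    A 1 0 = A 0 1 ∧ A 2 0 = A 0 2 ∧ A 2 1 = A 1 2 :=
  ⟨hA.apply 0 1, hA.apply 0 2, hA.apply 1 2⟩

/-- the bilinear form in coordinates -/
lemma form (A : Matrix (Fin 3) (Fin 3) K) (x y : Fin 3 → K) :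
    x ⬝ᵥ A.mulVec y = x 0 * (A 0 0 * y 0 + A 0 1 * y 1 + A 0 2 * y 2) +
      x 1 * (A 1 0 * y 0 + A 1 1 * y 1 + A 1 2 * y 2) +
      x 2 * (A 2 0 * y 0 + A 2 1 * y 1 + A 2 2 * y 2) := by
  simp [dotProduct, Matrix.mulVec, Fin.sum_univ_three]

lemma partner {A : Matrix (Fin 3) (Fin 3) K} (hA : A.IsSymm) (hd : A.det ≠ 0) {x : Fin 3 → K}
    (hx : x ≠ 0) (hq : x ⬝ᵥ A.mulVec x = 0) :
    ∃ y : Fin 3 → K, x ⬝ᵥ A.mulVec y = 1 ∧ y ⬝ᵥ A.mulVec y = 0 := by
  have h1 : A.mulVec x ≠ 0 := fun h => hx (Matrix.eq_zero_of_mulVec_eq_zero hd h)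
  obtain ⟨i, hi⟩ := Function.ne_iff.1 h1
  have hsym : ∀ v w : Fin 3 → K, v ⬝ᵥ A.mulVec w = w ⬝ᵥ A.mulVec v := by
    intro v w
    rw [Matrix.dotProduct_mulVec, ← Matrix.mulVec_transpose, hA.eq, dotProduct_comm]
  obtain ⟨y0, hy0⟩ : ∃ y0 : Fin 3 → K, x ⬝ᵥ A.mulVec y0 = 1 := by
    refine ⟨Pi.single i (A.mulVec x i)⁻¹, ?_⟩
    rw [hsym, single_dotProduct]
    exact inv_mul_cancel₀ hi
  refine ⟨y0 - ((y0 ⬝ᵥ A.mulVec y0) / 2) • x, ?_, ?_⟩
  · rw [Matrix.mulVec_sub, Matrix.mulVec_smul, dotProduct_sub, dotProduct_smul, hy0, hq]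
    simp
  · rw [Matrix.mulVec_sub, Matrix.mulVec_smul, dotProduct_sub, dotProduct_smul, sub_dotProduct,
      sub_dotProduct, smul_dotProduct, smul_dotProduct, hq, hy0, hsym y0 x, hy0]
    simp only [smul_eq_mul]
    ring

lemma gram (A P : Matrix (Fin 3) (Fin 3) K) (i j : Fin 3) :
    (Pᵀ * A * P) i j = (fun k => P k i) ⬝ᵥ A.mulVec (fun k => P k j) := by
  rw [Matrix.mul_assoc, Matrix.mul_apply]
  simp only [dotProduct, Matrix.transpose_apply, Matrix.mul_apply, Matrix.mulVec]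

lemma core (a b c d e f x0 x1 x2 y0 y1 y2 s : K)
    (hq : x0 * (a * x0 + b * x1 + c * x2) + x1 * (b * x0 + d * x1 + e * x2) +
      x2 * (c * x0 + e * x1 + f * x2) = 0)
    (hxy : x0 * (a * y0 + b * y1 + c * y2) + x1 * (b * y0 + d * y1 + e * y2) +
      x2 * (c * y0 + e * y1 + f * y2) = 1)
    (hyy : y0 * (a * y0 + b * y1 + c * y2) + y1 * (b * y0 + d * y1 + e * y2) +
      y2 * (c * y0 + e * y1 + f * y2) = 0)
    (hd : a * d * f - a * e * e - b * b * f + b * e * c + c * b * e - c * d * c = -s ^ 2) :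
    ∃ z0 z1 z2 : K,
      x0 * (a * z0 + b * z1 + c * z2) + x1 * (b * z0 + d * z1 + e * z2) +
        x2 * (c * z0 + e * z1 + f * z2) = 0 ∧
      y0 * (a * z0 + b * z1 + c * z2) + y1 * (b * z0 + d * z1 + e * z2) +
        y2 * (c * z0 + e * z1 + f * z2) = 0 ∧
      z0 * (a * z0 + b * z1 + c * z2) + z1 * (b * z0 + d * z1 + e * z2) +
        z2 * (c * z0 + e * z1 + f * z2) = s ^ 2 ∧
      x0 * (z1 * y2 - y1 * z2) - z0 * (x1 * y2 - y1 * x2) + y0 * (x1 * z2 - z1 * x2) = 1 := by
  obtain ⟨X0, hX0⟩ : ∃ X0, X0 = a * x0 + b * x1 + c * x2 := ⟨_, rfl⟩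
  obtain ⟨X1, hX1⟩ : ∃ X0, X0 = b * x0 + d * x1 + e * x2 := ⟨_, rfl⟩
  obtain ⟨X2, hX2⟩ : ∃ X0, X0 = c * x0 + e * x1 + f * x2 := ⟨_, rfl⟩
  obtain ⟨Y0, hY0⟩ : ∃ X0, X0 = a * y0 + b * y1 + c * y2 := ⟨_, rfl⟩
  obtain ⟨Y1, hY1⟩ : ∃ X0, X0 = b * y0 + d * y1 + e * y2 := ⟨_, rfl⟩
  obtain ⟨Y2, hY2⟩ : ∃ X0, X0 = c * y0 + e * y1 + f * y2 := ⟨_, rfl⟩
  refine ⟨X1 * Y2 - X2 * Y1, X2 * Y0 - X0 * Y2, X0 * Y1 - X1 * Y0, ?_, ?_, ?_, ?_⟩
  · subst hX0 hX1 hX2 hY0 hY1 hY2; ring
  · subst hX0 hX1 hX2 hY0 hY1 hY2; ring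
  · subst hX0 hX1 hX2 hY0 hY1 hY2
    linear_combination
      ((x0 * (a * x0 + b * x1 + c * x2) + x1 * (b * x0 + d * x1 + e * x2) +
        x2 * (c * x0 + e * x1 + f * x2)) *
       (y0 * (a * y0 + b * y1 + c * y2) + y1 * (b * y0 + d * y1 + e * y2) +
        y2 * (c * y0 + e * y1 + f * y2)) -
       (x0 * (a * y0 + b * y1 + c * y2) + x1 * (b * y0 + d * y1 + e * y2) +
        x2 * (c * y0 + e * y1 + f * y2)) ^ 2) * hd -
      s ^ 2 * (y0 * (a * y0 + b * y1 + c * y2) + y1 * (b * y0 + d * y1 + e * y2) +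
        y2 * (c * y0 + e * y1 + f * y2)) * hq +
      s ^ 2 * (x0 * (a * y0 + b * y1 + c * y2) + x1 * (b * y0 + d * y1 + e * y2) +
        x2 * (c * y0 + e * y1 + f * y2) + 1) * hxy
  · subst hX0 hX1 hX2 hY0 hY1 hY2
    linear_combination
      (-(y0 * (a * y0 + b * y1 + c * y2) + y1 * (b * y0 + d * y1 + e * y2) +
        y2 * (c * y0 + e * y1 + f * y2))) * hq +
      (x0 * (a * y0 + b * y1 + c * y2) + x1 * (b * y0 + d * y1 + e * y2) +
        x2 * (c * y0 + e * y1 + f * y2) + 1) * hxy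

lemma cg {A : Matrix (Fin 3) (Fin 3) K} {s : K} (hA : A.IsSymm) (hs : s ≠ 0)
    (hd : A.det = -s ^ 2) (hi : IsoM A) : Cg A (J3 K) := by
  obtain ⟨x, hx, hq⟩ := hi
  have hd0 : A.det ≠ 0 := by rw [hd]; exact neg_ne_zero.2 (pow_ne_zero 2 hs)
  obtain ⟨y, hxy, hyy⟩ := partner hA hd0 hx hq
  obtain ⟨e10, e20, e21⟩ := symm_entries hA
  rw [form] at hq hxy hyy
  rw [Matrix.det_fin_three] at hd
  rw [e10, e20, e21] at hq hxy hyy hd
  obtain ⟨z0, z1, z2, h1, h2, h3, h4⟩ := core _ _ _ _ _ _ _ _ _ _ _ _ s hq hxy hyy hd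
  have hM : Cg A !![0, 0, 1; 0, s ^ 2, 0; 1, 0, 0] := by
    refine ⟨!![x 0, z0, y 0; x 1, z1, y 1; x 2, z2, y 2], ?_, ?_⟩
    · rw [Matrix.det_fin_three]
      have : (1 : K) ≠ 0 := one_ne_zero
      rw [← h4] at this
      intro h
      apply this
      simp at h
      linear_combination h
    · ext i j
      rw [gram, form]
      fin_cases i <;> fin_cases j <;> simp [e10, e20, e21]
      · linear_combination hq
      · linear_combination h1
      · linear_combination hxy
      · linear_combination h1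
      · linear_combination h3
      · linear_combination h2
      · linear_combination hxy
      · linear_combination h2
      · linear_combination hyy
  refine hM.trans ⟨diagonal ![1, s⁻¹, 1], ?_, ?_⟩
  · simp [Matrix.det_diagonal, Fin.prod_univ_three, hs]
  · ext i j
    rw [Matrix.diagonal_transpose, Matrix.mul_diagonal, Matrix.diagonal_mul]
    fin_cases i <;> fin_cases j <;> simp [J3]
    field_simp

end ISOM

theorem specISO : SpecISO.{u} := by
  intro K _ _
  refine ⟨fun A s hA hs hd hi => ISOM.cg hA hs hd hi, ?_, ?_, ?_, ?_, ?_⟩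
  · intro a b
    refine ⟨Matrix.isSymm_diagonal _, ?_, ?_⟩
    · simp [D3, Matrix.det_diagonal, Fin.prod_univ_three]
      ring
    · rintro ⟨r, rfl⟩
      refine ⟨![0, r, 1], ?_, ?_⟩
      · intro h
        have := congrFun h 2
        simp at this
      · rw [ISOM.form]
        simp [D3]
        ring
  · ext i j
    fin_cases i <;> fin_cases j <;> simp [J3]
  · simp [J3, Matrix.det_fin_three]
  · refine ⟨![1, 0, 0], ?_, ?_⟩
    · intro h
      have := congrFun h 0
      simp at this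
    · rw [ISOM.form]
      simp [J3]
  · intro A c hc
    constructor
    · rintro ⟨x, hx, h⟩
      refine ⟨x, hx, ?_⟩
      rw [Matrix.smul_mulVec, dotProduct_smul, smul_eq_mul] at h
      exact (mul_eq_zero.1 h).resolve_left hc
    · rintro ⟨x, hx, h⟩
      refine ⟨x, hx, ?_⟩
      rw [Matrix.smul_mulVec, dotProduct_smul, smul_eq_mul, h, mul_zero]

end Pool.Agent.Lib.MP_8cb858_nt.PF.RF
end

section
/-!
# ANI: the anisotropic ternary form over a field with four square classes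
-/
namespace Pool.Agent.Lib.MP_8cb858_nt.PF.RF

open Matrix

universe u

namespace ANIM

variable {K : Type u} [Field K] [CharZero K]

/-- diagonalisation -/
lemma exists_diag {G : Matrix (Fin 3) (Fin 3) K} (hs : G.IsSymm) (hG : G.det ≠ 0) :
    ∃ (P : Matrix (Fin 3) (Fin 3) K) (d : Fin 3 → K), P.det ≠ 0 ∧ (∀ i, d i ≠ 0) ∧
      P.transpose * G * P = Matrix.diagonal d := by
  have : Invertible (2 : K) := invertibleOfNonzero two_ne_zero
  set Bf : LinearMap.BilinForm K (Fin 3 → K) := Matrix.toBilin' G with hB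
  have hBs : LinearMap.IsSymm Bf := by
    refine ⟨fun x y => ?_⟩
    simp only [hB, Matrix.toBilin'_apply', RingHom.id_apply]
    rw [Matrix.dotProduct_mulVec, ← Matrix.mulVec_transpose, hs.eq, dotProduct_comm]
  obtain ⟨v, hv⟩ := LinearMap.BilinForm.exists_orthogonal_basis hBs
  have hf : Module.finrank K (Fin 3 → K) = 3 := Module.finrank_fin_fun K
  set w : Module.Basis (Fin 3) K (Fin 3 → K) := v.reindex (finCongr hf) with hw
  set P : Matrix (Fin 3) (Fin 3) K := Matrix.of fun i j => w j i with hP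
  have hent : ∀ i j, (P.transpose * G * P) i j = Bf (w i) (w j) := by
    intro i j
    rw [hB, Matrix.toBilin'_apply']
    rw [Matrix.mul_assoc, Matrix.mul_apply]
    simp only [dotProduct, Matrix.transpose_apply, Matrix.mul_apply, Matrix.mulVec]
    rfl
  have hortho : ∀ i j, i ≠ j → Bf (w i) (w j) = 0 := by
    intro i j hij
    rw [hw]
    simp only [Module.Basis.reindex_apply]
    exact hv (by
      intro h
      exact hij ((finCongr hf).symm.injective h))
  have hdiag : P.transpose * G * P = Matrix.diagonal fun i => Bf (w i) (w i) := by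
    ext i j
    rw [hent]
    by_cases hij : i = j
    · subst hij; simp
    · rw [hortho i j hij, Matrix.diagonal_apply_ne _ hij]
  have hPdet : P.det ≠ 0 := by
    have hP2 : P = (Pi.basisFun K (Fin 3)).toMatrix w := by
      ext i j
      rw [Module.Basis.toMatrix_apply]
      simp [hP]
    rw [hP2]
    exact Matrix.det_ne_zero_of_right_inverse
      (Module.Basis.toMatrix_mul_toMatrix_flip (Pi.basisFun K (Fin 3)) w)
  refine ⟨P, fun i => Bf (w i) (w i), hPdet, ?_, hdiag⟩
  have hd := congrArg Matrix.det hdiag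
  rw [Matrix.det_mul, Matrix.det_mul, Matrix.det_transpose, Matrix.det_diagonal] at hd
  intro i hi
  have : ∏ i, Bf (w i) (w i) = 0 := Finset.prod_eq_zero (Finset.mem_univ i) hi
  rw [this] at hd
  exact (mul_ne_zero (mul_ne_zero hPdet hG) hPdet) hd

lemma iso_of_cg {A B : Matrix (Fin 3) (Fin 3) K} (h : Cg A B) (hB : IsoM B) : IsoM A := by
  obtain ⟨P, hP, rfl⟩ := h
  obtain ⟨x, hx, h⟩ := hB
  refine ⟨P.mulVec x, fun h0 => hx (Matrix.eq_zero_of_mulVec_eq_zero hP h0), ?_⟩
  rw [← h, ← Matrix.mulVec_mulVec, ← Matrix.mulVec_mulVec, Matrix.dotProduct_mulVec x,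
    Matrix.vecMul_transpose]

/-- two diagonal coefficients in the same class -/
lemma iso_diag {d : Fin 3 → K} {i : K} (hi : i * i = -1) {j k : Fin 3} (hjk : j ≠ k) {t : K}
    (ht : d j = d k * t ^ 2) : IsoM (diagonal d) := by
  refine ⟨Pi.single j 1 + Pi.single k (i * t), ?_, ?_⟩
  · intro h
    have := congrFun h j
    simp [hjk] at this
  · have e : ∀ x : Fin 3 → K, x ⬝ᵥ (diagonal d).mulVec x = ∑ m, d m * x m ^ 2 := by
      intro x
      simp only [dotProduct, Matrix.mulVec_diagonal]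
      exact Finset.sum_congr rfl fun m _ => by ring
    rw [e]
    have e2 : ∀ m, d m * (Pi.single j (1 : K) + Pi.single k (i * t) : Fin 3 → K) m ^ 2 =
        (if m = j then d j else 0) + (if m = k then d k * (i * t) ^ 2 else 0) := by
      intro m
      by_cases h1 : m = j
      · subst h1
        simp [hjk]
      · by_cases h2 : m = k
        · subst h2
          simp [h1]
        · simp [h1, h2, Pi.single_apply]
    rw [Finset.sum_congr rfl fun m _ => e2 m, Finset.sum_add_distrib]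
    simp only [Finset.sum_ite_eq', Finset.mem_univ, if_true]
    rw [ht]
    linear_combination d k * t ^ 2 * hi

/-- the conclusion from a labelling of the coefficients -/
lemma final {A : Matrix (Fin 3) (Fin 3) K} {P : Matrix (Fin 3) (Fin 3) K} {d : Fin 3 → K}
    (hP : P.det ≠ 0) (hd : Pᵀ * A * P = diagonal d) (σ : Equiv.Perm (Fin 3)) {e c : Fin 3 → K}
    (hc : ∀ y, c y ≠ 0) (he : ∀ y, d (σ y) * c y ^ 2 = e y) : Cg A (diagonal e) := by
  refine ⟨Matrix.of fun x y => c y * (P.submatrix id σ) x y, ?_, ?_⟩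
  · rw [Matrix.det_mul_row, Matrix.det_permute']
    refine mul_ne_zero (Finset.prod_ne_zero_iff.2 fun y _ => hc y) (mul_ne_zero ?_ hP)
    exact Int.cast_ne_zero.2 (Units.ne_zero _)
  · ext i j
    have h1 : ((Matrix.of fun x y => c y * (P.submatrix id σ) x y)ᵀ * A *
        (Matrix.of fun x y => c y * (P.submatrix id σ) x y)) i j =
        c i * c j * (Pᵀ * A * P) (σ i) (σ j) := by
      rw [ISOM.gram, ISOM.gram, ISOM.form, ISOM.form]
      simp
      ring
    rw [h1, hd]
    by_cases hij : i = j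
    · subst hij
      rw [diagonal_apply_eq, diagonal_apply_eq, ← he]
      ring
    · rw [diagonal_apply_ne _ hij, diagonal_apply_ne _ (fun h => hij (σ.injective h)), mul_zero]

end ANIM

open ANIM in
theorem specANI : SpecANI.{u} := by
  intro K _ _ u l a r s hu hl hr hs hcl hneg ha A hA hdet hani
  obtain ⟨i, hi⟩ := hneg
  have hi' : i * i = -1 := hi.symm
  have hi0 : i ≠ 0 := by
    rintro rfl
    simp at hi
  have hd0 : A.det ≠ 0 := by rw [hdet]; exact neg_ne_zero.2 (pow_ne_zero 2 hs)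
  obtain ⟨P, d, hP, hd, hPd⟩ := exists_diag hA hd0
  have hCg : Cg A (diagonal d) := ⟨P, hP, hPd⟩
  -- different classes
  have hne : ∀ j k : Fin 3, j ≠ k → ∀ t : K, d j ≠ d k * t ^ 2 := fun j k hjk t ht =>
    hani (iso_of_cg hCg (iso_diag hi' hjk ht))
  -- the product is a square
  have hprod : d 0 * d 1 * d 2 = (i * s * P.det) ^ 2 := by
    have h := congrArg Matrix.det hPd
    rw [Matrix.det_mul, Matrix.det_mul, Matrix.det_transpose, Matrix.det_diagonal,
      Fin.prod_univ_three, hdet] at h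
    rw [← h]
    linear_combination -(s * P.det) ^ 2 * hi'
  -- no coefficient is a square
  have hns : ∀ j : Fin 3, ∀ t : K, d j ≠ t ^ 2 := by
    intro j t ht
    have ht0 : t ≠ 0 := by
      rintro rfl
      exact hd j (by rw [ht]; ring)
    have key : ∀ x y z w : K, x ≠ 0 → y ≠ 0 → z ≠ 0 → x = t ^ 2 → x * y * z = w ^ 2 →
        y = z * (w / (t * z)) ^ 2 := by
      intro x y z w hx hy hz h1 h2
      subst h1
      field_simp
      linear_combination h2
    fin_cases j
    · exact hne 1 2 (by decide) _ (key (d 0) (d 1) (d 2) _ (hd 0) (hd 1) (hd 2) ht hprod)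
    · exact hne 0 2 (by decide) _ (key (d 1) (d 0) (d 2) (i * s * P.det) (hd 1) (hd 0) (hd 2) ht
        (by rw [← hprod]; ring))
    · exact hne 0 1 (by decide) _ (key (d 2) (d 0) (d 1) (i * s * P.det) (hd 2) (hd 0) (hd 1) ht
        (by rw [← hprod]; ring))
  have hlab : ∀ j : Fin 3, ∃ c : Fin 3, ∃ t : K, t ≠ 0 ∧ d j = (![u, l, u * l] : Fin 3 → K) c * t ^ 2 := by
    intro j
    obtain ⟨t, ht, h | h | h | h⟩ := hcl (d j) (hd j)
    · exact absurd h (hns j t)
    · exact ⟨0, t, ht, h⟩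
    · exact ⟨1, t, ht, h⟩
    · exact ⟨2, t, ht, h⟩
  choose c t ht hc using hlab
  have hinj : Function.Injective c := by
    intro j k hjk
    by_contra h
    refine hne j k h (t j / t k) ?_
    rw [hc j, hc k, hjk]
    have := ht k
    field_simp
  set σ : Equiv.Perm (Fin 3) :=
    (Equiv.ofBijective c (Finite.injective_iff_bijective.1 hinj)).symm with hσ
  have hcσ : ∀ y, c (σ y) = y := fun y =>
    (Equiv.ofBijective c (Finite.injective_iff_bijective.1 hinj)).apply_symm_apply y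
  have := final hP hPd σ (e := ![a, l, -(a * l)])
    (c := ![r / t (σ 0), 1 / t (σ 1), i * r / t (σ 2)]) ?_ ?_
  · exact this
  · intro y
    fin_cases y
    · exact div_ne_zero hr (ht _)
    · exact div_ne_zero one_ne_zero (ht _)
    · exact div_ne_zero (mul_ne_zero hi0 hr) (ht _)
  · intro y
    rw [hc, hcσ]
    have h0 := ht (σ 0)
    have h1 := ht (σ 1)
    have h2 := ht (σ 2)
    fin_cases y
    · simp
      rw [ha]
      field_simp
    · simp
      field_simp
    · simp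
      rw [ha]
      field_simp
      linear_combination hi'

end Pool.Agent.Lib.MP_8cb858_nt.PF.RF
end

section
/-!
# DIA: diagonalization of symmetric matrices
-/
namespace Pool.Agent.Lib.MP_8cb858_nt.PF.RF

open Matrix

/-- **DIA.** -/
theorem specDIA : SpecDIA := by
  intro K _ _ ι _ _ G hs hG
  have : Invertible (2 : K) := invertibleOfNonzero two_ne_zero
  set Bf : LinearMap.BilinForm K (ι → K) := Matrix.toBilin' G with hB
  have hBs : LinearMap.IsSymm Bf := by
    refine ⟨fun x y => ?_⟩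
    simp only [hB, Matrix.toBilin'_apply', RingHom.id_apply]
    rw [Matrix.dotProduct_mulVec, ← Matrix.mulVec_transpose, hs.eq, dotProduct_comm]
  obtain ⟨v, hv⟩ := LinearMap.BilinForm.exists_orthogonal_basis hBs
  have hf : Module.finrank K (ι → K) = Fintype.card ι := Module.finrank_fintype_fun_eq_card K
  set e : Fin (Module.finrank K (ι → K)) ≃ ι := (finCongr hf).trans (Fintype.equivFin ι).symm
    with he
  set w : Module.Basis ι K (ι → K) := v.reindex e with hw
  set P : Matrix ι ι K := Matrix.of fun i j => w j i with hP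
  have hent : ∀ i j, (P.transpose * G * P) i j = Bf (w i) (w j) := by
    intro i j
    rw [hB, Matrix.toBilin'_apply']
    rw [Matrix.mul_assoc, Matrix.mul_apply]
    simp only [dotProduct, Matrix.transpose_apply, Matrix.mul_apply, Matrix.mulVec]
    rfl
  have hortho : ∀ i j, i ≠ j → Bf (w i) (w j) = 0 := by
    intro i j hij
    rw [hw]
    simp only [Module.Basis.reindex_apply]
    exact hv (by
      intro h
      exact hij (e.symm.injective h))
  have hdiag : P.transpose * G * P = Matrix.diagonal fun i => Bf (w i) (w i) := by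
    ext i j
    rw [hent]
    by_cases hij : i = j
    · subst hij; simp
    · rw [hortho i j hij, Matrix.diagonal_apply_ne _ hij]
  have hPdet : P.det ≠ 0 := by
    have hP2 : P = (Pi.basisFun K ι).toMatrix w := by
      ext i j
      rw [Module.Basis.toMatrix_apply]
      simp [hP]
    rw [hP2]
    exact Matrix.det_ne_zero_of_right_inverse
      (Module.Basis.toMatrix_mul_toMatrix_flip (Pi.basisFun K ι) w)
  refine ⟨fun i => Bf (w i) (w i), ?_, P, hPdet, hdiag⟩
  have hd := congrArg Matrix.det hdiag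
  rw [Matrix.det_mul, Matrix.det_mul, Matrix.det_transpose, Matrix.det_diagonal] at hd
  intro i hi
  have : ∏ i, Bf (w i) (w i) = 0 := Finset.prod_eq_zero (Finset.mem_univ i) hi
  rw [this] at hd
  exact (mul_ne_zero (mul_ne_zero hPdet hG) hPdet) hd

end Pool.Agent.Lib.MP_8cb858_nt.PF.RF
end

section
/-!
# DNF: weak approximation for finitely many finite places
-/
namespace Pool.Agent.Lib.MP_8cb858_nt.PF.RF

open NumberField IsDedekindDomain Topology HeightOneSpectrum

universe u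

namespace DNFM

variable {F : Type u} [Field F] [NumberField F]

/-- the completion map -/
noncomputable def g (v : HeightOneSpectrum (𝓞 F)) (x : WithAbs (NumberField.HeightOneSpectrum.adicAbv F v)) :
    v.adicCompletion F :=
  algebraMap F (v.adicCompletion F) x.ofAbs

lemma dist_g (v : HeightOneSpectrum (𝓞 F)) (x y : WithAbs (NumberField.HeightOneSpectrum.adicAbv F v)) :
    dist (g v x) (g v y) = dist x y := by
  rw [dist_eq_norm, dist_eq_norm, g, g, ← map_sub]
  exact FinitePlace.norm_embedding v (x.ofAbs - y.ofAbs)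

lemma cont_g (v : HeightOneSpectrum (𝓞 F)) : Continuous (g v) :=
  (Isometry.of_dist_eq (dist_g v)).continuous

lemma dense_g (v : HeightOneSpectrum (𝓞 F)) : DenseRange (g v) := by
  have h := v.denseRange_algebraMap F
  refine h.mono ?_
  rintro _ ⟨x, rfl⟩
  exact ⟨WithAbs.toAbs _ x, rfl⟩

end DNFM

/-- **DNF.** -/
theorem specDNF : SpecDNF := by
  intro F _ _ W hW
  have : Finite W := hW
  have h1 : ∀ w : W, (NumberField.HeightOneSpectrum.adicAbv F w.1).IsNontrivial := by
    intro w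
    obtain ⟨x, hx, hx0⟩ := Submodule.exists_mem_ne_zero_of_ne_bot w.1.ne_bot
    refine ⟨(x : F), by exact_mod_cast hx0, ?_⟩
    have := (FinitePlace.norm_lt_one_iff_mem F w.1 x).2 hx
    rw [FinitePlace.norm_embedding] at this
    exact this.ne
  have h2 : Pairwise fun i j : W => ¬ (NumberField.HeightOneSpectrum.adicAbv F i.1).IsEquiv
      (NumberField.HeightOneSpectrum.adicAbv F j.1) := by
    intro i j hij he
    have hne : i.1 ≠ j.1 := fun h => hij (Subtype.ext h)
    have hnle : ¬ i.1.asIdeal ≤ j.1.asIdeal := by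
      intro hle
      exact hne (HeightOneSpectrum.ext (i.1.isMaximal.eq_of_le j.1.isPrime.ne_top hle))
    obtain ⟨x, hx, hxj⟩ := Set.not_subset.1 hnle
    have h3 := (FinitePlace.norm_lt_one_iff_mem F i.1 x).2 hx
    rw [FinitePlace.norm_embedding] at h3
    have h4 := (he.lt_one_iff).1 h3
    rw [← FinitePlace.norm_embedding, FinitePlace.norm_lt_one_iff_mem] at h4
    exact hxj h4
  have h3 := AbsoluteValue.denseRange_algebraMap_pi h1 h2
  have h4 : DenseRange (Pi.map fun w : W => DNFM.g w.1) :=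
    DenseRange.piMap fun w => DNFM.dense_g w.1
  have h5 : Continuous (Pi.map fun w : W => DNFM.g w.1) := .piMap fun w => DNFM.cont_g w.1
  exact h4.comp h3 h5

end Pool.Agent.Lib.MP_8cb858_nt.PF.RF
end

section
/-!
# Module GLP: the product formula for the trace form
-/
namespace Pool.Agent.Lib.MP_8cb858_nt.PF.RF

open Matrix NumberField

universe u

namespace GLPM

section one

variable {K : Type*} [Field K]

lemma hl_eq (l : List K) : hl K l = 1 ∨ hl K l = -1 := by
  induction l with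
  | nil => exact Or.inl rfl
  | cons a l ih =>
    show hs K a l.prod * hl K l = 1 ∨ hs K a l.prod * hl K l = -1
    rcases hs_eq a l.prod with h | h <;> rcases ih with h' | h' <;> rw [h, h'] <;> norm_num

lemma hM_eq {ι : Type*} [Fintype ι] [DecidableEq ι] (G : Matrix ι ι K) :
    hM K G = 1 ∨ hM K G = -1 := by
  unfold hM
  split_ifs with h
  · exact hl_eq _
  · exact Or.inl rfl

open scoped Classical in
/-- The invariant as a function of the set of diagonalizations. -/
noncomputable def hD (K : Type*) [Field K] {ι : Type*} [Fintype ι] (D : (ι → K) → Prop) : ℤ :=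
  if h : ∃ d : ι → K, D d then hf K h.choose else 1

lemma hM_hD {ι : Type*} [Fintype ι] [DecidableEq ι] (G : Matrix ι ι K) :
    hM K G = hD K (Diag G) := rfl

lemma diag_of {ι : Type*} [Fintype ι] [DecidableEq ι] {G R : Matrix ι ι K} (hR : R.det ≠ 0)
    {d : ι → K} (h : Diag (Rᵀ * G * R) d) : Diag G d := by
  obtain ⟨hd, P, hP, h⟩ := h
  refine ⟨hd, R * P, ?_, ?_⟩
  · rw [det_mul]; exact mul_ne_zero hR hP
  · rw [← h, transpose_mul]; simp only [Matrix.mul_assoc]

lemma diag_to {ι : Type*} [Fintype ι] [DecidableEq ι] {G R : Matrix ι ι K} (hR : R.det ≠ 0)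
    {d : ι → K} (h : Diag G d) : Diag (Rᵀ * G * R) d := by
  have hu : IsUnit R.det := isUnit_iff_ne_zero.2 hR
  refine diag_of (R := R⁻¹) ?_ ?_
  · intro h0
    have h1 := congrArg det (mul_nonsing_inv R hu)
    rw [det_mul, h0, mul_zero, det_one] at h1
    exact zero_ne_one h1
  · have e : R⁻¹ᵀ * (Rᵀ * G * R) * R⁻¹ = G := by
      rw [transpose_nonsing_inv]
      calc (Rᵀ)⁻¹ * (Rᵀ * G * R) * R⁻¹ = ((Rᵀ)⁻¹ * Rᵀ) * G * (R * R⁻¹) := by
            simp only [Matrix.mul_assoc]
        _ = G := by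
            rw [nonsing_inv_mul _ (by rwa [det_transpose]), mul_nonsing_inv _ hu, one_mul, mul_one]
    rw [e]
    exact h

/-- The Hasse invariant only depends on the congruence class. -/
lemma hM_congr {ι : Type*} [Fintype ι] [DecidableEq ι] {G R : Matrix ι ι K} (hR : R.det ≠ 0) :
    hM K (Rᵀ * G * R) = hM K G := by
  rw [hM_hD, hM_hD]
  congr 1
  funext d
  exact propext ⟨diag_of hR, diag_to hR⟩

end one

/-- Change of field for a diagonalization. -/
lemma diag_map {K : Type*} [Field K] [CharZero K] {ι : Type*} [Fintype ι] [DecidableEq ι]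
    {G : Matrix ι ι ℚ} {d : ι → ℚ} (h : Diag G d) :
    Diag (G.map (Rat.castHom K)) (fun i => (d i : K)) := by
  obtain ⟨hd, P, hP, h⟩ := h
  refine ⟨fun i => Rat.cast_ne_zero.2 (hd i), P.map (Rat.castHom K), ?_, ?_⟩
  · have e : (P.map (Rat.castHom K)).det = Rat.castHom K P.det := (RingHom.map_det _ _).symm
    rw [e]
    exact (map_ne_zero _).2 hP
  · have e : (P.map (Rat.castHom K))ᵀ * G.map (Rat.castHom K) * P.map (Rat.castHom K) =
        (Pᵀ * G * P).map (Rat.castHom K) := by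
      rw [Matrix.map_mul, Matrix.map_mul, transpose_map]
    rw [e, h, diagonal_map (map_zero _)]
    rfl

lemma prod_cast {K : Type*} [Field K] [CharZero K] (l : List ℚ) :
    (l.map (fun x : ℚ => (x : K))).prod = ((l.prod : ℚ) : K) := by
  induction l with
  | nil => simp
  | cons a l ih =>
    rw [List.map_cons, List.prod_cons, List.prod_cons, ih, Rat.cast_mul]

lemma list_form (hHSP : SpecHSP) (l : List ℚ) (hl0 : ∀ x ∈ l, x ≠ 0) :
    (Function.mulSupport fun p : Nat.Primes =>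
      hl ℚ_[(p : ℕ)] (l.map (fun x : ℚ => (x : ℚ_[(p : ℕ)])))).Finite ∧
    (∏ᶠ p : Nat.Primes, hl ℚ_[(p : ℕ)] (l.map (fun x : ℚ => (x : ℚ_[(p : ℕ)])))) *
      hl ℝ (l.map (fun x : ℚ => (x : ℝ))) = 1 := by
  induction l with
  | nil =>
    have e : (fun p : Nat.Primes =>
        hl ℚ_[(p : ℕ)] (([] : List ℚ).map (fun x : ℚ => (x : ℚ_[(p : ℕ)])))) = fun _ => 1 := rfl
    rw [e]
    refine ⟨?_, ?_⟩
    · have e1 : (Function.mulSupport fun _ : Nat.Primes => (1 : ℤ)) = ∅ := by
        ext p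
        simp
      rw [e1]; exact Set.finite_empty
    · rw [finprod_one]; rfl
  | cons a l ih =>
    obtain ⟨h1, h2⟩ := ih fun x hx => hl0 x (List.mem_cons_of_mem _ hx)
    have ha : a ≠ 0 := hl0 a List.mem_cons_self
    have hp : l.prod ≠ 0 := by
      intro h0
      exact hl0 0 (List.mem_cons_of_mem _ (List.prod_eq_zero_iff.1 h0)) rfl
    obtain ⟨h3, h4⟩ := hHSP a l.prod ha hp
    have e : (fun p : Nat.Primes =>
        hl ℚ_[(p : ℕ)] ((a :: l).map (fun x : ℚ => (x : ℚ_[(p : ℕ)])))) =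
        fun p : Nat.Primes => hs ℚ_[(p : ℕ)] (a : ℚ_[(p : ℕ)]) ((l.prod : ℚ) : ℚ_[(p : ℕ)]) *
          hl ℚ_[(p : ℕ)] (l.map (fun x : ℚ => (x : ℚ_[(p : ℕ)]))) := by
      funext p
      rw [← prod_cast]
      rfl
    have e' : hl ℝ ((a :: l).map (fun x : ℚ => (x : ℝ))) =
        hs ℝ (a : ℝ) ((l.prod : ℚ) : ℝ) * hl ℝ (l.map (fun x : ℚ => (x : ℝ))) := by
      rw [← prod_cast]
      rfl
    rw [e, e']
    refine ⟨(h3.union h1).subset (Function.mulSupport_mul _ _), ?_⟩
    rw [finprod_mul_distrib h3 h1]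
    calc _ = ((∏ᶠ p : Nat.Primes,
              hs ℚ_[(p : ℕ)] (a : ℚ_[(p : ℕ)]) ((l.prod : ℚ) : ℚ_[(p : ℕ)])) *
            hs ℝ (a : ℝ) ((l.prod : ℚ) : ℝ)) *
            ((∏ᶠ p : Nat.Primes, hl ℚ_[(p : ℕ)] (l.map (fun x : ℚ => (x : ℚ_[(p : ℕ)])))) *
              hl ℝ (l.map (fun x : ℚ => (x : ℝ)))) := by ring
      _ = 1 := by rw [h2, h4, one_mul]

end GLPM

open GLPM

theorem specGLP (hTRC : SpecTRC.{u}) (hDIA : SpecDIA) (hHAS : SpecHAS) (hHBP : SpecHBP)
    (hHB2 : SpecHB2) (hHBR : SpecHBR) (hHSP : SpecHSP) : SpecGLP.{u} := by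
  intro F _ _ A
  obtain ⟨ht1, ht2, ht3⟩ := hTRC F A
  refine ⟨fun hA hdA => ?_, ?_⟩
  · obtain ⟨d, hd⟩ := hDIA ℚ _ (GT A) (ht1 hA) (ht2 hdA)
    have key : ∀ (K : Type) [Field K] [CharZero K], Bi K →
        hT K A = hl K ((Finset.univ.toList.map d).map (fun x : ℚ => (x : K))) := by
      intro K _ _ hK
      have h := hHAS K hK _ _ _ (diag_map (K := K) hd)
      unfold hT
      rw [h]
      unfold hf
      rw [List.map_map]
      rfl
    have hB : ∀ p : Nat.Primes, Bi ℚ_[(p : ℕ)] := by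
      rintro ⟨p, hp⟩
      have : Fact p.Prime := ⟨hp⟩
      by_cases h2 : p = 2
      · subst h2
        exact hHB2
      · exact hHBP p h2
    have hne : ∀ x ∈ Finset.univ.toList.map d, x ≠ 0 := by
      intro x hx
      obtain ⟨i, _, rfl⟩ := List.mem_map.1 hx
      exact hd.1 i
    have e : (fun p : Nat.Primes => hT ℚ_[(p : ℕ)] A) = fun p : Nat.Primes =>
        hl ℚ_[(p : ℕ)] ((Finset.univ.toList.map d).map (fun x : ℚ => (x : ℚ_[(p : ℕ)]))) :=
      funext fun p => key _ (hB p)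
    obtain ⟨h1, h2⟩ := list_form hHSP _ hne
    refine ⟨?_, ?_, fun K _ _ _ => hM_eq _⟩
    · rw [e]; exact h1
    · rw [e, key ℝ hHBR]; exact h2
  · rintro K _ _ B ⟨P, hP, rfl⟩
    obtain ⟨R, hR, e⟩ := ht3 P
    unfold hT
    rw [e]
    have e' : (Rᵀ * GT A * R).map (Rat.castHom K) =
        (R.map (Rat.castHom K))ᵀ * (GT A).map (Rat.castHom K) * R.map (Rat.castHom K) := by
      rw [Matrix.map_mul, Matrix.map_mul, transpose_map]
    rw [e', hM_congr]
    have e2 : (R.map (Rat.castHom K)).det = Rat.castHom K R.det := (RingHom.map_det _ _).symm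
    rw [e2]
    exact (map_ne_zero _).2 (hR hP)

end Pool.Agent.Lib.MP_8cb858_nt.PF.RF
end

section
/-!
# HBR: the Hilbert symbol over the real numbers
-/
namespace Pool.Agent.Lib.MP_8cb858_nt.PF.RF

namespace HBRM

lemma pos_left {a b : ℝ} (ha : 0 < a) : hs ℝ a b = 1 :=
  hs_one_iff.2 ⟨1, 0, Real.sqrt a, by simp, by rw [Real.sq_sqrt ha.le]; ring⟩

lemma pos_right {a b : ℝ} (hb : 0 < b) : hs ℝ a b = 1 := by
  rw [hs_comm]; exact pos_left hb

lemma neg_neg {a b : ℝ} (ha : a < 0) (hb : b < 0) : hs ℝ a b = -1 := by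
  rcases hs_eq a b with h | h
  · exfalso
    obtain ⟨x, y, z, h1, h2⟩ := hs_one_iff.1 h
    have hx : 0 ≤ -a * x ^ 2 := mul_nonneg (by linarith) (sq_nonneg x)
    have hy : 0 ≤ -b * y ^ 2 := mul_nonneg (by linarith) (sq_nonneg y)
    have hz : 0 ≤ z ^ 2 := sq_nonneg z
    have hx0 : -a * x ^ 2 = 0 := by linarith
    have hy0 : -b * y ^ 2 = 0 := by linarith
    have hz0 : z ^ 2 = 0 := by linarith
    have hx1 : x = 0 := by
      rcases mul_eq_zero.1 hx0 with h' | h'
      · linarith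
      · exact pow_eq_zero_iff two_ne_zero |>.1 h'
    have hy1 : y = 0 := by
      rcases mul_eq_zero.1 hy0 with h' | h'
      · linarith
      · exact pow_eq_zero_iff two_ne_zero |>.1 h'
    have hz1 : z = 0 := pow_eq_zero_iff two_ne_zero |>.1 hz0
    tauto
  · exact h

end HBRM

open HBRM in
theorem specHBR : SpecHBR := by
  intro a a' b ha ha' hb
  rcases lt_or_gt_of_ne hb with hb | hb
  · rcases lt_or_gt_of_ne ha with ha | ha <;> rcases lt_or_gt_of_ne ha' with ha' | ha'
    · rw [neg_neg ha hb, neg_neg ha' hb, pos_left (mul_pos_of_neg_of_neg ha ha')]; norm_num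
    · rw [neg_neg ha hb, pos_left ha', neg_neg (mul_neg_of_neg_of_pos ha ha') hb]; norm_num
    · rw [neg_neg ha' hb, pos_left ha, neg_neg (mul_neg_of_pos_of_neg ha ha') hb]; norm_num
    · rw [pos_left ha, pos_left ha', pos_left (mul_pos ha ha')]; norm_num
  · rw [pos_right hb, pos_right hb, pos_right hb]; norm_num

end Pool.Agent.Lib.MP_8cb858_nt.PF.RF
end

section
/-!
# HLP: permutations, squares and concatenation for the Hasse invariant of a list
-/
namespace Pool.Agent.Lib.MP_8cb858_nt.PF.RF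

namespace HLPM

variable {K : Type*} [Field K]

lemma prod_ne {l : List K} (h : ∀ x ∈ l, x ≠ 0) : l.prod ≠ 0 :=
  List.prod_ne_zero (fun h0 => h 0 h0 rfl)

lemma hl_cons (a : K) (l : List K) : hl K (a :: l) = hs K a l.prod * hl K l := rfl

lemma tail_ne {a : K} {l : List K} (h : ∀ x ∈ a :: l, x ≠ 0) : ∀ x ∈ l, x ≠ 0 :=
  fun y hy => h y (List.mem_cons_of_mem _ hy)

lemma head_ne {a : K} {l : List K} (h : ∀ x ∈ a :: l, x ≠ 0) : a ≠ 0 := h a List.mem_cons_self

lemma hl_perm (hB : Bi K) {l m : List K} (h : l.Perm m) :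
    (∀ x ∈ l, x ≠ 0) → hl K l = hl K m := by
  induction h with
  | nil => intro _; rfl
  | cons x h ih => intro hx; rw [hl_cons, hl_cons, h.prod_eq, ih (tail_ne hx)]
  | swap x y l =>
    intro hx
    have hy0 : y ≠ 0 := head_ne hx
    have hx0 : x ≠ 0 := head_ne (tail_ne hx)
    have hp : l.prod ≠ 0 := prod_ne (tail_ne (tail_ne hx))
    simp only [hl_cons, List.prod_cons]
    rw [hB.right hy0 hx0 hp, hB.right hx0 hy0 hp, hs_comm y x]
    ring
  | trans h1 h2 ih1 ih2 =>
    intro hx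
    rw [ih1 hx, ih2 (fun y hy => hx y (h1.mem_iff.2 hy))]

lemma hl_append (hB : Bi K) (l m : List K) (hl' : ∀ x ∈ l, x ≠ 0) (hm : ∀ x ∈ m, x ≠ 0) :
    hl K (l ++ m) = hl K l * hl K m * hs K l.prod m.prod := by
  induction l with
  | nil => simp [hl, hs_one_left]
  | cons a l ih =>
    have ha := head_ne hl'
    have hp := prod_ne (tail_ne hl')
    have hq := prod_ne hm
    rw [List.cons_append, hl_cons, hl_cons, List.prod_append, List.prod_cons, ih (tail_ne hl'),
      hB.right ha hp hq, hB a l.prod m.prod ha hp hq]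
    ring

lemma prod_sq {ι : Type*} (d s : ι → K) (l : List ι) :
    (l.map (fun i => d i * s i ^ 2)).prod = (l.map d).prod * ((l.map s).prod) ^ 2 := by
  induction l with
  | nil => simp
  | cons a l ih => simp only [List.map_cons, List.prod_cons, ih]; ring

lemma hl_sq {ι : Type*} (d s : ι → K) (hs' : ∀ i, s i ≠ 0) (l : List ι) :
    hl K (l.map (fun i => d i * s i ^ 2)) = hl K (l.map d) := by
  induction l with
  | nil => rfl
  | cons a l ih =>
    have hp : (l.map s).prod ≠ 0 := prod_ne (by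
      intro x hx
      obtain ⟨i, -, rfl⟩ := List.mem_map.1 hx
      exact hs' i)
    simp only [List.map_cons]
    rw [hl_cons, hl_cons, ih, prod_sq, hs_mul_sq (hs' a), hs_mul_sq_right hp]

end HLPM

open HLPM in
theorem specHLP : SpecHLP := by
  intro K _ hB
  refine ⟨fun l m hl' h => hl_perm hB h hl', fun l m hl' hm => hl_append hB l m hl' hm, ?_⟩
  intro ι _ d s _ hs'
  exact hl_sq d s hs' _

end Pool.Agent.Lib.MP_8cb858_nt.PF.RF
end

section
/-! Block REC_F, module LOC (helper14): the Hasse invariant of the trace form only depends on the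
completions. -/
namespace Pool.Agent.Lib.MP_8cb858_nt.PF.RF

open NumberField IsDedekindDomain Topology

universe u

namespace LOCM

variable {F : Type u} [Field F] [NumberField F]

theorem val (w : HeightOneSpectrum (𝓞 F)) (x : F) :
    Valued.v (algebraMap F (w.adicCompletion F) x) = w.valuation F x :=
  HeightOneSpectrum.valuedAdicCompletion_eq_valuation' (R := 𝓞 F) w x

theorem fin (p : ℕ) (hp : p ≠ 0) : {w : HeightOneSpectrum (𝓞 F) | (p : 𝓞 F) ∈ w.asIdeal}.Finite := by
  have h0 : Ideal.span {(p : 𝓞 F)} ≠ ⊥ := by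
    rw [Ne, Ideal.span_singleton_eq_bot]
    exact Nat.cast_ne_zero.2 hp
  refine (Ideal.finite_factors h0).subset fun w hw => ?_
  exact Ideal.dvd_iff_le.2 ((Ideal.span_singleton_le_iff_mem _).2 hw)

/-- the elements of valuation at most that of `t` form a neighbourhood of zero -/
theorem nhd (w : HeightOneSpectrum (𝓞 F)) (t : F) :
    (fun y : w.adicCompletion F => y * (algebraMap F (w.adicCompletion F) t)⁻¹) ⁻¹'
      {y : w.adicCompletion F | Valued.v y ≤ 1} ∈ 𝓝 (0 : w.adicCompletion F) := by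
  have hc : Continuous (fun y : w.adicCompletion F => y * (algebraMap F (w.adicCompletion F) t)⁻¹) :=
    continuous_id.mul continuous_const
  have ho : IsOpen {y : w.adicCompletion F | Valued.v y ≤ 1} :=
    Valued.isOpen_integer (w.adicCompletion F)
  refine (ho.preimage hc).mem_nhds ?_
  show Valued.v (0 * (algebraMap F (w.adicCompletion F) t)⁻¹) ≤ 1
  rw [zero_mul, map_zero]
  exact zero_le

theorem nhd_iff (w : HeightOneSpectrum (𝓞 F)) {t x : F} (ht : t ≠ 0)
    (h : algebraMap F (w.adicCompletion F) x ∈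
      (fun y : w.adicCompletion F => y * (algebraMap F (w.adicCompletion F) t)⁻¹) ⁻¹'
      {y : w.adicCompletion F | Valued.v y ≤ 1}) : w.valuation F x ≤ w.valuation F t := by
  have h1 : Valued.v (algebraMap F (w.adicCompletion F) x * (algebraMap F (w.adicCompletion F) t)⁻¹) ≤ 1 := h
  rw [map_mul, map_inv₀, val, val] at h1
  have h0 : w.valuation F t ≠ 0 := (Valuation.ne_zero_iff _).2 ht
  rw [← div_eq_mul_inv, div_le_one₀ (zero_lt_iff.2 h0)] at h1
  exact h1

end LOCM

open LOCM in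
theorem specLOC (hLOG : SpecLOG.{u}) (hDNF : SpecDNF.{u}) (hTRF : SpecTRF.{u}) (hTRI : SpecTRI.{u})
    (hHBP : SpecHBP) (hHB2 : SpecHB2) (hHBR : SpecHBR) (hSQN : SpecSQN) : SpecLOC.{u} := by
  intro F _ _ A A1 hA hA1 hd hd1
  constructor
  · intro p hp hcg
    have hBi : Bi ℚ_[p] := by
      by_cases h2 : p = 2
      · subst h2
        exact hHB2
      · exact hHBP p h2
    have hfin := fin (F := F) p hp.out.ne_zero
    have : Finite {w : HeightOneSpectrum (𝓞 F) | (p : 𝓞 F) ∈ w.asIdeal} := hfin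
    refine hLOG F ℚ_[p] hBi (hSQN.1 p) {w : HeightOneSpectrum (𝓞 F) | (p : 𝓞 F) ∈ w.asIdeal}
      (fun w => w.1.adicCompletion F) (fun w => algebraMap F (w.1.adicCompletion F))
      (hDNF F _ hfin) ?_ A A1 hA hA1 hd hd1 (fun w => hcg w.1 w.2)
    intro c U hU
    obtain ⟨ε, hε, hεU⟩ := Metric.mem_nhds_iff.1 hU
    have hp1 : (1 : ℝ) < p := by exact_mod_cast hp.out.one_lt
    obtain ⟨N, hN⟩ := exists_pow_lt_of_lt_one hε (inv_lt_one_of_one_lt₀ hp1)
    obtain ⟨m, hm⟩ := hTRF F p c N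
    refine ⟨fun w => (fun y : w.1.adicCompletion F =>
      y * (algebraMap F (w.1.adicCompletion F) ((p : F) ^ m))⁻¹) ⁻¹'
      {y : w.1.adicCompletion F | Valued.v y ≤ 1}, fun w => nhd w.1 _, fun x hx => hεU ?_⟩
    have hpF : (p : F) ^ m ≠ 0 := pow_ne_zero _ (Nat.cast_ne_zero.2 hp.out.ne_zero)
    have h1 := hm x fun w hw => nhd_iff w hpF (hx ⟨w, hw⟩)
    rw [mem_ball_zero_iff]
    refine h1.trans_lt ?_
    rwa [zpow_neg, zpow_natCast, ← inv_pow]
  · intro hcg
    refine hLOG F ℝ hHBR hSQN.2 (InfinitePlace F) (fun w => w.Completion)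
      (fun w => algebraMap F w.Completion) ?_ ?_ A A1 hA hA1 hd hd1 hcg
    · exact NumberField.InfiniteAdeleRing.denseRange_algebraMap F
    · intro c U hU
      obtain ⟨ε, hε, hεU⟩ := Metric.mem_nhds_iff.1 hU
      obtain ⟨δ, hδ, hδ2⟩ := hTRI F c ε hε
      refine ⟨fun w => Metric.ball 0 δ, fun w => Metric.ball_mem_nhds _ hδ, fun x hx => hεU ?_⟩
      rw [mem_ball_zero_iff, Real.norm_eq_abs]
      refine hδ2 x fun w => ?_
      have h1 := hx w
      rw [mem_ball_zero_iff] at h1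
      have h2 : ‖algebraMap F w.Completion x‖ = w x := InfinitePlace.Completion.norm_coe w _
      rwa [h2] at h1

end Pool.Agent.Lib.MP_8cb858_nt.PF.RF
end

section
/-!
# LOG: the general approximation argument
-/
namespace Pool.Agent.Lib.MP_8cb858_nt.PF.RF

open Matrix NumberField IsDedekindDomain Topology

universe u

namespace LOGM

/-- Neighbourhoods of a point of a finite product contain boxes. -/
lemma box_nhds {ι : Type*} [Finite ι] {X : ι → Type*} [∀ i, TopologicalSpace (X i)]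
    (x : ∀ i, X i) {S : Set (∀ i, X i)} (hS : S ∈ 𝓝 x) :
    ∃ O : ∀ i, Set (X i), (∀ i, O i ∈ 𝓝 (x i)) ∧ ∀ y : ∀ i, X i, (∀ i, y i ∈ O i) → y ∈ S := by
  rw [nhds_pi, Filter.mem_pi'] at hS
  obtain ⟨I, t, ht, hsub⟩ := hS
  exact ⟨t, ht, fun y hy => hsub fun i _ => hy i⟩

/-- Neighbourhoods of a matrix contain boxes. -/
lemma box_matrix {ι κ : Type*} [Finite ι] [Finite κ] {K : Type*} [TopologicalSpace K]
    (A : Matrix ι κ K) {S : Set (Matrix ι κ K)} (hS : S ∈ 𝓝 A) :
    ∃ O : ι → κ → Set K, (∀ i j, O i j ∈ 𝓝 (A i j)) ∧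
      ∀ B : Matrix ι κ K, (∀ i j, B i j ∈ O i j) → B ∈ S := by
  obtain ⟨O1, h1, h2⟩ := box_nhds (X := fun _ : ι => κ → K) A hS
  choose O h3 h4 using fun i => box_nhds (X := fun _ : κ => K) (A i) (h1 i)
  exact ⟨O, h3, fun B hB => h2 B fun i => h4 i (B i) (hB i)⟩

end LOGM

open LOGM in
theorem specLOG (hPER : SpecPER) (hTRC : SpecTRC.{u}) : SpecLOG.{u} := by
  intro F _ _ K _ _ _ _ _ hBi hsq W _ L _ _ _ φ hdense htr A A1 hA hA1 hdA hdA1 hcg
  have : Fintype W := Fintype.ofFinite W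
  choose P hPdet hP using hcg
  set β := Module.finBasis ℚ F with hβ
  set G1 := (GT A1).map (Rat.castHom K) with hG1
  obtain ⟨ts1, td1, -⟩ := hTRC F A1
  have hG1s : G1.IsSymm := by
    rw [hG1, Matrix.IsSymm, ← Matrix.transpose_map, (ts1 hA1).eq]
  have hmapdet : ∀ G : Matrix (Fin 3 × Fin (Module.finrank ℚ F)) (Fin 3 × Fin (Module.finrank ℚ F)) ℚ,
      (G.map (Rat.castHom K)).det = Rat.castHom K G.det := fun G =>
    (RingHom.map_det (Rat.castHom K) G).symm
  have hG1d : G1.det ≠ 0 := by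
    rw [hG1, hmapdet]
    exact (map_ne_zero _).2 (td1 hdA1)
  have hper := hPER K hBi hsq _ G1 hG1s hG1d
  obtain ⟨O, hO1, hO2⟩ := box_matrix G1 hper
  -- one neighbourhood of zero
  set U : Set K := ⋂ p : (Fin 3 × Fin (Module.finrank ℚ F)) × (Fin 3 × Fin (Module.finrank ℚ F)),
    {e : K | G1 p.1 p.2 + e ∈ O p.1 p.2} with hU
  have hU0 : U ∈ 𝓝 (0 : K) := by
    rw [hU]
    refine Filter.iInter_mem.2 fun p => ?_
    have hc : Filter.Tendsto (fun e : K => G1 p.1 p.2 + e) (𝓝 0) (𝓝 (G1 p.1 p.2 + 0)) :=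
      tendsto_const_nhds.add Filter.tendsto_id
    rw [add_zero] at hc
    exact hc (hO1 p.1 p.2)
  -- neighbourhoods in the L w
  choose V hV1 hV2 using fun st : Fin (Module.finrank ℚ F) × Fin (Module.finrank ℚ F) =>
    htr (β st.1 * β st.2) U hU0
  set V' : ∀ w, Set (L w) := fun w => ⋂ st, V st w with hV'
  have hV'0 : ∀ w, V' w ∈ 𝓝 (0 : L w) := fun w => Filter.iInter_mem.2 fun st => hV1 st w
  have key : ∀ E : Matrix (Fin 3) (Fin 3) F, (A1 + E).IsSymm →
      (∀ w i j, φ w (E i j) ∈ V' w) →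
      ((GT (A1 + E)).map (Rat.castHom K)).det ≠ 0 ∧
        hM K ((GT (A1 + E)).map (Rat.castHom K)) = hM K G1 := by
    intro E hE hsmall
    have hs : ((GT (A1 + E)).map (Rat.castHom K)).IsSymm := by
      rw [Matrix.IsSymm, ← Matrix.transpose_map, ((hTRC F (A1 + E)).1 hE).eq]
    refine hO2 _ (fun x y => ?_) hs
    have h1 : Algebra.trace ℚ F (β x.2 * ((A1 + E) x.1 y.1 * β y.2)) =
        Algebra.trace ℚ F (β x.2 * (A1 x.1 y.1 * β y.2)) +
          Algebra.trace ℚ F (β x.2 * β y.2 * E x.1 y.1) := by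
      rw [← map_add]
      congr 1
      rw [Matrix.add_apply]
      ring
    have h2 : ((GT (A1 + E)).map (Rat.castHom K)) x y =
        G1 x y + ((Algebra.trace ℚ F (β x.2 * β y.2 * E x.1 y.1) : ℚ) : K) := by
      show ((Algebra.trace ℚ F (β x.2 * ((A1 + E) x.1 y.1 * β y.2)) : ℚ) : K) = _
      rw [h1, Rat.cast_add]
      rfl
    rw [h2]
    have h3 := hV2 (x.2, y.2) (E x.1 y.1) (fun w => Set.mem_iInter.1 (hsmall w x.1 y.1) (x.2, y.2))
    exact Set.mem_iInter.1 h3 (x, y)
  -- approximation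
  have hw : ∀ w, ∃ O : Fin 3 → Fin 3 → Set (L w), (∀ i j, O i j ∈ 𝓝 (P w i j)) ∧
      ∀ X : Matrix (Fin 3) (Fin 3) (L w), (∀ i j, X i j ∈ O i j) →
        ∀ i j, (Xᵀ * A.map (φ w) * X - A1.map (φ w)) i j ∈ V' w := by
    intro w
    have hcont : ∀ i j : Fin 3, Continuous fun X : Matrix (Fin 3) (Fin 3) (L w) =>
        (Xᵀ * A.map (φ w) * X - A1.map (φ w)) i j := by
      intro i j
      exact ((((continuous_id.matrix_transpose).matrix_mul continuous_const).matrix_mul
        continuous_id).sub continuous_const).matrix_elem i j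
    have hev : ∀ᶠ X in 𝓝 (P w), ∀ i j,
        (Xᵀ * A.map (φ w) * X - A1.map (φ w)) i j ∈ V' w := by
      rw [Filter.eventually_all]
      intro i
      rw [Filter.eventually_all]
      intro j
      refine (hcont i j).tendsto (P w) ?_
      rw [hP w, sub_self, Matrix.zero_apply]
      exact hV'0 w
    exact box_matrix (P w) hev
  choose Q hQ1 hQ2 using hw
  have happ : ∀ i j : Fin 3, ∃ x : F, ∀ w, φ w x ∈ Q w i j := by
    intro i j
    have hN : Set.pi Set.univ (fun w => Q w i j) ∈ 𝓝 (fun w => P w i j) :=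
      set_pi_mem_nhds Set.finite_univ fun w _ => hQ1 w i j
    obtain ⟨y, hy1, x, hx⟩ := mem_closure_iff_nhds.1 (hdense fun w => P w i j) _ hN
    refine ⟨x, fun w => ?_⟩
    have h1 := hy1 w (Set.mem_univ w)
    rw [← hx] at h1
    exact h1
  choose X hX using happ
  set Y : Matrix (Fin 3) (Fin 3) F := Matrix.of X with hY
  set E := Yᵀ * A * Y - A1 with hE
  have hAE : A1 + E = Yᵀ * A * Y := by
    rw [hE]
    abel
  have hsymm : (A1 + E).IsSymm := by
    rw [hAE, Matrix.IsSymm, transpose_mul, transpose_mul, transpose_transpose, hA.eq,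
      Matrix.mul_assoc]
  have hsmall : ∀ w i j, φ w (E i j) ∈ V' w := by
    intro w i j
    have h1 := hQ2 w (Y.map (φ w)) (fun i j => hX i j w) i j
    have h2 : φ w (E i j) = ((Y.map (φ w))ᵀ * A.map (φ w) * Y.map (φ w) - A1.map (φ w)) i j := by
      have e1 : (Y.map (φ w))ᵀ * A.map (φ w) * Y.map (φ w) = (Yᵀ * A * Y).map (φ w) := by
        rw [Matrix.map_mul, Matrix.map_mul, Matrix.transpose_map]
      rw [e1]
      show φ w ((Yᵀ * A * Y - A1) i j) = φ w ((Yᵀ * A * Y) i j) - φ w (A1 i j)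
      rw [← map_sub]
      rfl
    rw [h2]
    exact h1
  obtain ⟨hd2, hM2⟩ := key E hsymm hsmall
  rw [hAE] at hd2 hM2
  obtain ⟨R, -, hR⟩ := (hTRC F A).2.2 Y
  have hmapR : (GT (Yᵀ * A * Y)).map (Rat.castHom K) =
      (R.map (Rat.castHom K))ᵀ * (GT A).map (Rat.castHom K) * R.map (Rat.castHom K) := by
    rw [hR, Matrix.map_mul, Matrix.map_mul, Matrix.transpose_map]
  have hRd : (R.map (Rat.castHom K)).det ≠ 0 := by
    intro h0
    apply hd2
    rw [hmapR, det_mul, h0, mul_zero]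
  rw [hmapR, GLPM.hM_congr hRd] at hM2
  exact hM2

end Pool.Agent.Lib.MP_8cb858_nt.PF.RF
end

section
/-!
# PER: the Hasse invariant is locally constant
-/
namespace Pool.Agent.Lib.MP_8cb858_nt.PF.RF

open Matrix Topology

namespace PERM

variable {K : Type*} [Field K]

/-- the Schur complement -/
def sch {n : ℕ} (G : Matrix (Fin (n + 1)) (Fin (n + 1)) K) : Matrix (Fin n) (Fin n) K :=
  fun i j => G i.succ j.succ - G i.succ 0 * G 0 j.succ / G 0 0

/-- the bordered matrix -/
def bord {n : ℕ} (G : Matrix (Fin (n + 1)) (Fin (n + 1)) K) (P' : Matrix (Fin n) (Fin n) K) :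
    Matrix (Fin (n + 1)) (Fin (n + 1)) K :=
  fun i j => Fin.cases (Fin.cases 1 (fun j => -(∑ k, G 0 k.succ * P' k j) / G 0 0) j)
    (fun i => Fin.cases 0 (fun j => P' i j) j) i

lemma bord00 {n : ℕ} (G : Matrix (Fin (n + 1)) (Fin (n + 1)) K) (P' : Matrix (Fin n) (Fin n) K) :
    bord G P' 0 0 = 1 := rfl

lemma bord0s {n : ℕ} (G : Matrix (Fin (n + 1)) (Fin (n + 1)) K) (P' : Matrix (Fin n) (Fin n) K)
    (j : Fin n) : bord G P' 0 j.succ = -(∑ k, G 0 k.succ * P' k j) / G 0 0 := rfl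

lemma bords0 {n : ℕ} (G : Matrix (Fin (n + 1)) (Fin (n + 1)) K) (P' : Matrix (Fin n) (Fin n) K)
    (i : Fin n) : bord G P' i.succ 0 = 0 := rfl

lemma bordss {n : ℕ} (G : Matrix (Fin (n + 1)) (Fin (n + 1)) K) (P' : Matrix (Fin n) (Fin n) K)
    (i j : Fin n) : bord G P' i.succ j.succ = P' i j := rfl

lemma bord_det {n : ℕ} (G : Matrix (Fin (n + 1)) (Fin (n + 1)) K)
    (P' : Matrix (Fin n) (Fin n) K) : (bord G P').det = P'.det := by
  rw [Matrix.det_succ_column_zero, Fin.sum_univ_succ]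
  simp only [bord00, bords0, mul_zero, zero_mul, Finset.sum_const_zero, add_zero, Fin.val_zero,
    pow_zero, one_mul]
  congr 1

lemma bord_mul {n : ℕ} (G : Matrix (Fin (n + 1)) (Fin (n + 1)) K) (hg : G 0 0 ≠ 0)
    (hG : G.IsSymm) (P' : Matrix (Fin n) (Fin n) K) (d : Fin n → K)
    (hP : P'ᵀ * sch G * P' = diagonal d) :
    (bord G P')ᵀ * G * bord G P' = diagonal (Fin.cons (G 0 0) d : Fin (n + 1) → K) := by
  have h00 : (G * bord G P') 0 0 = G 0 0 := by
    rw [Matrix.mul_apply, Fin.sum_univ_succ]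
    simp only [bord00, bords0]
    simp
  have h0s : ∀ b : Fin n, (G * bord G P') 0 b.succ = 0 := by
    intro b
    rw [Matrix.mul_apply, Fin.sum_univ_succ]
    simp only [bord0s, bordss]
    field_simp
    ring
  have hs0 : ∀ a : Fin n, (G * bord G P') a.succ 0 = G a.succ 0 := by
    intro a
    rw [Matrix.mul_apply, Fin.sum_univ_succ]
    simp only [bord00, bords0]
    simp
  have hss : ∀ a b : Fin n, (G * bord G P') a.succ b.succ = (sch G * P') a b := by
    intro a b
    rw [Matrix.mul_apply, Fin.sum_univ_succ, Matrix.mul_apply]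
    simp only [bord0s, bordss, sch]
    simp only [sub_mul, Finset.sum_sub_distrib]
    have : ∑ x, G a.succ 0 * G 0 x.succ / G 0 0 * P' x b =
        G a.succ 0 * (∑ x, G 0 x.succ * P' x b) / G 0 0 := by
      rw [Finset.mul_sum, Finset.sum_div]
      exact Finset.sum_congr rfl fun x _ => by ring
    rw [this]
    ring
  rw [Matrix.mul_assoc] at hP ⊢
  ext a b
  rw [Matrix.mul_apply, Fin.sum_univ_succ]
  refine Fin.cases ?_ (fun a => ?_) a <;> refine Fin.cases ?_ (fun b => ?_) b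
  · simp only [Matrix.transpose_apply, bord00, bords0, h00]
    simp
  · simp only [Matrix.transpose_apply, bord00, bords0, h0s]
    rw [Matrix.diagonal_apply_ne _ (Fin.succ_ne_zero b).symm]
    simp
  · simp only [Matrix.transpose_apply, bord0s, bordss, h00, hs0]
    rw [Matrix.diagonal_apply_ne _ (Fin.succ_ne_zero a)]
    have : ∀ x : Fin n, G x.succ 0 = G 0 x.succ := fun x => hG.apply 0 x.succ
    simp only [this]
    have e : ∑ x, P' x a * G 0 x.succ = ∑ x, G 0 x.succ * P' x a :=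
      Finset.sum_congr rfl fun x _ => mul_comm _ _
    rw [e]
    field_simp
    ring
  · simp only [Matrix.transpose_apply, bord0s, bordss, h0s, hss, mul_zero, zero_add]
    have h := congrFun (congrFun hP a) b
    rw [Matrix.mul_apply] at h
    simp only [Matrix.transpose_apply] at h
    rw [h]
    by_cases hab : a = b
    · subst hab; simp
    · rw [Matrix.diagonal_apply_ne _ hab,
        Matrix.diagonal_apply_ne _ (fun h => hab (Fin.succ_injective _ h))]

lemma sch_symm {n : ℕ} (G : Matrix (Fin (n + 1)) (Fin (n + 1)) K) (hG : G.IsSymm) :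
    (sch G).IsSymm := by
  refine Matrix.IsSymm.ext fun i j => ?_
  unfold sch
  rw [hG.apply j.succ i.succ |>.symm, hG.apply j.succ 0 |>.symm, hG.apply 0 i.succ |>.symm]
  ring

section top
variable [TopologicalSpace K] [IsTopologicalDivisionRing K] [T2Space K]

lemma near_fin (hsq : ∀ᶠ x in 𝓝 (1 : K), IsSquare x) : ∀ (n : ℕ) (d : Fin n → K),
    (∀ i, d i ≠ 0) → ∀ᶠ G in 𝓝 (diagonal d), G.IsSymm →
      ∃ d' s : Fin n → K, Diag G d' ∧ ∀ i, s i ≠ 0 ∧ d' i = d i * s i ^ 2 := by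
  intro n
  induction n with
  | zero =>
    intro d _
    refine Filter.Eventually.of_forall fun G _ => ⟨Fin.elim0, Fin.elim0,
      ⟨fun i => i.elim0, 1, by simp, ?_⟩, fun i => i.elim0⟩
    ext i
    exact i.elim0
  | succ n ih =>
    intro d hd
    have hc : ∀ i j, Filter.Tendsto (fun G : Matrix (Fin (n + 1)) (Fin (n + 1)) K => G i j)
        (𝓝 (diagonal d)) (𝓝 (diagonal d i j)) := fun i j =>
      (continuous_id.matrix_elem i j).continuousAt
    have h00 : (diagonal d) 0 0 = d 0 := diagonal_apply_eq _ _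
    have hc0 := hc 0 0
    rw [h00] at hc0
    have h1 : ∀ᶠ G in 𝓝 (diagonal d), G 0 0 ≠ 0 := hc0.eventually_ne (hd 0)
    have h2 : ∀ᶠ G in 𝓝 (diagonal d), IsSquare (G 0 0 / d 0) := by
      have : Filter.Tendsto (fun G : Matrix (Fin (n + 1)) (Fin (n + 1)) K => G 0 0 / d 0)
          (𝓝 (diagonal d)) (𝓝 1) := by
        have := hc0.div_const (d 0)
        rwa [div_self (hd 0)] at this
      exact this.eventually hsq
    have h3 : Filter.Tendsto (fun G : Matrix (Fin (n + 1)) (Fin (n + 1)) K => sch G)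
        (𝓝 (diagonal d)) (𝓝 (diagonal fun i => d i.succ)) := by
      refine tendsto_pi_nhds.2 fun i => tendsto_pi_nhds.2 fun j => ?_
      have e : (diagonal fun i : Fin n => d i.succ) i j =
          (diagonal d) i.succ j.succ - (diagonal d) i.succ 0 * (diagonal d) 0 j.succ / d 0 := by
        rw [Matrix.diagonal_apply_ne _ (Fin.succ_ne_zero i)]
        by_cases hij : i = j
        · subst hij; simp
        · rw [Matrix.diagonal_apply_ne _ hij,
            Matrix.diagonal_apply_ne _ (fun h => hij (Fin.succ_injective _ h))]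
          simp
      rw [e]
      exact (hc i.succ j.succ).sub (((hc i.succ 0).mul (hc 0 j.succ)).div hc0 (hd 0))
    have h4 := h3.eventually (ih (fun i => d i.succ) fun i => hd i.succ)
    filter_upwards [h1, h2, h4] with G g1 g2 g4 hG
    obtain ⟨d'', s'', ⟨k1, P', k2, k3⟩, k4⟩ := g4 (sch_symm G hG)
    obtain ⟨r, hr⟩ := g2
    have hr0 : r ≠ 0 := by
      rintro rfl
      rw [mul_zero, div_eq_zero_iff] at hr
      rcases hr with h | h
      · exact g1 h
      · exact hd 0 h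
    refine ⟨Fin.cons (G 0 0) d'', Fin.cons r s'', ⟨?_, bord G P', ?_, bord_mul G g1 hG P' d'' k3⟩,
      ?_⟩
    · intro i
      refine Fin.cases ?_ (fun i => ?_) i
      · simpa using g1
      · simpa using k1 i
    · rw [bord_det]; exact k2
    · intro i
      refine Fin.cases ?_ (fun i => ?_) i
      · refine ⟨by simpa using hr0, ?_⟩
        simp only [Fin.cons_zero]
        have := hd 0
        field_simp at hr
        linear_combination hr
      · simpa using k4 i

lemma near_gen (hsq : ∀ᶠ x in 𝓝 (1 : K), IsSquare x) {ι : Type*} [Fintype ι] [DecidableEq ι]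
    (d : ι → K) (hd : ∀ i, d i ≠ 0) : ∀ᶠ G in 𝓝 (diagonal d), G.IsSymm →
      ∃ d' s : ι → K, Diag G d' ∧ ∀ i, s i ≠ 0 ∧ d' i = d i * s i ^ 2 := by
  set e := Fintype.equivFin ι
  have hc : Filter.Tendsto (fun G : Matrix ι ι K => G.submatrix e.symm e.symm)
      (𝓝 (diagonal d)) (𝓝 (diagonal (d ∘ e.symm))) := by
    have : Continuous (fun G : Matrix ι ι K => G.submatrix e.symm e.symm) :=
      continuous_id.matrix_submatrix _ _
    have h := this.tendsto (diagonal d)
    rwa [Matrix.submatrix_diagonal _ _ e.symm.injective] at h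
  filter_upwards [hc.eventually (near_fin hsq _ (d ∘ e.symm) fun i => hd _)] with G hG hs
  obtain ⟨d', s, ⟨k1, P, k2, k3⟩, k4⟩ := hG (hs.submatrix _)
  refine ⟨d' ∘ e, s ∘ e, ⟨fun i => k1 _, P.submatrix e e, ?_, ?_⟩, fun i => ?_⟩
  · rwa [Matrix.det_submatrix_equiv_self]
  · have h := congrArg (fun M => Matrix.submatrix M e e) k3
    rw [Matrix.submatrix_diagonal _ _ e.injective] at h
    rw [← h, ← Matrix.submatrix_mul_equiv _ _ _ e, ← Matrix.submatrix_mul_equiv _ _ _ e,
      Matrix.submatrix_submatrix]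
    simp [Matrix.transpose_submatrix]
  · have := k4 (e i)
    simpa using this

end top

lemma det_ne {ι : Type*} [Fintype ι] [DecidableEq ι] {G : Matrix ι ι K} {d : ι → K}
    (h : Diag G d) : G.det ≠ 0 := by
  obtain ⟨h1, P, h2, h3⟩ := h
  intro h0
  have h4 := congrArg det h3
  rw [det_mul, det_mul, h0, mul_zero, zero_mul, det_diagonal] at h4
  exact Finset.prod_ne_zero_iff.2 (fun i _ => h1 i) h4.symm

end PERM

open PERM

theorem specPER (hDIA : SpecDIA) (hHAS : SpecHAS) (hHLP : SpecHLP) : SpecPER := by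
  intro K _ _ _ _ _ hbi hsq ι _ _ G1 hs1 hd1
  obtain ⟨d, hd⟩ := hDIA K ι G1 hs1 hd1
  obtain ⟨k1, P1, k2, k3⟩ := id hd
  have hc : Filter.Tendsto (fun G : Matrix ι ι K => P1ᵀ * G * P1) (𝓝 G1) (𝓝 (diagonal d)) := by
    have : Continuous (fun G : Matrix ι ι K => P1ᵀ * G * P1) :=
      (continuous_const.matrix_mul continuous_id).matrix_mul continuous_const
    have h := this.tendsto G1
    rwa [k3] at h
  filter_upwards [hc.eventually (near_gen hsq d k1)] with G hG hs
  obtain ⟨d', s, ⟨j1, P, j2, j3⟩, j4⟩ := hG (by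
    unfold Matrix.IsSymm
    rw [Matrix.transpose_mul, Matrix.transpose_mul, Matrix.transpose_transpose, hs.eq,
      Matrix.mul_assoc])
  have hdG : Diag G d' := by
    refine ⟨j1, P1 * P, by rw [det_mul]; exact mul_ne_zero k2 j2, ?_⟩
    rw [← j3, Matrix.transpose_mul]
    simp only [Matrix.mul_assoc]
  refine ⟨det_ne hdG, ?_⟩
  rw [hHAS K hbi ι G d' hdG, hHAS K hbi ι G1 d hd]
  have h5 := (hHLP K hbi).2.2 ι d s k1 (fun i => (j4 i).1)
  rw [← h5]
  congr 1
  funext i
  exact (j4 i).2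

end Pool.Agent.Lib.MP_8cb858_nt.PF.RF
end

section
/-!
# SQN: squares near 1
-/
namespace Pool.Agent.Lib.MP_8cb858_nt.PF.RF

open Topology

namespace SQNM

variable {p : ℕ} [Fact p.Prime]

/-- Hensel for `X^2 - n` at `1` -/
lemma hensel_one {n : ℤ_[p]} (h : ‖n - 1‖ < ‖(2 : ℤ_[p])‖ ^ 2) : ∃ s : ℤ_[p], s ^ 2 = n := by
  obtain ⟨s, hs, -⟩ := hensels_lemma (p := p) (R := ℤ_[p])
    (F := Polynomial.X ^ 2 - Polynomial.C n) (a := 1) (by
      have e1 : (Polynomial.aeval (1 : ℤ_[p])) (Polynomial.X ^ 2 - Polynomial.C n) =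
          -(n - 1) := by
        simp
      have e2 : (Polynomial.aeval (1 : ℤ_[p]))
          (Polynomial.derivative (Polynomial.X ^ 2 - Polynomial.C n)) = 2 := by
        simp
        norm_num
      rw [e1, e2, norm_neg]
      exact h)
  refine ⟨s, ?_⟩
  simp at hs
  linear_combination hs

end SQNM

/-- **SQN.** -/
theorem specSQN : SpecSQN := by
  constructor
  · intro p _
    have h2 : (0 : ℝ) < ‖(2 : ℤ_[p])‖ ^ 2 := by
      have : (2 : ℤ_[p]) ≠ 0 := two_ne_zero
      positivity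
    have hU : Metric.ball (1 : ℚ_[p]) (min 1 (‖(2 : ℤ_[p])‖ ^ 2)) ∈ 𝓝 (1 : ℚ_[p]) :=
      Metric.ball_mem_nhds _ (lt_min one_pos h2)
    filter_upwards [hU] with x hx
    rw [Metric.mem_ball, dist_eq_norm] at hx
    have hx1 : ‖x - 1‖ < 1 := lt_of_lt_of_le hx (min_le_left _ _)
    have hx2 : ‖x - 1‖ < ‖(2 : ℤ_[p])‖ ^ 2 := lt_of_lt_of_le hx (min_le_right _ _)
    have hxn : ‖x‖ ≤ 1 := by
      have e : x = (x - 1) + 1 := by ring
      rw [e]
      refine (Padic.nonarchimedean _ _).trans (max_le hx1.le ?_)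
      rw [norm_one]
    set n : ℤ_[p] := ⟨x, hxn⟩ with hn
    obtain ⟨s, hs⟩ := SQNM.hensel_one (p := p) (n := n) (by
      have : ‖n - 1‖ = ‖x - 1‖ := by
        rw [PadicInt.norm_def, PadicInt.coe_sub, PadicInt.coe_one]
      rw [this]
      exact hx2)
    refine ⟨(s : ℚ_[p]), ?_⟩
    have h5 := congrArg (fun t : ℤ_[p] => (t : ℚ_[p])) hs
    simp only [PadicInt.coe_pow] at h5
    rw [← sq, h5]
  · filter_upwards [lt_mem_nhds (zero_lt_one : (0 : ℝ) < 1)] with x hx
    exact ⟨Real.sqrt x, (Real.mul_self_sqrt hx.le).symm⟩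

end Pool.Agent.Lib.MP_8cb858_nt.PF.RF
end

section
/-! Block REC_F, module TRF (helper14): the trace is continuous at a prime. -/
namespace Pool.Agent.Lib.MP_8cb858_nt.PF.RF

open NumberField IsDedekindDomain

universe u

namespace TRFM

variable {F : Type u} [Field F] [NumberField F] {p : ℕ} [hp : Fact p.Prime]

theorem val_nat_le (w : HeightOneSpectrum (𝓞 F)) (n : ℕ) : w.valuation F (n : F) ≤ 1 := by
  have e : algebraMap (𝓞 F) F (n : 𝓞 F) = (n : F) := map_natCast _ n
  rw [← e]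
  exact w.valuation_le_one (K := F) ((n : ℕ) : 𝓞 F)

theorem val_nat_eq (w : HeightOneSpectrum (𝓞 F)) {n : ℕ} (h : (n : 𝓞 F) ∉ w.asIdeal) :
    w.valuation F (n : F) = 1 := by
  have := (w.valuation_eq_one_iff_notMem (K := F)).2 h
  rwa [map_natCast] at this

omit [NumberField F] in
theorem notMem (w : HeightOneSpectrum (𝓞 F)) (hw : (p : 𝓞 F) ∈ w.asIdeal) {n : ℕ} (h : ¬ p ∣ n) :
    (n : 𝓞 F) ∉ w.asIdeal := by
  intro hn
  have hc : IsCoprime (p : ℤ) (n : ℤ) := Nat.isCoprime_iff_coprime.2 ((Nat.Prime.coprime_iff_not_dvd hp.out).2 h)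
  obtain ⟨a, b, hab⟩ := hc
  have h1 : (1 : 𝓞 F) ∈ w.asIdeal := by
    have e : (1 : 𝓞 F) = (a : 𝓞 F) * (p : 𝓞 F) + (b : 𝓞 F) * (n : 𝓞 F) := by
      have := congrArg (Int.cast : ℤ → 𝓞 F) hab
      push_cast at this
      exact this.symm
    rw [e]
    exact w.asIdeal.add_mem (w.asIdeal.mul_mem_left _ hw) (w.asIdeal.mul_mem_left _ hn)
  exact w.isPrime.ne_top ((Ideal.eq_top_iff_one _).2 h1)

/-- every element has an integral multiple, the multiplier being a positive integer -/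
theorem exists_mul (u : F) : ∃ d : ℕ, d ≠ 0 ∧ IsIntegral ℤ ((d : F) * u) := by
  have h1 : IsAlgebraic ℤ u := by
    have : IsAlgebraic ℚ u := Algebra.IsAlgebraic.isAlgebraic u
    exact (IsFractionRing.isAlgebraic_iff ℤ ℚ F).2 this
  obtain ⟨y, hy, hi⟩ := h1.exists_integral_multiple
  refine ⟨y.natAbs, Int.natAbs_ne_zero.2 hy, ?_⟩
  rw [zsmul_eq_mul] at hi
  rcases Int.natAbs_eq y with h | h
  · rw [h, Int.cast_natCast] at hi
    exact hi
  · rw [h, Int.cast_neg, Int.cast_natCast, neg_mul] at hi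
    have := hi.neg
    rwa [neg_neg] at this

variable (p) in
/-- a `p`-integral element times an integer prime to `p` is integral -/
theorem exists_prime_mul {u : F} (hu : ∀ w : HeightOneSpectrum (𝓞 F), (p : 𝓞 F) ∈ w.asIdeal →
    w.valuation F u ≤ 1) : ∃ (d : ℕ) (z : 𝓞 F), ¬ p ∣ d ∧ (z : F) = (d : F) * u := by
  obtain ⟨d, hd, hi⟩ := exists_mul u
  obtain ⟨e, d', hd', rfl⟩ := Nat.exists_eq_pow_mul_and_not_dvd hd p hp.out.ne_one
  have hmem : (d' : F) * u ∈ (algebraMap (𝓞 F) F).range := by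
    refine HeightOneSpectrum.mem_integers_of_valuation_le_one F _ fun w => ?_
    by_cases hw : (p : 𝓞 F) ∈ w.asIdeal
    · rw [map_mul]
      exact mul_le_one' (val_nat_le w d') (hu w hw)
    · have h1 : w.valuation F (((p ^ e * d' : ℕ) : F) * u) ≤ 1 :=
        w.valuation_le_one (K := F) (⟨_, hi⟩ : 𝓞 F)
      rw [Nat.cast_mul, Nat.cast_pow, mul_assoc, map_mul, map_pow, val_nat_eq w hw, one_pow, one_mul] at h1
      exact h1
  obtain ⟨z, hz⟩ := hmem
  exact ⟨d', z, hd', hz⟩

variable (p) in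
theorem norm_trace {y : F} (k : ℕ) (hy : ∀ w : HeightOneSpectrum (𝓞 F), (p : 𝓞 F) ∈ w.asIdeal →
    w.valuation F y ≤ w.valuation F ((p : F) ^ k)) :
    ‖((Algebra.trace ℚ F y : ℚ) : ℚ_[p])‖ ≤ (p : ℝ) ^ (-(k : ℤ)) := by
  have hpF : (p : F) ≠ 0 := Nat.cast_ne_zero.2 hp.out.ne_zero
  have hpk : (p : F) ^ k ≠ 0 := pow_ne_zero _ hpF
  obtain ⟨d, z, hd, hz⟩ := exists_prime_mul p (u := y / (p : F) ^ k) (fun w hw => by
    have h0 : w.valuation F ((p : F) ^ k) ≠ 0 := (Valuation.ne_zero_iff _).2 hpk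
    rw [map_div₀]
    exact div_le_one_of_le₀ (hy w hw) zero_le)
  have h1 : (d : ℚ) • y = ((p : ℚ) ^ k) • (z : F) := by
    rw [hz, Algebra.smul_def, Algebra.smul_def, map_natCast, map_pow, map_natCast]
    field_simp
  have h2 := congrArg (Algebra.trace ℚ F) h1
  rw [map_smul, map_smul, smul_eq_mul, smul_eq_mul, ← Algebra.coe_trace_int] at h2
  have h3 := congrArg (fun q : ℚ => (q : ℚ_[p])) h2
  simp only [Rat.cast_mul, Rat.cast_natCast, Rat.cast_pow, Rat.cast_intCast] at h3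
  have h4 := congrArg norm h3
  rw [norm_mul, norm_mul, (Padic.norm_natCast_eq_one_iff).2
    ((Nat.Prime.coprime_iff_not_dvd hp.out).2 hd), one_mul, Padic.norm_p_pow] at h4
  rw [h4]
  exact mul_le_of_le_one_right (by positivity) (Padic.norm_int_le_one _)

end TRFM

open TRFM in
theorem specTRF : SpecTRF.{u} := by
  intro F _ _ p hp c N
  obtain ⟨d, hd, hi⟩ := exists_mul c
  obtain ⟨e, d', hd', rfl⟩ := Nat.exists_eq_pow_mul_and_not_dvd hd p hp.out.ne_one
  refine ⟨N + e, fun x hx => norm_trace p N fun w hw => ?_⟩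
  have h1 : w.valuation F (((p ^ e * d' : ℕ) : F) * c) ≤ 1 := w.valuation_le_one (K := F) (⟨_, hi⟩ : 𝓞 F)
  rw [Nat.cast_mul, Nat.cast_pow, map_mul, map_mul, val_nat_eq w (notMem w hw hd'), mul_one] at h1
  have h2 := hx w hw
  rw [pow_add, map_mul] at h2
  rw [map_mul]
  calc w.valuation F c * w.valuation F x
      ≤ w.valuation F c * (w.valuation F ((p : F) ^ N) * w.valuation F ((p : F) ^ e)) :=
        mul_le_mul_right h2 _
    _ = w.valuation F ((p : F) ^ N) * (w.valuation F ((p : F) ^ e) * w.valuation F c) := by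
        ac_rfl
    _ ≤ w.valuation F ((p : F) ^ N) * 1 := mul_le_mul_right h1 _
    _ = _ := mul_one _

end Pool.Agent.Lib.MP_8cb858_nt.PF.RF
end

section
/-!
# TRI: the trace is continuous at infinity
-/
namespace Pool.Agent.Lib.MP_8cb858_nt.PF.RF

open NumberField

/-- **TRI.** -/
theorem specTRI : SpecTRI := by
  intro F _ _ c ε hε
  -- a bound for all absolute values of `c`
  set C : ℝ := ∑ σ : F →+* ℂ, ‖σ c‖ with hC
  have hC0 : 0 ≤ C := Finset.sum_nonneg fun σ _ => norm_nonneg _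
  refine ⟨ε / (C + 1), by positivity, ?_⟩
  intro x hx
  have hb : ∀ σ : F →+* ℂ, ‖σ x‖ < ε / (C + 1) := by
    intro σ
    have := hx (InfinitePlace.mk σ)
    rwa [InfinitePlace.apply] at this
  have htr : ((Algebra.trace ℚ F (c * x) : ℚ) : ℂ) = ∑ σ : F →+* ℂ, σ (c * x) := by
    have h := trace_eq_sum_embeddings (K := ℚ) (L := F) ℂ (x := c * x)
    rw [eq_ratCast] at h
    rw [h]
    exact Fintype.sum_equiv (RingHom.equivRatAlgHom (R := F) (S := ℂ)).symm _ _ (fun σ => rfl)
  have hn : |((Algebra.trace ℚ F (c * x) : ℚ) : ℝ)| = ‖((Algebra.trace ℚ F (c * x) : ℚ) : ℂ)‖ := by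
    rw [← Complex.ofReal_ratCast, Complex.norm_real, Real.norm_eq_abs]
  rw [hn, htr]
  calc ‖∑ σ : F →+* ℂ, σ (c * x)‖ ≤ ∑ σ : F →+* ℂ, ‖σ (c * x)‖ := norm_sum_le _ _
    _ = ∑ σ : F →+* ℂ, ‖σ c‖ * ‖σ x‖ := by
        refine Finset.sum_congr rfl fun σ _ => ?_
        rw [map_mul, norm_mul]
    _ ≤ ∑ σ : F →+* ℂ, ‖σ c‖ * (ε / (C + 1)) :=
        Finset.sum_le_sum fun σ _ => mul_le_mul_of_nonneg_left (hb σ).le (norm_nonneg _)
    _ = C * (ε / (C + 1)) := by rw [← Finset.sum_mul]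
    _ < ε := by
        rw [mul_div_assoc', div_lt_iff₀ (by positivity)]
        nlinarith

end Pool.Agent.Lib.MP_8cb858_nt.PF.RF
end
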