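import Pool.Agent.Lib.MP_8cb858_nt.PF.RF.TRC
import Pool.Agent.Lib.MP_8cb858_nt.PF.RF.TRI

/-!
# PRJ: the projection formula for the trace form
-/

namespace Pool.Agent.Lib.MP_8cb858_nt.PF.RF

open Matrix NumberField

universe u

namespace PRJM

/-! ## Lists of pairs -/

section list

variable {K : Type} [Field K]

/-- the concatenation of the pairs `d, -(b d)` -/
def pl (b : K) (l : List K) : List K := l.flatMap (fun d => [d, -(b * d)])

lemma pl_cons (b d : K) (l : List K) : pl b (d :: l) = d :: -(b * d) :: pl b l := rfl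

lemma pl_ne {b : K} (hb : b ≠ 0) {l : List K} (h : ∀ x ∈ l, x ≠ 0) : ∀ x ∈ pl b l, x ≠ 0 := by
  intro x hx
  unfold pl at hx
  rw [List.mem_flatMap] at hx
  obtain ⟨d, hd, hx⟩ := hx
  simp only [List.mem_cons, List.not_mem_nil, or_false] at hx
  rcases hx with rfl | rfl
  · exact h _ hd
  · exact neg_ne_zero.2 (mul_ne_zero hb (h _ hd))

lemma prod_ne {l : List K} (h : ∀ x ∈ l, x ≠ 0) : l.prod ≠ 0 :=
  List.prod_ne_zero (fun h0 => h 0 h0 rfl)

lemma pl_prod (b : K) (l : List K) : (pl b l).prod = (-b) ^ l.length * l.prod ^ 2 := by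
  induction l with
  | nil => simp [pl]
  | cons d l ih =>
    rw [pl_cons, List.prod_cons, List.prod_cons, ih, List.length_cons, List.prod_cons, pow_succ]
    ring

/-- the constant -/
noncomputable def kap (b : K) : ℕ → ℤ
  | 0 => 1
  | m + 1 => hs K (-b) ((-b) ^ m) * kap b m

lemma hl_pl (hB : Bi K) {b : K} (hb : b ≠ 0) (l : List K) (h : ∀ x ∈ l, x ≠ 0) :
    hl K (pl b l) = hs K l.prod b * kap b l.length := by
  induction l with
  | nil =>
    show (1 : ℤ) = hs K 1 b * 1
    rw [hs_one_left]; norm_num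
  | cons d l ih =>
    have hd : d ≠ 0 := h d List.mem_cons_self
    have hl' : ∀ x ∈ l, x ≠ 0 := fun x hx => h x (List.mem_cons_of_mem _ hx)
    have hbd : -(b * d) ≠ 0 := neg_ne_zero.2 (mul_ne_zero hb hd)
    have hP : (pl b l).prod ≠ 0 := prod_ne (pl_ne hb hl')
    have hlp := prod_ne hl'
    have hnb : -b ≠ 0 := neg_ne_zero.2 hb
    rw [pl_cons]
    show hs K d (-(b * d) * (pl b l).prod) * (hs K (-(b * d)) (pl b l).prod * hl K (pl b l)) = _
    rw [ih hl', List.prod_cons, List.length_cons]
    show _ = hs K (d * l.prod) b * (hs K (-b) ((-b) ^ l.length) * kap b l.length)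
    rw [hB.right hd hbd hP, hB d l.prod b hd hlp hb]
    have e1 : hs K d (-(b * d)) = hs K d b := by
      have h1 : hs K d (b * -d) = hs K d b * hs K d (-d) :=
        hB.right hd hb (neg_ne_zero.2 hd)
      rw [hs_neg, mul_one] at h1
      rw [← h1]; congr 1; ring
    have e2 : hs K d (pl b l).prod * hs K (-(b * d)) (pl b l).prod =
        hs K (-b) ((-b) ^ l.length) := by
      rw [← hB d (-(b * d)) _ hd hbd hP]
      have : d * -(b * d) = -b * d ^ 2 := by ring
      rw [this, hs_mul_sq hd, pl_prod, hs_mul_sq_right hlp]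
    rw [e1]
    linear_combination (hs K d b * hs K l.prod b * kap b l.length) * e2

lemma phi (hHLP : SpecHLP) (hB : Bi K) {b : K} (hb : b ≠ 0) (l l' Y : List K)
    (h : ∀ x ∈ l, x ≠ 0) (h' : ∀ x ∈ l', x ≠ 0) (hY : ∀ x ∈ Y, x ≠ 0)
    (hlen : l'.length = l.length) :
    hl K (pl b l' ++ Y) = hl K (pl b l ++ Y) * (hs K l'.prod b * hs K l.prod b) := by
  have f := (hHLP K hB).2.1
  have hYp := prod_ne hY
  rw [f _ _ (pl_ne hb h') hY, f _ _ (pl_ne hb h) hY, hl_pl hB hb l h, hl_pl hB hb l' h', pl_prod,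
    pl_prod, hlen, hs_mul_sq (prod_ne h), hs_mul_sq (prod_ne h')]
  have := hs_sq (K := K) l.prod b
  linear_combination (-(hs K l'.prod b * kap b l.length * hl K Y *
    hs K ((-b) ^ l.length) Y.prod)) * this

/-- the Hasse invariant of a family indexed by `Fin 3 × Fin n` -/
lemma hf_prod (hHLP : SpecHLP) (hB : Bi K) {n : ℕ} (b : K) (hb : b ≠ 0) (d y : Fin n → K)
    (hd : ∀ i, d i ≠ 0) (hy : ∀ i, y i ≠ 0) (e : Fin 3 × Fin n → K)
    (h0 : ∀ s, e (0, s) = d s) (h1 : ∀ s, e (1, s) = y s) (h2 : ∀ s, e (2, s) = -(b * d s)) :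
    hf K e = hl K (pl b ((List.finRange n).map d) ++ (List.finRange n).map y) := by
  have hperm : (Finset.univ : Finset (Fin 3 × Fin n)).toList.Perm
      ((List.finRange n).flatMap (fun s => [((0 : Fin 3), s), ((2 : Fin 3), s)]) ++
        (List.finRange n).map (fun s => ((1 : Fin 3), s))) := by
    rw [List.perm_ext_iff_of_nodup (Finset.nodup_toList _)]
    · rintro ⟨i, s⟩
      simp only [Finset.mem_toList, Finset.mem_univ, true_iff, List.mem_append,
        List.mem_flatMap, List.mem_finRange, true_and, List.mem_map, List.mem_cons,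
        List.not_mem_nil, or_false, Prod.mk.injEq]
      fin_cases i
      · exact Or.inl ⟨s, Or.inl ⟨rfl, rfl⟩⟩
      · exact Or.inr ⟨s, rfl, rfl⟩
      · exact Or.inl ⟨s, Or.inr ⟨rfl, rfl⟩⟩
    · rw [List.nodup_append]
      refine ⟨?_, ?_, ?_⟩
      · rw [List.nodup_flatMap]
        refine ⟨fun s _ => by simp, ?_⟩
        refine List.Pairwise.imp ?_ (List.nodup_finRange n)
        intro s t hst
        simp only [Function.onFun, List.disjoint_left, List.mem_cons, List.not_mem_nil, or_false]
        rintro x (rfl | rfl) (h | h)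
        · exact hst (congrArg Prod.snd h)
        · exact hst (congrArg Prod.snd h)
        · exact hst (congrArg Prod.snd h)
        · exact hst (congrArg Prod.snd h)
      · refine (List.nodup_finRange n).map ?_
        intro s t hst
        exact congrArg Prod.snd hst
      · rintro ⟨i, s⟩ hx ⟨j, t⟩ hy
        simp only [List.mem_flatMap, List.mem_finRange, true_and, List.mem_map, List.mem_cons,
          List.not_mem_nil, or_false, Prod.mk.injEq] at hx hy
        obtain ⟨s', h | h⟩ := hx
        · obtain ⟨t', h', -⟩ := hy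
          intro hc
          have := congrArg Prod.fst hc
          simp only at this
          rw [h.1, ← h'] at this
          exact absurd this (by decide)
        · obtain ⟨t', h', -⟩ := hy
          intro hc
          have := congrArg Prod.fst hc
          simp only at this
          rw [h.1, ← h'] at this
          exact absurd this (by decide)
  have he : ∀ x, e x ≠ 0 := by
    rintro ⟨i, s⟩
    fin_cases i
    · exact (h0 s).symm ▸ hd s
    · exact (h1 s).symm ▸ hy s
    · have := h2 s
      show e (2, s) ≠ 0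
      rw [this]
      exact neg_ne_zero.2 (mul_ne_zero hb (hd s))
  unfold hf
  rw [(hHLP K hB).1 _ _ (by
    intro x hx
    obtain ⟨i, -, rfl⟩ := List.mem_map.1 hx
    exact he i) (hperm.map e)]
  congr 1
  rw [List.map_append, List.map_map]
  congr 1
  · unfold pl
    rw [List.map_flatMap, List.flatMap_map]
    congr 1
    funext s
    simp only [List.map_cons, List.map_nil, h0, h2]
  · exact List.map_congr_left fun s _ => h1 s

end list

/-! ## The blocks -/

section block

variable {F : Type u} [Field F] [NumberField F]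

/-- The matrix of `Tr(x y^2)`. -/
noncomputable def T (x : F) :
    Matrix (Fin (Module.finrank ℚ F)) (Fin (Module.finrank ℚ F)) ℚ :=
  fun s t => Algebra.trace ℚ F (Module.finBasis ℚ F s * (x * Module.finBasis ℚ F t))

lemma T_symm (x : F) : (T x).IsSymm := by
  ext s t
  rw [transpose_apply]
  unfold T
  congr 1
  ring

lemma T_det (x : F) : (T x).det = (TRCM.T F).det * Algebra.norm ℚ x := by
  have : T x = TRCM.T F * Algebra.leftMulMatrix (Module.finBasis ℚ F) x := by
    ext s t
    rw [mul_apply, TRCM.trace_mul]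
    rfl
  rw [this, det_mul, Algebra.norm_eq_matrix_det (Module.finBasis ℚ F)]

lemma T_smul (c : ℚ) (x : F) : T ((c : F) * x) = c • T x := by
  ext s t
  rw [Matrix.smul_apply, smul_eq_mul]
  unfold T
  have : Module.finBasis ℚ F s * ((c : F) * x * Module.finBasis ℚ F t) =
      c • (Module.finBasis ℚ F s * (x * Module.finBasis ℚ F t)) := by
    rw [Rat.smul_def]; ring
  rw [this, map_smul, smul_eq_mul]

lemma diag_smul {n : ℕ} {G : Matrix (Fin n) (Fin n) ℚ} {d : Fin n → ℚ} {c : ℚ} (hc : c ≠ 0)
    (h : Diag G d) : Diag (c • G) (fun i => c * d i) := by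
  obtain ⟨hd, P, hP, e⟩ := h
  refine ⟨fun i => mul_ne_zero hc (hd i), P, hP, ?_⟩
  rw [Matrix.mul_smul, Matrix.smul_mul, e]
  ext i j
  by_cases hij : i = j
  · subst hij; simp
  · simp [hij]

lemma diag_prod {n : ℕ} {G : Matrix (Fin n) (Fin n) ℚ} {d : Fin n → ℚ} (h : Diag G d) :
    ∃ r : ℚ, r ≠ 0 ∧ ((List.finRange n).map d).prod = G.det * r ^ 2 := by
  obtain ⟨hd, P, hP, e⟩ := h
  refine ⟨P.det, hP, ?_⟩
  have h1 := congrArg det e
  rw [det_mul, det_mul, det_transpose, det_diagonal] at h1
  have h2 : ((List.finRange n).map d).prod = ∏ i, d i := by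
    rw [← List.prod_ofFn, List.ofFn_eq_map]
  rw [h2, ← h1]; ring

lemma diag_block (v : Fin 3 → F) (c : Fin 3 → Fin (Module.finrank ℚ F) → ℚ)
    (h : ∀ i, Diag (T (v i)) (c i)) :
    Diag (GT (diagonal v)) (fun x => c x.1 x.2) := by
  choose hd P hP e using h
  have hG : GT (diagonal v) = (blockDiagonal (fun i => T (v i))).submatrix Prod.swap Prod.swap := by
    ext ⟨i, s⟩ ⟨j, t⟩
    rw [submatrix_apply]
    simp only [Prod.swap_prod_mk, blockDiagonal_apply]
    unfold GT
    by_cases hij : i = j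
    · subst hij; simp [T]
    · simp [hij]
  refine ⟨fun x => hd x.1 x.2, (blockDiagonal P).submatrix Prod.swap Prod.swap, ?_, ?_⟩
  · have : (blockDiagonal P).submatrix Prod.swap Prod.swap =
        (blockDiagonal P).submatrix (Equiv.prodComm (Fin 3) (Fin (Module.finrank ℚ F)))
          (Equiv.prodComm (Fin 3) (Fin (Module.finrank ℚ F))) := rfl
    rw [this, det_submatrix_equiv_self, det_blockDiagonal]
    exact Finset.prod_ne_zero_iff.2 fun i _ => hP i
  · rw [hG, transpose_submatrix, blockDiagonal_transpose]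
    have e1 : ((blockDiagonal fun i => (P i)ᵀ).submatrix Prod.swap Prod.swap) *
        ((blockDiagonal fun i => T (v i)).submatrix Prod.swap Prod.swap) *
        ((blockDiagonal P).submatrix Prod.swap Prod.swap) =
        (blockDiagonal (fun i => (P i)ᵀ * T (v i) * P i)).submatrix Prod.swap
          (Prod.swap : Fin 3 × Fin (Module.finrank ℚ F) → _) := by
      have := submatrix_mul_equiv (blockDiagonal fun i => (P i)ᵀ)
        (blockDiagonal fun i => T (v i)) (Prod.swap : Fin 3 × Fin (Module.finrank ℚ F) → _)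
        (Equiv.prodComm (Fin 3) (Fin (Module.finrank ℚ F)))
        (Prod.swap : Fin 3 × Fin (Module.finrank ℚ F) → _)
      have h2 := submatrix_mul_equiv (blockDiagonal (fun i => (P i)ᵀ) *
        blockDiagonal (fun i => T (v i))) (blockDiagonal P)
        (Prod.swap : Fin 3 × Fin (Module.finrank ℚ F) → _)
        (Equiv.prodComm (Fin 3) (Fin (Module.finrank ℚ F)))
        (Prod.swap : Fin 3 × Fin (Module.finrank ℚ F) → _)
      rw [blockDiagonal_mul, blockDiagonal_mul]
      refine Eq.trans ?_ h2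
      exact congrArg (fun M => M * (blockDiagonal P).submatrix
        (Equiv.prodComm (Fin 3) (Fin (Module.finrank ℚ F))) Prod.swap) this
    rw [e1]
    have e2 : (fun i => (P i)ᵀ * T (v i) * P i) = fun i => diagonal (c i) := funext e
    rw [e2, blockDiagonal_diagonal]
    ext ⟨i, s⟩ ⟨j, t⟩
    rw [submatrix_apply]
    simp only [Prod.swap_prod_mk, diagonal_apply, Prod.mk.injEq]
    by_cases h : i = j ∧ s = t
    · rw [if_pos ⟨h.2, h.1⟩, if_pos h]
    · rw [if_neg (fun h' => h ⟨h'.2, h'.1⟩), if_neg h]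

end block

end PRJM

open PRJM in
theorem specPRJ (hDIA : SpecDIA) (hHLP : SpecHLP) (hHAS : SpecHAS) (hGLP : SpecGLP.{u}) :
    SpecPRJ.{u} := by
  intro F _ _ K _ _ hB x b hx hb
  have hbK : (b : K) ≠ 0 := Rat.cast_ne_zero.2 hb
  -- diagonalizations over the rationals
  have hT1 : ∀ y : F, y ≠ 0 → ∃ d, Diag (T y) d := by
    intro y hy
    refine hDIA ℚ _ (T y) (T_symm y) ?_
    rw [T_det]
    exact mul_ne_zero TRCM.det_T (Algebra.norm_ne_zero_iff.2 hy)
  obtain ⟨d, hd⟩ := hT1 1 one_ne_zero
  -- the value for a general element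
  have key : ∀ y : F, y ≠ 0 → ∀ d' : Fin (Module.finrank ℚ F) → ℚ, Diag (T y) d' →
      hT K (D3 y (b : F)) = hl K (pl (b : K) ((List.finRange _).map (fun i => (d' i : K))) ++
        (List.finRange _).map (fun i => ((b * d i : ℚ) : K))) := by
    intro y hy d' hd'
    have h1 : Diag (GT (D3 y (b : F)))
        (fun z => (![d', fun i => b * d i, fun i => -b * d' i] : Fin 3 → _) z.1 z.2) := by
      unfold D3
      refine diag_block _ _ ?_
      intro i
      fin_cases i
      · exact hd'
      · have e1 : T ((b : F)) = b • T (1 : F) := by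
          rw [← T_smul, mul_one]
        show Diag (T ((b : F))) (fun i => b * d i)
        rw [e1]
        exact diag_smul hb hd
      · have e1 : T (-(y * (b : F))) = (-b) • T y := by
          rw [← T_smul]
          congr 1
          push_cast
          ring
        show Diag (T (-(y * (b : F)))) (fun i => -b * d' i)
        rw [e1]
        exact diag_smul (neg_ne_zero.2 hb) hd'
    have h2 := GLPM.diag_map (K := K) h1
    unfold hT
    rw [hHAS K hB _ _ _ h2]
    refine hf_prod hHLP hB (b : K) hbK (fun i => (d' i : K)) (fun i => ((b * d i : ℚ) : K)) ?_ ?_ _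
      ?_ ?_ ?_
    · intro i; exact Rat.cast_ne_zero.2 (hd'.1 i)
    · intro i; exact Rat.cast_ne_zero.2 (mul_ne_zero hb (hd.1 i))
    · intro s; rfl
    · intro s; rfl
    · intro s
      show ((-b * d' s : ℚ) : K) = -((b : K) * (d' s : K))
      push_cast
      ring
  obtain ⟨d', hd'⟩ := hT1 x hx
  have hL : ∀ (d : Fin (Module.finrank ℚ F) → ℚ), (∀ i, d i ≠ 0) →
      ∀ z ∈ (List.finRange _).map (fun i => (d i : K)), z ≠ 0 := by
    intro d hd z hz
    obtain ⟨i, -, rfl⟩ := List.mem_map.1 hz
    exact Rat.cast_ne_zero.2 (hd i)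
  have hY : ∀ z ∈ (List.finRange _).map (fun i => ((b * d i : ℚ) : K)), z ≠ 0 := by
    intro z hz
    obtain ⟨i, -, rfl⟩ := List.mem_map.1 hz
    exact Rat.cast_ne_zero.2 (mul_ne_zero hb (hd.1 i))
  have hphi := phi hHLP hB hbK ((List.finRange _).map (fun i => (d i : K)))
    ((List.finRange _).map (fun i => (d' i : K))) _ (hL d hd.1) (hL d' hd'.1) hY (by simp)
  rw [← key x hx d' hd', ← key 1 one_ne_zero d hd] at hphi
  rw [hphi]
  -- the split form
  have hJ : hT K (J3 F) = hT K (D3 (1 : F) (b : F)) := by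
    refine (hGLP F (J3 F)).2 K _ ?_
    have hbF : (b : F) ≠ 0 := Rat.cast_ne_zero.2 hb
    refine ⟨!![0, 1, 1; 1, 0, 0; 0, (b : F) / 2, -((b : F) / 2)], ?_, ?_⟩
    · rw [det_fin_three]
      simp only [of_apply, cons_val', cons_val_zero, cons_val_one, cons_val,
        cons_val_fin_one]
      intro h0
      apply hbF
      linear_combination h0
    · unfold J3 D3
      ext i j
      fin_cases i <;> fin_cases j <;>
        simp [Matrix.mul_apply, Fin.sum_univ_three, diagonal] <;> ring
  rw [hJ]
  congr 1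
  -- the determinants
  obtain ⟨r', hr', e'⟩ := diag_prod hd'
  obtain ⟨r, hr, e⟩ := diag_prod hd
  rw [T_det] at e e'
  have p1 : ((List.finRange _).map (fun i => (d i : K))).prod =
      (((List.finRange _).map d).prod : ℚ) := by
    rw [← GLPM.prod_cast, List.map_map]
    rfl
  have p1' : ((List.finRange _).map (fun i => (d' i : K))).prod =
      (((List.finRange _).map d').prod : ℚ) := by
    rw [← GLPM.prod_cast, List.map_map]
    rfl
  rw [p1, p1', e, e']
  have hT0 : (TRCM.T F).det ≠ 0 := TRCM.det_T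
  have hN : Algebra.norm ℚ x ≠ 0 := Algebra.norm_ne_zero_iff.2 hx
  have hN1 : Algebra.norm ℚ (1 : F) = 1 := map_one _
  rw [hN1, mul_one]
  generalize (TRCM.T F).det = t at hT0
  have cT : (t : K) ≠ 0 := Rat.cast_ne_zero.2 hT0
  have cN : ((Algebra.norm ℚ x : ℚ) : K) ≠ 0 := Rat.cast_ne_zero.2 hN
  have cr : (r : K) ≠ 0 := Rat.cast_ne_zero.2 hr
  have cr' : (r' : K) ≠ 0 := Rat.cast_ne_zero.2 hr'
  push_cast
  rw [hs_mul_sq cr', hs_mul_sq cr, hB _ _ _ cT cN hbK, hs_comm (b : K)]
  have := hs_sq (K := K) (t : K) (b : K)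
  linear_combination (hs K ((Algebra.norm ℚ x : ℚ) : K) (b : K)) * this

end Pool.Agent.Lib.MP_8cb858_nt.PF.RF
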