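import Pool.Agent.Lib.MP_8cb858_nt.PF.RF.Spec

/-!
# RECF: reciprocity for ternary forms over number fields (assembly)
-/

namespace Pool.Agent.Lib.MP_8cb858_nt.PF.RF

open Matrix NumberField IsDedekindDomain

universe u

namespace RECFM

lemma bi (hHBP : SpecHBP) (hHB2 : SpecHB2) (p : ℕ) [hp : Fact p.Prime] : Bi ℚ_[p] := by
  by_cases h : p = 2
  · subst h
    have : hp = (by exact hp) := rfl
    exact hHB2
  · exact hHBP p h

lemma J3_map {F K : Type*} [Field F] [Field K] (φ : F →+* K) : (J3 F).map φ = J3 K := by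
  unfold J3
  ext i j
  fin_cases i <;> fin_cases j <;> simp

lemma D3_map {F K : Type*} [Field F] [Field K] (φ : F →+* K) (a b : F) :
    (D3 a b).map φ = D3 (φ a) (φ b) := by
  unfold D3
  ext i j
  fin_cases i <;> fin_cases j <;> simp [diagonal]

lemma det_map' {F K : Type*} [Field F] [Field K] (φ : F →+* K) (A : Matrix (Fin 3) (Fin 3) F) :
    (A.map φ).det = φ A.det := by
  rw [RingHom.map_det]; rfl

lemma symm_map {F K : Type*} [Field F] [Field K] (φ : F →+* K) {A : Matrix (Fin 3) (Fin 3) F}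
    (h : A.IsSymm) : (A.map φ).IsSymm := by
  unfold Matrix.IsSymm at h ⊢
  rw [← transpose_map, h]

variable {F : Type u} [Field F] [NumberField F]

instance czf (v : HeightOneSpectrum (𝓞 F)) : CharZero (v.adicCompletion F) :=
  charZero_of_injective_algebraMap (algebraMap F (v.adicCompletion F)).injective

instance czi (v : InfinitePlace F) : CharZero v.Completion :=
  charZero_of_injective_algebraMap (algebraMap F v.Completion).injective

lemma mem_of_absNorm {v : HeightOneSpectrum (𝓞 F)} {ℓ : ℕ} (h : Ideal.absNorm v.asIdeal = ℓ) :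
    (ℓ : 𝓞 F) ∈ v.asIdeal := by
  have := Ideal.absNorm_mem v.asIdeal
  rw [h] at this
  exact this

lemma one_notMem (v : HeightOneSpectrum (𝓞 F)) : (1 : 𝓞 F) ∉ v.asIdeal := fun h =>
  v.isPrime.ne_top ((Ideal.eq_top_iff_one _).2 h)

lemma notMem_of {v : HeightOneSpectrum (𝓞 F)} {ℓ : ℕ} (hℓ : ℓ.Prime) (h : (ℓ : 𝓞 F) ∈ v.asIdeal)
    {u : ℤ} (hu : ¬ (ℓ : ℤ) ∣ u) : ((u : ℤ) : 𝓞 F) ∉ v.asIdeal := by
  intro h'
  have hc : IsCoprime (ℓ : ℤ) u := (Prime.coprime_iff_not_dvd (Nat.prime_iff_prime_int.1 hℓ)).2 hu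
  obtain ⟨a, b, hab⟩ := hc
  apply one_notMem v
  have : (1 : 𝓞 F) = (a : 𝓞 F) * (ℓ : 𝓞 F) + (b : 𝓞 F) * ((u : ℤ) : 𝓞 F) := by
    have := congrArg (fun z : ℤ => (z : 𝓞 F)) hab
    push_cast at this
    exact this.symm
  rw [this]
  exact Ideal.add_mem _ (Ideal.mul_mem_left _ _ h) (Ideal.mul_mem_left _ _ h')

/-- two primes in the same `v` are equal -/
lemma prime_eq {v : HeightOneSpectrum (𝓞 F)} {p q : ℕ} (hp : p.Prime) (hq : q.Prime)
    (h : (p : 𝓞 F) ∈ v.asIdeal) (h' : (q : 𝓞 F) ∈ v.asIdeal) : p = q := by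
  by_contra hne
  refine notMem_of hp h (u := (q : ℤ)) ?_ (by push_cast; exact h')
  intro hd
  have : p ∣ q := by exact_mod_cast hd
  exact hne ((Nat.prime_dvd_prime_iff_eq hp hq).1 this)

section core

variable {A : Matrix (Fin 3) (Fin 3) F} {s : F}

lemma cg_J3 (hISO : SpecISO.{u}) {K : Type u} [Field K] [CharZero K] (φ : F →+* K)
    (hA : A.IsSymm) (hs : s ≠ 0) (hd : A.det = -s ^ 2) (h : IsoM (A.map φ)) :
    Cg (A.map φ) ((J3 F).map φ) := by
  rw [J3_map]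
  refine (hISO K).1 (A.map φ) (φ s) (symm_map φ hA) ((map_ne_zero φ).2 hs) ?_ h
  rw [det_map', hd, map_neg, map_pow]

lemma J3_facts (hISO : SpecISO.{u}) : (J3 F).IsSymm ∧ (J3 F).det ≠ 0 := by
  refine ⟨(hISO F).2.2.1, ?_⟩
  rw [(hISO F).2.2.2.1]; norm_num

lemma good (hLOC : SpecLOC.{u}) (hISO : SpecISO.{u}) (hA : A.IsSymm) (hs : s ≠ 0)
    (hd : A.det = -s ^ 2) (p : ℕ) [Fact p.Prime]
    (h : ∀ w : HeightOneSpectrum (𝓞 F), (p : 𝓞 F) ∈ w.asIdeal →
      IsoM (A.map (algebraMap F (w.adicCompletion F)))) :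
    hT ℚ_[p] A = hT ℚ_[p] (J3 F) := by
  have hd0 : A.det ≠ 0 := by rw [hd]; exact neg_ne_zero.2 (pow_ne_zero _ hs)
  refine (hLOC F A (J3 F) hA (J3_facts hISO).1 hd0 (J3_facts hISO).2).1 p fun w hw => ?_
  exact cg_J3 hISO _ hA hs hd (h w hw)

lemma real (hLOC : SpecLOC.{u}) (hISO : SpecISO.{u}) (hA : A.IsSymm) (hs : s ≠ 0)
    (hd : A.det = -s ^ 2)
    (h : ∀ w : InfinitePlace F, IsoM (A.map (algebraMap F w.Completion))) :
    hT ℝ A = hT ℝ (J3 F) := by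
  have hd0 : A.det ≠ 0 := by rw [hd]; exact neg_ne_zero.2 (pow_ne_zero _ hs)
  refine (hLOC F A (J3 F) hA (J3_facts hISO).1 hd0 (J3_facts hISO).2).2 fun w => ?_
  exact cg_J3 hISO _ hA hs hd (h w)

lemma bad (hHBP : SpecHBP) (hHB2 : SpecHB2) (hPRJ : SpecPRJ.{u}) (hLOC : SpecLOC.{u})
    (hISO : SpecISO.{u}) (hSQV : SpecSQV.{u}) (hANI : SpecANI.{u}) (hNRM : SpecNRM.{u})
    (hA : A.IsSymm) (hs : s ≠ 0) (hd : A.det = -s ^ 2) (ℓ : ℕ) [hℓ : Fact ℓ.Prime]
    (hℓ4 : ℓ % 4 = 1) (v : HeightOneSpectrum (𝓞 F)) (hv : Ideal.absNorm v.asIdeal = ℓ)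
    (hv2 : (ℓ : 𝓞 F) ∉ v.asIdeal ^ 2)
    (hani : ¬ IsoM (A.map (algebraMap F (v.adicCompletion F))))
    (h : ∀ w : HeightOneSpectrum (𝓞 F), (ℓ : 𝓞 F) ∈ w.asIdeal → w ≠ v →
      IsoM (A.map (algebraMap F (w.adicCompletion F)))) :
    hT ℚ_[ℓ] A = - hT ℚ_[ℓ] (J3 F) := by
  have hd0 : A.det ≠ 0 := by rw [hd]; exact neg_ne_zero.2 (pow_ne_zero _ hs)
  have hℓ2 : ℓ ≠ 2 := by rintro rfl; norm_num at hℓ4
  -- a nonresidue
  obtain ⟨u, hu⟩ : ∃ u : ℤ, ∀ m : ℤ, ¬ (ℓ : ℤ) ∣ m ^ 2 - u := by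
    obtain ⟨a, ha⟩ := FiniteField.exists_nonsquare (F := ZMod ℓ) (by
      rw [ZMod.ringChar_zmod_n]; exact hℓ2)
    obtain ⟨u, rfl⟩ := ZMod.intCast_surjective a
    refine ⟨u, fun m hm => ha ⟨(m : ZMod ℓ), ?_⟩⟩
    rw [← ZMod.intCast_zmod_eq_zero_iff_dvd] at hm
    push_cast at hm
    linear_combination -hm
  have hu0 : ¬ (ℓ : ℤ) ∣ u := by
    intro h0
    exact hu 0 (by rw [zero_pow two_ne_zero, zero_sub]; exact (dvd_neg).2 h0)
  obtain ⟨a, ha1, ha2, N, hN, hNu⟩ := hNRM.1 F v ℓ u hℓ.out hv hv2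
  have hℓv := mem_of_absNorm hv
  have huv := notMem_of hℓ.out hℓv hu0
  have hav : a ∉ v.asIdeal := by
    intro h0
    apply huv
    have : ((u : ℤ) : 𝓞 F) = a - (a - (u : 𝓞 F)) := by ring
    rw [this]
    exact Ideal.sub_mem _ h0 ha1
  have ha0 : a ≠ 0 := by rintro rfl; exact hav (Ideal.zero_mem _)
  have hx0 : (a : F) ≠ 0 := by
    intro h0
    exact ha0 (by exact_mod_cast h0)
  obtain ⟨sq1, sq2, sq3⟩ := hSQV F v ℓ u hℓ.out hℓ4 hv hv2 hu
  have hb0 : (((ℓ : ℚ)) : F) ≠ 0 := by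
    have := hℓ.out.ne_zero
    exact_mod_cast this
  set A1 : Matrix (Fin 3) (Fin 3) F := D3 (a : F) ((ℓ : ℚ) : F) with hA1
  have f1 := ((hISO F).2.1 (a : F) ((ℓ : ℚ) : F))
  have hd1 : A1.det ≠ 0 := by
    rw [hA1, f1.2.1]; exact neg_ne_zero.2 (pow_ne_zero _ (mul_ne_zero hx0 hb0))
  have hmain : hT ℚ_[ℓ] A = hT ℚ_[ℓ] A1 := by
    refine (hLOC F A A1 hA f1.1 hd0 hd1).1 ℓ fun w hw => ?_
    by_cases hwv : w = v
    · subst hwv
      obtain ⟨r, hr, har⟩ := sq1 w hℓv a (u : 𝓞 F) ha1 huv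
      rw [hA1, D3_map]
      have e1 : algebraMap F (w.adicCompletion F) ((ℓ : ℚ) : F) = (ℓ : w.adicCompletion F) := by
        simp
      have e2 : algebraMap F (w.adicCompletion F) (((u : 𝓞 F)) : F) =
          (u : w.adicCompletion F) := by
        simp
      rw [e2] at har
      rw [e1]
      refine hANI (w.adicCompletion F) (u : w.adicCompletion F) (ℓ : w.adicCompletion F)
        (algebraMap F (w.adicCompletion F) (a : F)) r
        (algebraMap F (w.adicCompletion F) s) ?_ ?_ hr ((map_ne_zero _).2 hs) sq2 sq3 har _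
        (symm_map _ hA) ?_ hani
      · intro h0
        have : u = 0 := by exact_mod_cast h0
        rw [this] at hu0
        exact hu0 (dvd_zero _)
      · have := hℓ.out.ne_zero
        exact_mod_cast this
      · rw [det_map', hd, map_neg, map_pow]
    · have c1 := cg_J3 hISO (algebraMap F (w.adicCompletion F)) hA hs hd (h w hw hwv)
      refine c1.trans (Cg.symm ?_)
      obtain ⟨r, hr, har⟩ := sq1 w hw a 1 (ha2 w hw hwv) (one_notMem w)
      refine cg_J3 hISO (algebraMap F (w.adicCompletion F)) f1.1 (mul_ne_zero hx0 hb0) f1.2.1 ?_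
      rw [D3_map]
      refine ((hISO (w.adicCompletion F)).2.1 _ _).2.2 ⟨r, ?_⟩
      rw [har]
      simp [pow_two]
  rw [hmain, hA1, hPRJ F ℚ_[ℓ] (bi hHBP hHB2 ℓ) (a : F) (ℓ : ℚ) hx0 (by
    have := hℓ.out.ne_zero
    exact_mod_cast this), hN]
  have := hNRM.2 ℓ u N hℓ2 hu hNu
  rw [this]; ring

end core

end RECFM

open RECFM in
open scoped Classical in
theorem specRECF (hHBP : SpecHBP) (hHB2 : SpecHB2) (hHBR : SpecHBR) (hGLP : SpecGLP.{u})
    (hPRJ : SpecPRJ.{u}) (hLOC : SpecLOC.{u}) (hISO : SpecISO.{u}) (hSQV : SpecSQV.{u})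
    (hANI : SpecANI.{u}) (hNRM : SpecNRM.{u}) : SpecRECF.{u} := by
  -- the case of determinant `- s^2`
  have key : ∀ (F : Type u) [Field F] [NumberField F] (A : Matrix (Fin 3) (Fin 3) F) (s : F)
      (Q : Set (HeightOneSpectrum (𝓞 F))) (ℓ : HeightOneSpectrum (𝓞 F) → ℕ),
      A.IsSymm → s ≠ 0 → A.det = -s ^ 2 → Q.Finite →
      (∀ v ∈ Q, (ℓ v).Prime ∧ ℓ v % 4 = 1 ∧ Ideal.absNorm v.asIdeal = ℓ v ∧
        ((ℓ v : ℕ) : 𝓞 F) ∉ v.asIdeal ^ 2) →
      (∀ v ∈ Q, ∀ w ∈ Q, ℓ v = ℓ w → v = w) →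
      (∀ v ∉ Q, IsoM (A.map (algebraMap F (v.adicCompletion F)))) →
      (∀ v : InfinitePlace F, IsoM (A.map (algebraMap F v.Completion))) →
      Even {v : HeightOneSpectrum (𝓞 F) |
        ¬ IsoM (A.map (algebraMap F (v.adicCompletion F)))}.ncard := by
    intro F _ _ A s Q ℓ hA hs hd hQ hℓ hinj hfin hinf
    have hd0 : A.det ≠ 0 := by rw [hd]; exact neg_ne_zero.2 (pow_ne_zero _ hs)
    set S : Set (HeightOneSpectrum (𝓞 F)) :=
      {v | ¬ IsoM (A.map (algebraMap F (v.adicCompletion F)))} with hS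
    have hSQ : S ⊆ Q := by
      intro v hv
      by_contra hvQ
      exact hv (hfin v hvQ)
    have hSf : S.Finite := hQ.subset hSQ
    obtain ⟨fA, pA, uA⟩ := (hGLP F A).1 hA hd0
    obtain ⟨fJ, pJ, uJ⟩ := (hGLP F (J3 F)).1 (J3_facts hISO).1 (J3_facts hISO).2
    have hreal := real hLOC hISO hA hs hd hinf
    -- the set of bad primes
    let T : Set Nat.Primes := {p | ∃ v ∈ S, ℓ v = (p : ℕ)}
    have hval : ∀ p : Nat.Primes, hT ℚ_[(p : ℕ)] A * hT ℚ_[(p : ℕ)] (J3 F) =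
        if p ∈ T then -1 else 1 := by
      intro p
      have hsq : hT ℚ_[(p : ℕ)] (J3 F) * hT ℚ_[(p : ℕ)] (J3 F) = 1 := by
        rcases uJ ℚ_[(p : ℕ)] (bi hHBP hHB2 p) with h | h <;> rw [h] <;> norm_num
      by_cases hp : p ∈ T
      · rw [if_pos hp]
        obtain ⟨v, hv, hvp⟩ := hp
        obtain ⟨h1, h2, h3, h4⟩ := hℓ v (hSQ hv)
        rw [hvp] at h1 h2 h3 h4
        rw [bad hHBP hHB2 hPRJ hLOC hISO hSQV hANI hNRM hA hs hd (p : ℕ) h2 v h3 h4 hv ?_]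
        · linear_combination -hsq
        · intro w hw hwv
          by_contra hw'
          apply hwv
          have hwQ : w ∈ Q := hSQ hw'
          apply hinj w hwQ v (hSQ hv)
          rw [hvp]
          exact prime_eq (hℓ w hwQ).1 p.2 (mem_of_absNorm (hℓ w hwQ).2.2.1) hw
      · rw [if_neg hp, good hLOC hISO hA hs hd (p : ℕ) ?_]
        · exact hsq
        · intro w hw
          by_contra hw'
          apply hp
          have hwQ : w ∈ Q := hSQ hw'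
          exact ⟨w, hw', prime_eq (hℓ w hwQ).1 p.2 (mem_of_absNorm (hℓ w hwQ).2.2.1) hw⟩
    -- the bad primes are in bijection with `S`
    have hTS : T.ncard = S.ncard := by
      symm
      refine Set.ncard_congr (fun v hv => ⟨ℓ v, (hℓ v (hSQ hv)).1⟩) ?_ ?_ ?_
      · intro v hv
        exact ⟨v, hv, rfl⟩
      · intro v w hv hw h
        exact hinj v (hSQ hv) w (hSQ hw) (congrArg Subtype.val h)
      · rintro p ⟨v, hv, hvp⟩
        exact ⟨v, hv, Subtype.ext hvp⟩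
    have hTf : T.Finite := by
      have : T ⊆ (fun p : Nat.Primes => (p : ℕ)) ⁻¹' (ℓ '' S) := by
        rintro p ⟨v, hv, hvp⟩
        exact ⟨v, hv, hvp⟩
      refine Set.Finite.subset (Set.Finite.preimage ?_ (hSf.image ℓ)) this
      intro a _ b _ h
      exact Subtype.ext h
    have hprod : (∏ᶠ p : Nat.Primes, hT ℚ_[(p : ℕ)] A * hT ℚ_[(p : ℕ)] (J3 F)) =
        (-1 : ℤ) ^ T.ncard := by
      have e1 : (fun p : Nat.Primes => hT ℚ_[(p : ℕ)] A * hT ℚ_[(p : ℕ)] (J3 F)) =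
          fun p => if p ∈ T then -1 else 1 := funext hval
      rw [e1, finprod_eq_prod_of_mulSupport_subset (s := hTf.toFinset)]
      · rw [Finset.prod_congr rfl (g := fun _ => (-1 : ℤ))]
        · rw [Finset.prod_const, Set.ncard_eq_toFinset_card T hTf]
        · intro p hp
          rw [if_pos (by simpa using hp)]
      · intro p hp
        rw [Function.mem_mulSupport] at hp
        by_contra hp'
        exact hp (if_neg (by simpa using hp'))
    rw [finprod_mul_distrib fA fJ] at hprod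
    have hR : hT ℝ (J3 F) * hT ℝ (J3 F) = 1 := by
      rcases uJ ℝ hHBR with h | h <;> rw [h] <;> norm_num
    rw [hreal] at pA
    have h1 : (-1 : ℤ) ^ T.ncard = 1 := by
      rw [← hprod]
      calc (∏ᶠ p : Nat.Primes, hT ℚ_[(p : ℕ)] A) * (∏ᶠ p : Nat.Primes, hT ℚ_[(p : ℕ)] (J3 F))
          = ((∏ᶠ p : Nat.Primes, hT ℚ_[(p : ℕ)] A) * hT ℝ (J3 F)) *
            ((∏ᶠ p : Nat.Primes, hT ℚ_[(p : ℕ)] (J3 F)) * hT ℝ (J3 F)) *
            (hT ℝ (J3 F) * hT ℝ (J3 F)) := by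
            linear_combination (-(((∏ᶠ p : Nat.Primes, hT ℚ_[(p : ℕ)] A)) *
              ((∏ᶠ p : Nat.Primes, hT ℚ_[(p : ℕ)] (J3 F))))) * (1 + hT ℝ (J3 F) *
              hT ℝ (J3 F)) * hR
        _ = 1 := by rw [pA, pJ, hR]; norm_num
    rw [hTS] at h1
    exact (neg_one_pow_eq_one_iff_even (by norm_num)).1 h1
  intro F _ _ A Q ℓ hA hd0 hQ hℓ hinj hfin hinf
  set c : F := -A.det with hc
  have hc0 : c ≠ 0 := neg_ne_zero.2 hd0
  have hmap : ∀ {K : Type u} [Field K] [CharZero K] (φ : F →+* K),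
      IsoM ((c • A).map φ) ↔ IsoM (A.map φ) := by
    intro K _ _ φ
    have : (c • A).map φ = (φ c) • A.map φ := by
      ext i j
      simp
    rw [this]
    exact (hISO K).2.2.2.2.2 (A.map φ) (φ c) ((map_ne_zero φ).2 hc0)
  have hset : {v : HeightOneSpectrum (𝓞 F) |
      ¬ IsoM (A.map (algebraMap F (v.adicCompletion F)))} =
      {v : HeightOneSpectrum (𝓞 F) |
      ¬ IsoM ((c • A).map (algebraMap F (v.adicCompletion F)))} := by
    ext v
    show ¬ _ ↔ ¬ _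
    rw [hmap]
  rw [hset]
  refine key F (c • A) (c ^ 2) Q ℓ ?_ (pow_ne_zero _ hc0) ?_ hQ hℓ hinj ?_ ?_
  · unfold Matrix.IsSymm at hA ⊢
    rw [transpose_smul, hA]
  · rw [det_smul, Fintype.card_fin]
    have : A.det = -c := by rw [hc, neg_neg]
    rw [this]; ring
  · intro v hv
    rw [hmap]; exact hfin v hv
  · intro v
    rw [hmap]; exact hinf v

end Pool.Agent.Lib.MP_8cb858_nt.PF.RF
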