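import Pool.Agent.Lib.MP_8cb858_nt.PF.RF.Spec

/-!
# Module TRC: algebra of the trace form
-/

namespace Pool.Agent.Lib.MP_8cb858_nt.PF.RF

open Matrix NumberField Kronecker

universe u

namespace TRCM

variable {F : Type u} [Field F] [NumberField F]

/-- The trace matrix of the basis. -/
noncomputable def T (F : Type u) [Field F] [NumberField F] :
    Matrix (Fin (Module.finrank ℚ F)) (Fin (Module.finrank ℚ F)) ℚ :=
  fun s t => Algebra.trace ℚ F (Module.finBasis ℚ F s * Module.finBasis ℚ F t)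

lemma T_symm (s t : Fin (Module.finrank ℚ F)) : T F s t = T F t s := by
  unfold T; rw [mul_comm]

lemma det_T : (T F).det ≠ 0 := by
  have h := det_traceForm_ne_zero (K := ℚ) (L := F) (Module.finBasis ℚ F)
  have e : T F = LinearMap.BilinForm.toMatrix (Module.finBasis ℚ F) (Algebra.traceForm ℚ F) := by
    ext s t
    simp [T, LinearMap.BilinForm.toMatrix_apply, Algebra.traceForm_apply]
  rw [e]
  exact h

/-- The block diagonal matrix with blocks `T`. -/
noncomputable def S (F : Type u) [Field F] [NumberField F] :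
    Matrix (Fin 3 × Fin (Module.finrank ℚ F)) (Fin 3 × Fin (Module.finrank ℚ F)) ℚ :=
  (1 : Matrix (Fin 3) (Fin 3) ℚ) ⊗ₖ T F

lemma det_S : (S F).det ≠ 0 := by
  unfold S
  rw [det_kronecker]
  simp only [det_one, one_pow, one_mul]
  exact pow_ne_zero _ det_T

/-- The regular representation of matrices. -/
noncomputable def R (F : Type u) [Field F] [NumberField F] :
    Matrix (Fin 3) (Fin 3) F →+*
      Matrix (Fin 3 × Fin (Module.finrank ℚ F)) (Fin 3 × Fin (Module.finrank ℚ F)) ℚ :=
  (compRingEquiv (Fin 3) (Fin (Module.finrank ℚ F)) ℚ).toRingHom.comp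
    (Algebra.leftMulMatrix (Module.finBasis ℚ F)).toRingHom.mapMatrix

lemma R_apply (M : Matrix (Fin 3) (Fin 3) F) (x y : Fin 3 × Fin (Module.finrank ℚ F)) :
    R F M x y = Algebra.leftMulMatrix (Module.finBasis ℚ F) (M x.1 y.1) x.2 y.2 := rfl

lemma mul_basis (c : F) (t : Fin (Module.finrank ℚ F)) :
    ∑ r, Algebra.leftMulMatrix (Module.finBasis ℚ F) c r t • Module.finBasis ℚ F r =
      c * Module.finBasis ℚ F t := by
  simp only [Algebra.leftMulMatrix_eq_repr_mul]
  exact (Module.finBasis ℚ F).sum_repr _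

lemma trace_mul (c : F) (s t : Fin (Module.finrank ℚ F)) :
    ∑ r, T F s r * Algebra.leftMulMatrix (Module.finBasis ℚ F) c r t =
      Algebra.trace ℚ F (Module.finBasis ℚ F s * (c * Module.finBasis ℚ F t)) := by
  rw [← mul_basis, Finset.mul_sum, map_sum]
  refine Finset.sum_congr rfl fun r _ => ?_
  rw [mul_smul_comm, map_smul, smul_eq_mul, T, mul_comm]

lemma S_mul (M : Matrix (Fin 3 × Fin (Module.finrank ℚ F)) (Fin 3 × Fin (Module.finrank ℚ F)) ℚ)
    (x y : Fin 3 × Fin (Module.finrank ℚ F)) :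
    (S F * M) x y = ∑ r, T F x.2 r * M (x.1, r) y := by
  rw [mul_apply, Fintype.sum_prod_type]
  rw [Finset.sum_eq_single x.1]
  · refine Finset.sum_congr rfl fun r _ => ?_
    simp [S, kroneckerMap_apply]
  · intro k _ hk
    refine Finset.sum_eq_zero fun r _ => ?_
    simp [S, kroneckerMap_apply, one_apply_ne hk.symm]
  · intro h; exact absurd (Finset.mem_univ _) h

lemma S_symm : (S F)ᵀ = S F := by
  ext x y
  simp only [transpose_apply, S, kroneckerMap_apply]
  rw [T_symm y.2 x.2, one_apply, one_apply]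
  by_cases h : x.1 = y.1
  · rw [if_pos h, if_pos h.symm]
  · rw [if_neg h, if_neg (fun h' => h h'.symm)]

lemma GT_eq (A : Matrix (Fin 3) (Fin 3) F) : GT A = S F * R F A := by
  ext x y
  rw [S_mul]
  simp only [R_apply]
  rw [trace_mul]
  rfl

lemma swp (M : Matrix (Fin 3) (Fin 3) F) : (R F M)ᵀ * S F = S F * R F Mᵀ := by
  ext x y
  have h : ((R F M)ᵀ * S F) x y = (S F * R F M) y x := by
    have : (R F M)ᵀ * S F = (S F * R F M)ᵀ := by
      rw [transpose_mul, S_symm]
    rw [this, transpose_apply]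
  rw [h, S_mul, S_mul]
  simp only [R_apply, transpose_apply]
  rw [trace_mul, trace_mul]
  congr 1
  ring

end TRCM

open TRCM

theorem specTRC : SpecTRC.{u} := by
  intro F _ _ A
  refine ⟨?_, ?_, ?_⟩
  · intro hA
    ext x y
    have h := congrFun (congrFun hA x.1) y.1
    rw [transpose_apply] at h
    rw [transpose_apply]
    unfold GT
    rw [h]
    congr 1
    ring
  · intro hA
    rw [GT_eq, det_mul]
    refine mul_ne_zero det_S ?_
    have hu : IsUnit A := (isUnit_iff_isUnit_det _).2 (isUnit_iff_ne_zero.2 hA)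
    exact isUnit_iff_ne_zero.1 ((isUnit_iff_isUnit_det _).1 (hu.map (R F)))
  · intro P
    refine ⟨R F P, ?_, ?_⟩
    · intro hP
      have hu : IsUnit P := (isUnit_iff_isUnit_det _).2 (isUnit_iff_ne_zero.2 hP)
      exact isUnit_iff_ne_zero.1 ((isUnit_iff_isUnit_det _).1 (hu.map (R F)))
    · rw [GT_eq, GT_eq, map_mul, map_mul, Matrix.mul_assoc (R F P)ᵀ, Matrix.mul_assoc (S F),
        ← Matrix.mul_assoc (R F P)ᵀ, swp]
      simp only [Matrix.mul_assoc]

end Pool.Agent.Lib.MP_8cb858_nt.PF.RF
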