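import Pool.Agent.Lib.MP_8cb858_nt.PR.Defs
import Pool.Agent.Lib.MP_8cb858_nt.PF.RF.NRM
import Pool.Agent.Lib.MP_8cb858_nt.PR.SpecA
import Pool.Agent.Lib.MP_8cb858_nt.PF.RF.Spec
import Pool.Agent.Lib.MP_8cb858_nt.PF.RF.TRI
import Pool.Agent.Lib.MP_8cb858_nt.PF.RF.HAS
import Pool.Agent.Lib.MP_8cb858_nt.PF.RF.TRC
import Pool.Agent.Lib.MP_8cb858_nt.PF.RF.PRJ
import Pool.Agent.Lib.MP_8cb858_nt.PF.RF.SQV
import Pool.Agent.Lib.MP_8cb858_nt.PF.RF.RECF

section
/-!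
# The interface between the blocks of the proof of Poonen-Rains up to epsilon

`f = X^3 + A X + B`, `D' = dsc A B = 4 A^3 + 27 B^2`, `L_K = Lk K A B`.
Block owners: REC helper77; FM, DEN helper36; LAL, MRK and the averaging helper64; the rest helper18.
-/
namespace Pool.Agent.Lib.MP_8cb858_nt.PR

open Polynomial NumberField Pool.Agent.Lib.MP_8cb858_nt.SEL
open scoped Classical

/-- **REC** (block of helper77). Reciprocity: the ternary form of a class is anisotropic at an even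
number of places. (The Gram matrix `cf 2 (α θ^(i+j))` has determinant `- N α`; diagonalise; Hilbert's
product formula.) -/
def SpecREC : Prop :=
  ∀ (A B : ℤ) (α : Lk ℚ A B), dsc A B ≠ 0 → InV α →
    {p : ℕ | ∃ _ : Fact p.Prime, ¬ Iso (up A B ℚ_[p] α)}.Finite ∧
    Even ({p : ℕ | ∃ _ : Fact p.Prime, ¬ Iso (up A B ℚ_[p] α)}.ncard +
      if Iso (up A B ℝ α) then 0 else 1)

/-- **LS** (part B). The local structure at the odd primes of `Σ`. -/
def SpecLS : Prop :=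
  ∀ (p : ℕ) [Fact p.Prime] (A B : ℤ), 5 ≤ p → dsc A B ≠ 0 →
    (¬ IsSquare ((-dsc A B : ℤ) : ZMod p) ∨ ((p : ℤ) ∣ dsc A B ∧ ¬ (p : ℤ) ^ 2 ∣ dsc A B)) →
    Hyp (M := Lk ℚ_[p] A B) InV (Ev p) Iso

/-- **LT** (part B). The Kummer classes of a ramified twist. -/
def SpecLT : Prop :=
  ∀ (p : ℕ) [Fact p.Prime] (A B D : ℤ) (α : Lk ℚ_[p] A B), 5 ≤ p → dsc A B ≠ 0 →
    ¬ IsSquare ((-dsc A B : ℤ) : ZMod p) → (p : ℤ) ∣ D → ¬ (p : ℤ) ^ 2 ∣ D → InV α →
    (Aff D α ↔ IsSquare α ∨ (¬ Ev p α ∧ Iso α))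

/-- **LR** (part B). A unit class is trivial iff its value at the root `t` is a square. -/
def SpecLR : Prop :=
  ∀ (p : ℕ) [Fact p.Prime] (A B : ℤ) (t : ℤ_[p]) (α : Lk ℚ_[p] A B), 5 ≤ p → dsc A B ≠ 0 →
    ¬ IsSquare ((-dsc A B : ℤ) : ZMod p) → t ^ 3 + A * t + B = 0 → InV α → Ev p α →
    (IsSquare α ↔ IsSquare (ev (RingHom.id ℚ_[p]) (t : ℚ_[p]) α))

/-- **L2** (part B). The local structure at 2. -/
def SpecL2 : Prop :=
  ∀ A B : ℤ, A % 4 = 3 → B % 8 = 1 →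
    Hyp (M := Lk ℚ_[2] A B) InV (Aff 1) Iso ∧
    ∀ (D : ℤ) (α : Lk ℚ_[2] A B), InV α →
      (D % 8 = 1 → (Aff D α ↔ Aff 1 α)) ∧
      (D % 8 = 7 → (Aff D α ↔ IsSquare α ∨ (¬ Aff 1 α ∧ Iso α)))

/-- **LI** (part B). The real place, `A > 0`. -/
def SpecLI : Prop :=
  ∀ (A B D : ℤ) (α : Lk ℝ A B), 0 < A → D ≠ 0 → InV α → Aff D α ∧ Iso α

/-- **SU** (part C). Many global classes which are unit classes outside `Sg`. -/
def SpecSU : Prop :=
  ∀ (A B : ℤ) (Sg : Finset ℕ), 0 < A → (∀ x : ZMod 2, x ^ 3 + A * x + B ≠ 0) →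
    (∀ p ∈ Sg, p.Prime) → 2 ∈ Sg → (∀ p : ℕ, p.Prime → (p : ℤ) ∣ dsc A B → p ∈ Sg) →
    (∀ p ∈ Sg, p ≠ 2 → ∃ x : ZMod p, x ^ 3 + A * x + B = 0 ∧ 3 * x ^ 2 + A ≠ 0) →
    ∃ F : Finset (Lk ℚ A B), 2 ^ Sg.card ≤ F.card ∧
      (∀ α ∈ F, InV α ∧ ∀ (p : ℕ) (_ : Fact p.Prime), p ∉ Sg → Ev p (up A B ℚ_[p] α)) ∧
      ∀ α ∈ F, ∀ β ∈ F, α ≠ β → ¬ IsSquare (α * β)

/-- The classes satisfying the local conditions of the 2-Selmer group of `E^D`. -/
def SelSet (A B D : ℤ) : Set (Lk ℚ A B) :=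
  {α | InV α ∧ (∀ (p : ℕ) (_ : Fact p.Prime), Aff D (up A B ℚ_[p] α)) ∧ Aff D (up A B ℝ α)}

/-- **BR** (part D). The 2-Selmer group in terms of `L`. -/
structure SpecBR : Prop where
  sel : ∀ {A B D : ℤ}, dsc A B ≠ 0 → D ≠ 0 → ∀ (α : Lk ℚ A B) (z : Sel 2 (cur A B D)),
    Rep D α z → α ∈ SelSet A B D
  ex : ∀ {A B D : ℤ}, dsc A B ≠ 0 → D ≠ 0 → ∀ α ∈ SelSet A B D, ∃ z : Sel 2 (cur A B D), Rep D α z
  uni : ∀ {A B D : ℤ}, dsc A B ≠ 0 → D ≠ 0 → ∀ (α : Lk ℚ A B) (z w : Sel 2 (cur A B D)),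
    Rep D α z → Rep D α w → z = w
  surj : ∀ {A B D : ℤ}, dsc A B ≠ 0 → D ≠ 0 → ∀ z : Sel 2 (cur A B D), ∃ α : Lk ℚ A B, Rep D α z
  inj : ∀ {A B D : ℤ}, dsc A B ≠ 0 → D ≠ 0 → ∀ (α β : Lk ℚ A B) (z : Sel 2 (cur A B D)),
    Rep D α z → Rep D β z → IsSquare (α * β)
  mul : ∀ {A B D : ℤ}, dsc A B ≠ 0 → D ≠ 0 → ∀ (α β : Lk ℚ A B) (z w : Sel 2 (cur A B D)),
    Rep D α z → Rep D β w → Rep D (α * β) (z + w)
  sqr : ∀ {A B D : ℤ}, dsc A B ≠ 0 → D ≠ 0 → ∀ (α γ : Lk ℚ A B) (z : Sel 2 (cur A B D)),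
    IsUnit γ → Rep D α z → Rep D (α * γ ^ 2) z

/-- **LAL** (block of helper64). Linear algebra over `F_2`. `ell` with its functions `e_v, s_v` is
given as a finite set `F` of vectors closed under addition. -/
def SpecLAL : Prop :=
  ∀ (ι : Type) [Fintype ι] [DecidableEq ι] (W : AddSubgroup (ι → ZMod 2 × ZMod 2)),
    (∀ w ∈ W, ∑ v, (w v).1 * (w v).2 = 0) → 2 ^ Fintype.card ι ≤ Nat.card W →
    ∀ (S : Finset ι) (v : ι), v ∉ S →
      ((∀ w ∈ W, (∀ u ∉ S, (w u).1 = 0) → (∀ u ∈ S, (w u).2 = 0) → (w v).2 = 0) →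
        {w ∈ (W : Set (ι → ZMod 2 × ZMod 2)) | (∀ u ∉ insert v S, (w u).1 = 0) ∧
            ∀ u ∈ insert v S, (w u).2 = 0}.ncard =
          2 * {w ∈ (W : Set (ι → ZMod 2 × ZMod 2)) | (∀ u ∉ S, (w u).1 = 0) ∧
            ∀ u ∈ S, (w u).2 = 0}.ncard) ∧
      (¬ (∀ w ∈ W, (∀ u ∉ S, (w u).1 = 0) → (∀ u ∈ S, (w u).2 = 0) → (w v).2 = 0) →
        2 * {w ∈ (W : Set (ι → ZMod 2 × ZMod 2)) | (∀ u ∉ insert v S, (w u).1 = 0) ∧
            ∀ u ∈ insert v S, (w u).2 = 0}.ncard =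
          {w ∈ (W : Set (ι → ZMod 2 × ZMod 2)) | (∀ u ∉ S, (w u).1 = 0) ∧
            ∀ u ∈ S, (w u).2 = 0}.ncard)

/-- **TRA** (part E). Structure of the Selmer groups of the twists; `Triv` is given by a character. -/
def SpecTRA : Prop :=
  ∀ (Q T : Finset ℕ) (A B σ : ℤ), (∀ p ∈ Q, p.Prime ∧ p % 8 = 1) → (A, B) ∈ Fam Q → T ⊆ Q →
    (σ = 1 ∨ σ = -1) →
    Finite (Sel 2 (cur A B (σ * pr T))) ∧ (∀ z : Sel 2 (cur A B (σ * pr T)), z + z = 0) ∧
    ∀ p ∈ Q, p ∉ T → ∀ z w : Sel 2 (cur A B (σ * pr T)),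
      Triv (σ * pr T) p (z + w) ↔ (Triv (σ * pr T) p z ↔ Triv (σ * pr T) p w)

/-- **STP** (part E). The change of the Selmer group under twisting, for `(A, B)` such that no
nonzero Selmer class of `E` has trivial localisations at all primes of `Q`. -/
def SpecSTP : Prop :=
  ∀ (Q : Finset ℕ) (A B : ℤ), (∀ p ∈ Q, p.Prime ∧ p % 8 = 1) → (A, B) ∈ Fam Q →
    (∀ z : Sel 2 (cur A B 1), (∀ p ∈ Q, Triv 1 p z) → z = 0) →
    (∀ T ⊆ Q, ∀ p ∈ Q, p ∉ T → ∀ σ : ℤ, (σ = 1 ∨ σ = -1) →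
      ((∀ z : Sel 2 (cur A B (σ * pr T)), Triv (σ * pr T) p z) →
        Nat.card (Sel 2 (cur A B (σ * pr (insert p T)))) =
          2 * Nat.card (Sel 2 (cur A B (σ * pr T)))) ∧
      (¬ (∀ z : Sel 2 (cur A B (σ * pr T)), Triv (σ * pr T) p z) →
        2 * Nat.card (Sel 2 (cur A B (σ * pr (insert p T)))) =
          Nat.card (Sel 2 (cur A B (σ * pr T))))) ∧
    (Nat.card (Sel 2 (cur A B (-1))) = 2 * Nat.card (Sel 2 (cur A B 1)) ∨
      2 * Nat.card (Sel 2 (cur A B (-1))) = Nat.card (Sel 2 (cur A B 1)))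

/-- **FM** (block of helper36). First moment with patterns; `C`, `P0` are absolute. `Z` is a set of
patterns on `Q'` (a pattern is the set of the primes at which the localisation is not trivial). -/
def SpecFM : Prop :=
  ∃ (C : ℝ) (P0 : ℕ), 0 < C ∧ ∀ (Q Q' : Finset ℕ) (D : ℤ) (Z : Finset (Finset ℕ)),
    (∀ p ∈ Q, p.Prime ∧ P0 < p ∧ ¬ (p : ℤ) ∣ D) → D ≠ 0 → Q' ⊆ Q → (∀ z ∈ Z, z ⊆ Q') →
    ∃ X0 : ℝ, ∀ X : ℝ, X0 ≤ X →
      {z : (Σ q : ℤ × ℤ, Sel 2 (cur q.1 q.2 D)) | z.1 ∈ Ht X ∧ dsc z.1.1 z.1.2 ≠ 0 ∧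
        (∀ p ∈ Q, ¬ IsSquare ((-dsc z.1.1 z.1.2 : ℤ) : ZMod p)) ∧ z.2 ≠ 0 ∧
        Q'.filter (fun p => ¬ Triv D p z.2) ∈ Z}.Finite ∧
      ({z : (Σ q : ℤ × ℤ, Sel 2 (cur q.1 q.2 D)) | z.1 ∈ Ht X ∧ dsc z.1.1 z.1.2 ≠ 0 ∧
        (∀ p ∈ Q, ¬ IsSquare ((-dsc z.1.1 z.1.2 : ℤ) : ZMod p)) ∧ z.2 ≠ 0 ∧
        Q'.filter (fun p => ¬ Triv D p z.2) ∈ Z}.ncard : ℝ) ≤
        C * |(D : ℝ)| ^ 5 * ((Z.card : ℝ) / 2 ^ Q'.card) *
          (∏ p ∈ Q, (1 + 1 / (p : ℝ)) ^ 2 / 2) * X ^ (5 / 6 : ℝ)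

/-- **DEN** (block of helper36). The size of the family. -/
def SpecDEN : Prop :=
  (∀ X : ℝ, (Ht X).Finite) ∧
  (∃ C : ℝ, ∀ X : ℝ, 1 ≤ X → ((Ht X).ncard : ℝ) ≤ C * X ^ (5 / 6 : ℝ)) ∧
  (∃ c : ℝ, 0 < c ∧ ∀ Q : Finset ℕ, (∀ p ∈ Q, p.Prime ∧ 5 ≤ p) → ∃ X0 : ℝ, ∀ X : ℝ, X0 ≤ X →
    c * (∏ p ∈ Q, dl p) * X ^ (5 / 6 : ℝ) ≤ ((Fam Q ∩ Ht X).ncard : ℝ)) ∧
  (∃ C : ℝ, 0 < C ∧ ∀ Q : Finset ℕ, (∀ p ∈ Q, p.Prime ∧ 5 ≤ p) → ∀ ε l : ℝ, 0 < ε → 1 ≤ l → l ≤ 2 →
    ∃ X0 : ℝ, ∀ X : ℝ, X0 ≤ X → ((Fam Q ∩ (Ht (l * X) \ Ht X)).ncard : ℝ) ≤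
      (C * (l - 1) + ε) * (∏ p ∈ Q, dl p) * X ^ (5 / 6 : ℝ))

/-- **PRM** (block of helper64 / helper18). Many primes `1` mod `8` in short intervals. -/
def SpecPRM : Prop :=
  ∀ (δ : ℝ) (N P : ℕ), 0 < δ → ∃ (Q : Finset ℕ) (y : ℝ), Q.card = N ∧ (P : ℝ) ≤ y ∧
    ∀ p ∈ Q, p.Prime ∧ p % 8 = 1 ∧ y ≤ p ∧ (p : ℝ) ≤ (1 + δ) * y

/-- The family of the pairs `(a, b)` given by `a > 0`, a set of classes modulo `N`, and
`p^2 ∤ 4 a^3 + 27 b^2` for all primes `p` prime to `N`. -/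
def Cong (N : ℕ) (R : Set (ZMod N × ZMod N)) : Set (ℤ × ℤ) :=
  {q | 0 < q.1 ∧ ((q.1 : ZMod N), (q.2 : ZMod N)) ∈ R ∧
    ∀ p : ℕ, p.Prime → ¬ p ∣ N → ¬ (p : ℤ) ^ 2 ∣ 4 * q.1 ^ 3 + 27 * q.2 ^ 2}

/-- The pairs `(a, b)` such that the curve `y^2 = x^3 + a x + b` has `dim Sel_2 = d`. -/
def Rk (d : ℕ) : Set (ℤ × ℤ) :=
  {q | 4 * q.1 ^ 3 + 27 * q.2 ^ 2 ≠ 0 ∧ Nat.card (Sel 2 (curve (q.1 : ℚ) (q.2 : ℚ))) = 2 ^ d}

/-- **FIN.** The final theorem. -/
def SpecFIN : Prop :=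
  (∀ ε : ℝ, 0 < ε → ∃ (N : ℕ) (R : Set (ZMod N × ZMod N)) (c X0 : ℝ), 0 < N ∧ 0 < c ∧
    ∀ X : ℝ, X0 ≤ X → c * ((Ht X).ncard : ℝ) ≤ ((Cong N R ∩ Ht X).ncard : ℝ) ∧
      ∀ d : ℕ, |((Cong N R ∩ Ht X ∩ Rk d).ncard : ℝ) - law d * ((Cong N R ∩ Ht X).ncard : ℝ)| ≤
        ε * ((Cong N R ∩ Ht X).ncard : ℝ)) ∧
  (∀ d : ℕ, ∃ c X0 : ℝ, 0 < c ∧ ∀ X : ℝ, X0 ≤ X →
    c * ((Ht X).ncard : ℝ) ≤ ((Ht X ∩ Rk d).ncard : ℝ))

end Pool.Agent.Lib.MP_8cb858_nt.PR
end

section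
/-!
# REC: the ternary form of a class is anisotropic at an even number of places
-/
namespace Pool.Agent.Lib.MP_8cb858_nt.PR

open Matrix Polynomial NumberField Pool.Agent.Lib.MP_8cb858_nt.SEL
open scoped Classical

namespace RecM

/-! ## Scaling -/

section
variable {K : Type*} [Field K]

lemma iso_sq {a b c s : K} (hs : s ≠ 0) : IsoD K (a * s ^ 2) b c ↔ IsoD K a b c := by
  constructor
  · rintro ⟨x, y, z, h1, h2⟩
    refine ⟨s * x, y, z, ?_, by linear_combination h2⟩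
    rcases h1 with h | h | h
    · exact Or.inl (mul_ne_zero hs h)
    · exact Or.inr (Or.inl h)
    · exact Or.inr (Or.inr h)
  · rintro ⟨x, y, z, h1, h2⟩
    refine ⟨x / s, y, z, ?_, ?_⟩
    · rcases h1 with h | h | h
      · exact Or.inl (div_ne_zero h hs)
      · exact Or.inr (Or.inl h)
      · exact Or.inr (Or.inr h)
    · rw [div_pow]
      field_simp
      exact h2

lemma iso_mul {a b c s : K} (hs : s ≠ 0) : IsoD K (s * a) (s * b) (s * c) ↔ IsoD K a b c := by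
  constructor
  · rintro ⟨x, y, z, h1, h2⟩
    refine ⟨x, y, z, h1, ?_⟩
    have : s * (a * x ^ 2 + b * y ^ 2 + c * z ^ 2) = 0 := by linear_combination h2
    exact (mul_eq_zero.1 this).resolve_left hs
  · rintro ⟨x, y, z, h1, h2⟩
    exact ⟨x, y, z, h1, by linear_combination s * h2⟩

/-- `(p a', p b', c) ~ (a', b', p c)` -/
lemma iso_red {a b c s : K} (hs : s ≠ 0) : IsoD K (s * a) (s * b) c ↔ IsoD K a b (s * c) := by
  rw [← iso_mul hs (a := a)]
  have : s * (s * c) = c * s ^ 2 := by ring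
  rw [this, isoD_rot (a := s * a) (b := s * b) (c := c * s ^ 2), isoD_rot (a := s * b), iso_sq hs,
    isoD_rot (a := c)]

end

/-- all fields see the same isotropy -/
def Same (G : Matrix (Fin 3) (Fin 3) ℚ) (a b c : ℚ) : Prop :=
  ∀ (K : Type) [Field K] [CharZero K],
    (∃ x : Fin 3 → K, x ≠ 0 ∧ x ⬝ᵥ (G.map (Rat.castHom K)).mulVec x = 0) ↔
      IsoD K (a : K) (b : K) (c : K)

lemma same_of_diag {G P : Matrix (Fin 3) (Fin 3) ℚ} {d : Fin 3 → ℚ} (hP : P.det ≠ 0)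
    (h : P.transpose * G * P = Matrix.diagonal d) : Same G (d 0) (d 1) (d 2) := by
  intro K _ _
  set φ := Rat.castHom K with hφ
  set P' := P.map φ with hP'
  have hdet : P'.det ≠ 0 := by
    have : P'.det = φ P.det := by
      rw [hP', ← RingHom.mapMatrix_apply, ← RingHom.map_det]
    rw [this]
    exact (map_ne_zero_iff φ φ.injective).2 hP
  have hD : P'.transpose * G.map φ * P' = Matrix.diagonal (fun i => φ (d i)) := by
    have := congrArg (fun M : Matrix (Fin 3) (Fin 3) ℚ => M.map φ) h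
    simp only [Matrix.map_mul, Matrix.transpose_map] at this
    rw [hP', this]
    ext i j
    by_cases hij : i = j
    · subst hij; simp
    · simp [Matrix.diagonal_apply_ne _ hij]
  have key : ∀ y : Fin 3 → K, (P'.mulVec y) ⬝ᵥ (G.map φ).mulVec (P'.mulVec y) =
      d 0 * y 0 ^ 2 + d 1 * y 1 ^ 2 + d 2 * y 2 ^ 2 := by
    intro y
    have e1 : (P'.mulVec y) ⬝ᵥ (G.map φ).mulVec (P'.mulVec y) =
        y ⬝ᵥ (P'.transpose * G.map φ * P').mulVec y := by
      rw [← Matrix.mulVec_mulVec, ← Matrix.mulVec_mulVec, Matrix.dotProduct_mulVec y,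
        Matrix.vecMul_transpose]
    rw [e1, hD]
    simp only [dotProduct, Matrix.mulVec_diagonal, Fin.sum_univ_three, hφ, eq_ratCast]
    ring
  constructor
  · rintro ⟨x, hx, h0⟩
    set y := P'⁻¹.mulVec x with hy
    have hxy : P'.mulVec y = x := by
      rw [hy, Matrix.mulVec_mulVec, Matrix.mul_nonsing_inv _ (isUnit_iff_ne_zero.2 hdet),
        Matrix.one_mulVec]
    refine ⟨y 0, y 1, y 2, ?_, ?_⟩
    · by_contra hcon
      push Not at hcon
      apply hx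
      have : y = 0 := by
        ext i
        fin_cases i
        · exact hcon.1
        · exact hcon.2.1
        · exact hcon.2.2
      rw [← hxy, this, Matrix.mulVec_zero]
    · rw [← key y, hxy]; exact h0
  · rintro ⟨x, y, z, h1, h2⟩
    refine ⟨P'.mulVec ![x, y, z], ?_, ?_⟩
    · intro h0
      have : ![x, y, z] = 0 := by
        have h3 := congrArg (P'⁻¹.mulVec) h0
        rw [Matrix.mulVec_mulVec, Matrix.nonsing_inv_mul _ (isUnit_iff_ne_zero.2 hdet),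
          Matrix.one_mulVec, Matrix.mulVec_zero] at h3
        exact h3
      have e0 := congrFun this 0
      have e1 := congrFun this 1
      have e2 := congrFun this 2
      simp at e0 e1 e2
      tauto
    · rw [key]
      simpa using h2

/-- diagonalisation -/
lemma exists_diag {G : Matrix (Fin 3) (Fin 3) ℚ} (hs : G.IsSymm) (hG : G.det ≠ 0) :
    ∃ (P : Matrix (Fin 3) (Fin 3) ℚ) (d : Fin 3 → ℚ), P.det ≠ 0 ∧ (∀ i, d i ≠ 0) ∧
      P.transpose * G * P = Matrix.diagonal d := by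
  have : Invertible (2 : ℚ) := invertibleOfNonzero two_ne_zero
  set Bf : LinearMap.BilinForm ℚ (Fin 3 → ℚ) := Matrix.toBilin' G with hB
  have hBs : LinearMap.IsSymm Bf := by
    refine ⟨fun x y => ?_⟩
    simp only [hB, Matrix.toBilin'_apply', RingHom.id_apply]
    rw [Matrix.dotProduct_mulVec, ← Matrix.mulVec_transpose, hs.eq, dotProduct_comm]
  obtain ⟨v, hv⟩ := LinearMap.BilinForm.exists_orthogonal_basis hBs
  have hf : Module.finrank ℚ (Fin 3 → ℚ) = 3 := Module.finrank_fin_fun ℚ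
  set w : Module.Basis (Fin 3) ℚ (Fin 3 → ℚ) := v.reindex (finCongr hf) with hw
  set P : Matrix (Fin 3) (Fin 3) ℚ := Matrix.of fun i j => w j i with hP
  have hcol : ∀ j, P.col j = w j := fun j => rfl
  have hent : ∀ i j, (P.transpose * G * P) i j = Bf (w i) (w j) := by
    intro i j
    rw [hB, Matrix.toBilin'_apply']
    rw [Matrix.mul_assoc, Matrix.mul_apply]
    simp only [dotProduct, Matrix.transpose_apply, Matrix.mul_apply, Matrix.mulVec]
    rfl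
  have hortho : ∀ i j, i ≠ j → Bf (w i) (w j) = 0 := by
    intro i j hij
    rw [hw]
    simp only [Module.Basis.reindex_apply]
    exact hv (by
      intro h
      exact hij ((finCongr hf).symm.injective h))
  have hdiag : P.transpose * G * P = Matrix.diagonal fun i => Bf (w i) (w i) := by
    ext i j
    rw [hent]
    by_cases hij : i = j
    · subst hij; simp
    · rw [hortho i j hij, Matrix.diagonal_apply_ne _ hij]
  have hPdet : P.det ≠ 0 := by
    have hP2 : P = (Pi.basisFun ℚ (Fin 3)).toMatrix w := by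
      ext i j
      rw [Module.Basis.toMatrix_apply]
      simp [hP]
    rw [hP2]
    exact Matrix.det_ne_zero_of_right_inverse
      (Module.Basis.toMatrix_mul_toMatrix_flip (Pi.basisFun ℚ (Fin 3)) w)
  refine ⟨P, fun i => Bf (w i) (w i), hPdet, ?_, hdiag⟩
  have hd := congrArg Matrix.det hdiag
  rw [Matrix.det_mul, Matrix.det_mul, Matrix.det_transpose, Matrix.det_diagonal] at hd
  intro i hi
  have : ∏ i, Bf (w i) (w i) = 0 := Finset.prod_eq_zero (Finset.mem_univ i) hi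
  rw [this] at hd
  exact (mul_ne_zero (mul_ne_zero hPdet hG) hPdet) hd

/-- integer coefficients -/
lemma same_int {G : Matrix (Fin 3) (Fin 3) ℚ} {a b c : ℚ} (ha : a ≠ 0) (hb : b ≠ 0) (hc : c ≠ 0)
    (h : Same G a b c) : ∃ a' b' c' : ℤ, a' ≠ 0 ∧ b' ≠ 0 ∧ c' ≠ 0 ∧ Same G a' b' c' := by
  have key : ∀ q : ℚ, ((q.num * q.den : ℤ) : ℚ) = q * (q.den : ℚ) ^ 2 := by
    intro q
    have hd : (q.den : ℚ) ≠ 0 := by exact_mod_cast q.den_nz
    have : (q.num : ℚ) = q * q.den := (Rat.mul_den_eq_num q).symm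
    push_cast
    rw [this]; ring
  refine ⟨a.num * a.den, b.num * b.den, c.num * c.den, ?_, ?_, ?_, ?_⟩
  · exact mul_ne_zero (Rat.num_ne_zero.2 ha) (by exact_mod_cast a.den_nz)
  · exact mul_ne_zero (Rat.num_ne_zero.2 hb) (by exact_mod_cast b.den_nz)
  · exact mul_ne_zero (Rat.num_ne_zero.2 hc) (by exact_mod_cast c.den_nz)
  · intro K _ _
    rw [h K, key a, key b, key c]
    have hA : ((a.den : ℚ) : K) ≠ 0 := by
      have : (a.den : ℚ) ≠ 0 := by exact_mod_cast a.den_nz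
      exact_mod_cast this
    have hB : ((b.den : ℚ) : K) ≠ 0 := by
      have : (b.den : ℚ) ≠ 0 := by exact_mod_cast b.den_nz
      exact_mod_cast this
    have hC : ((c.den : ℚ) : K) ≠ 0 := by
      have : (c.den : ℚ) ≠ 0 := by exact_mod_cast c.den_nz
      exact_mod_cast this
    simp only [Rat.cast_mul, Rat.cast_pow]
    rw [iso_sq hA, isoD_rot (a := (a : K)) (b := (b : K) * _), iso_sq hB,
      isoD_rot (a := (b : K)) (b := (c : K) * _), iso_sq hC, isoD_rot (a := (c : K))]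

/-- rotation -/
lemma same_rot {G : Matrix (Fin 3) (Fin 3) ℚ} {a b c : ℚ} (h : Same G a b c) : Same G b c a :=
  fun K _ _ => (h K).trans isoD_rot

/-- reduction to pairwise coprime squarefree integers -/
lemma same_min {G : Matrix (Fin 3) (Fin 3) ℚ} {a b c : ℤ} (ha : a ≠ 0) (hb : b ≠ 0) (hc : c ≠ 0)
    (h : Same G a b c) : ∃ a b c : ℤ, Squarefree a.natAbs ∧ Squarefree b.natAbs ∧
      Squarefree c.natAbs ∧ Nat.Coprime a.natAbs b.natAbs ∧ Nat.Coprime b.natAbs c.natAbs ∧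
      Nat.Coprime c.natAbs a.natAbs ∧ Same G a b c := by
  -- induction on the size of the product
  obtain ⟨n, hn⟩ : ∃ n, (a * b * c).natAbs = n := ⟨_, rfl⟩
  induction n using Nat.strong_induction_on generalizing a b c with
  | _ n ih =>
    -- a square factor can be removed
    have sqf : ∀ a b c : ℤ, a ≠ 0 → b ≠ 0 → c ≠ 0 → Same G a b c → (a * b * c).natAbs = n →
        Squarefree a.natAbs ∨ ∃ a b c : ℤ, Squarefree a.natAbs ∧ Squarefree b.natAbs ∧
          Squarefree c.natAbs ∧ Nat.Coprime a.natAbs b.natAbs ∧ Nat.Coprime b.natAbs c.natAbs ∧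
          Nat.Coprime c.natAbs a.natAbs ∧ Same G a b c := by
      intro a b c ha hb hc h hn
      by_cases hsq : Squarefree a.natAbs
      · exact Or.inl hsq
      · right
        rw [Squarefree] at hsq
        push Not at hsq
        obtain ⟨x, hx, hxu⟩ := hsq
        have hxd : ((x * x : ℕ) : ℤ) ∣ a := Int.natCast_dvd.2 hx
        obtain ⟨a', ha'⟩ := hxd
        have hx0 : x ≠ 0 := by
          rintro rfl
          simp at ha'; exact ha ha'
        have ha'0 : a' ≠ 0 := by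
          rintro rfl
          simp at ha'; exact ha ha'
        have hx1 : 1 < x := by
          rcases Nat.lt_or_ge 1 x with h' | h'
          · exact h'
          · exfalso
            interval_cases x
            · exact hx0 rfl
            · exact hxu isUnit_one
        refine ih (a' * b * c).natAbs ?_ ha'0 hb hc ?_ rfl
        · rw [← hn, ha']
          have e : ((x * x : ℕ) : ℤ) * a' * b * c = ((x * x : ℕ) : ℤ) * (a' * b * c) := by ring
          rw [e, Int.natAbs_mul ((x * x : ℕ) : ℤ), Int.natAbs_natCast]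
          have hpos : 0 < (a' * b * c).natAbs := Int.natAbs_pos.2 (mul_ne_zero (mul_ne_zero ha'0 hb) hc)
          have : 1 < x * x := by nlinarith
          nlinarith
        · intro K _ _
          rw [h K, ha']
          have hxK : (x : K) ≠ 0 := by exact_mod_cast hx0
          have e : (((((x * x : ℕ) : ℤ) * a' : ℤ) : ℚ) : K) = ((a' : ℚ) : K) * (x : K) ^ 2 := by
            push_cast; ring
          rw [e, iso_sq hxK]
    -- a common factor can be removed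
    have cop : ∀ a b c : ℤ, a ≠ 0 → b ≠ 0 → c ≠ 0 → Same G a b c → (a * b * c).natAbs = n →
        Nat.Coprime a.natAbs b.natAbs ∨ ∃ a b c : ℤ, Squarefree a.natAbs ∧ Squarefree b.natAbs ∧
          Squarefree c.natAbs ∧ Nat.Coprime a.natAbs b.natAbs ∧ Nat.Coprime b.natAbs c.natAbs ∧
          Nat.Coprime c.natAbs a.natAbs ∧ Same G a b c := by
      intro a b c ha hb hc h hn
      by_cases hcop : Nat.Coprime a.natAbs b.natAbs
      · exact Or.inl hcop
      · right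
        obtain ⟨p, hp, hpa, hpb⟩ := Nat.Prime.not_coprime_iff_dvd.1 hcop
        obtain ⟨a', rfl⟩ := (Int.natCast_dvd.2 hpa : (p : ℤ) ∣ a)
        obtain ⟨b', rfl⟩ := (Int.natCast_dvd.2 hpb : (p : ℤ) ∣ b)
        have ha' : a' ≠ 0 := right_ne_zero_of_mul ha
        have hb' : b' ≠ 0 := right_ne_zero_of_mul hb
        have hp0 : (p : ℤ) ≠ 0 := by exact_mod_cast hp.ne_zero
        refine ih (a' * b' * (p * c)).natAbs ?_ ha' hb' (mul_ne_zero hp0 hc) ?_ rfl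
        · rw [← hn]
          have e : (p : ℤ) * a' * (p * b') * c = (p : ℤ) * (a' * b' * (p * c)) := by ring
          rw [e, Int.natAbs_mul (p : ℤ), Int.natAbs_natCast]
          have hpos : 0 < (a' * b' * (p * c)).natAbs :=
            Int.natAbs_pos.2 (mul_ne_zero (mul_ne_zero ha' hb') (mul_ne_zero hp0 hc))
          have := hp.one_lt
          nlinarith
        · intro K _ _
          rw [h K]
          have hpK : (p : K) ≠ 0 := by exact_mod_cast hp.ne_zero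
          have := iso_red (K := K) hpK (a := ((a' : ℚ) : K)) (b := ((b' : ℚ) : K))
            (c := ((c : ℚ) : K))
          push_cast at this ⊢
          exact this
    rcases sqf a b c ha hb hc h hn with h1 | h1
    · rcases sqf b c a hb hc ha (same_rot h) (by rw [← hn]; ring_nf) with h2 | h2
      · rcases sqf c a b hc ha hb (same_rot (same_rot h)) (by rw [← hn]; ring_nf) with h3 | h3
        · rcases cop a b c ha hb hc h hn with h4 | h4
          · rcases cop b c a hb hc ha (same_rot h) (by rw [← hn]; ring_nf) with h5 | h5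
            · rcases cop c a b hc ha hb (same_rot (same_rot h)) (by rw [← hn]; ring_nf) with h6 | h6
              · exact ⟨a, b, c, h1, h2, h3, h4, h5, h6, h⟩
              · exact h6
            · exact h5
          · exact h4
        · exact h3
      · exact h2
    · exact h1

/-- **Reciprocity**: a nondegenerate ternary form over `ℚ` is anisotropic at an even number of
places. -/
theorem ternary {G : Matrix (Fin 3) (Fin 3) ℚ} (hs : G.IsSymm) (hG : G.det ≠ 0) :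
    {p : ℕ | ∃ _ : Fact p.Prime, ¬ ∃ x : Fin 3 → ℚ_[p], x ≠ 0 ∧
      x ⬝ᵥ (G.map (Rat.castHom ℚ_[p])).mulVec x = 0}.Finite ∧
    Even ({p : ℕ | ∃ _ : Fact p.Prime, ¬ ∃ x : Fin 3 → ℚ_[p], x ≠ 0 ∧
      x ⬝ᵥ (G.map (Rat.castHom ℚ_[p])).mulVec x = 0}.ncard +
      if ∃ x : Fin 3 → ℝ, x ≠ 0 ∧ x ⬝ᵥ (G.map (Rat.castHom ℝ)).mulVec x = 0 then 0 else 1) := by
  obtain ⟨P, d, hP, hd, hdiag⟩ := exists_diag hs hG
  obtain ⟨a, b, c, ha, hb, hc, h⟩ := same_int (hd 0) (hd 1) (hd 2) (same_of_diag hP hdiag)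
  obtain ⟨a, b, c, h1, h2, h3, h4, h5, h6, h⟩ := same_min ha hb hc h
  have key := par_all h1 h2 h3 h4 h5 h6
  have hset : {p : ℕ | ∃ _ : Fact p.Prime, ¬ ∃ x : Fin 3 → ℚ_[p], x ≠ 0 ∧
      x ⬝ᵥ (G.map (Rat.castHom ℚ_[p])).mulVec x = 0} = badS a b c := by
    ext p
    constructor
    · rintro ⟨hp, h'⟩
      refine ⟨hp, fun h'' => h' ((h ℚ_[p]).2 ?_)⟩
      simpa using h''
    · rintro ⟨hp, h'⟩
      refine ⟨hp, fun h'' => h' ?_⟩
      simpa using (h ℚ_[p]).1 h''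
  have hreal : (∃ x : Fin 3 → ℝ, x ≠ 0 ∧ x ⬝ᵥ (G.map (Rat.castHom ℝ)).mulVec x = 0) ↔
      IsoD ℝ (a : ℝ) b c := by
    rw [h ℝ]; simp
  rw [hset]
  refine ⟨key.1, ?_⟩
  by_cases hi : IsoD ℝ (a : ℝ) b c
  · rw [if_pos (hreal.2 hi)]
    have := key.2
    rwa [if_pos hi] at this
  · rw [if_neg (fun h' => hi (hreal.1 h'))]
    have := key.2
    rwa [if_neg hi] at this

/-- The Gram matrix of the form `cf 2 (α ξ^2)`, `α = x + y θ + z θ^2`. -/
def gram (A B : ℤ) (x y z : ℚ) : Matrix (Fin 3) (Fin 3) ℚ :=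
  !![z, y, x - A * z; y, x - A * z, -B * z - A * y; x - A * z, -B * z - A * y,
    -B * y - A * (x - A * z)]

lemma gram_symm (A B : ℤ) (x y z : ℚ) : (gram A B x y z).IsSymm := by
  ext i j
  fin_cases i <;> fin_cases j <;> rfl

lemma iso_gram (hCOO : SpecCOO) {A B : ℤ} (x y z : ℚ) (K : Type) [Field K] [CharZero K] :
    Iso (up A B K (el A B x y z)) ↔ ∃ v : Fin 3 → K, v ≠ 0 ∧
      v ⬝ᵥ ((gram A B x y z).map (Rat.castHom K)).mulVec v = 0 := by
  have hup : up A B K (el A B x y z) = el A B (x : K) (y : K) (z : K) := by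
    unfold up
    rw [hCOO.upv]
    simp
  have hval : ∀ v : Fin 3 → K, cf 2 (el A B (x : K) (y : K) (z : K) *
      (el A B (v 0) (v 1) (v 2)) ^ 2) =
      v ⬝ᵥ ((gram A B x y z).map (Rat.castHom K)).mulVec v := by
    intro v
    rw [sq, hCOO.mul, hCOO.mul, (hCOO.co _ _ _).2.2]
    simp only [dotProduct, Matrix.mulVec, Fin.sum_univ_three, gram, Matrix.map_apply, Matrix.of_apply,
      Matrix.cons_val', Matrix.cons_val_zero, Matrix.cons_val_one,
      Matrix.cons_val_fin_one, Matrix.cons_val, eq_ratCast]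
    push_cast
    ring
  rw [hup]
  constructor
  · rintro ⟨ξ, hξ, h0⟩
    refine ⟨![cf 0 ξ, cf 1 ξ, cf 2 ξ], ?_, ?_⟩
    · intro h
      apply hξ
      have e0 := congrFun h 0
      have e1 := congrFun h 1
      have e2 := congrFun h 2
      simp at e0 e1 e2
      rw [hCOO.ext ξ, e0, e1, e2]
      simp [el]
    · rw [← hval]
      have := hCOO.ext ξ
      simp only [Matrix.cons_val_zero, Matrix.cons_val_one, Matrix.cons_val]
      rw [← this]
      exact h0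
  · rintro ⟨v, hv, h0⟩
    refine ⟨el A B (v 0) (v 1) (v 2), ?_, ?_⟩
    · intro h
      apply hv
      have h0' : el A B (v 0) (v 1) (v 2) = el A B (0 : K) 0 0 := by
        rw [h]; simp [el]
      have c1 := hCOO.co (A := A) (B := B) (v 0) (v 1) (v 2)
      have c2 := hCOO.co (A := A) (B := B) (0 : K) 0 0
      ext i
      fin_cases i
      · exact c1.1.symm.trans (by rw [h0']; exact c2.1)
      · exact c1.2.1.symm.trans (by rw [h0']; exact c2.2.1)
      · exact c1.2.2.symm.trans (by rw [h0']; exact c2.2.2)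
    · rw [hval]; exact h0

end RecM

/-- **REC.** -/
theorem specREC (hCOO : SpecCOO) (hNRM : SpecNRM) : SpecREC := by
  intro A B α _ hα
  obtain ⟨hu, -⟩ := hα
  have hN : Algebra.norm ℚ α ≠ 0 := ((hNRM.unt α).1 hu).ne_zero
  rw [hCOO.ext α] at hN ⊢
  set x := cf 0 α
  set y := cf 1 α
  set z := cf 2 α
  have hdet : (RecM.gram A B x y z).det ≠ 0 := by
    have : (RecM.gram A B x y z).det = -Algebra.norm ℚ (el A B x y z) := by
      rw [hNRM.frm, RecM.gram, Matrix.det_fin_three]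
      simp only [Matrix.of_apply, Matrix.cons_val', Matrix.cons_val_zero, Matrix.cons_val_one,
        Matrix.cons_val, Matrix.cons_val_fin_one]
      ring
    rw [this]
    exact neg_ne_zero.2 hN
  have key := RecM.ternary (RecM.gram_symm A B x y z) hdet
  simp only [RecM.iso_gram hCOO]
  exact key

end Pool.Agent.Lib.MP_8cb858_nt.PR
end

section
/-!
# HSP: the product formula for Hilbert symbols over the rationals
-/
namespace Pool.Agent.Lib.MP_8cb858_nt.PF.RF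

open Matrix
open scoped Classical

namespace HSPM

lemma con_iff (K : Type) [Field K] [CharZero K] (a b : ℚ) :
    Con K (a : K) b ↔ ∃ x : Fin 3 → K, x ≠ 0 ∧
      x ⬝ᵥ ((diagonal ![a, b, -1] : Matrix (Fin 3) (Fin 3) ℚ).map (Rat.castHom K)).mulVec x = 0 := by
  have hval : ∀ x : Fin 3 → K,
      x ⬝ᵥ ((diagonal ![a, b, -1] : Matrix (Fin 3) (Fin 3) ℚ).map (Rat.castHom K)).mulVec x =
      (a : K) * x 0 ^ 2 + (b : K) * x 1 ^ 2 - x 2 ^ 2 := by
    intro x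
    simp only [dotProduct, mulVec, Fin.sum_univ_three, Matrix.map_apply, eq_ratCast]
    simp
    ring
  constructor
  · rintro ⟨x, y, z, h, e⟩
    refine ⟨![x, y, z], ?_, ?_⟩
    · intro h0
      have e0 := congrFun h0 0
      have e1 := congrFun h0 1
      have e2 := congrFun h0 2
      simp at e0 e1 e2
      tauto
    · rw [hval]
      simp only [cons_val_zero, cons_val_one, cons_val]
      rw [e, sub_self]
  · rintro ⟨x, hx, h0⟩
    rw [hval] at h0
    refine ⟨x 0, x 1, x 2, ?_, by linear_combination h0⟩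
    by_contra hcon
    push Not at hcon
    apply hx
    ext i
    fin_cases i
    · exact hcon.1
    · exact hcon.2.1
    · exact hcon.2.2

end HSPM

/-- **HSP.** -/
theorem specHSP : SpecHSP := by
  intro a b ha hb
  set G : Matrix (Fin 3) (Fin 3) ℚ := diagonal ![a, b, -1] with hG
  have hsym : G.IsSymm := by
    rw [hG]; exact isSymm_diagonal _
  have hdet : G.det ≠ 0 := by
    rw [hG, det_diagonal, Fin.prod_univ_three]
    simp only [cons_val_zero, cons_val_one, cons_val]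
    exact mul_ne_zero (mul_ne_zero ha hb) (by norm_num)
  obtain ⟨hfin, heven⟩ := PR.RecM.ternary hsym hdet
  set S : Set ℕ := {p : ℕ | ∃ _ : Fact p.Prime, ¬ ∃ x : Fin 3 → ℚ_[p], x ≠ 0 ∧
      x ⬝ᵥ (G.map (Rat.castHom ℚ_[p])).mulVec x = 0} with hS
  have hmem : ∀ p : Nat.Primes, (p : ℕ) ∈ S ↔ ¬ Con ℚ_[(p : ℕ)] (a : ℚ_[(p : ℕ)]) b := by
    intro p
    rw [hS, Set.mem_ofPred_eq]
    constructor
    · rintro ⟨_, h⟩ h'
      exact h ((HSPM.con_iff ℚ_[(p : ℕ)] a b).1 h')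
    · intro h
      exact ⟨factPrimes p, fun h' => h ((HSPM.con_iff ℚ_[(p : ℕ)] a b).2 h')⟩
  have hsval : ∀ p : Nat.Primes, hs ℚ_[(p : ℕ)] (a : ℚ_[(p : ℕ)]) b =
      if (p : ℕ) ∈ S then -1 else 1 := by
    intro p
    unfold hs
    by_cases h : (p : ℕ) ∈ S
    · rw [if_neg ((hmem p).1 h), if_pos h]
    · rw [if_pos (by by_contra h'; exact h ((hmem p).2 h')), if_neg h]
  have hsupp : (Function.mulSupport fun p : Nat.Primes => hs ℚ_[(p : ℕ)] (a : ℚ_[(p : ℕ)]) b) =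
      {p : Nat.Primes | (p : ℕ) ∈ S} := by
    ext p
    rw [Function.mem_mulSupport, hsval]
    change _ ↔ (p : ℕ) ∈ S
    by_cases h : (p : ℕ) ∈ S
    · rw [if_pos h]; simp [h]
    · rw [if_neg h]; simp [h]
  have hinj : Function.Injective (fun p : Nat.Primes => (p : ℕ)) := Subtype.val_injective
  have hfin' : {p : Nat.Primes | (p : ℕ) ∈ S}.Finite := hfin.preimage hinj.injOn
  refine ⟨by rw [hsupp]; exact hfin', ?_⟩
  have hcard : hfin'.toFinset.card = S.ncard := by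
    rw [← Set.ncard_eq_toFinset_card _ hfin']
    rw [← Set.ncard_image_of_injective _ hinj]
    congr 1
    ext p
    constructor
    · rintro ⟨q, hq, rfl⟩
      exact hq
    · intro hp
      obtain ⟨hpp, -⟩ := id hp
      exact ⟨⟨p, hpp.out⟩, hp, rfl⟩
  have hprod : (∏ᶠ p : Nat.Primes, hs ℚ_[(p : ℕ)] (a : ℚ_[(p : ℕ)]) b) = (-1) ^ S.ncard := by
    rw [finprod_eq_prod_of_mulSupport_subset (s := hfin'.toFinset) _ (by
      rw [hsupp]; simp)]
    rw [← hcard, ← Finset.prod_const]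
    apply Finset.prod_congr rfl
    intro p hp
    rw [hsval, if_pos (by simpa using hp)]
  have hreal : (∃ x : Fin 3 → ℝ, x ≠ 0 ∧ x ⬝ᵥ (G.map (Rat.castHom ℝ)).mulVec x = 0) ↔
      Con ℝ (a : ℝ) b := (HSPM.con_iff ℝ a b).symm
  rw [hprod]
  by_cases hc : Con ℝ (a : ℝ) b
  · rw [if_pos (hreal.2 hc)] at heven
    rw [hs_one_iff.2 hc, mul_one]
    exact Even.neg_one_pow (by simpa using heven)
  · rw [if_neg (fun h => hc (hreal.1 h))] at heven
    have : hs ℝ (a : ℝ) b = -1 := by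
      rcases hs_eq (a : ℝ) (b : ℝ) with h | h
      · exact absurd (hs_one_iff.1 h) hc
      · exact h
    rw [this, ← pow_succ]
    exact Even.neg_one_pow heven

end Pool.Agent.Lib.MP_8cb858_nt.PF.RF
end

section
/-!
# Reciprocity for ternary forms over number fields: all Specs without hypotheses
-/
namespace Pool.Agent.Lib.MP_8cb858_nt.PF.RF.All

universe u

theorem hHLP : SpecHLP := specHLP
theorem hHAS : SpecHAS := specHAS hHLP
theorem hHBR : SpecHBR := specHBR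
theorem hHBP : SpecHBP := specHBP
theorem hHB2 : SpecHB2 := specHB2
theorem hHSP : SpecHSP := specHSP
theorem hDIA : SpecDIA := specDIA
theorem hSQN : SpecSQN := specSQN
theorem hTRC : SpecTRC.{u} := specTRC
theorem hGLP : SpecGLP.{u} := specGLP hTRC hDIA hHAS hHBP hHB2 hHBR hHSP
theorem hPRJ : SpecPRJ.{u} := specPRJ hDIA hHLP hHAS hGLP
theorem hPER : SpecPER := specPER hDIA hHAS hHLP
theorem hLOG : SpecLOG.{u} := specLOG hPER hTRC
theorem hDNF : SpecDNF.{u} := specDNF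
theorem hTRF : SpecTRF.{u} := specTRF
theorem hTRI : SpecTRI.{u} := specTRI
theorem hLOC : SpecLOC.{u} := specLOC hLOG hDNF hTRF hTRI hHBP hHB2 hHBR hSQN
theorem hISO : SpecISO.{u} := specISO
theorem hSQV : SpecSQV.{u} := specSQV
theorem hANI : SpecANI.{u} := specANI
theorem hNRM : SpecNRM.{u} := specNRM

/-- Reciprocity for ternary forms over number fields. -/
theorem hRECF : SpecRECF.{u} :=
  specRECF hHBP hHB2 hHBR hGLP hPRJ hLOC hISO hSQV hANI hNRM

end Pool.Agent.Lib.MP_8cb858_nt.PF.RF.All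
end
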