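import Mathlib

/-!
# Reciprocity for ternary forms over number fields: definitions

* `Con K a b` : the conic `a x^2 + b y^2 = z^2` has a point over `K`; `hs K a b = 1` or `-1` the
  Hilbert symbol; `Bi K` : the symbol is bimultiplicative.
* `hl K l` : the Hasse invariant of the diagonal form with coefficients `l` (a list),
  `hf K d` the same for a family `d : ι → K`.
* `Diag G d` : the symmetric matrix `G` is congruent to `diag(d)`, all `d i ≠ 0`;
  `hM K G` : the Hasse invariant of a diagonalization of `G`.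
* `IsoM A` : the ternary form with matrix `A` has a nontrivial zero.
* `J3` : the matrix of the ternary form `2 x z + y^2`; `D3 a b = diag(a, b, -ab)`.
* `GT A` : the matrix of the quadratic form `x ↦ Tr_{F/ℚ}(x^T A x)` on `F^3`, a rational vector
  space of dimension `3 [F : ℚ]`.
-/

namespace Pool.Agent.Lib.MP_8cb858_nt.PF.RF

open Matrix

universe u

instance factPrimes (p : Nat.Primes) : Fact (p : ℕ).Prime := ⟨p.2⟩

/-- The conic `a x^2 + b y^2 = z^2` has a point. -/
def Con (K : Type*) [Field K] (a b : K) : Prop :=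
  ∃ x y z : K, (x ≠ 0 ∨ y ≠ 0 ∨ z ≠ 0) ∧ a * x ^ 2 + b * y ^ 2 = z ^ 2

open scoped Classical in
/-- The Hilbert symbol. -/
noncomputable def hs (K : Type*) [Field K] (a b : K) : ℤ := if Con K a b then 1 else -1

/-- The symbol is bimultiplicative. -/
def Bi (K : Type*) [Field K] : Prop :=
  ∀ a a' b : K, a ≠ 0 → a' ≠ 0 → b ≠ 0 → hs K (a * a') b = hs K a b * hs K a' b

/-- The Hasse invariant `∏_{i<j} (a_i, a_j)` of a diagonal form, written
`(a_1, a_2 ... a_n) (a_2, a_3 ... a_n) ...`. -/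
noncomputable def hl (K : Type*) [Field K] : List K → ℤ
  | [] => 1
  | a :: l => hs K a l.prod * hl K l

/-- The Hasse invariant of a diagonal form with coefficients `d i`, `i : ι`. -/
noncomputable def hf (K : Type*) [Field K] {ι : Type*} [Fintype ι] (d : ι → K) : ℤ :=
  hl K (Finset.univ.toList.map d)

/-- `G` is congruent to the nondegenerate diagonal matrix `diag(d)`. -/
def Diag {K : Type*} [Field K] {ι : Type*} [Fintype ι] [DecidableEq ι] (G : Matrix ι ι K)
    (d : ι → K) : Prop :=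
  (∀ i, d i ≠ 0) ∧ ∃ P : Matrix ι ι K, P.det ≠ 0 ∧ Pᵀ * G * P = diagonal d

open scoped Classical in
/-- The Hasse invariant of a symmetric matrix. -/
noncomputable def hM (K : Type*) [Field K] {ι : Type*} [Fintype ι] [DecidableEq ι]
    (G : Matrix ι ι K) : ℤ :=
  if h : ∃ d : ι → K, Diag G d then hf K h.choose else 1

/-- The ternary form with matrix `A` has a nontrivial zero. -/
def IsoM {K : Type*} [Field K] (A : Matrix (Fin 3) (Fin 3) K) : Prop :=
  ∃ x : Fin 3 → K, x ≠ 0 ∧ x ⬝ᵥ A.mulVec x = 0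

/-- Congruence of ternary forms. -/
def Cg {K : Type*} [Field K] (A B : Matrix (Fin 3) (Fin 3) K) : Prop :=
  ∃ P : Matrix (Fin 3) (Fin 3) K, P.det ≠ 0 ∧ Pᵀ * A * P = B

/-- The matrix of `2 x z + y^2`. -/
def J3 (K : Type*) [Field K] : Matrix (Fin 3) (Fin 3) K := !![0, 0, 1; 0, 1, 0; 1, 0, 0]

/-- The matrix `diag(a, b, -ab)`. -/
def D3 {K : Type*} [Field K] (a b : K) : Matrix (Fin 3) (Fin 3) K := diagonal ![a, b, -(a * b)]

/-- The matrix of the trace form of `x^T A x`. -/
noncomputable def GT {F : Type*} [Field F] [NumberField F] (A : Matrix (Fin 3) (Fin 3) F) :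
    Matrix (Fin 3 × Fin (Module.finrank ℚ F)) (Fin 3 × Fin (Module.finrank ℚ F)) ℚ :=
  fun x y => Algebra.trace ℚ F
    (Module.finBasis ℚ F x.2 * (A x.1 y.1 * Module.finBasis ℚ F y.2))

/-- The Hasse invariant over `K` of the trace form. -/
noncomputable def hT (K : Type*) [Field K] [CharZero K] {F : Type*} [Field F] [NumberField F]
    (A : Matrix (Fin 3) (Fin 3) F) : ℤ :=
  hM K ((GT A).map (Rat.castHom K))

/-! ## Elementary properties of congruence -/

section congr

variable {K : Type*} [Field K]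

lemma Cg.symm {A B : Matrix (Fin 3) (Fin 3) K} (h : Cg A B) : Cg B A := by
  obtain ⟨P, hP, h⟩ := h
  have hu : IsUnit P.det := isUnit_iff_ne_zero.2 hP
  refine ⟨P⁻¹, ?_, ?_⟩
  · intro h0
    have h1 := congrArg det (mul_nonsing_inv P hu)
    rw [det_mul, h0, mul_zero, det_one] at h1
    exact zero_ne_one h1
  · rw [← h, transpose_nonsing_inv]
    calc (Pᵀ)⁻¹ * (Pᵀ * A * P) * P⁻¹ = ((Pᵀ)⁻¹ * Pᵀ) * A * (P * P⁻¹) := by
          simp only [Matrix.mul_assoc]
      _ = A := by
          rw [nonsing_inv_mul _ (by rwa [det_transpose]), mul_nonsing_inv _ hu, one_mul, mul_one]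

lemma Cg.trans {A B C : Matrix (Fin 3) (Fin 3) K} (h : Cg A B) (h' : Cg B C) : Cg A C := by
  obtain ⟨P, hP, h⟩ := h
  obtain ⟨Q, hQ, h'⟩ := h'
  refine ⟨P * Q, ?_, ?_⟩
  · rw [det_mul]; exact mul_ne_zero hP hQ
  · rw [← h', ← h, transpose_mul]; simp only [Matrix.mul_assoc]

end congr

/-! ## Elementary properties of the symbol -/

section symbol

variable {K : Type*} [Field K]

lemma hs_sq (a b : K) : hs K a b * hs K a b = 1 := by
  unfold hs; split_ifs <;> norm_num

lemma hs_eq (a b : K) : hs K a b = 1 ∨ hs K a b = -1 := by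
  unfold hs; split_ifs
  · exact Or.inl rfl
  · exact Or.inr rfl

lemma hs_ne (a b : K) : hs K a b ≠ 0 := by
  rcases hs_eq a b with h | h <;> rw [h] <;> norm_num

lemma hs_one_iff {a b : K} : hs K a b = 1 ↔ Con K a b := by
  unfold hs; split_ifs with h
  · simp [h]
  · simp [h]

lemma con_comm {a b : K} : Con K a b ↔ Con K b a := by
  constructor <;> rintro ⟨x, y, z, h, e⟩ <;>
  exact ⟨y, x, z, by tauto, by rw [add_comm]; exact e⟩

lemma hs_congr {a b a' b' : K} (h : Con K a b ↔ Con K a' b') : hs K a b = hs K a' b' := by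
  unfold hs
  by_cases h' : Con K a b
  · rw [if_pos h', if_pos (h.1 h')]
  · rw [if_neg h', if_neg (fun h'' => h' (h.2 h''))]

lemma hs_comm (a b : K) : hs K a b = hs K b a := hs_congr con_comm

lemma con_one_right (a : K) : Con K a 1 :=
  ⟨0, 1, 1, by simp, by simp⟩

lemma hs_one_right (a : K) : hs K a 1 = 1 := hs_one_iff.2 (con_one_right a)

lemma hs_one_left (b : K) : hs K 1 b = 1 := by rw [hs_comm]; exact hs_one_right b

/-- `(a, -a) = 1` -/
lemma hs_neg (a : K) : hs K a (-a) = 1 := hs_one_iff.2 ⟨1, 1, 0, by simp, by ring⟩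

lemma con_mul_sq {a b c : K} (hc : c ≠ 0) : Con K (a * c ^ 2) b ↔ Con K a b := by
  constructor
  · rintro ⟨x, y, z, h, e⟩
    refine ⟨c * x, y, z, ?_, by linear_combination e⟩
    rcases h with h | h | h
    · exact Or.inl (mul_ne_zero hc h)
    · exact Or.inr (Or.inl h)
    · exact Or.inr (Or.inr h)
  · rintro ⟨x, y, z, h, e⟩
    refine ⟨x / c, y, z, ?_, by field_simp; exact e⟩
    rcases h with h | h | h
    · exact Or.inl (div_ne_zero h hc)
    · exact Or.inr (Or.inl h)
    · exact Or.inr (Or.inr h)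

lemma hs_mul_sq {a b c : K} (hc : c ≠ 0) : hs K (a * c ^ 2) b = hs K a b :=
  hs_congr (con_mul_sq hc)

lemma hs_mul_sq_right {a b c : K} (hc : c ≠ 0) : hs K a (b * c ^ 2) = hs K a b := by
  rw [hs_comm, hs_mul_sq hc, hs_comm]

lemma Bi.right (h : Bi K) {a b b' : K} (ha : a ≠ 0) (hb : b ≠ 0) (hb' : b' ≠ 0) :
    hs K a (b * b') = hs K a b * hs K a b' := by
  rw [hs_comm, h b b' a hb hb' ha, hs_comm b a, hs_comm b' a]

end symbol

end Pool.Agent.Lib.MP_8cb858_nt.PF.RF
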